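import Mathlib
import Pool.Agent.Lib.MP_6d896a_gt.UR.Defs

/-!
Project UD (the Kannan-Lovasz-Simonovits inequality for log-concave measures invariant under
isometries of finite order which move at most `d` dimensions): definitions.
-/

set_option autoImplicit false

namespace Pool.Agent.Lib.MP_6d896a_gt.UC.UR.UD

open MeasureTheory Filter Topology Set
open scoped ENNReal NNReal ContDiff

variable {n : ℕ}

/-- length of the projection onto the span of the coordinates in `J` -/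
noncomputable def rr (J : Finset (Fin n)) (x : Eu n) : ℝ := Real.sqrt (∑ j ∈ J, x j ^ 2)

/-- dilation of the coordinates in `J` -/
noncomputable def Dl (J : Finset (Fin n)) (t : ℝ) (x : Eu n) : Eu n :=
  WithLp.toLp 2 (fun j => if j ∈ J then t * x j else x j)

/-- cut-off weight -/
noncomputable def ch (J : Finset (Fin n)) (R : ℝ) (x : Eu n) : ℝ :=
  Real.exp (-(rr J x ^ 2 / (2 * R ^ 2)))

/-- isometries of finite order which fix the coordinates outside `J` and have no fixed vector in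
the span of the coordinates in `J` -/
structure Sy (J : Finset (Fin n)) (Γ : Eu n ≃ₗᵢ[ℝ] Eu n) (q : ℕ) : Prop where
  qpos : 0 < q
  per : ∀ x, (⇑Γ)^[q] x = x
  fix : ∀ x, ∀ j, j ∉ J → (Γ x) j = x j
  sum : ∀ x, ∀ j ∈ J, ∑ k ∈ Finset.range q, ((⇑Γ)^[k] x) j = 0

/-- invariant functions -/
def Inv (Γ : Eu n ≃ₗᵢ[ℝ] Eu n) (f : Eu n → ℝ) : Prop := ∀ x, f (Γ x) = f x

/-- balanced functions: the mean over the orbits is zero -/
def Bal (Γ : Eu n ≃ₗᵢ[ℝ] Eu n) (q : ℕ) (f : Eu n → ℝ) : Prop :=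
  ∀ x, ∑ k ∈ Finset.range q, f ((⇑Γ)^[k] x) = 0

/-- the class of families in the iteration -/
structure Fam (Γ : Eu n ≃ₗᵢ[ℝ] Eu n) (q p : ℕ) (v : Fin p → Eu n → ℝ) : Prop where
  tt : ∀ a, TT (v a)
  bal : ∀ a, Bal Γ q (v a)
  inv : ∀ x, ∑ a, v a (Γ x) ^ 2 = ∑ a, v a x ^ 2

/-- length of a family -/
noncomputable def nv {p : ℕ} (v : Fin p → Eu n → ℝ) (x : Eu n) : ℝ :=
  Real.sqrt (∑ a, v a x ^ 2)

/-- smoothed length of a family -/
noncomputable def gg {p : ℕ} (η : ℝ) (v : Fin p → Eu n → ℝ) (x : Eu n) : ℝ :=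
  Real.sqrt (∑ a, v a x ^ 2 + η ^ 2) - η

/-- square norm of a family -/
noncomputable def EE {p : ℕ} (V : Eu n → ℝ) (v : Fin p → Eu n → ℝ) : ℝ :=
  ∑ a, Ex V (fun x => v a x ^ 2)

/-- energy of a family -/
noncomputable def DD {p : ℕ} (V : Eu n → ℝ) (v : Fin p → Eu n → ℝ) : ℝ :=
  ∑ a, Df V (v a) (v a)

/-- square norm of a family with the cut-off weight -/
noncomputable def CC {p : ℕ} (V : Eu n → ℝ) (J : Finset (Fin n)) (R : ℝ)
    (v : Fin p → Eu n → ℝ) : ℝ := ∑ a, Ex V (fun x => v a x ^ 2 * ch J R x)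

/-- energy excess of a family -/
noncomputable def SS {p : ℕ} (V : Eu n → ℝ) (l : ℝ) (v : Fin p → Eu n → ℝ) : ℝ :=
  DD V v - l * EE V v + l * (Ex V (nv v)) ^ 2

/-- the family of partial derivatives in the directions of `J` -/
noncomputable def nx (J : Finset (Fin n)) (u : Eu n → ℝ) : Fin n → Eu n → ℝ :=
  fun m => if m ∈ J then pd m u else fun _ => 0

/-- iterated radial integrals of the density -/
noncomputable def Uk (V : Eu n → ℝ) (J : Finset (Fin n)) : ℕ → Eu n → ℝ≥0∞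
  | 0, x => ENNReal.ofReal (Real.exp (-V x))
  | k + 1, x => ENNReal.ofReal (rr J x) *
      ∫⁻ t in Ioi (1 : ℝ), ENNReal.ofReal (t ^ (J.card - 1)) * Uk V J k (Dl J t x)

/-- weighted means over the far zone -/
noncomputable def Fk (V : Eu n → ℝ) (J : Finset (Fin n)) (R : ℝ) (k : ℕ) (f : Eu n → ℝ) : ℝ :=
  (∫⁻ x in {x : Eu n | R ≤ rr J x}, ENNReal.ofReal |f x| * Uk V J k x).toReal

/-- the bound for the weights -/
noncomputable def QQ (J : Finset (Fin n)) (S : ℝ) (k : ℕ) : ℝ :=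
  10 ^ 6 * (J.card : ℝ) ^ 4 * S * (8192 * (J.card : ℝ) * S) ^ k

/-- the space moved by an isometry -/
noncomputable def Rg (γ : Eu n ≃ₗᵢ[ℝ] Eu n) : Submodule ℝ (Eu n) :=
  LinearMap.range (γ.toLinearEquiv.toLinearMap - LinearMap.id)

/-- isometries of finite order which move at most `d` dimensions -/
def Sd (d : ℕ) (γ : Eu n ≃ₗᵢ[ℝ] Eu n) : Prop :=
  (∃ q : ℕ, 0 < q ∧ ∀ x, (⇑γ)^[q] x = x) ∧ Module.finrank ℝ (Rg γ) ≤ d

end Pool.Agent.Lib.MP_6d896a_gt.UC.UR.UD
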