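import Mathlib
import Pool.Agent.Lib.MP_6d896a_gt.UD.Defs
import Pool.Agent.Lib.MP_6d896a_gt.UR.AbsorbR

/-!
Project UD, piece D10: absorption (pure real analysis), reduced to `UR.absorbR`.
-/

set_option autoImplicit false

namespace Pool.Agent.Lib.MP_6d896a_gt.UC.UR.UD

open MeasureTheory Filter Topology Set

private lemma absorbD_split (r : ℝ) (F : ℕ → ℝ) {i m : ℕ} (him : i < m) :
    ∑ j ∈ Finset.Ico i m, r ^ (j - i) * F j =
      F i + r * ∑ j ∈ Finset.Ico (i + 1) m, r ^ (j - (i + 1)) * F j := by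
  rw [Finset.sum_eq_sum_Ico_succ_bot him, Nat.sub_self, pow_zero, one_mul, Finset.mul_sum]
  congr 1
  refine Finset.sum_congr rfl fun j hj => ?_
  have h1 : j - i = (j - (i + 1)) + 1 := by
    have := (Finset.mem_Ico.1 hj).1
    omega
  rw [h1, pow_succ]
  ring

/-- the combinatorial step: elimination of the `b j` -/
private lemma absorbD_step {δ N' : ℝ} (hδ0 : 0 < δ) (hN : 0 ≤ N') (m : ℕ) (b X : ℕ → ℝ)
    (hb0 : ∀ j, 0 ≤ b j) (hX0 : ∀ j, 0 ≤ X j) (hb : ∀ j, j < m → b j ≤ δ * (b (j + 1) + 2 * X j))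
    (hbm : b m ≤ N') (i : ℕ) (hi : i ≤ m) :
    b i + ∑ j ∈ Finset.Ico i m, δ ^ (j - i) * (b j + δ * (b (j + 1) + X j)) +
        δ ^ (m - i) * N' ≤
      5 / 2 * (∑ j ∈ Finset.Ico i m, (2 * δ) ^ (j - i) * ((2 * δ) * X j) +
        (2 * δ) ^ (m - i) * N') := by
  set A : ℕ → ℝ := fun i => ∑ j ∈ Finset.Ico i m, δ ^ (j - i) * (b j + δ * (b (j + 1) + X j))
    with hA
  set B : ℕ → ℝ := fun i => ∑ j ∈ Finset.Ico i m, (2 * δ) ^ (j - i) * ((2 * δ) * X j) with hB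
  have hA0 : ∀ i, 0 ≤ A i := fun i => Finset.sum_nonneg fun j _ => by
    have h1 := hb0 j
    have h2 := hb0 (j + 1)
    have h3 := hX0 j
    positivity
  have hAs : ∀ i, i < m → A i = (b i + δ * (b (i + 1) + X i)) + δ * A (i + 1) := fun i hi =>
    absorbD_split δ (fun j => b j + δ * (b (j + 1) + X j)) hi
  have hBs : ∀ i, i < m → B i = (2 * δ) * X i + (2 * δ) * B (i + 1) := fun i hi =>
    absorbD_split (2 * δ) (fun j => (2 * δ) * X j) hi
  have hAm : A m = 0 := by simp [hA]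
  have hBm : B m = 0 := by simp [hB]
  have hpow : ∀ (r : ℝ) (i : ℕ), i < m → r ^ (m - i) = r * r ^ (m - (i + 1)) := fun r i hi => by
    rw [← pow_succ']
    congr 1
    omega
  have key : ∀ k i, i + k = m →
      3 * b i + A i + δ ^ (m - i) * N' ≤ 5 * (B i + (2 * δ) ^ (m - i) * N') := by
    intro k
    induction k with
    | zero =>
      intro i hi
      have : i = m := by omega
      subst this
      rw [hAm, hBm, Nat.sub_self, pow_zero, pow_zero]
      linarith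
    | succ k ih =>
      intro i hi
      have him : i < m := by omega
      have h1 := ih (i + 1) (by omega)
      have h2 := hb i him
      have h3 := hb0 (i + 1)
      have h4 := hX0 i
      have h5 := hA0 (i + 1)
      rw [hAs i him, hBs i him, hpow δ i him, hpow (2 * δ) i him]
      have h6 : 0 ≤ δ ^ (m - (i + 1)) * N' := by positivity
      have h7 := mul_le_mul_of_nonneg_left h1 (by positivity : 0 ≤ 2 * δ)
      nlinarith [mul_nonneg hδ0.le h3, mul_nonneg hδ0.le h4, mul_nonneg hδ0.le h5,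
        mul_nonneg hδ0.le h6]
  rcases Nat.lt_or_ge i m with him | him
  · have h1 := key (m - (i + 1)) (i + 1) (by omega)
    have h2 := hb i him
    have h3 := hb0 (i + 1)
    change b i + A i + δ ^ (m - i) * N' ≤ 5 / 2 * (B i + (2 * δ) ^ (m - i) * N')
    rw [hAs i him, hBs i him, hpow δ i him, hpow (2 * δ) i him]
    have h7 := mul_le_mul_of_nonneg_left h1 hδ0.le
    nlinarith [mul_nonneg hδ0.le h3]
  · have : i = m := by omega
    subst this
    change b i + A i + δ ^ (i - i) * N' ≤ 5 / 2 * (B i + (2 * δ) ^ (i - i) * N')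
    rw [hAm, hBm, Nat.sub_self, pow_zero, pow_zero]
    linarith

theorem absorbD {K δ s0 N a0 : ℝ} (hK : 1 ≤ K) (hδ0 : 0 < δ)
    (hδ : 1000 * Real.sqrt K * δ ≤ 1) (hs0 : 0 ≤ s0) (hN : 0 ≤ N) (ha0 : 0 ≤ a0)
    (h : ∀ m : ℕ, ∀ τ : ℝ, 0 < τ → ∃ a b s : ℕ → ℝ, a0 ≤ a 0 ∧ s 0 = s0 ∧ (∀ j, 0 ≤ a j) ∧
      (∀ j, 0 ≤ b j) ∧ (∀ j, 0 ≤ s j) ∧
      (∀ j, j < m → s (j + 1) ≤ 4 * (s j + a j ^ 2 + a (j + 1) ^ 2) + τ) ∧
      (∀ j, j < m → b j ≤ δ * (b (j + 1) + 2 * Real.sqrt (s j + τ))) ∧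
      b m ≤ Real.sqrt (N + τ) ∧
      (∀ i, i ≤ m → a i ≤ Real.sqrt K * (b i + ∑ j ∈ Finset.Ico i m, δ ^ (j - i) *
        (b j + δ * (b (j + 1) + Real.sqrt (s j + τ) + τ)) + δ ^ (m - i) * Real.sqrt (N + τ)))) :
    a0 ^ 2 ≤ s0 / 4 := by
  have hsK : Real.sqrt (25 / 4 * K) = 5 / 2 * Real.sqrt K := by
    rw [Real.sqrt_mul (by norm_num), show (25 / 4 : ℝ) = (5 / 2) ^ 2 by norm_num,
      Real.sqrt_sq (by norm_num)]
  refine absorbR (K := 25 / 4 * K) (δ := 2 * δ) (N := N) (by linarith) (by linarith) ?_ hs0 hN ha0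
    ?_
  · rw [hsK]
    have : 0 ≤ Real.sqrt K * δ := by positivity
    nlinarith
  · intro m τ hτ
    obtain ⟨a, b, s, h1, h2, h3, h4, h5, h6, h7, h8, h9⟩ := h m τ hτ
    refine ⟨a, s, h1, h2, h3, h5, h6, fun i hi => ?_⟩
    have g1 := absorbD_step hδ0 (Real.sqrt_nonneg (N + τ)) m b
      (fun j => Real.sqrt (s j + τ) + τ) h4 (fun j => by positivity)
      (fun j hj => (h7 j hj).trans (mul_le_mul_of_nonneg_left (by linarith) hδ0.le)) h8 i hi
    refine (h9 i hi).trans ?_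
    rw [hsK, mul_comm (5 / 2 : ℝ) (Real.sqrt K), mul_assoc]
    refine mul_le_mul_of_nonneg_left ?_ (Real.sqrt_nonneg _)
    have e1 : ∑ j ∈ Finset.Ico i m, δ ^ (j - i) *
        (b j + δ * (b (j + 1) + Real.sqrt (s j + τ) + τ)) =
        ∑ j ∈ Finset.Ico i m, δ ^ (j - i) *
        (b j + δ * (b (j + 1) + (Real.sqrt (s j + τ) + τ))) :=
      Finset.sum_congr rfl fun j _ => by ring
    have e2 : ∑ j ∈ Finset.Ico i m, (2 * δ) ^ (j - i + 1) * (Real.sqrt (s j + τ) + τ) =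
        ∑ j ∈ Finset.Ico i m, (2 * δ) ^ (j - i) * ((2 * δ) * (Real.sqrt (s j + τ) + τ)) :=
      Finset.sum_congr rfl fun j _ => by rw [pow_succ]; ring
    rw [e1, e2]
    exact g1

end Pool.Agent.Lib.MP_6d896a_gt.UC.UR.UD
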