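import Mathlib
import Pool.Agent.Lib.MP_6d896a_gt.UD.Defs
import Pool.Agent.Lib.MP_6d896a_gt.UC.Basic
import Pool.Agent.Lib.MP_6d896a_gt.UC.Ibp
import Pool.Agent.Lib.MP_6d896a_gt.UC.Esa
import Pool.Agent.Lib.MP_6d896a_gt.UR.StepR
import Pool.Agent.Lib.MP_6d896a_gt.UR.RotR

/-!
Project UD, piece D1: the regularisation step for functions invariant under an isometry of finite
order.
-/

set_option autoImplicit false
set_option linter.all false

namespace Pool.Agent.Lib.MP_6d896a_gt.UC.UR.UD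

open MeasureTheory Filter Topology Set ProbabilityTheory
open scoped ENNReal NNReal ContDiff

variable {n : ℕ} {V f g u : Eu n → ℝ} {κ Λ S : ℝ} {J : Finset (Fin n)}
  {Γ : Eu n ≃ₗᵢ[ℝ] Eu n} {q : ℕ}

/-- the trace of a bilinear form in the basis `Γ e_j` -/
private lemma sd_trace (Γ : Eu n ≃ₗᵢ[ℝ] Eu n) (B : Eu n →ₗ[ℝ] Eu n →ₗ[ℝ] ℝ) :
    ∑ j, B (Γ (ej j)) (Γ (ej j)) = ∑ j, B (ej j) (ej j) := by
  have hexp : ∀ x : Eu n, x = ∑ k, x k • (ej k : Eu n) := by
    intro x
    ext l
    have h1 : (∑ k, x k • (ej k : Eu n)) l = ∑ k, (x k • (ej k : Eu n)) l := by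
      have := map_sum (EuclideanSpace.proj (𝕜 := ℝ) l : Eu n →L[ℝ] ℝ)
        (fun k => x k • (ej k : Eu n)) Finset.univ
      exact this
    rw [h1, Finset.sum_eq_single l]
    · simp [ej]
    · intro b _ hb
      simp [ej, hb.symm]
    · intro h; exact absurd (Finset.mem_univ l) h
  have hM : ∀ k l, ∑ j, (Γ (ej j)) k * (Γ (ej j)) l = if k = l then (1 : ℝ) else 0 := by
    intro k l
    have h1 : ∀ j k : Fin n, (Γ (ej j)) k = (Γ.symm (ej k)) j := by
      intro j k
      have e1 : (Γ (ej j)) k = inner ℝ (Γ (ej j)) (ej k) := by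
        simp [ej, EuclideanSpace.inner_single_right]
      have e2 : (Γ.symm (ej k)) j = inner ℝ (ej j) (Γ.symm (ej k)) := by
        simp [ej, EuclideanSpace.inner_single_left]
      rw [e1, e2, ← Γ.inner_map_map (ej j) (Γ.symm (ej k)), Γ.apply_symm_apply]
    simp only [h1]
    have h2 : ∑ j, (Γ.symm (ej k)) j * (Γ.symm (ej l)) j =
        inner ℝ (Γ.symm (ej k)) (Γ.symm (ej l)) := by
      rw [PiLp.inner_apply]
      refine Finset.sum_congr rfl fun j _ => ?_
      simp [mul_comm]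
    rw [h2, Γ.symm.inner_map_map]
    simp [ej, EuclideanSpace.inner_single_left]
  have h3 : ∀ j, B (Γ (ej j)) (Γ (ej j)) =
      ∑ k, ∑ l, ((Γ (ej j)) k * (Γ (ej j)) l) * B (ej k) (ej l) := by
    intro j
    conv_lhs => rw [hexp (Γ (ej j))]
    simp only [map_sum, map_smul, LinearMap.sum_apply, LinearMap.smul_apply, smul_eq_mul,
      Finset.mul_sum]
    rw [Finset.sum_comm]
    refine Finset.sum_congr rfl fun k _ => Finset.sum_congr rfl fun l _ => ?_
    ring
  simp only [h3]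
  rw [Finset.sum_comm]
  have h4 : ∀ k, ∑ j, ∑ l, ((Γ (ej j)) k * (Γ (ej j)) l) * B (ej k) (ej l) = B (ej k) (ej k) := by
    intro k
    rw [Finset.sum_comm]
    have h5 : ∀ l, ∑ j, ((Γ (ej j)) k * (Γ (ej j)) l) * B (ej k) (ej l) =
        (if k = l then (1 : ℝ) else 0) * B (ej k) (ej l) := by
      intro l
      rw [← Finset.sum_mul, hM]
    simp only [h5]
    simp
  exact Finset.sum_congr rfl fun k _ => h4 k

private lemma sd_fderiv (O : Eu n ≃ₗᵢ[ℝ] Eu n) (hf : Differentiable ℝ f) (x : Eu n) :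
    fderiv ℝ (fun x => f (O x)) x =
      (fderiv ℝ f (O x)).comp (O.toContinuousLinearEquiv : Eu n →L[ℝ] Eu n) := by
  have h1 : HasFDerivAt f (fderiv ℝ f (O x)) (O x) := (hf _).hasFDerivAt
  have h2 : HasFDerivAt (fun x => O x) (O.toContinuousLinearEquiv : Eu n →L[ℝ] Eu n) x :=
    O.toContinuousLinearEquiv.hasFDerivAt
  exact (h1.comp x h2).fderiv

private lemma sd_pd2 (hf : ContDiff ℝ 2 f) (i j : Fin n) (x : Eu n) :
    pd i (pd j f) x = fderiv ℝ (fderiv ℝ f) x (ej i) (ej j) := by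
  have h1 : DifferentiableAt ℝ (fderiv ℝ f) x :=
    ((hf.fderiv_right (m := 1) (by norm_num)).differentiable (by norm_num)) x
  have h2 := (h1.hasFDerivAt.clm_apply (hasFDerivAt_const (ej j) x)).fderiv
  show fderiv ℝ (fun y => fderiv ℝ f y (ej j)) x (ej i) = _
  rw [h2]
  simp

private lemma sd_fderiv2 (O : Eu n ≃ₗᵢ[ℝ] Eu n) (hV : ContDiff ℝ 2 f) (x v w : Eu n) :
    fderiv ℝ (fderiv ℝ (fun x => f (O x))) x v w = fderiv ℝ (fderiv ℝ f) (O x) (O v) (O w) := by
  have hd : Differentiable ℝ f := hV.differentiable (by norm_num)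
  have hd2 : Differentiable ℝ (fderiv ℝ f) :=
    (hV.fderiv_right (m := 1) (by norm_num)).differentiable (by norm_num)
  have hW : ContDiff ℝ 2 (fun x => f (O x)) := hV.comp O.toContinuousLinearEquiv.contDiff
  have hdW2 : Differentiable ℝ (fderiv ℝ (fun x => f (O x))) :=
    (hW.fderiv_right (m := 1) (by norm_num)).differentiable (by norm_num)
  have e1 : fderiv ℝ (fderiv ℝ (fun x => f (O x))) x v w =
      fderiv ℝ (fun y => fderiv ℝ (fun x => f (O x)) y w) x v := by
    rw [fderiv_clm_apply (hdW2 x) (differentiableAt_const _)]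
    simp
  have e2 : (fun y => fderiv ℝ (fun x => f (O x)) y w) = fun y => fderiv ℝ f (O y) (O w) := by
    funext y
    rw [sd_fderiv O hd]
    rfl
  have e3 : fderiv ℝ (fderiv ℝ f) (O x) (O v) (O w) =
      fderiv ℝ (fun z => fderiv ℝ f z (O w)) (O x) (O v) := by
    rw [fderiv_clm_apply (hd2 (O x)) (differentiableAt_const _)]
    simp
  have hd3 : Differentiable ℝ (fun z => fderiv ℝ f z (O w)) := by
    intro z
    exact (hd2 z).clm_apply (differentiableAt_const _)
  rw [e1, e2, e3, sd_fderiv (f := fun z => fderiv ℝ f z (O w)) O hd3]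
  rfl

private lemma sd_cd2 (hf : TT f) : ContDiff ℝ 2 f := by
  have := contDiff_infty.1 hf.cd 2
  exact_mod_cast this

/-- the generator commutes with the isometries which preserve the potential -/
private lemma sd_LL_iso (hV : ContDiff ℝ 2 V) (hVi : Inv Γ V) (hf : TT f) (x : Eu n) :
    LL V (fun x => f (Γ x)) x = LL V f (Γ x) := by
  have hf2 : ContDiff ℝ 2 f := sd_cd2 hf
  have hg2 : ContDiff ℝ 2 (fun x => f (Γ x)) := sd_cd2 (TT_iso Γ hf)
  have hVd : Differentiable ℝ V := hV.differentiable (by norm_num)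
  have hfd : Differentiable ℝ f := hf.differentiable
  have hV' : ∀ j, pd j V x = fderiv ℝ V (Γ x) (Γ (ej j)) := by
    intro j
    have h2 : (fun x => V (Γ x)) = V := funext fun x => hVi x
    have h3 := sd_fderiv Γ hVd x
    rw [h2] at h3
    show fderiv ℝ V x (ej j) = _
    rw [h3]
    rfl
  have hf' : ∀ j, pd j (fun x => f (Γ x)) x = fderiv ℝ f (Γ x) (Γ (ej j)) := by
    intro j
    show fderiv ℝ (fun x => f (Γ x)) x (ej j) = _
    rw [sd_fderiv Γ hfd x]
    rfl
  have hf'' : ∀ j, pd j (pd j (fun x => f (Γ x))) x =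
      fderiv ℝ (fderiv ℝ f) (Γ x) (Γ (ej j)) (Γ (ej j)) := by
    intro j
    rw [sd_pd2 hg2, sd_fderiv2 Γ hf2]
  unfold LL
  congr 1
  · simp only [hf'', sd_pd2 hf2]
    let B : Eu n →ₗ[ℝ] Eu n →ₗ[ℝ] ℝ := LinearMap.mk₂ ℝ
      (fun v w => fderiv ℝ (fderiv ℝ f) (Γ x) v w)
      (fun a b c => by simp) (fun a b c => by simp) (fun a b c => by simp)
      (fun a b c => by simp)
    exact sd_trace Γ B
  · simp only [hf', hV']
    let B : Eu n →ₗ[ℝ] Eu n →ₗ[ℝ] ℝ := LinearMap.mk₂ ℝ
      (fun v w => fderiv ℝ V (Γ x) v * fderiv ℝ f (Γ x) w)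
      (fun a b c => by simp [add_mul]) (fun a b c => by simp [mul_assoc])
      (fun a b c => by simp [mul_add]) (fun a b c => by simp [mul_left_comm])
    exact sd_trace Γ B

private lemma sd_TT_iter (hf : TT f) (k : ℕ) : TT (fun x => f ((⇑Γ)^[k] x)) := by
  induction k with
  | zero => simpa using hf
  | succ k ih =>
    have h := TT_iso Γ ih
    refine h

private lemma sd_LL_iter (hV : ContDiff ℝ 2 V) (hVi : Inv Γ V) (hf : TT f) (k : ℕ) (x : Eu n) :
    LL V (fun x => f ((⇑Γ)^[k] x)) x = LL V f ((⇑Γ)^[k] x) := by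
  induction k generalizing x with
  | zero => rfl
  | succ k ih =>
    have h1 := sd_LL_iso hV hVi (sd_TT_iter (Γ := Γ) hf k) x
    have h2 : (fun x => f ((⇑Γ)^[k + 1] x)) = fun x => f ((⇑Γ)^[k] (Γ x)) := by
      funext y
      rw [Function.iterate_succ_apply]
    rw [h2]
    refine h1.trans ?_
    rw [ih]
    rfl

private lemma sd_Ex_iter (hVi : Inv Γ V) (f : Eu n → ℝ) (k : ℕ) :
    Ex V (fun x => f ((⇑Γ)^[k] x)) = Ex V f := by
  have hVe : (fun x => V (Γ x)) = V := funext fun x => hVi x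
  induction k generalizing f with
  | zero => rfl
  | succ k ih =>
    have h1 := Ex_iso Γ V (fun x => f ((⇑Γ)^[k] x))
    rw [hVe] at h1
    have h2 : (fun x => f ((⇑Γ)^[k + 1] x)) = fun x => f ((⇑Γ)^[k] (Γ x)) := by
      funext y
      rw [Function.iterate_succ_apply]
    rw [h2]
    exact h1.trans (ih f)

private lemma sd_LL_sum (V : Eu n → ℝ) {F : ℕ → Eu n → ℝ} (hF : ∀ k, TT (F k)) (m : ℕ)
    (x : Eu n) :
    LL V (fun x => ∑ k ∈ Finset.range m, F k x) x = ∑ k ∈ Finset.range m, LL V (F k) x := by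
  induction m with
  | zero =>
    have h := esa_LL_const_mul V (hF 0) 0 x
    simpa using h
  | succ m ih =>
    rw [Finset.sum_range_succ, ← ih]
    have h := esa_LL_add V (TT.sum (Finset.range m) fun k _ => hF k) (hF m) x
    rw [← h]
    congr 1
    funext y
    rw [Finset.sum_range_succ]

private lemma sd_esa (hV : ContDiff ℝ 2 V) (hq : 0 < q) (hper : ∀ x, (⇑Γ)^[q] x = x)
    (hVi : Inv Γ V) {l : ℝ} (hl : 0 < l) (hg : TT g) (hgi : Inv Γ g) {ε : ℝ} (hε : 0 < ε) :
    ∃ u : Eu n → ℝ, TT u ∧ Inv Γ u ∧ Ex V (fun x => (l * u x - LL V u x - g x) ^ 2) ≤ ε := by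
  have hV1 : ContDiff ℝ 1 V := hV.of_le (by norm_num)
  have hq0 : (q : ℝ) ≠ 0 := by exact_mod_cast hq.ne'
  have hqp : (0 : ℝ) < q := by exact_mod_cast hq
  obtain ⟨u, hu, h⟩ := esa hV hl hg hε
  obtain ⟨F, hFdef⟩ : ∃ F : ℕ → Eu n → ℝ, F = fun k x => u ((⇑Γ)^[k] x) := ⟨_, rfl⟩
  have hF : ∀ k, TT (F k) := fun k => by rw [hFdef]; exact sd_TT_iter hu k
  have hgk : ∀ k x, g ((⇑Γ)^[k] x) = g x := by
    intro k
    induction k with
    | zero => intro x; rfl
    | succ k ih =>
      intro x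
      rw [Function.iterate_succ_apply, ih, hgi]
  have hW : TT (fun x => (1 / (q : ℝ)) * ∑ k ∈ Finset.range q, F k x) :=
    (TT.sum (Finset.range q) fun k _ => hF k).const_mul _
  refine ⟨_, hW, ?_, ?_⟩
  · intro x
    show (1 / (q : ℝ)) * ∑ k ∈ Finset.range q, F k (Γ x) = _
    congr 1
    have h1 : ∀ k, F k (Γ x) = u ((⇑Γ)^[k + 1] x) := by
      intro k
      rw [hFdef, Function.iterate_succ_apply]
    simp only [h1]
    have h2 := Finset.sum_range_succ (fun k => u ((⇑Γ)^[k] x)) q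
    have h3 := Finset.sum_range_succ' (fun k => u ((⇑Γ)^[k] x)) q
    rw [h2] at h3
    have h4 : u ((⇑Γ)^[q] x) = u ((⇑Γ)^[0] x) := by rw [hper]; rfl
    rw [hFdef]
    show _ = ∑ k ∈ Finset.range q, u ((⇑Γ)^[k] x)
    linarith
  · obtain ⟨r, hr⟩ : ∃ r : Eu n → ℝ, r = fun x => l * u x - LL V u x - g x := ⟨_, rfl⟩
    have hrc : Continuous r := by
      rw [hr]
      exact ((continuous_const.mul hu.continuous).sub (esa_LL_cont hV1 hu)).sub hg.continuous
    have hrs : HasCompactSupport r := by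
      refine HasCompactSupport.intro (K := tsupport u ∪ tsupport (LL V u) ∪ tsupport g)
        ((hu.cs.isCompact.union (esa_LL_cs V hu).isCompact).union hg.cs.isCompact) ?_
      intro x hx
      simp only [mem_union, not_or] at hx
      rw [hr]
      dsimp only
      rw [image_eq_zero_of_notMem_tsupport hx.1.1, image_eq_zero_of_notMem_tsupport hx.1.2,
        image_eq_zero_of_notMem_tsupport hx.2]
      simp
    have hsq : ∀ {p : Eu n → ℝ}, Continuous p → HasCompactSupport p →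
        Integrable (fun x => p x ^ 2 * Real.exp (-V x)) := by
      intro p hp hps
      refine int_cs hV1.continuous (hp.pow 2) ?_
      have : (fun x => p x ^ 2) = fun x => p x * p x := funext fun x => sq _
      rw [this]
      exact hps.mul_left
    have hid : ∀ x, l * ((1 / (q : ℝ)) * ∑ k ∈ Finset.range q, F k x) -
        LL V (fun x => (1 / (q : ℝ)) * ∑ k ∈ Finset.range q, F k x) x - g x =
        (1 / (q : ℝ)) * ∑ k ∈ Finset.range q, r ((⇑Γ)^[k] x) := by
      intro x
      rw [esa_LL_const_mul V (TT.sum (Finset.range q) fun k _ => hF k), sd_LL_sum V hF]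
      have h5 : ∀ k, r ((⇑Γ)^[k] x) = l * F k x - LL V (F k) x - g x := by
        intro k
        rw [hr, hFdef]
        show l * u ((⇑Γ)^[k] x) - LL V u ((⇑Γ)^[k] x) - g ((⇑Γ)^[k] x) =
          l * u ((⇑Γ)^[k] x) - LL V (fun x => u ((⇑Γ)^[k] x)) x - g x
        rw [hgk, sd_LL_iter hV hVi hu]
      simp only [h5, Finset.sum_sub_distrib, Finset.sum_const, Finset.card_range,
        ← Finset.mul_sum, nsmul_eq_mul]
      field_simp
    have hrk : ∀ k, Continuous (fun x => r ((⇑Γ)^[k] x)) := fun k =>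
      hrc.comp (Γ.continuous.iterate k)
    have hrks : ∀ k, HasCompactSupport (fun x => r ((⇑Γ)^[k] x)) := by
      intro k
      induction k with
      | zero => exact hrs
      | succ k ih =>
        have h6 := ih.comp_homeomorph Γ.toHomeomorph
        exact h6
    have h2 : ∀ k, Ex V (fun x => r ((⇑Γ)^[k] x) ^ 2) = Ex V (fun x => r x ^ 2) := fun k =>
      sd_Ex_iter hVi (fun x => r x ^ 2) k
    have hi : ∀ k ∈ Finset.range q,
        Integrable (fun x => (r ((⇑Γ)^[k] x) ^ 2) * Real.exp (-V x)) := fun k _ =>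
      hsq (hrk k) (hrks k)
    have hsumint : Integrable (fun x => (∑ k ∈ Finset.range q, r ((⇑Γ)^[k] x) ^ 2) *
        Real.exp (-V x)) := by
      have h7 := integrable_finsetSum (Finset.range q) hi
      refine h7.congr (Eventually.of_forall fun x => ?_)
      show _ = _ * _
      rw [Finset.sum_mul]
    calc Ex V (fun x => (l * ((1 / (q : ℝ)) * ∑ k ∈ Finset.range q, F k x) -
            LL V (fun x => (1 / (q : ℝ)) * ∑ k ∈ Finset.range q, F k x) x - g x) ^ 2)
        ≤ Ex V (fun x => (1 / (q : ℝ)) * ∑ k ∈ Finset.range q, r ((⇑Γ)^[k] x) ^ 2) := by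
          refine Ex_mono ?_ ?_ ?_
          · simp_rw [hid]
            refine hsq (continuous_const.mul (continuous_finsetSum _ fun k _ => hrk k)) ?_
            have hcs : ∀ m, HasCompactSupport (fun x => ∑ k ∈ Finset.range m,
                r ((⇑Γ)^[k] x)) := by
              intro m
              induction m with
              | zero =>
                have h8 : (fun x : Eu n => ∑ k ∈ Finset.range 0, r ((⇑Γ)^[k] x)) = 0 := by
                  funext x; simp
                rw [h8]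
                exact HasCompactSupport.zero
              | succ m ih =>
                have h8 := ih.add (hrks m)
                have h9 : (fun x : Eu n => ∑ k ∈ Finset.range (m + 1), r ((⇑Γ)^[k] x)) =
                    (fun x => ∑ k ∈ Finset.range m, r ((⇑Γ)^[k] x)) +
                      fun x => r ((⇑Γ)^[m] x) := by
                  funext x; rw [Finset.sum_range_succ]; rfl
                rw [h9]
                exact h8
            exact (hcs q).mul_left
          · have h3 : (fun x => ((1 / (q : ℝ)) * ∑ k ∈ Finset.range q, r ((⇑Γ)^[k] x) ^ 2) *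
                Real.exp (-V x)) =
                fun x => (1 / (q : ℝ)) * ((∑ k ∈ Finset.range q, r ((⇑Γ)^[k] x) ^ 2) *
                  Real.exp (-V x)) := by
              funext x
              ring
            rw [h3]
            exact hsumint.const_mul _
          · intro x
            rw [hid]
            have h9 := sq_sum_le_card_mul_sum_sq (s := Finset.range q)
              (f := fun k => r ((⇑Γ)^[k] x))
            rw [Finset.card_range] at h9
            rw [mul_pow]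
            have h10 : (1 / (q : ℝ)) ^ 2 * (q * ∑ k ∈ Finset.range q, r ((⇑Γ)^[k] x) ^ 2) =
                (1 / (q : ℝ)) * ∑ k ∈ Finset.range q, r ((⇑Γ)^[k] x) ^ 2 := by
              field_simp
            rw [← h10]
            exact mul_le_mul_of_nonneg_left h9 (by positivity)
      _ = Ex V (fun x => r x ^ 2) := by
          rw [Ex_const_mul, Ex_sum _ hi, Finset.sum_congr rfl fun k _ => h2 k,
            Finset.sum_const, Finset.card_range, nsmul_eq_mul]
          field_simp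
      _ ≤ ε := by
          rw [hr]
          exact h

/-- continuous functions with compact support -/
private def SrCC (f : Eu n → ℝ) : Prop := Continuous f ∧ HasCompactSupport f

private lemma SrCC.of (hf : TT f) : SrCC f := ⟨hf.continuous, hf.cs⟩

private lemma SrCC.add (hf : SrCC f) (hg : SrCC g) : SrCC (fun x => f x + g x) :=
  ⟨hf.1.add hg.1, hf.2.add hg.2⟩

private lemma SrCC.cmul (hf : SrCC f) (c : ℝ) : SrCC (fun x => c * f x) :=
  ⟨continuous_const.mul hf.1, hf.2.mul_left⟩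

private lemma SrCC.sub (hf : SrCC f) (hg : SrCC g) : SrCC (fun x => f x - g x) := by
  have h := hf.add (hg.cmul (-1))
  have e : (fun x => f x + -1 * g x) = fun x => f x - g x := by
    funext x; ring
  rw [e] at h
  exact h

private lemma SrCC.mul (hf : SrCC f) (hg : SrCC g) : SrCC (fun x => f x * g x) :=
  ⟨hf.1.mul hg.1, hf.2.mul_right⟩

private lemma SrCC.sq (hf : SrCC f) : SrCC (fun x => f x ^ 2) := by
  have h := hf.mul hf
  have e : (fun x => f x * f x) = fun x => f x ^ 2 := by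
    funext x; ring
  rw [e] at h
  exact h

private lemma SrCC.int (hf : SrCC f) (hV : Continuous V) :
    Integrable (fun x => f x * Real.exp (-V x)) := int_cs hV hf.1 hf.2

private lemma sr_add (hV : Continuous V) (hf : SrCC f) (hg : SrCC g) :
    Ex V (fun x => f x + g x) = Ex V f + Ex V g := Ex_add (hf.int hV) (hg.int hV)

private lemma sr_sub (hV : Continuous V) (hf : SrCC f) (hg : SrCC g) :
    Ex V (fun x => f x - g x) = Ex V f - Ex V g := Ex_sub (hf.int hV) (hg.int hV)

/-- Cauchy-Schwarz -/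
private lemma sr_cs (hV : Continuous V) (hf : SrCC f) (hg : SrCC g) :
    |Ex V (fun x => f x * g x)| ≤
      Real.sqrt (Ex V (fun x => f x ^ 2)) * Real.sqrt (Ex V (fun x => g x ^ 2)) := by
  rw [← Real.sqrt_mul (Ex_nonneg fun x => sq_nonneg _)]
  exact Real.abs_le_sqrt (Ex_cs (hf.sq.int hV) (hg.sq.int hV) ((hf.mul hg).int hV))

/-- the square of the mean -/
private lemma sr_mean (hU : GP V κ Λ S) (hf : SrCC f) :
    (Ex V f) ^ 2 ≤ Ex V (fun x => f x ^ 2) := by
  have hV : Continuous V := hU.cd.continuous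
  have h := Ex_cs (V := V) (f := f) (g := fun _ => (1 : ℝ)) (hf.sq.int hV)
    (by simpa using hU.int) (by simpa using hf.int hV)
  have e1 : (fun x : Eu n => (fun _ : Eu n => (1 : ℝ)) x ^ 2) = fun _ => 1 := by
    funext x; norm_num
  have e2 : (fun x : Eu n => f x * (fun _ : Eu n => (1 : ℝ)) x) = f := by
    funext x; simp
  rw [e1, e2, hU.mass, mul_one] at h
  exact h

private lemma sr_mean' (hU : GP V κ Λ S) (hf : SrCC f) :
    |Ex V f| ≤ Real.sqrt (Ex V (fun x => f x ^ 2)) := Real.abs_le_sqrt (sr_mean hU hf)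

/-- the real numbers of the regularisation step -/
private lemma sr_real {l ε δ B mu mg mr uu gg gu ru rg rr a cc e Q : ℝ} (hl : 0 < l)
    (hR0 : mr = l * mu - 2 * l * mg) (hRu : ru = l * uu + a - 2 * l * gu)
    (hRg : rg = l * gu + cc - 2 * l * gg)
    (hQ : Q = l ^ 2 * uu + 4 * l ^ 2 * gg + rr - 4 * l ^ 2 * gu - 2 * l * ru + 4 * l * rg)
    (hX2 : l * (gg - 2 * gu + uu - (mg - mu) ^ 2) ≤ e - 2 * cc + a)
    (hX1 : l * (uu - mu ^ 2) ≤ a)
    (hV : (mg - mu) ^ 2 ≤ gg - 2 * gu + uu)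
    (hru : |ru| ≤ δ * B) (hmr : |mr| ≤ δ) (hmu : |mu| ≤ B) (hmg : |mg| ≤ B)
    (hrg : |rg| ≤ δ * B) (hrr : rr ≤ δ ^ 2) (hδ : 0 < δ) (hB : 0 < B)
    (hε : δ * (8 * B + 8 * l * B + 1) ≤ ε) (hδ1 : δ ≤ 1) :
    e - 2 * cc + a ≤ e - l * (gg - mg ^ 2) + ε ∧
      Q - l * a ≤ l * (e - l * (gg - mg ^ 2)) + ε ∧
      a ≤ l * gg + ε := by
  have h1 : |mr * mu| ≤ δ * B := by
    rw [abs_mul]; exact mul_le_mul hmr hmu (abs_nonneg _) hδ.le
  have h2 : |mr * mg| ≤ δ * B := by
    rw [abs_mul]; exact mul_le_mul hmr hmg (abs_nonneg _) hδ.le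
  rw [abs_le] at h1 h2 hru hrg
  have hδB : 0 < δ * B := mul_pos hδ hB
  have hlδB : 0 < l * (δ * B) := mul_pos hl hδB
  have hV' : 0 ≤ l * (gg - 2 * gu + uu - (mg - mu) ^ 2) :=
    mul_nonneg hl.le (by linarith)
  -- covariances
  obtain ⟨R1, hR1⟩ : ∃ R1, R1 = ru - mr * mu := ⟨_, rfl⟩
  obtain ⟨R2, hR2⟩ : ∃ R2, R2 = rg - mr * mg := ⟨_, rfl⟩
  have b1 : R1 ≤ 2 * (δ * B) := by rw [hR1]; linarith [h1.1, hru.2]
  have b1' : -(2 * (δ * B)) ≤ R1 := by rw [hR1]; linarith [h1.2, hru.1]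
  have b2 : R2 ≤ 2 * (δ * B) := by rw [hR2]; linarith [h2.1, hrg.2]
  have b2' : -(2 * (δ * B)) ≤ R2 := by rw [hR2]; linarith [h2.2, hrg.1]
  have hε' : 8 * (δ * B) + 8 * (l * (δ * B)) + δ ≤ ε := by
    calc 8 * (δ * B) + 8 * (l * (δ * B)) + δ = δ * (8 * B + 8 * l * B + 1) := by ring
      _ ≤ ε := hε
  refine ⟨?_, ?_, ?_⟩
  · have id1 : 2 * cc - a - l * (gg - mg ^ 2) =
        3 * (l * (gg - 2 * gu + uu - (mg - mu) ^ 2)) + (a - l * (uu - mu ^ 2))
          + 2 * R2 - 2 * R1 := by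
      rw [hR1, hR2, hRu, hRg, hR0]; ring
    linarith
  · have id2 : Q - l * a = l * (e - l * (gg - mg ^ 2))
        - l * ((e - 2 * cc + a) - l * (gg - 2 * gu + uu - (mg - mu) ^ 2))
          + 2 * (l * R2) - 2 * (l * R1) + (rr - mr ^ 2) := by
      rw [hQ, hR1, hR2, hRu, hRg, hR0]; ring
    have c1 : l * R2 ≤ l * (2 * (δ * B)) := mul_le_mul_of_nonneg_left b2 hl.le
    have c2 : l * (-(2 * (δ * B))) ≤ l * R1 := mul_le_mul_of_nonneg_left b1' hl.le
    have c3 : 0 ≤ l * ((e - 2 * cc + a) - l * (gg - 2 * gu + uu - (mg - mu) ^ 2)) :=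
      mul_nonneg hl.le (by linarith)
    have c4 : δ ^ 2 ≤ δ := by nlinarith
    have c5 : 0 ≤ mr ^ 2 := sq_nonneg _
    have c6 : l * (2 * (δ * B)) = 2 * (l * (δ * B)) := by ring
    have c7 : l * (-(2 * (δ * B))) = -(2 * (l * (δ * B))) := by ring
    rw [c6] at c1
    rw [c7] at c2
    linarith
  · have id3 : a = l * (gg - mg ^ 2) - l * (gg - 2 * gu + uu - (mg - mu) ^ 2) + R1 := by
      rw [hR1, hRu, hR0]; ring
    have c5 : 0 ≤ l * mg ^ 2 := mul_nonneg hl.le (sq_nonneg _)
    have c6 : l * (gg - mg ^ 2) = l * gg - l * mg ^ 2 := by ring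
    rw [c6] at id3
    linarith


/-- the last clause of the regularisation step -/
private lemma sr_last (hU : GP V κ Λ S) {l δ : ℝ} (hδ : 0 < δ) (hg : TT g) (hu : TT u)
    {r : Eu n → ℝ} (hr : r = fun x => l * u x - LL V u x - 2 * l * g x)
    (hrr : Ex V (fun x => r x ^ 2) ≤ δ ^ 2) (j : Fin n) :
    |Ex V (pd j u) - l * Ex V (fun x => x j * (2 * g x - u x))| ≤ Real.sqrt S * δ := by
  have hV : Continuous V := hU.cd.continuous
  have hV1 : ContDiff ℝ 1 V := hU.cd.of_le (by norm_num)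
  have hS : 0 < S := hU.Spos
  have cu : SrCC u := SrCC.of hu
  have cg : SrCC g := SrCC.of hg
  have cL : SrCC (LL V u) := LL_cont hV1 hu
  have cr : SrCC r := by
    rw [hr]; exact ((cu.cmul l).sub cL).sub (cg.cmul (2 * l))
  -- the coordinate function
  have hxc : Continuous fun x : Eu n => x j := by fun_prop
  have hxd : ContDiff ℝ 1 fun x : Eu n => x j := by fun_prop
  have hpx : ∀ k (x : Eu n), pd k (fun x : Eu n => x j) x = if k = j then 1 else 0 := by
    intro k x
    have h1 : HasFDerivAt (fun x : Eu n => x j)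
        (EuclideanSpace.proj (𝕜 := ℝ) j : Eu n →L[ℝ] ℝ) x :=
      (EuclideanSpace.proj (𝕜 := ℝ) j : Eu n →L[ℝ] ℝ).hasFDerivAt
    unfold pd
    rw [h1.fderiv]
    by_cases hk : k = j
    · subst hk; simp [ej]
    · simp [ej, hk, Ne.symm hk]
  have hmul : ∀ {h : Eu n → ℝ}, SrCC h → SrCC (fun x : Eu n => x j * h x) := fun hh =>
    ⟨hxc.mul hh.1, hh.2.mul_left⟩
  have hpdV : ∀ k, Continuous (pd k V) := fun k =>
    (pd_contDiff (m := 0) hV1 (by norm_num) k).continuous
  have cpd : ∀ k, SrCC (fun x => pd k (pd k u) x - pd k V x * pd k u x) := fun k =>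
    ⟨((hu.pd k).pd k).continuous.sub ((hpdV k).mul (hu.pd k).continuous),
      ((hu.pd k).pd k).cs.sub (hu.pd k).cs.mul_left⟩
  -- integration by parts
  have hib : Ex V (pd j u) = - Ex V (fun x => x j * LL V u x) := by
    have h1 : ∀ k, Ex V (fun x => pd k (fun x : Eu n => x j) x * pd k u x) =
        - Ex V (fun x => x j * (pd k (pd k u) x - pd k V x * pd k u x)) := fun k =>
      ibp hV1 hxd ((hu.pd k).cd.of_le (by exact_mod_cast le_top)) (hu.pd k).cs k
    have h2 : ∑ k, Ex V (fun x => pd k (fun x : Eu n => x j) x * pd k u x) = Ex V (pd j u) := by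
      rw [Finset.sum_eq_single j]
      · congr 1
        funext x
        rw [hpx]; simp
      · intro k _ hk
        have : (fun x => pd k (fun x : Eu n => x j) x * pd k u x) = fun _ => (0 : ℝ) := by
          funext x
          rw [hpx]; simp [hk]
        rw [this]
        unfold Ex
        simp
      · intro h; exact absurd (Finset.mem_univ j) h
    rw [← h2]
    rw [Finset.sum_congr rfl fun k _ => h1 k, Finset.sum_neg_distrib]
    congr 1
    rw [← Ex_sum (V := V) Finset.univ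
      (F := fun k x => x j * (pd k (pd k u) x - pd k V x * pd k u x))
      fun k _ => (hmul (cpd k)).int hV]
    congr 1
    funext x
    rw [← Finset.mul_sum, Finset.sum_sub_distrib]
    rfl
  have e1 : (fun x : Eu n => x j * LL V u x) =
      fun x => (l * (x j * u x) - 2 * l * (x j * g x)) - x j * r x := by
    funext x
    rw [hr]
    ring
  have e2 : (fun x : Eu n => x j * (2 * g x - u x)) =
      fun x => 2 * (x j * g x) - x j * u x := by
    funext x; ring
  have c1 : SrCC (fun x : Eu n => x j * u x) := hmul cu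
  have c2 : SrCC (fun x : Eu n => x j * g x) := hmul cg
  have c3 : SrCC (fun x : Eu n => x j * r x) := hmul cr
  have h3 : Ex V (pd j u) - l * Ex V (fun x => x j * (2 * g x - u x)) =
      Ex V (fun x => x j * r x) := by
    rw [hib, e1, e2, sr_sub hV ((c1.cmul l).sub (c2.cmul (2 * l))) c3,
      sr_sub hV (c1.cmul l) (c2.cmul (2 * l)), sr_sub hV (c2.cmul 2) c1, Ex_const_mul,
      Ex_const_mul, Ex_const_mul]
    ring
  rw [h3]
  -- Cauchy-Schwarz
  have hx2 : Integrable (fun x : Eu n => x j ^ 2 * Real.exp (-V x)) := by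
    refine hU.momi.mono' ?_ (Eventually.of_forall fun x => ?_)
    · exact ((hxc.pow 2).mul (Real.continuous_exp.comp hV.neg)).aestronglyMeasurable
    · rw [Real.norm_of_nonneg (by positivity)]
      refine mul_le_mul_of_nonneg_right ?_ (Real.exp_pos _).le
      have := EuclideanSpace.norm_sq_eq x
      rw [this]
      have h4 := Finset.single_le_sum (f := fun k => ‖x k‖ ^ 2) (fun k _ => sq_nonneg _)
        (Finset.mem_univ j)
      simpa using h4
  have hcs := Ex_cs (V := V) (f := fun x : Eu n => x j) (g := r) hx2 (cr.sq.int hV) (c3.int hV)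
  have hm : Ex V (fun x : Eu n => x j ^ 2) ≤ S := by
    have h5 := hU.mom (ej j)
    have h6 : (fun x : Eu n => inner ℝ x (ej j) ^ 2) = fun x => x j ^ 2 := by
      funext x
      simp [ej, EuclideanSpace.inner_single_right]
    rw [h6, ej_norm] at h5
    simpa using h5
  have h7 : (Ex V (fun x => x j * r x)) ^ 2 ≤ (Real.sqrt S * δ) ^ 2 := by
    refine hcs.trans ?_
    rw [mul_pow, Real.sq_sqrt hS.le]
    exact mul_le_mul hm hrr (Ex_nonneg fun x => sq_nonneg _) hS.le
  have h8 : 0 ≤ Real.sqrt S * δ := mul_nonneg (Real.sqrt_nonneg _) hδ.le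
  exact abs_le_of_sq_le_sq h7 h8

/-- the regularisation step, `l = 1 / c` -/
theorem stepD (hU : GP V κ Λ S) {c : ℝ} (hc : 0 < c) (hP : HP V c) (hq : 0 < q)
    (hper : ∀ x, (⇑Γ)^[q] x = x) (hVi : Inv Γ V) (hg : TT g) (hgi : Inv Γ g) {ε : ℝ}
    (hε : 0 < ε) :
    ∃ u : Eu n → ℝ, TT u ∧ Inv Γ u ∧
      Df V (fun x => g x - u x) (fun x => g x - u x) ≤ Sf V (1 / c) g + ε ∧
      (∑ j, (Df V (pd j u) (pd j u) - (1 / c) * Ex V (fun x => pd j u x ^ 2))) + κ * Df V u u ≤
        (1 / c) * Sf V (1 / c) g + ε ∧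
      Df V u u ≤ (1 / c) * Ex V (fun x => g x ^ 2) + ε ∧
      ∀ j, |Ex V (pd j u) - (1 / c) * Ex V (fun x => x j * (2 * g x - u x))| ≤ ε := by
  have hV : Continuous V := hU.cd.continuous
  have hV1 : ContDiff ℝ 1 V := hU.cd.of_le (by norm_num)
  set l : ℝ := 1 / c with hldef
  have hl : 0 < l := by rw [hldef]; positivity
  have hlc : l * c = 1 := by rw [hldef]; field_simp
  obtain ⟨G, hG⟩ : ∃ G, G = Real.sqrt (Ex V (fun x => g x ^ 2)) := ⟨_, rfl⟩
  have hG0 : 0 ≤ G := by rw [hG]; exact Real.sqrt_nonneg _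
  obtain ⟨B, hBdef⟩ : ∃ B, B = 2 * G + 1 / l := ⟨_, rfl⟩
  have hB : 0 < B := by rw [hBdef]; positivity
  have hS : 0 < S := hU.Spos
  obtain ⟨D, hDdef⟩ : ∃ D, D = 8 * B + 8 * l * B + 1 + Real.sqrt S := ⟨_, rfl⟩
  have hD : 0 < D := by rw [hDdef]; positivity
  obtain ⟨δ, hδdef⟩ : ∃ δ, δ = ε / (D + ε) := ⟨_, rfl⟩
  have hδ : 0 < δ := by rw [hδdef]; positivity
  have hδ1 : δ ≤ 1 := by
    rw [hδdef, div_le_one (by positivity)]; linarith
  have hδε : δ * D ≤ ε := by
    rw [hδdef, div_mul_eq_mul_div, div_le_iff₀ (by positivity)]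
    nlinarith
  have hg2 : TT (fun x => 2 * l * g x) := hg.const_mul (2 * l)
  have hge2 : Inv Γ (fun x => 2 * l * g x) := fun x => by
    show 2 * l * g (Γ x) = 2 * l * g x
    rw [hgi x]
  obtain ⟨u, hu, hue, hres⟩ := sd_esa hU.cd hq hper hVi hl hg2 hge2 (pow_pos hδ 2)
  obtain ⟨r, hr⟩ : ∃ r : Eu n → ℝ, r = fun x => l * u x - LL V u x - 2 * l * g x := ⟨_, rfl⟩
  have cu : SrCC u := SrCC.of hu
  have cg : SrCC g := SrCC.of hg
  have cL : SrCC (LL V u) := LL_cont hV1 hu
  have cr : SrCC r := by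
    rw [hr]; exact ((cu.cmul l).sub cL).sub (cg.cmul (2 * l))
  -- the mean of r
  have hLL0 : Ex V (LL V u) = 0 := Ex_LL hV1 hu
  have hR0 : Ex V r = l * Ex V u - 2 * l * Ex V g := by
    rw [hr, sr_sub hV ((cu.cmul l).sub cL) (cg.cmul (2 * l)), sr_sub hV (cu.cmul l) cL,
      Ex_const_mul, Ex_const_mul, hLL0]
    ring
  -- green
  have hgr : ∀ ψ : Eu n → ℝ, TT ψ → Ex V (fun x => r x * ψ x) =
      l * Ex V (fun x => u x * ψ x) + Df V u ψ - 2 * l * Ex V (fun x => g x * ψ x) := by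
    intro ψ hψ
    have cψ : SrCC ψ := SrCC.of hψ
    have e1 : (fun x => r x * ψ x) = fun x => (l * (u x * ψ x) - LL V u x * ψ x)
        - 2 * l * (g x * ψ x) := by
      funext x; rw [hr]; ring
    rw [e1, sr_sub hV (((cu.mul cψ).cmul l).sub (cL.mul cψ)) ((cg.mul cψ).cmul (2 * l)),
      sr_sub hV ((cu.mul cψ).cmul l) (cL.mul cψ), Ex_const_mul, Ex_const_mul,
      green hV1 hu hψ]
    ring
  have hRu : Ex V (fun x => r x * u x) = l * Ex V (fun x => u x ^ 2) + Df V u u
      - 2 * l * Ex V (fun x => g x * u x) := by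
    have h := hgr u hu
    have e1 : (fun x => u x * u x) = fun x => u x ^ 2 := by funext x; ring
    rw [e1] at h
    exact h
  have hRg : Ex V (fun x => r x * g x) = l * Ex V (fun x => g x * u x) + Df V g u
      - 2 * l * Ex V (fun x => g x ^ 2) := by
    have h := hgr g hg
    have e1 : (fun x => g x * g x) = fun x => g x ^ 2 := by funext x; ring
    have e2 : (fun x => u x * g x) = fun x => g x * u x := by funext x; ring
    rw [e1, e2, Df_comm] at h
    exact h
  have hrr : Ex V (fun x => r x ^ 2) ≤ δ ^ 2 := by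
    rw [hr]; exact hres
  -- the second moment of L u
  have hQ : Ex V (fun x => LL V u x ^ 2) = l ^ 2 * Ex V (fun x => u x ^ 2)
      + 4 * l ^ 2 * Ex V (fun x => g x ^ 2) + Ex V (fun x => r x ^ 2)
      - 4 * l ^ 2 * Ex V (fun x => g x * u x) - 2 * l * Ex V (fun x => r x * u x)
      + 4 * l * Ex V (fun x => r x * g x) := by
    have e1 : (fun x => LL V u x ^ 2) = fun x => ((((l ^ 2 * u x ^ 2 + 4 * l ^ 2 * g x ^ 2)
        + r x ^ 2) - 4 * l ^ 2 * (g x * u x)) - 2 * l * (r x * u x)) + 4 * l * (r x * g x) := by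
      funext x; rw [hr]; ring
    have c1 := cu.sq.cmul (l ^ 2)
    have c2 := cg.sq.cmul (4 * l ^ 2)
    have c3 := cr.sq
    have c4 := (cg.mul cu).cmul (4 * l ^ 2)
    have c5 := (cr.mul cu).cmul (2 * l)
    have c6 := (cr.mul cg).cmul (4 * l)
    rw [e1, sr_add hV ((((c1.add c2).add c3).sub c4).sub c5) c6,
      sr_sub hV (((c1.add c2).add c3).sub c4) c5, sr_sub hV ((c1.add c2).add c3) c4,
      sr_add hV (c1.add c2) c3, sr_add hV c1 c2, Ex_const_mul, Ex_const_mul, Ex_const_mul,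
      Ex_const_mul, Ex_const_mul]
  -- the Poincare inequality for even functions
  have hX : ∀ ψ : Eu n → ℝ, TT ψ →
      l * (Ex V (fun x => ψ x ^ 2) - (Ex V ψ) ^ 2) ≤ Df V ψ ψ := by
    intro ψ hψ
    have h := mul_le_mul_of_nonneg_left (hP ψ hψ) hl.le
    rw [← mul_assoc, hlc, one_mul] at h
    exact h
  have hgu : TT (fun x => g x - u x) := hg.sub hu
  have hvar : Ex V (fun x => (g x - u x) ^ 2) = Ex V (fun x => g x ^ 2)
      - 2 * Ex V (fun x => g x * u x) + Ex V (fun x => u x ^ 2) := by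
    have e1 : (fun x => (g x - u x) ^ 2) = fun x => (g x ^ 2 - 2 * (g x * u x)) + u x ^ 2 := by
      funext x; ring
    rw [e1, sr_add hV (cg.sq.sub ((cg.mul cu).cmul 2)) cu.sq,
      sr_sub hV cg.sq ((cg.mul cu).cmul 2), Ex_const_mul]
  have hmean : Ex V (fun x => g x - u x) = Ex V g - Ex V u := sr_sub hV cg cu
  have hX1 := hX u hu
  have hX2 := hX _ hgu
  rw [hvar, hmean, Df_sub hV hg hu] at hX2
  have hVn := sr_mean hU (cg.sub cu)
  rw [hvar, hmean] at hVn
  -- bounds
  obtain ⟨sr, hsr⟩ : ∃ s, s = Real.sqrt (Ex V (fun x => r x ^ 2)) := ⟨_, rfl⟩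
  obtain ⟨su, hsu⟩ : ∃ s, s = Real.sqrt (Ex V (fun x => u x ^ 2)) := ⟨_, rfl⟩
  have hsr0 : 0 ≤ sr := by rw [hsr]; exact Real.sqrt_nonneg _
  have hsu0 : 0 ≤ su := by rw [hsu]; exact Real.sqrt_nonneg _
  have hsrδ : sr ≤ δ := by
    rw [hsr]; exact (Real.sqrt_le_sqrt hrr).trans (by rw [Real.sqrt_sq hδ.le])
  have hsu2 : su ^ 2 = Ex V (fun x => u x ^ 2) := by
    rw [hsu]; exact Real.sq_sqrt (Ex_nonneg fun x => sq_nonneg _)
  have hru1 : |Ex V (fun x => r x * u x)| ≤ sr * su := by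
    rw [hsr, hsu]; exact sr_cs hV cr cu
  have hrg1 : |Ex V (fun x => r x * g x)| ≤ sr * G := by
    rw [hsr, hG]; exact sr_cs hV cr cg
  have hgu1 : |Ex V (fun x => g x * u x)| ≤ G * su := by
    rw [hsu, hG]; exact sr_cs hV cg cu
  have hsuB : su ≤ B := by
    by_cases h0 : su = 0
    · rw [h0]; exact hB.le
    have hpos : 0 < su := lt_of_le_of_ne hsu0 (Ne.symm h0)
    have hDf : 0 ≤ Df V u u := Df_nonneg V u
    rw [← hsu2] at hRu
    have h1 : l * su ^ 2 ≤ sr * su + 2 * l * (G * su) := by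
      have h2 := le_abs_self (Ex V (fun x => r x * u x))
      have h3 := le_abs_self (Ex V (fun x => g x * u x))
      have h4 : 2 * l * Ex V (fun x => g x * u x) ≤ 2 * l * (G * su) :=
        mul_le_mul_of_nonneg_left (h3.trans hgu1) (by positivity)
      linarith
    have h5 : l * su ≤ sr + 2 * l * G := by
      have h6 : (l * su) * su ≤ (sr + 2 * l * G) * su := by nlinarith
      exact le_of_mul_le_mul_right h6 hpos
    have h7 : l * su ≤ l * B := by
      have h8 : l * B = 2 * l * G + 1 := by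
        rw [hBdef]; field_simp
      rw [h8]; linarith
    exact le_of_mul_le_mul_left h7 hl
  have hGB : G ≤ B := by
    rw [hBdef]
    have : 0 < 1 / l := by positivity
    linarith
  have hru : |Ex V (fun x => r x * u x)| ≤ δ * B :=
    hru1.trans (mul_le_mul hsrδ hsuB hsu0 hδ.le)
  have hrg : |Ex V (fun x => r x * g x)| ≤ δ * B :=
    hrg1.trans (mul_le_mul hsrδ hGB hG0 hδ.le)
  have hmr : |Ex V r| ≤ δ := (sr_mean' hU cr).trans (by rw [← hsr]; exact hsrδ)
  have hmu : |Ex V u| ≤ B := (sr_mean' hU cu).trans (by rw [← hsu]; exact hsuB)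
  have hmg : |Ex V g| ≤ B := (sr_mean' hU cg).trans (by rw [← hG]; exact hGB)
  have hDε : δ * (8 * B + 8 * l * B + 1) ≤ ε := by
    refine le_trans (mul_le_mul_of_nonneg_left ?_ hδ.le) hδε
    rw [hDdef]
    have := Real.sqrt_nonneg S
    linarith
  have hDε2 : Real.sqrt S * δ ≤ ε := by
    refine le_trans ?_ hδε
    rw [mul_comm δ D]
    refine mul_le_mul_of_nonneg_right ?_ hδ.le
    rw [hDdef]
    have h8 : 0 < 8 * l * B := by positivity
    linarith
  have hfin := sr_real hl hR0 hRu hRg hQ hX2 hX1 hVn hru hmr hmu hmg hrg hrr hδ hB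
    hDε hδ1
  obtain ⟨f1, f2, f3⟩ := hfin
  refine ⟨u, hu, hue, ?_, ?_, f3, ?_⟩
  · rw [Df_sub hV hg hu]
    exact f1
  · have hb := bochR hU.cd hU.conv hu
    have e1 : ∑ j, (Df V (pd j u) (pd j u) - l * Ex V (fun x => pd j u x ^ 2)) =
        ∑ j, Df V (pd j u) (pd j u) - l * Df V u u := by
      rw [Finset.sum_sub_distrib, ← Finset.mul_sum, Df]
      congr 2
      refine Finset.sum_congr rfl fun j _ => ?_
      congr 1
      funext x
      ring
    rw [e1]
    have f2' : Ex V (fun x => LL V u x ^ 2) - l * Df V u u ≤ l * Sf V l g + ε := f2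
    linarith
  · intro j
    exact (sr_last hU hδ hg hu hr hrr j).trans hDε2

end Pool.Agent.Lib.MP_6d896a_gt.UC.UR.UD
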