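import Mathlib
import Pool.Agent.Lib.MP_6d896a_gt.UD.Defs
import Pool.Agent.Lib.MP_6d896a_gt.UC.Basic
import Pool.Agent.Lib.MP_6d896a_gt.UR.RotR

/-!
Project UD, piece D0: invariant and balanced functions.
-/

set_option autoImplicit false
set_option linter.all false

namespace Pool.Agent.Lib.MP_6d896a_gt.UC.UR.UD

open MeasureTheory Filter Topology Set ProbabilityTheory
open scoped ENNReal NNReal ContDiff

variable {n : ℕ} {V f g u : Eu n → ℝ} {κ Λ S : ℝ} {J : Finset (Fin n)}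
  {Γ : Eu n ≃ₗᵢ[ℝ] Eu n} {q : ℕ}

lemma Inv.iter (h : Inv Γ f) (k : ℕ) (x : Eu n) : f ((⇑Γ)^[k] x) = f x := by
  induction k with
  | zero => rfl
  | succ k ih => rw [Function.iterate_succ_apply', h, ih]

private lemma Ex_one (hVi : Inv Γ V) (F : Eu n → ℝ) : Ex V (fun x => F (Γ x)) = Ex V F := by
  have h := Ex_iso Γ V F
  have e : (fun x => V (Γ x)) = V := funext hVi
  rwa [e] at h

lemma Ex_inv (hVi : Inv Γ V) (f : Eu n → ℝ) (k : ℕ) :
    Ex V (fun x => f ((⇑Γ)^[k] x)) = Ex V f := by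
  induction k with
  | zero => rfl
  | succ k ih =>
    rw [← ih]
    exact Ex_one hVi (fun x => f ((⇑Γ)^[k] x))

lemma TT_iter (hf : TT f) (k : ℕ) : TT (fun x => f ((⇑Γ)^[k] x)) := by
  induction k with
  | zero => exact hf
  | succ k ih => exact TT_iso Γ ih

lemma Df_inv (hV : Continuous V) (hVi : Inv Γ V) (hf : TT f) (k : ℕ) :
    Df V (fun x => f ((⇑Γ)^[k] x)) (fun x => f ((⇑Γ)^[k] x)) = Df V f f := by
  induction k with
  | zero => rfl
  | succ k ih =>
    rw [← ih]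
    have h := Df_iso Γ hV (TT_iter (Γ := Γ) hf k)
    have e : (fun x => V (Γ x)) = V := funext hVi
    rw [e] at h
    exact h

private lemma cs_iter (hc : HasCompactSupport f) (k : ℕ) :
    HasCompactSupport (fun x => f ((⇑Γ)^[k] x)) := by
  induction k with
  | zero => exact hc
  | succ k ih => exact ih.comp_homeomorph Γ.toHomeomorph

lemma Ex_bal (hq : 0 < q) (hVi : Inv Γ V) (hV : Continuous V) (hf : Continuous f)
    (hc : HasCompactSupport f) (hb : Bal Γ q f) : Ex V f = 0 := by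
  have hi : ∀ k : ℕ, Integrable (fun x => f ((⇑Γ)^[k] x) * Real.exp (-V x)) := fun k =>
    int_cs hV (hf.comp (Γ.continuous.iterate k)) (cs_iter hc k)
  have h1 : ∑ k ∈ Finset.range q, Ex V (fun x => f ((⇑Γ)^[k] x)) = 0 := by
    unfold Ex
    rw [← integral_finset_sum _ (fun k _ => hi k)]
    have e : (fun x => ∑ k ∈ Finset.range q, f ((⇑Γ)^[k] x) * Real.exp (-V x)) =
        fun _ => (0 : ℝ) := by
      funext x
      rw [← Finset.sum_mul, hb x, zero_mul]
    rw [e]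
    simp
  rw [Finset.sum_congr rfl (fun k _ => Ex_inv hVi f k), Finset.sum_const, Finset.card_range,
    nsmul_eq_mul] at h1
  have hq' : (q : ℝ) ≠ 0 := by exact_mod_cast hq.ne'
  exact (mul_eq_zero.mp h1).resolve_left hq'

/-- the coordinates in `J` of a vector and of its image -/
lemma Sy.norm_J (hs : Sy J Γ q) (x : Eu n) : ∑ j ∈ J, (Γ x) j ^ 2 = ∑ j ∈ J, x j ^ 2 := by
  have h1 : ‖Γ x‖ ^ 2 = ‖x‖ ^ 2 := by rw [Γ.norm_map]
  rw [EuclideanSpace.real_norm_sq_eq, EuclideanSpace.real_norm_sq_eq,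
    ← Finset.sum_add_sum_compl J, ← Finset.sum_add_sum_compl J] at h1
  have h2 : ∑ j ∈ Jᶜ, (Γ x) j ^ 2 = ∑ j ∈ Jᶜ, x j ^ 2 :=
    Finset.sum_congr rfl (fun j hj => by rw [hs.fix x j (Finset.mem_compl.mp hj)])
  linarith

private noncomputable def gr (f : Eu n → ℝ) (x : Eu n) : Eu n :=
  WithLp.toLp 2 (fun j => pd j f x)

private lemma gr_inner (f : Eu n → ℝ) (x v : Eu n) : inner ℝ (gr f x) v = fderiv ℝ f x v := by
  have hv : v = ∑ j, v j • ej j := by
    ext k
    simp [ej, Finset.sum_apply, Pi.single_apply]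
  conv_rhs => rw [hv]
  rw [map_sum]
  simp only [map_smul, smul_eq_mul]
  rw [PiLp.inner_apply]
  refine Finset.sum_congr rfl (fun j _ => ?_)
  simp [gr, pd]

private lemma gr_one (hf : TT f) (hfi : Inv Γ f) (x : Eu n) : gr f (Γ x) = Γ (gr f x) := by
  have h1 : fderiv ℝ f x =
      (fderiv ℝ f (Γ x)).comp (Γ.toContinuousLinearEquiv : Eu n →L[ℝ] Eu n) := by
    have h2 : HasFDerivAt f (fderiv ℝ f (Γ x)) (Γ x) := (hf.differentiable _).hasFDerivAt
    have h3 : HasFDerivAt (fun x => Γ x) (Γ.toContinuousLinearEquiv : Eu n →L[ℝ] Eu n) x :=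
      Γ.toContinuousLinearEquiv.hasFDerivAt
    have h4 := (h2.comp x h3).fderiv
    have e : (f ∘ fun x => Γ x) = f := funext hfi
    rw [e] at h4
    exact h4
  refine ext_inner_right ℝ (fun w => ?_)
  obtain ⟨v, rfl⟩ := Γ.surjective w
  rw [gr_inner, Γ.inner_map_map, gr_inner, h1]
  rfl

private lemma gr_iter (hf : TT f) (hfi : Inv Γ f) (k : ℕ) (x : Eu n) :
    gr f ((⇑Γ)^[k] x) = (⇑Γ)^[k] (gr f x) := by
  induction k with
  | zero => rfl
  | succ k ih => rw [Function.iterate_succ_apply', Function.iterate_succ_apply', gr_one hf hfi, ih]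

lemma pd_iter (hf : TT f) (k : ℕ) (m : Fin n) (x : Eu n) (hfi : Inv Γ f) :
    pd m f ((⇑Γ)^[k] x) = ((⇑Γ)^[k] (WithLp.toLp 2 (fun j => pd j f x))) m := by
  have h := gr_iter hf hfi k x
  have h2 := congrArg (fun y : Eu n => y m) h
  exact h2

lemma pd_bal (hs : Sy J Γ q) (hu : TT u) (hui : Inv Γ u) {m : Fin n} (hm : m ∈ J) :
    Bal Γ q (pd m u) := by
  intro x
  rw [Finset.sum_congr rfl (fun k _ => pd_iter hu k m x hui)]
  exact hs.sum _ m hm

lemma pd_inv (hs : Sy J Γ q) (hu : TT u) (hui : Inv Γ u) (x : Eu n) :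
    ∑ m ∈ J, pd m u (Γ x) ^ 2 = ∑ m ∈ J, pd m u x ^ 2 := by
  have h := hs.norm_J (WithLp.toLp 2 (fun j => pd j u x))
  rw [Finset.sum_congr rfl (fun m _ => by rw [show pd m u (Γ x) =
    (Γ (WithLp.toLp 2 (fun j => pd j u x))) m from pd_iter hu 1 m x hui])]
  exact h

end Pool.Agent.Lib.MP_6d896a_gt.UC.UR.UD
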