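import Mathlib
import Pool.Agent.Lib.MP_6d896a_gt.UD.Defs
import Pool.Agent.Lib.MP_6d896a_gt.UD.SymD
import Pool.Agent.Lib.MP_6d896a_gt.UD.StepD
import Pool.Agent.Lib.MP_6d896a_gt.UC.Basic

/-!
The regularisation step for potentials invariant under an isometry of finite order: the family of
the derivatives in the directions moved by the isometry is almost extremal again.
-/

set_option autoImplicit false
set_option linter.all false

namespace Pool.Agent.Lib.MP_6d896a_gt.UC.UR.UD

open MeasureTheory Filter Topology Set ProbabilityTheory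
open scoped ENNReal NNReal ContDiff

variable {n : ℕ} {V f g u : Eu n → ℝ} {κ Λ S : ℝ} {J : Finset (Fin n)}
  {Γ : Eu n ≃ₗᵢ[ℝ] Eu n} {q : ℕ}

/-- the derivatives in the directions moved by the isometry have mean zero -/
private lemma core_mean_zero (hV : Continuous V) (hs : Sy J Γ q) (hVi : Inv Γ V) (hu : TT u)
    (hui : Inv Γ u) {m : Fin n} (hm : m ∈ J) : Ex V (pd m u) = 0 :=
  Ex_bal hs.qpos hVi hV (hu.pd m).continuous (hu.pd m).cs (pd_bal hs hu hui hm)

/-- the excess of the energy of a test function is nonnegative -/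
private lemma core_sf_nonneg {c : ℝ} (hc : 0 < c) (hP : HP V c) (hg : TT g) :
    0 ≤ Sf V (1 / c) g := by
  have h := hP g hg
  unfold Sf
  rw [sub_nonneg, one_div, inv_mul_le_iff₀ hc]
  exact h

/-- Cauchy-Schwarz for a centred linear functional and a test function -/
private lemma core_cov (hU : GP V κ Λ S) {c : ℝ} (hc : 0 < c) (hP : HP V c) {h : Eu n → ℝ}
    (hh : TT h) {w : Eu n} (hw : ‖w‖ ≤ 1) :
    (Ex V (fun x => inner ℝ x w * h x)) ^ 2 ≤ S * (c * Df V h h) := by
  have hVc : Continuous V := hU.cd.continuous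
  have hlin : Continuous (fun x : Eu n => inner ℝ x w) := by fun_prop
  set m := Ex V h with hm
  have hE : Continuous (fun x => Real.exp (-V x)) := Real.continuous_exp.comp hVc.neg
  have hEn : ∀ x, 0 ≤ Real.exp (-V x) := fun x => (Real.exp_pos _).le
  -- integrability
  have i0 : Integrable (fun x : Eu n => inner ℝ x w ^ 2 * Real.exp (-V x)) := by
    have hcont : Continuous (fun x : Eu n => inner ℝ x w ^ 2 * Real.exp (-V x)) :=
      (hlin.pow 2).mul hE
    apply (hU.momi.mul_const (‖w‖ ^ 2)).mono' hcont.aestronglyMeasurable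
    refine Filter.Eventually.of_forall fun x => ?_
    rw [Real.norm_eq_abs, abs_of_nonneg (mul_nonneg (sq_nonneg _) (hEn x))]
    have h1 : inner ℝ x w ^ 2 ≤ (‖x‖ * ‖w‖) ^ 2 := by
      rw [← sq_abs]
      exact pow_le_pow_left₀ (abs_nonneg _) (abs_real_inner_le_norm x w) 2
    calc inner ℝ x w ^ 2 * Real.exp (-V x) ≤ (‖x‖ * ‖w‖) ^ 2 * Real.exp (-V x) :=
          mul_le_mul_of_nonneg_right h1 (hEn x)
      _ = ‖x‖ ^ 2 * Real.exp (-V x) * ‖w‖ ^ 2 := by ring
  have i1 : Integrable (fun x : Eu n => inner ℝ x w * Real.exp (-V x)) := by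
    have i1' : Integrable (fun x : Eu n => (1 + inner ℝ x w ^ 2) * Real.exp (-V x)) := by
      have := hU.int.add i0
      refine this.congr (Filter.Eventually.of_forall fun x => ?_)
      simp only [Pi.add_apply]; ring
    have hcont : Continuous (fun x : Eu n => inner ℝ x w * Real.exp (-V x)) := hlin.mul hE
    apply i1'.mono' hcont.aestronglyMeasurable
    refine Filter.Eventually.of_forall fun x => ?_
    rw [Real.norm_eq_abs, abs_mul, abs_of_nonneg (hEn x)]
    apply mul_le_mul_of_nonneg_right _ (hEn x)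
    nlinarith [sq_nonneg (|inner ℝ x w| - 1), sq_abs (inner ℝ x w : ℝ), abs_nonneg (inner ℝ x w : ℝ)]
  have i2 : Integrable (fun x => inner ℝ x w * h x * Real.exp (-V x)) :=
    int_cs hVc (hlin.mul hh.continuous) hh.cs.mul_left
  have i3 : Integrable (fun x => (h x - m) ^ 2 * Real.exp (-V x)) := by
    have := ((hh.sq.int hVc).sub ((hh.int hVc).const_mul (2 * m))).add (hU.int.const_mul (m ^ 2))
    refine this.congr (Filter.Eventually.of_forall fun x => ?_)
    simp only [Pi.add_apply, Pi.sub_apply]; ring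
  have i4 : Integrable (fun x => inner ℝ x w * (h x - m) * Real.exp (-V x)) := by
    have := i2.sub (i1.const_mul m)
    refine this.congr (Filter.Eventually.of_forall fun x => ?_)
    simp only [Pi.sub_apply]; ring
  -- centring
  have e1 : Ex V (fun x => inner ℝ x w * (h x - m)) = Ex V (fun x => inner ℝ x w * h x) := by
    have i5 : Integrable (fun x => m * inner ℝ x w * Real.exp (-V x)) := by
      have := i1.const_mul m
      refine this.congr (Filter.Eventually.of_forall fun x => ?_)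
      simp only []; ring
    have e : (fun x => inner ℝ x w * (h x - m)) =
        fun x : Eu n => inner ℝ x w * h x - m * inner ℝ x w := by funext x; ring
    rw [e, Ex_sub i2 i5, Ex_const_mul, hU.cen w]; ring
  have e2 : Ex V (fun x => (h x - m) ^ 2) = Ex V (fun x => h x ^ 2) - m ^ 2 := by
    have i6 : Integrable (fun x => (2 * m) * h x * Real.exp (-V x)) := by
      have := (hh.int hVc).const_mul (2 * m)
      refine this.congr (Filter.Eventually.of_forall fun x => ?_)
      simp only []; ring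
    have i7 : Integrable (fun x => (h x ^ 2 - (2 * m) * h x) * Real.exp (-V x)) := by
      have := (hh.sq.int hVc).sub i6
      refine this.congr (Filter.Eventually.of_forall fun x => ?_)
      simp only [Pi.sub_apply]; ring
    have i8 : Integrable (fun x => m ^ 2 * (1 : ℝ) * Real.exp (-V x)) := by
      have := hU.int.const_mul (m ^ 2)
      refine this.congr (Filter.Eventually.of_forall fun x => ?_)
      simp only []; ring
    have e : (fun x => (h x - m) ^ 2) = fun x => (h x ^ 2 - (2 * m) * h x) + m ^ 2 * (1 : ℝ) := by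
      funext x; ring
    rw [e, Ex_add i7 i8, Ex_sub (hh.sq.int hVc) i6, Ex_const_mul, Ex_const_mul, hU.mass, ← hm]
    ring
  have hcs := Ex_cs (f := fun x => inner ℝ x w) (g := fun x => h x - m) i0 i3 i4
  rw [e1, e2] at hcs
  have h1 : Ex V (fun x => inner ℝ x w ^ 2) ≤ S := by
    have h2 := hU.mom w
    have h3 : S * ‖w‖ ^ 2 ≤ S * 1 := by
      apply mul_le_mul_of_nonneg_left _ hU.Spos.le
      exact pow_le_one₀ (norm_nonneg _) hw
    linarith
  have h4 : Ex V (fun x => h x ^ 2) - m ^ 2 ≤ c * Df V h h := hP h hh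
  have h5 : 0 ≤ Ex V (fun x => h x ^ 2) - m ^ 2 := by
    rw [← e2]; exact Ex_nonneg fun x => sq_nonneg _
  calc (Ex V (fun x => inner ℝ x w * h x)) ^ 2
      ≤ Ex V (fun x => inner ℝ x w ^ 2) * (Ex V (fun x => h x ^ 2) - m ^ 2) := hcs
    _ ≤ S * (Ex V (fun x => h x ^ 2) - m ^ 2) := mul_le_mul_of_nonneg_right h1 h5
    _ ≤ S * (c * Df V h h) := mul_le_mul_of_nonneg_left h4 hU.Spos.le

/-- real analysis: combination of the estimates -/
private lemma core_real {l A B q S s e t N : ℝ} (hl : 0 ≤ l) (he : 0 ≤ e) (hA : 0 ≤ A)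
    (hN : 0 ≤ N) (ht : 0 ≤ t)
    (h1 : e ^ 2 ≤ e * (l * (A + B) + N * t)) (hB : l * B ^ 2 ≤ S * (s + t)) :
    l * e ^ 2 ≤ 2 * l ^ 3 * A ^ 2 + 4 * (l ^ 2 * (S * (s + t))) + 4 * (l * (N ^ 2 * t ^ 2)) := by
  have h2 : e ^ 2 ≤ (l * (A + B) + N * t) ^ 2 := by
    nlinarith [sq_nonneg (e - (l * (A + B) + N * t))]
  have h3 : (l * (A + B) + N * t) ^ 2 ≤ 2 * (l * A) ^ 2 + 4 * (l * B) ^ 2 + 4 * (N * t) ^ 2 := by
    nlinarith [sq_nonneg (l * A - (l * B + N * t)), sq_nonneg (l * B - N * t)]
  have h4 : l * e ^ 2 ≤ l * (2 * (l * A) ^ 2 + 4 * (l * B) ^ 2 + 4 * (N * t) ^ 2) :=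
    mul_le_mul_of_nonneg_left (h2.trans h3) hl
  have h5 : l ^ 2 * (l * B ^ 2) ≤ l ^ 2 * (S * (s + t)) :=
    mul_le_mul_of_nonneg_left hB (sq_nonneg l)
  nlinarith

theorem coreD (hU : GP V κ Λ S) (hs : Sy J Γ q) (hVi : Inv Γ V) {c : ℝ} (hc : 0 < c)
    (hP : HP V c) (hg : TT g) (hgi : Inv Γ g) (hg0 : ∀ x, 0 ≤ g x) {ε : ℝ} (hε : 0 < ε) :
    ∃ (u : Eu n → ℝ) (w : Eu n), TT u ∧ Inv Γ u ∧ (∀ j ∈ J, w j = 0) ∧ ‖w‖ ≤ 1 ∧
      Df V (fun x => g x - u x) (fun x => g x - u x) ≤ Sf V (1 / c) g + ε ∧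
      Df V u u ≤ (1 / c) * Ex V (fun x => g x ^ 2) + ε ∧
      ∑ m ∈ J, (Df V (pd m u) (pd m u) - (1 / c) * Ex V (fun x => pd m u x ^ 2)) ≤
        (1 / c) * Sf V (1 / c) g + 4 * (1 / c) ^ 3 * (Ex V (fun x => |inner ℝ x w| * g x)) ^ 2 +
          4 * S * (1 / c) ^ 2 * Sf V (1 / c) g + ε := by
  set l : ℝ := 1 / c with hl
  have hl0 : 0 < l := by positivity
  have hS := hU.Spos
  have hVc : Continuous V := hU.cd.continuous
  set s : ℝ := Sf V l g with hsdef
  have hs0 : 0 ≤ s := core_sf_nonneg hc hP hg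
  -- the small parameter
  set D : ℝ := 1 + 4 * l ^ 2 * S + 4 * l * (n : ℝ) with hD
  have hD1 : 1 ≤ D := by
    have : 0 ≤ 4 * l ^ 2 * S + 4 * l * (n : ℝ) := by positivity
    linarith
  have hD0 : 0 < D := by linarith
  set t : ℝ := min 1 (ε / D) with ht
  have ht0 : 0 < t := lt_min one_pos (by positivity)
  have ht1 : t ≤ 1 := min_le_left _ _
  have htε : t * D ≤ ε := by
    have : t ≤ ε / D := min_le_right _ _
    rwa [le_div_iff₀ hD0] at this
  have htε' : t ≤ ε := by nlinarith
  obtain ⟨u, hu, hui, hu1, hu2, hu3, hu4⟩ := stepD hU hc hP hs.qpos hs.per hVi hg hgi ht0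
  rw [← hl] at hu1 hu2 hu3 hu4
  rw [← hsdef] at hu1 hu2
  -- the means of the derivatives
  set e : Eu n := WithLp.toLp 2 (fun j => Ex V (pd j u)) with he
  have hej : ∀ j, e j = Ex V (pd j u) := fun j => rfl
  have hei : ∀ i ∈ J, e i = 0 := fun i hi => by
    rw [hej]; exact core_mean_zero hVc hs hVi hu hui hi
  have hnorm : ‖e‖ ^ 2 = ∑ j, e j ^ 2 := by
    rw [EuclideanSpace.norm_sq_eq]
    simp only [Real.norm_eq_abs, sq_abs]
  -- the direction
  set w : Eu n := (‖e‖)⁻¹ • e with hw
  have hwi : ∀ i ∈ J, w i = 0 := fun i hi => by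
    rw [hw]
    show ‖e‖⁻¹ * e i = 0
    rw [hei i hi, mul_zero]
  have hw1 : ‖w‖ ≤ 1 := by
    rw [hw, norm_smul, norm_inv, norm_norm]
    exact inv_mul_le_one
  have hew : ‖e‖ • w = e := by
    rw [hw]
    by_cases h0 : ‖e‖ = 0
    · rw [h0, zero_smul]
      exact (norm_eq_zero.1 h0).symm
    · rw [smul_smul, mul_inv_cancel₀ h0, one_smul]
  refine ⟨u, w, hu, hui, hwi, hw1, by linarith, by linarith, ?_⟩
  -- the Poincare inequality for the other derivatives
  have hsum : ∑ m ∈ J, (Df V (pd m u) (pd m u) - l * Ex V (fun x => pd m u x ^ 2)) ≤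
      l * s + t + l * ‖e‖ ^ 2 := by
    have h1 : ∀ j, - (l * e j ^ 2) ≤ Df V (pd j u) (pd j u) - l * Ex V (fun x => pd j u x ^ 2) := by
      intro j
      have h2 := core_sf_nonneg hc hP (hu.pd j)
      unfold Sf at h2
      rw [← hl, ← hej] at h2
      nlinarith
    have h3 := Finset.sum_add_sum_compl J
      (fun j => Df V (pd j u) (pd j u) - l * Ex V (fun x => pd j u x ^ 2))
    have h4 : ∑ j ∈ Jᶜ, - (l * e j ^ 2) ≤
        ∑ j ∈ Jᶜ, (Df V (pd j u) (pd j u) - l * Ex V (fun x => pd j u x ^ 2)) :=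
      Finset.sum_le_sum fun j _ => h1 j
    have h5 := Finset.sum_add_sum_compl J (fun j => - (l * e j ^ 2))
    have h6 : ∑ j, - (l * e j ^ 2) = - (l * ‖e‖ ^ 2) := by
      rw [hnorm, Finset.sum_neg_distrib, Finset.mul_sum]
    have h7 : 0 ≤ κ * Df V u u := mul_nonneg hU.kpos.le (Df_nonneg V u)
    have h8 : ∑ j ∈ J, - (l * e j ^ 2) = 0 :=
      Finset.sum_eq_zero fun i hi => by rw [hei i hi]; ring
    rw [h6, h8, zero_add] at h5
    rw [h5] at h4
    linarith
  -- the estimate of the means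
  set h : Eu n → ℝ := fun x => g x - u x with hh
  have hhT : TT h := hg.sub hu
  set A : ℝ := Ex V (fun x => |inner ℝ x w| * g x) with hA
  set B : ℝ := |Ex V (fun x => inner ℝ x w * h x)| with hB
  have hA0 : 0 ≤ A := Ex_nonneg fun x => mul_nonneg (abs_nonneg _) (hg0 x)
  have hcov := core_cov hU hc hP hhT hw1
  have hB2 : l * B ^ 2 ≤ S * (s + t) := by
    rw [hB, sq_abs]
    have h1 : l * (Ex V (fun x => inner ℝ x w * h x)) ^ 2 ≤ l * (S * (c * Df V h h)) :=
      mul_le_mul_of_nonneg_left hcov hl0.le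
    have h2 : l * (S * (c * Df V h h)) = S * Df V h h := by
      rw [hl]; field_simp
    rw [h2] at h1
    exact h1.trans (mul_le_mul_of_nonneg_left hu1 hS.le)
  have hlinc : ∀ j : Fin n, Continuous (fun x : Eu n => x j) := fun j =>
    (EuclideanSpace.proj (𝕜 := ℝ) j).continuous
  have hlin : Continuous (fun x : Eu n => (inner ℝ x w : ℝ)) := by fun_prop
  have h2gu : TT (fun x => 2 * g x - u x) := (hg.const_mul 2).sub hu
  have hkey : ‖e‖ ^ 2 ≤ ‖e‖ * (l * (A + B) + Real.sqrt n * t) := by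
    -- first: replace the means
    have h1 : ∀ j, e j ^ 2 ≤ e j * (l * Ex V (fun x => x j * (2 * g x - u x))) + |e j| * t := by
      intro j
      have h2 := hu4 j
      rw [← hej] at h2
      have h3 : e j * (e j - l * Ex V (fun x => x j * (2 * g x - u x))) ≤ |e j| * t := by
        refine (le_abs_self _).trans ?_
        rw [abs_mul]
        exact mul_le_mul_of_nonneg_left h2 (abs_nonneg _)
      nlinarith
    have h4 : ‖e‖ ^ 2 ≤ ∑ j, (e j * (l * Ex V (fun x => x j * (2 * g x - u x))) + |e j| * t) := by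
      rw [hnorm]; exact Finset.sum_le_sum fun j _ => h1 j
    rw [Finset.sum_add_distrib, ← Finset.sum_mul] at h4
    -- the sum of absolute values
    have h5 : ∑ j, |e j| ≤ Real.sqrt n * ‖e‖ := by
      have h6 : (∑ j, |e j|) ^ 2 ≤ (n : ℝ) * ‖e‖ ^ 2 := by
        have := sq_sum_le_card_mul_sum_sq (s := Finset.univ) (f := fun j : Fin n => |e j|)
        simp only [sq_abs, Finset.card_univ, Fintype.card_fin] at this
        rw [hnorm]; exact this
      have h7 : (Real.sqrt n * ‖e‖) ^ 2 = (n : ℝ) * ‖e‖ ^ 2 := by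
        rw [mul_pow, Real.sq_sqrt (Nat.cast_nonneg n)]
      rw [← h7] at h6
      exact le_of_sq_le_sq h6 (by positivity)
    -- the main term
    have h8 : ∑ j, e j * (l * Ex V (fun x => x j * (2 * g x - u x))) =
        ‖e‖ * (l * Ex V (fun x => inner ℝ x w * (2 * g x - u x))) := by
      have i1 : ∀ j, Integrable (fun x => (e j * (x j * (2 * g x - u x))) * Real.exp (-V x)) := by
        intro j
        exact int_cs hVc (continuous_const.mul ((hlinc j).mul h2gu.continuous))
          (HasCompactSupport.mul_left (f := fun _ => e j)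
            (f' := fun x => x j * (2 * g x - u x)) h2gu.cs.mul_left)
      have e1 : ∑ j, e j * (l * Ex V (fun x => x j * (2 * g x - u x))) =
          l * ∑ j, Ex V (fun x => e j * (x j * (2 * g x - u x))) := by
        rw [Finset.mul_sum]
        refine Finset.sum_congr rfl fun j _ => ?_
        rw [Ex_const_mul]; ring
      rw [e1, ← Ex_sum Finset.univ (fun j _ => i1 j)]
      have e2 : (fun x : Eu n => ∑ j, e j * (x j * (2 * g x - u x))) =
          fun x => ‖e‖ * (inner ℝ x w * (2 * g x - u x)) := by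
        funext x
        have e3 : ∑ j, e j * x j = inner ℝ x e := by
          rw [PiLp.inner_apply]
          refine Finset.sum_congr rfl fun j _ => ?_
          simp [mul_comm]
        have e4 : (inner ℝ x e : ℝ) = ‖e‖ * inner ℝ x w := by
          conv_lhs => rw [← hew]
          rw [inner_smul_right]
        calc ∑ j, e j * (x j * (2 * g x - u x)) = (∑ j, e j * x j) * (2 * g x - u x) := by
              rw [Finset.sum_mul]
              exact Finset.sum_congr rfl fun j _ => by ring
          _ = ‖e‖ * (inner ℝ x w * (2 * g x - u x)) := by rw [e3, e4]; ring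
      rw [e2, Ex_const_mul]; ring
    -- the decomposition of the main term
    have h9 : Ex V (fun x => inner ℝ x w * (2 * g x - u x)) ≤ A + B := by
      have i1 : Integrable (fun x => (inner ℝ x w * g x) * Real.exp (-V x)) :=
        int_cs hVc (hlin.mul hg.continuous) hg.cs.mul_left
      have i2 : Integrable (fun x => (inner ℝ x w * h x) * Real.exp (-V x)) :=
        int_cs hVc (hlin.mul hhT.continuous) hhT.cs.mul_left
      have i3 : Integrable (fun x => (|inner ℝ x w| * g x) * Real.exp (-V x)) :=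
        int_cs hVc (hlin.abs.mul hg.continuous) hg.cs.mul_left
      have e1 : (fun x => inner ℝ x w * (2 * g x - u x)) =
          fun x : Eu n => inner ℝ x w * g x + inner ℝ x w * h x := by
        funext x; rw [hh]; ring
      rw [e1, Ex_add i1 i2]
      have h10 : Ex V (fun x => inner ℝ x w * g x) ≤ A := by
        apply Ex_mono i1 i3
        intro x
        exact mul_le_mul_of_nonneg_right (le_abs_self _) (hg0 x)
      have h11 : Ex V (fun x => inner ℝ x w * h x) ≤ B := le_abs_self _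
      linarith
    have h12 : ‖e‖ * (l * Ex V (fun x => inner ℝ x w * (2 * g x - u x))) ≤
        ‖e‖ * (l * (A + B)) :=
      mul_le_mul_of_nonneg_left (mul_le_mul_of_nonneg_left h9 hl0.le) (norm_nonneg _)
    have h13 : (∑ j, |e j|) * t ≤ (Real.sqrt n * ‖e‖) * t :=
      mul_le_mul_of_nonneg_right h5 ht0.le
    rw [h8] at h4
    linarith
  have hreal := core_real (S := S) (s := s) (q := 0) hl0.le (norm_nonneg e) hA0
    (Real.sqrt_nonneg n) ht0.le hkey hB2
  rw [Real.sq_sqrt (Nat.cast_nonneg n)] at hreal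
  -- the final comparison
  have h14 : 2 * l ^ 3 * A ^ 2 ≤ 4 * l ^ 3 * A ^ 2 := by
    have : 0 ≤ l ^ 3 * A ^ 2 := by positivity
    linarith
  have h15 : l * ((n : ℝ) * t ^ 2) ≤ l * ((n : ℝ) * t) := by
    apply mul_le_mul_of_nonneg_left _ hl0.le
    apply mul_le_mul_of_nonneg_left _ (Nat.cast_nonneg n)
    nlinarith
  have h16 : t * D = t + 4 * (l ^ 2 * (S * t)) + 4 * (l * ((n : ℝ) * t)) := by
    rw [hD]; ring
  have h17 : 4 * (l ^ 2 * (S * (s + t))) = 4 * S * l ^ 2 * s + 4 * (l ^ 2 * (S * t)) := by ring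
  linarith

end Pool.Agent.Lib.MP_6d896a_gt.UC.UR.UD
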