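import Mathlib
import Pool.Agent.Lib.MP_6d896a_gt.UD.Defs
import Pool.Agent.Lib.MP_6d896a_gt.UC.Basic

/-!
Project UD, piece D5: dilations, exchange of the integrals, the radial chain inequality.
-/

set_option autoImplicit false
set_option linter.all false

namespace Pool.Agent.Lib.MP_6d896a_gt.UC.UR.UD

open MeasureTheory Filter Topology Set ProbabilityTheory
open scoped ENNReal NNReal ContDiff

variable {n : ℕ} {V f g u : Eu n → ℝ} {κ Λ S : ℝ} {J : Finset (Fin n)}
  {Γ : Eu n ≃ₗᵢ[ℝ] Eu n} {q : ℕ}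

lemma rr_nonneg (J : Finset (Fin n)) (x : Eu n) : 0 ≤ rr J x := Real.sqrt_nonneg _

lemma rr_sq (J : Finset (Fin n)) (x : Eu n) : rr J x ^ 2 = ∑ j ∈ J, x j ^ 2 :=
  Real.sq_sqrt (Finset.sum_nonneg fun j _ => sq_nonneg _)

lemma rr_cont (J : Finset (Fin n)) : Continuous (rr J) := by
  unfold rr
  exact Real.continuous_sqrt.comp (continuous_finset_sum _ fun j _ => by fun_prop)

lemma exchD_apply (J : Finset (Fin n)) (t : ℝ) (x : Eu n) (j : Fin n) :
    Dl J t x j = if j ∈ J then t * x j else x j := rfl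

lemma rr_Dl (J : Finset (Fin n)) {t : ℝ} (ht : 0 ≤ t) (x : Eu n) :
    rr J (Dl J t x) = t * rr J x := by
  unfold rr
  have h : ∑ j ∈ J, (Dl J t x) j ^ 2 = t ^ 2 * ∑ j ∈ J, x j ^ 2 := by
    rw [Finset.mul_sum]
    refine Finset.sum_congr rfl fun j hj => ?_
    rw [exchD_apply, if_pos hj]
    ring
  rw [h, Real.sqrt_mul (sq_nonneg t), Real.sqrt_sq ht]

lemma Dl_Dl (J : Finset (Fin n)) (s t : ℝ) (x : Eu n) : Dl J s (Dl J t x) = Dl J (s * t) x := by
  ext j
  simp only [exchD_apply]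
  split_ifs
  · ring
  · rfl

lemma Dl_one (J : Finset (Fin n)) (x : Eu n) : Dl J 1 x = x := by
  ext j
  simp only [exchD_apply]
  split_ifs
  · ring
  · rfl

lemma Dl_cont (J : Finset (Fin n)) : Continuous (fun p : ℝ × Eu n => Dl J p.1 p.2) := by
  unfold Dl
  refine (PiLp.continuous_toLp 2 _).comp (continuous_pi fun j => ?_)
  by_cases hj : j ∈ J
  · simp only [if_pos hj]
    fun_prop
  · simp only [if_neg hj]
    fun_prop

lemma Uk_meas (hV : Continuous V) (J : Finset (Fin n)) (k : ℕ) : Measurable (Uk V J k) := by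
  induction k with
  | zero =>
    have h0 : Uk V J 0 = fun x => ENNReal.ofReal (Real.exp (-V x)) := by
      funext x
      rw [Uk]
    rw [h0]
    exact (Real.continuous_exp.comp hV.neg).measurable.ennreal_ofReal
  | succ k ih =>
    have h0 : Uk V J (k + 1) = fun x => ENNReal.ofReal (rr J x) *
        ∫⁻ t in Ioi (1 : ℝ), ENNReal.ofReal (t ^ (J.card - 1)) * Uk V J k (Dl J t x) := by
      funext x
      rw [Uk]
    rw [h0]
    refine (rr_cont J).measurable.ennreal_ofReal.mul ?_
    have h : Measurable (fun p : Eu n × ℝ => ENNReal.ofReal (p.2 ^ (J.card - 1)) *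
        Uk V J k (Dl J p.2 p.1)) := by
      refine Measurable.mul ?_ ?_
      · exact (by fun_prop : Continuous fun p : Eu n × ℝ =>
          p.2 ^ (J.card - 1)).measurable.ennreal_ofReal
      · exact ih.comp ((Dl_cont J).comp (continuous_snd.prodMk continuous_fst)).measurable
    exact h.lintegral_prod_right'

/-- the dilation as a linear map -/
private noncomputable def DL (J : Finset (Fin n)) (t : ℝ) : Eu n →ₗ[ℝ] Eu n where
  toFun := Dl J t
  map_add' x y := by
    ext j
    simp only [exchD_apply, PiLp.add_apply]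
    split_ifs <;> ring
  map_smul' c x := by
    ext j
    simp only [exchD_apply, PiLp.smul_apply, smul_eq_mul, RingHom.id_apply]
    split_ifs <;> ring

private lemma DL_det (J : Finset (Fin n)) (t : ℝ) : LinearMap.det (DL J t) = t ^ J.card := by
  have hb := (EuclideanSpace.basisFun (Fin n) ℝ).toBasis
  rw [← LinearMap.det_toMatrix (EuclideanSpace.basisFun (Fin n) ℝ).toBasis (DL J t)]
  have h : LinearMap.toMatrix (EuclideanSpace.basisFun (Fin n) ℝ).toBasis
      (EuclideanSpace.basisFun (Fin n) ℝ).toBasis (DL J t) =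
      Matrix.diagonal (fun j => if j ∈ J then t else 1) := by
    ext i j
    rw [LinearMap.toMatrix_apply]
    simp only [OrthonormalBasis.coe_toBasis, OrthonormalBasis.coe_toBasis_repr_apply,
      EuclideanSpace.basisFun_repr, EuclideanSpace.basisFun_apply, Matrix.diagonal_apply]
    show Dl J t (EuclideanSpace.single j 1) i = _
    rw [exchD_apply, EuclideanSpace.single_apply]
    by_cases hij : i = j
    · simp [hij]
    · simp [hij]
  rw [h, Matrix.det_diagonal, Finset.prod_ite_mem]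
  simp

private lemma exch_lin (J : Finset (Fin n)) {s : ℝ} (hs : 0 < s) {F : Eu n → ℝ≥0∞}
    (hF : Measurable F) :
    ∫⁻ x, F x = ENNReal.ofReal (s ^ J.card) * ∫⁻ y, F (Dl J s y) := by
  have hd : LinearMap.det (DL J s) ≠ 0 := by
    rw [DL_det]; positivity
  have h1 : Measure.map (DL J s) (volume : Measure (Eu n)) =
      ENNReal.ofReal |(LinearMap.det (DL J s))⁻¹| • (volume : Measure (Eu n)) :=
    Measure.map_linearMap_addHaar_eq_smul_addHaar volume hd
  have hm : Measurable (DL J s) := (LinearMap.continuous_of_finiteDimensional (DL J s)).measurable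
  have h2 : ∫⁻ y, F (Dl J s y) = ∫⁻ x, F x ∂(Measure.map (DL J s) volume) :=
    (lintegral_map hF hm).symm
  rw [h2, h1, lintegral_smul_measure, DL_det, smul_eq_mul, ← mul_assoc,
    ← ENNReal.ofReal_mul (by positivity), abs_of_pos (by positivity),
    mul_inv_cancel₀ (by positivity), ENNReal.ofReal_one, one_mul]

/-- exchange of the order of integration -/
theorem exchD {G : Eu n → Eu n → ℝ≥0∞} (hG : Measurable (fun p : Eu n × Eu n => G p.1 p.2)) :
    ∫⁻ x, ∫⁻ t in Ioo (0 : ℝ) 1, G x (Dl J t x) =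
      ∫⁻ y, ∫⁻ t in Ioi (1 : ℝ), ENNReal.ofReal (t ^ J.card / t ^ 2) * G (Dl J t y) y := by
  have hDm : Measurable (fun p : ℝ × Eu n => Dl J p.1 p.2) := (Dl_cont J).measurable
  have hDs : ∀ s : ℝ, Measurable (fun y : Eu n => Dl J s y) := fun s =>
    hDm.comp (measurable_const.prodMk measurable_id)
  have h1 : ∫⁻ x, ∫⁻ t in Ioo (0 : ℝ) 1, G x (Dl J t x) =
      ∫⁻ t in Ioo (0 : ℝ) 1, ∫⁻ x, G x (Dl J t x) := by
    refine lintegral_lintegral_swap ?_
    exact (hG.comp (measurable_fst.prodMk (hDm.comp measurable_swap))).aemeasurable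
  have h2 : ∫⁻ y, ∫⁻ t in Ioi (1 : ℝ), ENNReal.ofReal (t ^ J.card / t ^ 2) * G (Dl J t y) y =
      ∫⁻ t in Ioi (1 : ℝ), ∫⁻ y, ENNReal.ofReal (t ^ J.card / t ^ 2) * G (Dl J t y) y := by
    refine lintegral_lintegral_swap ?_
    refine Measurable.aemeasurable ?_
    refine Measurable.mul ?_ ?_
    · exact ((measurable_snd.pow_const _).div (measurable_snd.pow_const _)).ennreal_ofReal
    · exact hG.comp ((hDm.comp measurable_swap).prodMk measurable_fst)
  have hGs : ∀ s : ℝ, Measurable (fun y : Eu n => G (Dl J s y) y) := fun s =>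
    hG.comp ((hDs s).prodMk measurable_id)
  set h : ℝ → ℝ≥0∞ := fun s => ∫⁻ y, G (Dl J s y) y with hh
  have h3 : ∀ t ∈ Ioo (0 : ℝ) 1, ∫⁻ x, G x (Dl J t x) =
      ENNReal.ofReal (t⁻¹ ^ J.card) * h t⁻¹ := by
    intro t ht
    have ht0 : 0 < t := ht.1
    rw [exch_lin J (s := t⁻¹) (by positivity) (F := fun x => G x (Dl J t x))
      (hG.comp (measurable_id.prodMk (hDs t)))]
    congr 1
    refine lintegral_congr fun y => ?_
    rw [Dl_Dl, mul_inv_cancel₀ ht0.ne', Dl_one]
  have h4 : ∀ s : ℝ, ∫⁻ y, ENNReal.ofReal (s ^ J.card / s ^ 2) * G (Dl J s y) y =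
      ENNReal.ofReal (s ^ J.card / s ^ 2) * h s := fun s => lintegral_const_mul _ (hGs s)
  have himg : Ioi (1 : ℝ) = (fun t : ℝ => t⁻¹) '' Ioo 0 1 := by
    ext s
    constructor
    · intro hs
      have hs1 : (1 : ℝ) < s := hs
      exact ⟨s⁻¹, ⟨by positivity, inv_lt_one_of_one_lt₀ hs1⟩, inv_inv s⟩
    · rintro ⟨t, ht, rfl⟩
      exact (one_lt_inv₀ ht.1).2 ht.2
  have hder : ∀ t ∈ Ioo (0 : ℝ) 1,
      HasDerivWithinAt (fun t : ℝ => t⁻¹) (-(t ^ 2)⁻¹) (Ioo 0 1) t := fun t ht =>
    (hasDerivAt_inv (ne_of_gt ht.1)).hasDerivWithinAt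
  have hinj : InjOn (fun t : ℝ => t⁻¹) (Ioo 0 1) := fun a _ b _ hab => inv_injective hab
  rw [h1, h2]
  simp only [h4]
  rw [himg, lintegral_image_eq_lintegral_abs_deriv_mul measurableSet_Ioo hder hinj]
  refine setLIntegral_congr_fun measurableSet_Ioo fun t ht => ?_
  have ht0 : 0 < t := ht.1
  show ∫⁻ x, G x (Dl J t x) = _
  rw [h3 t ht, ← mul_assoc, ← ENNReal.ofReal_mul (abs_nonneg _), abs_neg,
    abs_of_pos (by positivity)]
  congr 2
  field_simp

/-! ### the derivative along the dilations -/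

private lemma exch_deriv (hf : Differentiable ℝ f) (J : Finset (Fin n)) (x : Eu n) (s : ℝ) :
    HasDerivAt (fun s => f (Dl J s x)) (∑ m ∈ J, x m * pd m f (Dl J s x)) s := by
  set xJ : Eu n := ∑ m ∈ J, x m • (ej m : Eu n) with hxJ
  have hap : ∀ j, xJ j = if j ∈ J then x j else 0 := by
    intro j
    rw [hxJ]
    simp [ej, Pi.single_apply]
  have hD : (fun s => Dl J s x) = fun s => Dl J 0 x + s • xJ := by
    funext s
    ext j
    simp only [exchD_apply, PiLp.add_apply, PiLp.smul_apply, smul_eq_mul, hap]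
    split_ifs <;> ring
  have h1 : HasDerivAt (fun s => Dl J s x) xJ s := by
    rw [hD]
    simpa using ((hasDerivAt_id s).smul_const xJ).const_add (Dl J 0 x)
  have h2 := (hf (Dl J s x)).hasFDerivAt.comp_hasDerivAt s h1
  have h3 : fderiv ℝ f (Dl J s x) xJ = ∑ m ∈ J, x m * pd m f (Dl J s x) := by
    rw [hxJ, map_sum]
    refine Finset.sum_congr rfl fun m _ => ?_
    rw [map_smul, smul_eq_mul]
    rfl
  rw [h3] at h2
  exact h2

private lemma exch_le (J : Finset (Fin n)) (x z : Eu n) :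
    |∑ m ∈ J, x m * pd m f z| ≤ rr J x * Real.sqrt (∑ m ∈ J, pd m f z ^ 2) := by
  unfold rr
  rw [← Real.sqrt_mul (Finset.sum_nonneg fun j _ => sq_nonneg _), ← Real.sqrt_sq_eq_abs]
  exact Real.sqrt_le_sqrt (Finset.sum_mul_sq_le_sq_mul_sq _ _ _)

private lemma exch_gcont (hf : TT f) (J : Finset (Fin n)) :
    Continuous (fun z => Real.sqrt (∑ m ∈ J, pd m f z ^ 2)) :=
  Real.continuous_sqrt.comp (continuous_finset_sum _ fun m _ => ((hf.pd m).continuous.pow 2))

private lemma exch_pt (hf : TT f) (J : Finset (Fin n)) (x : Eu n) {a t : ℝ} (ha : 0 ≤ a)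
    (hat : a ≤ t) (ht : t ≤ 1) :
    ENNReal.ofReal |f x| ≤ ENNReal.ofReal |f (Dl J t x)| +
      ∫⁻ s in Ioo a 1, ENNReal.ofReal (rr J x * Real.sqrt (∑ m ∈ J, pd m f (Dl J s x) ^ 2)) := by
  have hDc : Continuous (fun s : ℝ => Dl J s x) :=
    (Dl_cont J).comp (continuous_id.prodMk continuous_const)
  set φ : ℝ → ℝ := fun s => ∑ m ∈ J, x m * pd m f (Dl J s x) with hφ
  have hφc : Continuous φ := continuous_finset_sum _ fun m _ =>
    continuous_const.mul ((hf.pd m).continuous.comp hDc)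
  set ψ : ℝ → ℝ := fun s => rr J x * Real.sqrt (∑ m ∈ J, pd m f (Dl J s x) ^ 2) with hψ
  have hψc : Continuous ψ := continuous_const.mul ((exch_gcont hf J).comp hDc)
  have hψ0 : ∀ s, 0 ≤ ψ s := fun s => mul_nonneg (rr_nonneg J x) (Real.sqrt_nonneg _)
  have h1 : ∫ s in t..1, φ s = f x - f (Dl J t x) := by
    have := intervalIntegral.integral_eq_sub_of_hasDerivAt (a := t) (b := 1)
      (f := fun s => f (Dl J s x)) (f' := φ) (fun s _ => exch_deriv hf.differentiable J x s)
      (hφc.intervalIntegrable _ _)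
    rw [this, Dl_one]
  have h2 : |f x - f (Dl J t x)| ≤ ∫ s in t..1, ψ s := by
    rw [← h1]
    refine (intervalIntegral.abs_integral_le_integral_abs ht).trans ?_
    exact intervalIntegral.integral_mono_on ht (hφc.abs.intervalIntegrable _ _)
      (hψc.intervalIntegrable _ _) fun s _ => exch_le J x _
  have h3 : ENNReal.ofReal (∫ s in t..1, ψ s) ≤ ∫⁻ s in Ioo a 1, ENNReal.ofReal (ψ s) := by
    rw [intervalIntegral.integral_of_le ht, integral_Ioc_eq_integral_Ioo,
      ofReal_integral_eq_lintegral_ofReal]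
    · exact lintegral_mono_set (Ioo_subset_Ioo_left hat)
    · exact (hψc.integrableOn_Icc (a := t) (b := 1)).mono_set Ioo_subset_Icc_self
    · exact ae_of_all _ hψ0
  have h4 : |f x| ≤ |f (Dl J t x)| + |f x - f (Dl J t x)| := by
    have := abs_add_le (f (Dl J t x)) (f x - f (Dl J t x))
    rwa [add_sub_cancel] at this
  calc ENNReal.ofReal |f x| ≤ ENNReal.ofReal (|f (Dl J t x)| + ∫ s in t..1, ψ s) :=
        ENNReal.ofReal_le_ofReal (h4.trans (by linarith))
    _ ≤ ENNReal.ofReal |f (Dl J t x)| + ENNReal.ofReal (∫ s in t..1, ψ s) :=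
        ENNReal.ofReal_add_le
    _ ≤ _ := by gcongr

private lemma exch_avg (hf : TT f) (J : Finset (Fin n)) (x : Eu n) {R : ℝ} (hR : 0 < R)
    (hx : R ≤ rr J x) :
    ENNReal.ofReal |f x| ≤
      ENNReal.ofReal (2 * rr J x / R) *
        (∫⁻ t in Ioo (R / (2 * rr J x)) (R / rr J x), ENNReal.ofReal |f (Dl J t x)|) +
      ∫⁻ s in Ioo (R / (2 * rr J x)) 1,
        ENNReal.ofReal (rr J x * Real.sqrt (∑ m ∈ J, pd m f (Dl J s x) ^ 2)) := by
  have hr : 0 < rr J x := hR.trans_le hx
  set r := rr J x with hrdef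
  set a := R / (2 * r) with ha
  set b := R / r with hb
  have ha0 : 0 < a := by positivity
  have hab : b - a = a := by rw [ha, hb]; field_simp; ring
  have hb1 : b ≤ 1 := by rw [hb, div_le_one hr]; exact hx
  set B := ∫⁻ s in Ioo a 1, ENNReal.ofReal (r * Real.sqrt (∑ m ∈ J, pd m f (Dl J s x) ^ 2)) with hB
  have h1 : ∀ t ∈ Ioo a b, ENNReal.ofReal |f x| ≤ ENNReal.ofReal |f (Dl J t x)| + B :=
    fun t ht => exch_pt hf J x ha0.le ht.1.le (ht.2.le.trans hb1)
  have hDc : Continuous (fun s : ℝ => Dl J s x) :=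
    (Dl_cont J).comp (continuous_id.prodMk continuous_const)
  have hm : Measurable (fun t : ℝ => ENNReal.ofReal |f (Dl J t x)|) :=
    ((hf.continuous.comp hDc).abs).measurable.ennreal_ofReal
  have h2 : ENNReal.ofReal |f x| * ENNReal.ofReal a ≤
      (∫⁻ t in Ioo a b, ENNReal.ofReal |f (Dl J t x)|) + B * ENNReal.ofReal a := by
    have h3 : ∫⁻ t in Ioo a b, ENNReal.ofReal |f x| = ENNReal.ofReal |f x| * ENNReal.ofReal a := by
      rw [lintegral_const, Measure.restrict_apply_univ, Real.volume_Ioo, hab]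
    have h4 : ∫⁻ t in Ioo a b, B = B * ENNReal.ofReal a := by
      rw [lintegral_const, Measure.restrict_apply_univ, Real.volume_Ioo, hab]
    rw [← h3, ← h4, ← lintegral_add_left hm]
    exact setLIntegral_mono' measurableSet_Ioo h1
  have h5 : ENNReal.ofReal (2 * r / R) * ENNReal.ofReal a = 1 := by
    rw [← ENNReal.ofReal_mul (by positivity), ha]
    have : 2 * r / R * (R / (2 * r)) = 1 := by field_simp
    rw [this, ENNReal.ofReal_one]
  calc ENNReal.ofReal |f x| = ENNReal.ofReal (2 * r / R) *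
        (ENNReal.ofReal |f x| * ENNReal.ofReal a) := by
        rw [mul_comm (ENNReal.ofReal |f x|), ← mul_assoc, h5, one_mul]
    _ ≤ ENNReal.ofReal (2 * r / R) *
        ((∫⁻ t in Ioo a b, ENNReal.ofReal |f (Dl J t x)|) + B * ENNReal.ofReal a) := by gcongr
    _ = ENNReal.ofReal (2 * r / R) * (∫⁻ t in Ioo a b, ENNReal.ofReal |f (Dl J t x)|) +
        B * (ENNReal.ofReal (2 * r / R) * ENNReal.ofReal a) := by ring
    _ = _ := by rw [h5, mul_one]

private lemma exch_term (hV : Continuous V) (hJ : J.Nonempty) {p : Eu n → ℝ}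
    (hp : Continuous p) (hpJ : ∀ (x : Eu n) (t : ℝ), p (Dl J t x) = p x) (k : ℕ)
    {A E : Set (Eu n)} (hA : MeasurableSet A) (hE : MeasurableSet E) {h : Eu n → ℝ≥0∞}
    (hh : Measurable h) {c : ℝ} (hc : 0 ≤ c) :
    ∫⁻ x, ∫⁻ t in Ioo (0 : ℝ) 1, (A.indicator (fun x => ENNReal.ofReal (c * rr J x) *
        (ENNReal.ofReal (p x) * Uk V J k x)) x) * (E.indicator h (Dl J t x)) ≤
      ENNReal.ofReal c * ∫⁻ y in E, h y * (ENNReal.ofReal (p y) * Uk V J (k + 1) y) := by
  have hUm := Uk_meas hV J k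
  have hrm : Measurable (rr J : Eu n → ℝ) := (rr_cont J).measurable
  have hpm : Measurable p := hp.measurable
  have hDm : Measurable (fun p : ℝ × Eu n => Dl J p.1 p.2) := (Dl_cont J).measurable
  have hDx : ∀ x : Eu n, Measurable (fun t : ℝ => Dl J t x) := fun x =>
    hDm.comp (measurable_id.prodMk measurable_const)
  have hG : Measurable (fun q : Eu n × Eu n =>
      (A.indicator (fun x => ENNReal.ofReal (c * rr J x) *
        (ENNReal.ofReal (p x) * Uk V J k x)) q.1) * (E.indicator h q.2)) := by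
    refine Measurable.mul ?_ ?_
    · exact (((hrm.const_mul c).ennreal_ofReal.mul
        (hpm.ennreal_ofReal.mul hUm)).indicator hA).comp measurable_fst
    · exact (hh.indicator hE).comp measurable_snd
  rw [exchD (J := J) (G := fun x y => (A.indicator (fun x => ENNReal.ofReal (c * rr J x) *
        (ENNReal.ofReal (p x) * Uk V J k x)) x) * (E.indicator h y)) hG]
  rw [← lintegral_const_mul' _ _ ENNReal.ofReal_ne_top, ← lintegral_indicator hE]
  refine lintegral_mono fun y => ?_
  by_cases hy : y ∈ E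
  · simp only [indicator_of_mem hy]
    have e1 : ∀ t ∈ Ioi (1 : ℝ), ENNReal.ofReal (t ^ J.card / t ^ 2) *
        ((A.indicator (fun x => ENNReal.ofReal (c * rr J x) *
        (ENNReal.ofReal (p x) * Uk V J k x)) (Dl J t y)) * h y) ≤
        (ENNReal.ofReal c * (h y * (ENNReal.ofReal (p y) * ENNReal.ofReal (rr J y)))) *
          (ENNReal.ofReal (t ^ (J.card - 1)) * Uk V J k (Dl J t y)) := by
      intro t ht
      have ht1 : (1 : ℝ) < t := ht
      have ht0 : 0 < t := by linarith
      have e2 : A.indicator (fun x => ENNReal.ofReal (c * rr J x) *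
          (ENNReal.ofReal (p x) * Uk V J k x)) (Dl J t y) ≤ ENNReal.ofReal (c * rr J (Dl J t y)) *
          (ENNReal.ofReal (p (Dl J t y)) * Uk V J k (Dl J t y)) := indicator_le_self _ _ _
      have e3 : ENNReal.ofReal (t ^ J.card / t ^ 2) * ENNReal.ofReal (c * rr J (Dl J t y)) =
          ENNReal.ofReal c * ENNReal.ofReal (rr J y) * ENNReal.ofReal (t ^ (J.card - 1)) := by
        rw [← ENNReal.ofReal_mul (by positivity), ← ENNReal.ofReal_mul hc,
          ← ENNReal.ofReal_mul (mul_nonneg hc (rr_nonneg J y)), rr_Dl J ht0.le]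
        congr 1
        obtain ⟨m, hm⟩ : ∃ m, J.card = m + 1 := ⟨J.card - 1, by
          have := hJ.card_pos; omega⟩
        rw [hm, Nat.add_sub_cancel]
        field_simp
        ring
      calc ENNReal.ofReal (t ^ J.card / t ^ 2) *
            ((A.indicator (fun x => ENNReal.ofReal (c * rr J x) *
            (ENNReal.ofReal (p x) * Uk V J k x)) (Dl J t y)) * h y)
          ≤ ENNReal.ofReal (t ^ J.card / t ^ 2) * ((ENNReal.ofReal (c * rr J (Dl J t y)) *
            (ENNReal.ofReal (p (Dl J t y)) * Uk V J k (Dl J t y))) * h y) := by gcongr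
        _ = (ENNReal.ofReal (t ^ J.card / t ^ 2) * ENNReal.ofReal (c * rr J (Dl J t y))) *
            (ENNReal.ofReal (p (Dl J t y)) * Uk V J k (Dl J t y) * h y) := by ring
        _ = _ := by rw [e3, hpJ]; ring
        _ ≤ _ := le_rfl
    have e4 : Uk V J (k + 1) y = ENNReal.ofReal (rr J y) *
        ∫⁻ t in Ioi (1 : ℝ), ENNReal.ofReal (t ^ (J.card - 1)) * Uk V J k (Dl J t y) := by
      rw [Uk]
    have hm : Measurable (fun t : ℝ => ENNReal.ofReal (t ^ (J.card - 1)) *
        Uk V J k (Dl J t y)) :=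
      ((measurable_id.pow_const (J.card - 1)).ennreal_ofReal).mul (hUm.comp (hDx y))
    calc ∫⁻ t in Ioi (1 : ℝ), ENNReal.ofReal (t ^ J.card / t ^ 2) *
        ((A.indicator (fun x => ENNReal.ofReal (c * rr J x) *
        (ENNReal.ofReal (p x) * Uk V J k x)) (Dl J t y)) * h y)
        ≤ ∫⁻ t in Ioi (1 : ℝ),
          (ENNReal.ofReal c * (h y * (ENNReal.ofReal (p y) * ENNReal.ofReal (rr J y)))) *
          (ENNReal.ofReal (t ^ (J.card - 1)) * Uk V J k (Dl J t y)) :=
          setLIntegral_mono' measurableSet_Ioi e1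
      _ = (ENNReal.ofReal c * (h y * (ENNReal.ofReal (p y) * ENNReal.ofReal (rr J y)))) *
          ∫⁻ t in Ioi (1 : ℝ), ENNReal.ofReal (t ^ (J.card - 1)) * Uk V J k (Dl J t y) :=
          lintegral_const_mul _ hm
      _ = _ := by rw [e4]; ring
      _ ≤ _ := le_rfl
  · simp [indicator_of_notMem hy]

/-- the radial chain inequality -/
theorem chainD (hV : Continuous V) (hJ : J.Nonempty) {R : ℝ} (hR : 0 < R) {p : Eu n → ℝ}
    (hp : Continuous p) (hp0 : ∀ x, 0 ≤ p x) (hpJ : ∀ (x : Eu n) (t : ℝ), p (Dl J t x) = p x)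
    (hf : TT f) (k : ℕ) :
    ∫⁻ x in {x : Eu n | R ≤ rr J x}, ENNReal.ofReal |f x| * (ENNReal.ofReal (p x) * Uk V J k x) ≤
      (∫⁻ x in {x : Eu n | R / 2 ≤ rr J x}, ENNReal.ofReal (Real.sqrt (∑ m ∈ J, pd m f x ^ 2)) *
        (ENNReal.ofReal (p x) * Uk V J (k + 1) x)) +
      ENNReal.ofReal (2 / R) * ∫⁻ x in {x : Eu n | R / 2 ≤ rr J x ∧ rr J x < R},
        ENNReal.ofReal |f x| * (ENNReal.ofReal (p x) * Uk V J (k + 1) x) := by
  have hUm := Uk_meas hV J k
  have hrm : Measurable (rr J : Eu n → ℝ) := (rr_cont J).measurable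
  have hpm : Measurable p := hp.measurable
  have hfm : Measurable (fun x => ENNReal.ofReal |f x|) :=
    hf.continuous.abs.measurable.ennreal_ofReal
  have hgm : Measurable (fun x => ENNReal.ofReal (Real.sqrt (∑ m ∈ J, pd m f x ^ 2))) :=
    (exch_gcont hf J).measurable.ennreal_ofReal
  have hDm : Measurable (fun p : ℝ × Eu n => Dl J p.1 p.2) := (Dl_cont J).measurable
  have hDx : ∀ x : Eu n, Measurable (fun t : ℝ => Dl J t x) := fun x =>
    hDm.comp (measurable_id.prodMk measurable_const)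
  -- the weight
  set W : Eu n → ℝ≥0∞ := fun x => ENNReal.ofReal (p x) * Uk V J k x with hW
  have hWm : Measurable W := hpm.ennreal_ofReal.mul hUm
  set A : Set (Eu n) := {x | R ≤ rr J x} with hA
  set B : Set (Eu n) := {x | R / 2 ≤ rr J x ∧ rr J x < R} with hB
  set E : Set (Eu n) := {x | R / 2 ≤ rr J x} with hE
  have hAm : MeasurableSet A := measurableSet_le measurable_const hrm
  have hEm : MeasurableSet E := measurableSet_le measurable_const hrm
  have hBm : MeasurableSet B := hEm.inter (measurableSet_lt hrm measurable_const)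
  -- the two kernels
  set F1 : Eu n → ℝ≥0∞ := fun x => ∫⁻ t in Ioo (0 : ℝ) 1,
    (A.indicator (fun x => ENNReal.ofReal (2 / R * rr J x) * W x) x) *
      (B.indicator (fun y => ENNReal.ofReal |f y|) (Dl J t x)) with hF1
  set F2 : Eu n → ℝ≥0∞ := fun x => ∫⁻ t in Ioo (0 : ℝ) 1,
    (A.indicator (fun x => ENNReal.ofReal (1 * rr J x) * W x) x) *
      (E.indicator (fun y => ENNReal.ofReal (Real.sqrt (∑ m ∈ J, pd m f y ^ 2)))
        (Dl J t x)) with hF2
  have hF1m : Measurable F1 := by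
    refine Measurable.lintegral_prod_right' (f := fun q : Eu n × ℝ =>
      (A.indicator (fun x => ENNReal.ofReal (2 / R * rr J x) * W x) q.1) *
      (B.indicator (fun y => ENNReal.ofReal |f y|) (Dl J q.2 q.1))) ?_
    refine Measurable.mul ?_ ?_
    · exact (((hrm.const_mul (2 / R)).ennreal_ofReal.mul hWm).indicator hAm).comp measurable_fst
    · exact (hfm.indicator hBm).comp (hDm.comp measurable_swap)
  -- pointwise
  have hpt : ∀ x ∈ A, ENNReal.ofReal |f x| * W x ≤ F1 x + F2 x := by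
    intro x hx
    have hxr : R ≤ rr J x := hx
    have hr : 0 < rr J x := hR.trans_le hxr
    have h1 := exch_avg hf J x hR hxr
    set a := R / (2 * rr J x) with ha
    have ha0 : 0 < a := by positivity
    have hb1 : R / rr J x ≤ 1 := by rw [div_le_one hr]; exact hxr
    have hal : ∀ t, a < t → R / 2 ≤ rr J (Dl J t x) := by
      intro t ht
      have ht0 : 0 < t := ha0.trans ht
      rw [rr_Dl J ht0.le]
      have : R / 2 = a * rr J x := by rw [ha]; field_simp
      rw [this]
      exact mul_le_mul_of_nonneg_right ht.le hr.le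
    have h2 : ENNReal.ofReal (2 / R * rr J x) * W x *
        (∫⁻ t in Ioo a (R / rr J x), ENNReal.ofReal |f (Dl J t x)|) ≤ F1 x := by
      have hm : Measurable (fun t : ℝ => ENNReal.ofReal |f (Dl J t x)|) := hfm.comp (hDx x)
      rw [← lintegral_const_mul _ hm, hF1]
      refine le_trans (le_of_eq ?_) (lintegral_mono_set (Ioo_subset_Ioo ha0.le hb1))
      refine setLIntegral_congr_fun measurableSet_Ioo fun t ht => ?_
      have hB' : Dl J t x ∈ B := by
        refine ⟨hal t ht.1, ?_⟩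
        rw [rr_Dl J (ha0.trans ht.1).le]
        exact (lt_div_iff₀ hr).1 ht.2
      simp only [indicator_of_mem hx, indicator_of_mem hB']
    have h3 : W x * (∫⁻ s in Ioo a 1,
        ENNReal.ofReal (rr J x * Real.sqrt (∑ m ∈ J, pd m f (Dl J s x) ^ 2))) ≤ F2 x := by
      have hm : Measurable (fun s : ℝ =>
          ENNReal.ofReal (rr J x * Real.sqrt (∑ m ∈ J, pd m f (Dl J s x) ^ 2))) :=
        ((((exch_gcont hf J).measurable.comp (hDx x)).const_mul (rr J x))).ennreal_ofReal
      rw [← lintegral_const_mul _ hm, hF2]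
      refine le_trans (le_of_eq ?_) (lintegral_mono_set (Ioo_subset_Ioo_left ha0.le))
      refine setLIntegral_congr_fun measurableSet_Ioo fun t ht => ?_
      have hE' : Dl J t x ∈ E := hal t ht.1
      simp only [indicator_of_mem hx, indicator_of_mem hE']
      rw [one_mul, ENNReal.ofReal_mul (rr_nonneg J x)]
      ring
    calc ENNReal.ofReal |f x| * W x ≤ (ENNReal.ofReal (2 * rr J x / R) *
          (∫⁻ t in Ioo a (R / rr J x), ENNReal.ofReal |f (Dl J t x)|) +
          ∫⁻ s in Ioo a 1,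
            ENNReal.ofReal (rr J x * Real.sqrt (∑ m ∈ J, pd m f (Dl J s x) ^ 2))) * W x := by
          gcongr
      _ = ENNReal.ofReal (2 / R * rr J x) * W x *
          (∫⁻ t in Ioo a (R / rr J x), ENNReal.ofReal |f (Dl J t x)|) +
          W x * (∫⁻ s in Ioo a 1,
            ENNReal.ofReal (rr J x * Real.sqrt (∑ m ∈ J, pd m f (Dl J s x) ^ 2))) := by
          rw [show 2 * rr J x / R = 2 / R * rr J x by ring]
          ring
      _ ≤ _ := add_le_add h2 h3
  calc ∫⁻ x in A, ENNReal.ofReal |f x| * W x ≤ ∫⁻ x in A, (F1 x + F2 x) :=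
        setLIntegral_mono' hAm hpt
    _ ≤ ∫⁻ x, (F1 x + F2 x) := setLIntegral_le_lintegral _ _
    _ = (∫⁻ x, F1 x) + ∫⁻ x, F2 x := lintegral_add_left hF1m _
    _ ≤ ENNReal.ofReal (2 / R) * (∫⁻ x in B,
          ENNReal.ofReal |f x| * (ENNReal.ofReal (p x) * Uk V J (k + 1) x)) +
        ENNReal.ofReal 1 * ∫⁻ x in E, ENNReal.ofReal (Real.sqrt (∑ m ∈ J, pd m f x ^ 2)) *
          (ENNReal.ofReal (p x) * Uk V J (k + 1) x) :=
        add_le_add (exch_term hV hJ hp hpJ k hAm hBm hfm (by positivity))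
          (exch_term hV hJ hp hpJ k hAm hEm hgm zero_le_one)
    _ = _ := by rw [ENNReal.ofReal_one, one_mul, add_comm]

end Pool.Agent.Lib.MP_6d896a_gt.UC.UR.UD
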