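import Mathlib
import Pool.Agent.Lib.MP_6d896a_gt.UD.Defs
import Pool.Agent.Lib.MP_6d896a_gt.UC.Basic
import Pool.Agent.Lib.MP_6d896a_gt.UR.RotR
import Pool.Agent.Lib.MP_6d896a_gt.UD.SymD

/-!
Project UD, piece D3: families.
-/

set_option autoImplicit false
set_option linter.all false

namespace Pool.Agent.Lib.MP_6d896a_gt.UC.UR.UD

open MeasureTheory Filter Topology Set ProbabilityTheory
open scoped ENNReal NNReal ContDiff

variable {n : ℕ} {V f g u : Eu n → ℝ} {κ Λ S : ℝ} {J : Finset (Fin n)}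
  {Γ : Eu n ≃ₗᵢ[ℝ] Eu n} {q : ℕ}

section fam
variable {p : ℕ} {v : Fin p → Eu n → ℝ}

lemma nv_nonneg (v : Fin p → Eu n → ℝ) (x : Eu n) : 0 ≤ nv v x := Real.sqrt_nonneg _

lemma nv_sq (v : Fin p → Eu n → ℝ) (x : Eu n) : nv v x ^ 2 = ∑ a, v a x ^ 2 :=
  Real.sq_sqrt (Finset.sum_nonneg fun a _ => sq_nonneg _)

private lemma famD_sq_TT (hv : ∀ a, TT (v a)) : TT (fun x => ∑ a, v a x ^ 2) :=
  TT.sum Finset.univ fun a _ => (hv a).sq

lemma nv_cont (hv : ∀ a, TT (v a)) : Continuous (nv v) :=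
  Real.continuous_sqrt.comp (famD_sq_TT hv).continuous

lemma nv_cs (hv : ∀ a, TT (v a)) : HasCompactSupport (nv v) := by
  apply (famD_sq_TT hv).cs.mono
  intro x hx
  rw [Function.mem_support] at hx ⊢
  intro h
  apply hx
  unfold nv
  rw [h, Real.sqrt_zero]

lemma gg_TT (hv : ∀ a, TT (v a)) {η : ℝ} (hη : 0 < η) : TT (gg η v) := by
  refine ⟨?_, ?_⟩
  · unfold gg
    refine ContDiff.sub ?_ contDiff_const
    apply ContDiff.sqrt ((famD_sq_TT hv).cd.add contDiff_const)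
    intro x
    have : 0 ≤ ∑ a, v a x ^ 2 := Finset.sum_nonneg fun a _ => sq_nonneg _
    positivity
  · apply (famD_sq_TT hv).cs.mono
    intro x hx
    rw [Function.mem_support] at hx ⊢
    intro h
    apply hx
    unfold gg
    rw [h, zero_add, Real.sqrt_sq hη.le, sub_self]

lemma gg_nonneg {η : ℝ} (hη : 0 < η) (x : Eu n) : 0 ≤ gg η v x := by
  unfold gg
  have h0 : 0 ≤ ∑ a, v a x ^ 2 := Finset.sum_nonneg fun a _ => sq_nonneg _
  have : η ≤ Real.sqrt (∑ a, v a x ^ 2 + η ^ 2) := by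
    apply Real.le_sqrt_of_sq_le
    linarith
  linarith

lemma gg_le {η : ℝ} (hη : 0 < η) (x : Eu n) : gg η v x ≤ nv v x := by
  unfold gg
  have h0 := nv_nonneg v x
  have : Real.sqrt (∑ a, v a x ^ 2 + η ^ 2) ≤ nv v x + η := by
    apply Real.sqrt_le_iff.mpr
    refine ⟨by positivity, ?_⟩
    rw [← nv_sq v x]
    nlinarith
  linarith

lemma nv_le {η : ℝ} (hη : 0 < η) (x : Eu n) : nv v x ≤ gg η v x + η := by
  unfold gg nv
  have : Real.sqrt (∑ a, v a x ^ 2) ≤ Real.sqrt (∑ a, v a x ^ 2 + η ^ 2) :=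
    Real.sqrt_le_sqrt (by nlinarith [sq_nonneg η])
  linarith

lemma gg_inv {η : ℝ} (hv : Fam Γ q p v) : Inv Γ (gg η v) := by
  intro x
  unfold gg
  rw [hv.inv x]

private lemma famD_gg_pd (hv : ∀ a, TT (v a)) {η : ℝ} (hη : 0 < η) (m : Fin n) (x : Eu n) :
    pd m (gg η v) x = (∑ a, v a x * pd m (v a) x) / Real.sqrt (∑ a, v a x ^ 2 + η ^ 2) := by
  have h0 : 0 ≤ ∑ a, v a x ^ 2 := Finset.sum_nonneg fun a _ => sq_nonneg _
  have hpos : 0 < ∑ a, v a x ^ 2 + η ^ 2 := by positivity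
  have h1 : HasFDerivAt (fun x => ∑ a, v a x ^ 2) (∑ a, (2 * v a x) • fderiv ℝ (v a) x) x := by
    have := HasFDerivAt.fun_sum (u := Finset.univ) (A := fun a x => v a x ^ 2)
      (A' := fun a => (2 * v a x) • fderiv ℝ (v a) x) (x := x) (fun a _ => by
        have h2 := ((hv a).differentiable x).hasFDerivAt.pow 2
        simpa using h2)
    exact this
  have h3 := (h1.add_const (η ^ 2)).sqrt hpos.ne'
  have h4 : HasFDerivAt (gg η v) _ x := h3.sub_const η
  unfold pd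
  rw [h4.fderiv]
  simp only [ContinuousLinearMap.smul_apply, ContinuousLinearMap.sum_apply, smul_eq_mul]
  have hs : Real.sqrt (∑ a, v a x ^ 2 + η ^ 2) ≠ 0 := (Real.sqrt_pos.mpr hpos).ne'
  rw [Finset.mul_sum, Finset.sum_div]
  refine Finset.sum_congr rfl fun a _ => ?_
  field_simp

lemma gg_pd (hv : ∀ a, TT (v a)) {η : ℝ} (hη : 0 < η) (m : Fin n) (x : Eu n) :
    pd m (gg η v) x ^ 2 ≤ ∑ a, pd m (v a) x ^ 2 := by
  have h0 : 0 ≤ ∑ a, v a x ^ 2 := Finset.sum_nonneg fun a _ => sq_nonneg _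
  have hpos : 0 < ∑ a, v a x ^ 2 + η ^ 2 := by positivity
  have h1 : 0 ≤ ∑ a, pd m (v a) x ^ 2 := Finset.sum_nonneg fun a _ => sq_nonneg _
  rw [famD_gg_pd hv hη, div_pow, Real.sq_sqrt hpos.le, div_le_iff₀ hpos]
  have hcs := Finset.sum_mul_sq_le_sq_mul_sq Finset.univ (fun a => v a x) (fun a => pd m (v a) x)
  have h2 : 0 ≤ η ^ 2 * ∑ a, pd m (v a) x ^ 2 := by positivity
  nlinarith

private lemma famD_EE (V : Eu n → ℝ) (hV : Continuous V) (hv : ∀ a, TT (v a)) :
    EE V v = Ex V (fun x => nv v x ^ 2) := by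
  unfold EE
  rw [← Ex_sum (V := V) Finset.univ (F := fun a x => v a x ^ 2) (fun a _ => (hv a).sq.int hV)]
  congr 1
  funext x
  rw [nv_sq]

private lemma famD_nv_int (V : Eu n → ℝ) (hV : Continuous V) (hv : ∀ a, TT (v a)) :
    Integrable (fun x => nv v x * Real.exp (-V x)) := int_cs hV (nv_cont hv) (nv_cs hv)

private lemma famD_nv_sq_int (V : Eu n → ℝ) (hV : Continuous V) (hv : ∀ a, TT (v a)) :
    Integrable (fun x => nv v x ^ 2 * Real.exp (-V x)) := by
  refine ((famD_sq_TT hv).int hV).congr (Filter.Eventually.of_forall fun x => ?_)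
  simp only [nv_sq]

private lemma famD_Df (hV : Continuous V) (hv : ∀ a, TT (v a)) {η : ℝ} (hη : 0 < η) :
    Df V (gg η v) (gg η v) ≤ DD V v := by
  unfold DD Df
  rw [Finset.sum_comm]
  apply Finset.sum_le_sum
  intro j _
  rw [← Ex_sum (V := V) Finset.univ (F := fun a x => pd j (v a) x * pd j (v a) x)
    (fun a _ => (((hv a).pd j).mul ((hv a).pd j)).int hV)]
  refine Ex_mono ((((gg_TT hv hη).pd j).mul ((gg_TT hv hη).pd j)).int hV)
    ((TT.sum Finset.univ fun a _ => ((hv a).pd j).mul ((hv a).pd j)).int hV) fun x => ?_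
  have h := gg_pd hv hη j x
  have e : (∑ a, pd j (v a) x ^ 2) = ∑ a, pd j (v a) x * pd j (v a) x :=
    Finset.sum_congr rfl fun a _ => by ring
  rw [e] at h
  show pd j (gg η v) x * pd j (gg η v) x ≤ ∑ a, pd j (v a) x * pd j (v a) x
  nlinarith

/-- `S (g) ≤ S (v)` and the energy gap of Kato's inequality, up to `τ` -/
lemma gg_small (hU : GP V κ Λ S) (hv : ∀ a, TT (v a)) {c : ℝ} (hc : 0 < c) (hP : HP V c)
    {τ : ℝ} (hτ : 0 < τ) : ∃ η : ℝ, 0 < η ∧ η ≤ τ ∧
      Sf V (1 / c) (gg η v) ≤ SS V (1 / c) v + τ ∧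
      DD V v - Df V (gg η v) (gg η v) ≤ SS V (1 / c) v + τ ∧
      Ex V (fun x => gg η v x ^ 2) ≤ EE V v := by
  have hV : Continuous V := hU.cd.continuous
  set l := 1 / c with hl
  have hl0 : 0 < l := by positivity
  set A := Ex V (nv v) with hA
  have hA0 : 0 ≤ A := Ex_nonneg fun x => nv_nonneg v x
  set η := min τ (τ / (2 * l * A + 1)) with hηd
  have hden : 0 < 2 * l * A + 1 := by positivity
  have hη : 0 < η := lt_min hτ (div_pos hτ hden)
  have hη2 : 2 * l * η * A ≤ τ := by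
    have h1 : η ≤ τ / (2 * l * A + 1) := min_le_right _ _
    have h2 : η * (2 * l * A + 1) ≤ τ := by rwa [le_div_iff₀ hden] at h1
    nlinarith
  have hgT := gg_TT hv hη
  have hgi : Integrable (fun x => gg η v x * Real.exp (-V x)) := hgT.int hV
  have hg2i : Integrable (fun x => gg η v x ^ 2 * Real.exp (-V x)) := hgT.sq.int hV
  have hnvi := famD_nv_int V hV hv
  have hnv2i := famD_nv_sq_int V hV hv
  -- E gg <= E nv
  have e1 : Ex V (gg η v) ≤ A := Ex_mono hgi hnvi fun x => gg_le hη x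
  have e1' : 0 ≤ Ex V (gg η v) := Ex_nonneg fun x => gg_nonneg hη x
  have e2 : Ex V (fun x => gg η v x ^ 2) ≤ EE V v := by
    rw [famD_EE V hV hv]
    refine Ex_mono hg2i hnv2i fun x => ?_
    have h1 := gg_nonneg (v := v) hη x
    have h2 := gg_le (v := v) hη x
    show gg η v x ^ 2 ≤ nv v x ^ 2
    nlinarith
  have e3 : EE V v - 2 * η * A ≤ Ex V (fun x => gg η v x ^ 2) := by
    rw [famD_EE V hV hv]
    have hi : Integrable (fun x => (2 * η) * nv v x * Real.exp (-V x)) := by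
      have := hnvi.const_mul (2 * η)
      simpa only [mul_assoc] using this
    have h1 : Ex V (fun x => nv v x ^ 2) - 2 * η * A =
        Ex V (fun x => nv v x ^ 2 - (2 * η) * nv v x) := by
      rw [Ex_sub hnv2i hi, Ex_const_mul V (fun x => nv v x)]
    rw [h1]
    have hi2 : Integrable (fun x => (nv v x ^ 2 - (2 * η) * nv v x) * Real.exp (-V x)) := by
      have := hnv2i.sub hi
      refine this.congr (Filter.Eventually.of_forall fun x => ?_)
      simp only [Pi.sub_apply]; ring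
    refine Ex_mono hi2 hg2i fun x => ?_
    have h1 := gg_nonneg (v := v) hη x
    have h2 := nv_le (v := v) hη x
    have h3 := nv_nonneg v x
    show nv v x ^ 2 - (2 * η) * nv v x ≤ gg η v x ^ 2
    by_cases h4 : η ≤ nv v x
    · have h5 : nv v x - η ≤ gg η v x := by linarith
      have h6 : (nv v x - η) ^ 2 ≤ gg η v x ^ 2 := by
        apply pow_le_pow_left₀ (by linarith) h5
      nlinarith [sq_nonneg η]
    · push Not at h4
      nlinarith [sq_nonneg (gg η v x)]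
  have e4 := famD_Df hV hv hη
  have e5 := hP (gg η v) hgT
  have e6 : l * (Ex V (fun x => gg η v x ^ 2) - (Ex V (gg η v)) ^ 2) ≤
      Df V (gg η v) (gg η v) := by
    rw [hl, one_div, inv_mul_le_iff₀ hc]
    exact e5
  have e7 : (Ex V (gg η v)) ^ 2 ≤ A ^ 2 := pow_le_pow_left₀ e1' e1 2
  have e8 : l * (EE V v - 2 * η * A) ≤ l * Ex V (fun x => gg η v x ^ 2) :=
    mul_le_mul_of_nonneg_left e3 hl0.le
  have e9 : l * (Ex V (gg η v)) ^ 2 ≤ l * A ^ 2 := mul_le_mul_of_nonneg_left e7 hl0.le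
  refine ⟨η, hη, min_le_left _ _, ?_, ?_, e2⟩
  · unfold Sf SS
    rw [← hA]
    nlinarith
  · unfold SS
    rw [← hA]
    nlinarith

lemma SS_nonneg (hU : GP V κ Λ S) (hv : ∀ a, TT (v a)) {c : ℝ} (hc : 0 < c) (hP : HP V c) :
    0 ≤ SS V (1 / c) v := by
  apply le_of_forall_pos_le_add
  intro τ hτ
  obtain ⟨η, hη, -, -, h1, -⟩ := gg_small hU hv hc hP hτ
  have h2 := famD_Df hU.cd.continuous hv hη
  linarith

private lemma famD_pd_zero (j : Fin n) : pd j (fun _ : Eu n => (0 : ℝ)) = fun _ => 0 := by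
  funext x
  unfold pd
  simp

private lemma famD_Ex_zero (V : Eu n → ℝ) : Ex V (fun _ => 0) = 0 := by
  unfold Ex
  simp

lemma nx_fam (hs : Sy J Γ q) (hu : TT u) (hui : Inv Γ u) : Fam Γ q n (nx J u) where
  tt := by
    intro m
    unfold nx
    by_cases hm : m ∈ J
    · rw [if_pos hm]; exact hu.pd m
    · rw [if_neg hm]; exact TT.zero
  bal := by
    intro m
    unfold nx
    by_cases hm : m ∈ J
    · rw [if_pos hm]; exact pd_bal hs hu hui hm
    · rw [if_neg hm]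
      intro x
      simp
  inv := by
    intro x
    have h : ∀ y : Eu n, ∑ m, nx J u m y ^ 2 = ∑ m ∈ J, pd m u y ^ 2 := by
      intro y
      rw [← Finset.sum_filter_add_sum_filter_not Finset.univ (· ∈ J)]
      have h1 : ∑ m ∈ Finset.univ.filter (· ∈ J), nx J u m y ^ 2 = ∑ m ∈ J, pd m u y ^ 2 := by
        rw [Finset.filter_mem_eq_inter, Finset.univ_inter]
        refine Finset.sum_congr rfl fun m hm => ?_
        unfold nx
        rw [if_pos hm]
      have h2 : ∑ m ∈ Finset.univ.filter (fun m => ¬ m ∈ J), nx J u m y ^ 2 = 0 := by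
        refine Finset.sum_eq_zero fun m hm => ?_
        unfold nx
        rw [if_neg (Finset.mem_filter.mp hm).2]
        ring
      rw [h1, h2, add_zero]
    rw [h, h]
    exact pd_inv hs hu hui x

lemma nx_nv (J : Finset (Fin n)) (u : Eu n → ℝ) (x : Eu n) :
    nv (nx J u) x = Real.sqrt (∑ m ∈ J, pd m u x ^ 2) := by
  unfold nv
  congr 1
  rw [← Finset.sum_filter_add_sum_filter_not Finset.univ (· ∈ J)]
  have h1 : ∑ m ∈ Finset.univ.filter (· ∈ J), nx J u m x ^ 2 = ∑ m ∈ J, pd m u x ^ 2 := by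
    rw [Finset.filter_mem_eq_inter, Finset.univ_inter]
    refine Finset.sum_congr rfl fun m hm => ?_
    unfold nx
    rw [if_pos hm]
  have h2 : ∑ m ∈ Finset.univ.filter (fun m => ¬ m ∈ J), nx J u m x ^ 2 = 0 := by
    refine Finset.sum_eq_zero fun m hm => ?_
    unfold nx
    rw [if_neg (Finset.mem_filter.mp hm).2]
    ring
  rw [h1, h2, add_zero]

lemma nx_EE (V : Eu n → ℝ) (J : Finset (Fin n)) (u : Eu n → ℝ) :
    EE V (nx J u) = ∑ m ∈ J, Ex V (fun x => pd m u x ^ 2) := by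
  unfold EE
  rw [← Finset.sum_filter_add_sum_filter_not Finset.univ (· ∈ J)]
  have h1 : ∑ m ∈ Finset.univ.filter (· ∈ J), Ex V (fun x => nx J u m x ^ 2) =
      ∑ m ∈ J, Ex V (fun x => pd m u x ^ 2) := by
    rw [Finset.filter_mem_eq_inter, Finset.univ_inter]
    refine Finset.sum_congr rfl fun m hm => ?_
    unfold nx
    rw [if_pos hm]
  have h2 : ∑ m ∈ Finset.univ.filter (fun m => ¬ m ∈ J), Ex V (fun x => nx J u m x ^ 2) = 0 := by
    refine Finset.sum_eq_zero fun m hm => ?_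
    unfold nx
    rw [if_neg (Finset.mem_filter.mp hm).2]
    have e : (fun _ : Eu n => (0 : ℝ) ^ 2) = fun _ => 0 := by funext x; ring
    rw [e]
    exact famD_Ex_zero V
  rw [h1, h2, add_zero]

lemma nx_DD (V : Eu n → ℝ) (J : Finset (Fin n)) (u : Eu n → ℝ) :
    DD V (nx J u) = ∑ m ∈ J, Df V (pd m u) (pd m u) := by
  unfold DD
  rw [← Finset.sum_filter_add_sum_filter_not Finset.univ (· ∈ J)]
  have h1 : ∑ m ∈ Finset.univ.filter (· ∈ J), Df V (nx J u m) (nx J u m) =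
      ∑ m ∈ J, Df V (pd m u) (pd m u) := by
    rw [Finset.filter_mem_eq_inter, Finset.univ_inter]
    refine Finset.sum_congr rfl fun m hm => ?_
    unfold nx
    rw [if_pos hm]
  have h2 : ∑ m ∈ Finset.univ.filter (fun m => ¬ m ∈ J), Df V (nx J u m) (nx J u m) = 0 := by
    refine Finset.sum_eq_zero fun m hm => ?_
    unfold nx
    rw [if_neg (Finset.mem_filter.mp hm).2]
    unfold Df
    refine Finset.sum_eq_zero fun j _ => ?_
    rw [famD_pd_zero]
    simp only [mul_zero]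
    exact famD_Ex_zero V
  rw [h1, h2, add_zero]

lemma nx_le (V : Eu n → ℝ) (J : Finset (Fin n)) (u : Eu n → ℝ) : EE V (nx J u) ≤ Df V u u := by
  rw [nx_EE]
  unfold Df
  have h : ∀ m : Fin n, Ex V (fun x => pd m u x ^ 2) = Ex V (fun x => pd m u x * pd m u x) := by
    intro m
    congr 1
    funext x
    ring
  rw [Finset.sum_congr rfl fun m _ => h m]
  exact Finset.sum_le_sum_of_subset_of_nonneg (Finset.subset_univ _)
    fun m _ _ => Ex_nonneg fun x => mul_self_nonneg _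

/-- the first family -/
noncomputable def v0 (Γ : Eu n ≃ₗᵢ[ℝ] Eu n) (q : ℕ) (f : Eu n → ℝ) : Fin q → Eu n → ℝ :=
  fun a x => (Real.sqrt q)⁻¹ * f ((⇑Γ)^[a] x)

private lemma famD_sqrt (hq : 0 < q) : ((Real.sqrt q)⁻¹) ^ 2 = (q : ℝ)⁻¹ := by
  rw [inv_pow, Real.sq_sqrt (Nat.cast_nonneg q)]

lemma v0_fam (hs : Sy J Γ q) (hf : TT f) (hb : Bal Γ q f) : Fam Γ q q (v0 Γ q f) where
  tt := fun a => (TT_iter hf a).const_mul _
  bal := by
    intro a x
    unfold v0
    rw [← Finset.mul_sum]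
    have h : ∑ k ∈ Finset.range q, f ((⇑Γ)^[a] ((⇑Γ)^[k] x)) =
        ∑ k ∈ Finset.range q, f ((⇑Γ)^[k] ((⇑Γ)^[a] x)) := by
      refine Finset.sum_congr rfl fun k _ => ?_
      rw [← Function.iterate_add_apply, ← Function.iterate_add_apply, add_comm]
    rw [h, hb, mul_zero]
  inv := by
    intro x
    unfold v0
    simp only [mul_pow]
    rw [← Finset.mul_sum, ← Finset.mul_sum]
    congr 1
    rw [Fin.sum_univ_eq_sum_range (fun a => f ((⇑Γ)^[a] (Γ x)) ^ 2) q,
      Fin.sum_univ_eq_sum_range (fun a => f ((⇑Γ)^[a] x) ^ 2) q]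
    have h1 := Finset.sum_range_succ (fun a => f ((⇑Γ)^[a] x) ^ 2) q
    have h2 := Finset.sum_range_succ' (fun a => f ((⇑Γ)^[a] x) ^ 2) q
    rw [hs.per x] at h1
    simp only [Function.iterate_zero, id_eq] at h2
    have h3 : ∀ k, (⇑Γ)^[k + 1] x = (⇑Γ)^[k] (Γ x) := fun k => rfl
    simp only [h3] at h2
    linarith

lemma v0_EE (hs : Sy J Γ q) (hV : Continuous V) (hVi : Inv Γ V) (hf : TT f) :
    EE V (v0 Γ q f) = Ex V (fun x => f x ^ 2) := by
  unfold EE
  have h : ∀ a : Fin q, Ex V (fun x => v0 Γ q f a x ^ 2) = (q : ℝ)⁻¹ * Ex V (fun x => f x ^ 2) := by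
    intro a
    rw [← Ex_inv hVi (fun x => f x ^ 2) a, ← Ex_const_mul, ← famD_sqrt hs.qpos]
    congr 1
    funext x
    unfold v0
    ring
  rw [Finset.sum_congr rfl fun a _ => h a, Finset.sum_const, Finset.card_univ, Fintype.card_fin,
    nsmul_eq_mul, ← mul_assoc, mul_inv_cancel₀ (by exact_mod_cast hs.qpos.ne'), one_mul]

lemma v0_DD (hs : Sy J Γ q) (hV : Continuous V) (hVi : Inv Γ V) (hf : TT f) :
    DD V (v0 Γ q f) = Df V f f := by
  unfold DD
  have h : ∀ a : Fin q, Df V (v0 Γ q f a) (v0 Γ q f a) = (q : ℝ)⁻¹ * Df V f f := by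
    intro a
    rw [← Df_inv hV hVi hf a, ← famD_sqrt hs.qpos]
    have hd := (TT_iter (Γ := Γ) hf a).differentiable
    unfold v0
    rw [Df_const_mul_left V hd, Df_const_mul_right V hd]
    ring
  rw [Finset.sum_congr rfl fun a _ => h a, Finset.sum_const, Finset.card_univ, Fintype.card_fin,
    nsmul_eq_mul, ← mul_assoc, mul_inv_cancel₀ (by exact_mod_cast hs.qpos.ne'), one_mul]

lemma v0_nv (hs : Sy J Γ q) (hV : Continuous V) (hVi : Inv Γ V) (hf : TT f) :
    Ex V (fun x => |f x|) ≤ Ex V (nv (v0 Γ q f)) := by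
  have hq : (0 : ℝ) < q := by exact_mod_cast hs.qpos
  have hTa : ∀ a : Fin q, TT (v0 Γ q f a) := fun a => (TT_iter hf a).const_mul _
  have hai : ∀ a : Fin q, Integrable (fun x => ((q : ℝ)⁻¹ * |f ((⇑Γ)^[a] x)|) * Real.exp (-V x)) := by
    intro a
    have h1 : Integrable (fun x => |f ((⇑Γ)^[a] x)| * Real.exp (-V x)) :=
      int_cs hV (TT_iter hf a).continuous.abs (TT_iter hf a).cs.norm
    have := h1.const_mul (q : ℝ)⁻¹
    simpa only [mul_assoc] using this
  have h1 : Ex V (fun x => |f x|) = Ex V (fun x => ∑ a : Fin q, (q : ℝ)⁻¹ * |f ((⇑Γ)^[a] x)|) := by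
    rw [Ex_sum (V := V) Finset.univ (fun a _ => hai a)]
    have h : ∀ a : Fin q, Ex V (fun x => (q : ℝ)⁻¹ * |f ((⇑Γ)^[a] x)|) =
        (q : ℝ)⁻¹ * Ex V (fun x => |f x|) := by
      intro a
      rw [Ex_const_mul, Ex_inv hVi (fun x => |f x|) a]
    rw [Finset.sum_congr rfl fun a _ => h a, Finset.sum_const, Finset.card_univ, Fintype.card_fin,
      nsmul_eq_mul, ← mul_assoc, mul_inv_cancel₀ hq.ne', one_mul]
  rw [h1]
  refine Ex_mono ?_ (famD_nv_int V hV hTa) fun x => ?_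
  · have := integrable_finsetSum Finset.univ fun a (_ : a ∈ Finset.univ) => hai a
    refine this.congr (Filter.Eventually.of_forall fun x => ?_)
    simp only [Finset.sum_apply]
    rw [Finset.sum_mul]
  · rw [← Finset.mul_sum]
    unfold nv
    apply Real.le_sqrt_of_sq_le
    have h2 : ∑ a : Fin q, v0 Γ q f a x ^ 2 = (q : ℝ)⁻¹ * ∑ a : Fin q, f ((⇑Γ)^[a] x) ^ 2 := by
      rw [Finset.mul_sum]
      refine Finset.sum_congr rfl fun a _ => ?_
      unfold v0
      rw [mul_pow, famD_sqrt hs.qpos]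
    rw [h2]
    have hcs := sq_sum_le_card_mul_sum_sq (s := Finset.univ)
      (f := fun a : Fin q => |f ((⇑Γ)^[a] x)|)
    rw [Finset.card_univ, Fintype.card_fin] at hcs
    simp only [sq_abs] at hcs
    rw [mul_pow]
    have h3 : ((q : ℝ)⁻¹) ^ 2 * (∑ a : Fin q, |f ((⇑Γ)^[a] x)|) ^ 2 ≤
        ((q : ℝ)⁻¹) ^ 2 * (q * ∑ a : Fin q, f ((⇑Γ)^[a] x) ^ 2) :=
      mul_le_mul_of_nonneg_left hcs (by positivity)
    have h4 : ((q : ℝ)⁻¹) ^ 2 * (q * ∑ a : Fin q, f ((⇑Γ)^[a] x) ^ 2) =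
        (q : ℝ)⁻¹ * ∑ a : Fin q, f ((⇑Γ)^[a] x) ^ 2 := by
      field_simp
    linarith

end fam

end Pool.Agent.Lib.MP_6d896a_gt.UC.UR.UD
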