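import Mathlib
import Pool.Agent.Lib.MP_6d896a_gt.UD.Defs

/-!
Project UD, piece D6: convexity along dilations, the iterated radial integrals in closed form, and
their square integrals.
-/

set_option autoImplicit false
set_option linter.all false

namespace Pool.Agent.Lib.MP_6d896a_gt.UC.UR.UD

open MeasureTheory Filter Topology Set ProbabilityTheory
open scoped ENNReal NNReal ContDiff

variable {n : ℕ} {V f g u : Eu n → ℝ} {κ Λ S : ℝ} {J : Finset (Fin n)}
  {Γ : Eu n ≃ₗᵢ[ℝ] Eu n} {q : ℕ}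

/-! ### dilations -/

private lemma qd_rr_nonneg (J : Finset (Fin n)) (x : Eu n) : 0 ≤ rr J x := Real.sqrt_nonneg _

private lemma qd_rr_cont (J : Finset (Fin n)) : Continuous (rr J) := by
  unfold rr
  refine Real.continuous_sqrt.comp (continuous_finset_sum _ fun j _ => ?_)
  exact ((EuclideanSpace.proj (𝕜 := ℝ) j).continuous).pow 2

private lemma qd_Dl_apply (J : Finset (Fin n)) (t : ℝ) (x : Eu n) (j : Fin n) :
    (Dl J t x) j = if j ∈ J then t * x j else x j := rfl

private lemma qd_rr_Dl (J : Finset (Fin n)) {t : ℝ} (ht : 0 ≤ t) (x : Eu n) :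
    rr J (Dl J t x) = t * rr J x := by
  unfold rr
  have h1 : ∑ j ∈ J, (Dl J t x) j ^ 2 = t ^ 2 * ∑ j ∈ J, x j ^ 2 := by
    rw [Finset.mul_sum]
    refine Finset.sum_congr rfl fun j hj => ?_
    rw [qd_Dl_apply, if_pos hj]; ring
  rw [h1, Real.sqrt_mul (sq_nonneg t), Real.sqrt_sq ht]

private lemma qd_Dl_Dl (J : Finset (Fin n)) (s t : ℝ) (x : Eu n) :
    Dl J s (Dl J t x) = Dl J (s * t) x := by
  ext j
  simp only [qd_Dl_apply]
  split_ifs <;> ring

private lemma qd_Dl_cont (J : Finset (Fin n)) : Continuous (fun p : ℝ × Eu n => Dl J p.1 p.2) := by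
  unfold Dl
  refine (PiLp.continuous_toLp 2 _).comp (continuous_pi fun j => ?_)
  have h : Continuous (fun p : ℝ × Eu n => p.2 j) :=
    ((EuclideanSpace.proj (𝕜 := ℝ) j).continuous).comp continuous_snd
  split_ifs
  · exact continuous_fst.mul h
  · exact h

/-! ### convexity -/

/-- `V` is convex on the lines -/
private lemma qd_line_convex (hU : GP V κ Λ S) (x v : Eu n) :
    ConvexOn ℝ univ (fun t : ℝ => V (x + t • v)) := by
  have hVd : Differentiable ℝ V := hU.cd.differentiable two_ne_zero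
  have hVd2 : Differentiable ℝ (fderiv ℝ V) :=
    (hU.cd.fderiv_right (m := 1) (by norm_num)).differentiable one_ne_zero
  have hl : ∀ t : ℝ, HasDerivAt (fun t : ℝ => x + t • v) v t := by
    intro t
    have h := ((hasDerivAt_id t).smul_const v).const_add x
    simpa using h
  have hd1 : ∀ t : ℝ, HasDerivAt (fun t : ℝ => V (x + t • v)) (fderiv ℝ V (x + t • v) v) t :=
    fun t => (hVd _).hasFDerivAt.comp_hasDerivAt t (hl t)
  have hd2 : ∀ t : ℝ, HasDerivAt (fun t : ℝ => fderiv ℝ V (x + t • v) v)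
      (fderiv ℝ (fderiv ℝ V) (x + t • v) v v) t := by
    intro t
    have h1 : HasDerivAt (fun t : ℝ => fderiv ℝ V (x + t • v))
        (fderiv ℝ (fderiv ℝ V) (x + t • v) v) t :=
      (hVd2 _).hasFDerivAt.comp_hasDerivAt t (hl t)
    have h2 := h1.clm_apply (hasDerivAt_const t v)
    simpa using h2
  have e1 : deriv (fun t : ℝ => V (x + t • v)) = fun t => fderiv ℝ V (x + t • v) v :=
    funext fun t => (hd1 t).deriv
  refine convexOn_univ_of_deriv2_nonneg (fun t => (hd1 t).differentiableAt) ?_ ?_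
  · rw [e1]
    exact fun t => (hd2 t).differentiableAt
  · intro t
    have e2 : deriv^[2] (fun t : ℝ => V (x + t • v)) t = fderiv ℝ (fderiv ℝ V) (x + t • v) v v := by
      show deriv (deriv (fun t : ℝ => V (x + t • v))) t = _
      rw [e1]
      exact (hd2 t).deriv
    rw [e2]
    refine le_trans ?_ (hU.conv _ _)
    have := hU.kpos
    positivity

private lemma qd_convex (hU : GP V κ Λ S) : ConvexOn ℝ univ V := by
  refine ⟨convex_univ, fun x _ y _ a b ha hb hab => ?_⟩
  have hc := (qd_line_convex hU x (y - x)).2 (mem_univ (0 : ℝ)) (mem_univ (1 : ℝ)) ha hb hab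
  simp only [smul_eq_mul, mul_zero, zero_add, mul_one, zero_smul, add_zero, one_smul] at hc
  have e1 : x + b • (y - x) = a • x + b • y := by
    have : a = 1 - b := by linarith
    rw [this, smul_sub, sub_smul, one_smul]
    abel
  have e2 : x + (y - x) = y := by abel
  rw [e1, e2] at hc
  exact hc

/-- the mean of an orbit -/
private lemma qd_mean (hs : Sy J Γ q) (z : Eu n) :
    Dl J 0 z = ∑ k ∈ Finset.range q, ((q : ℝ)⁻¹) • ((⇑Γ)^[k] z) := by
  have hq : (q : ℝ) ≠ 0 := by exact_mod_cast hs.qpos.ne'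
  have hfix : ∀ (k : ℕ) (j : Fin n), j ∉ J → ((⇑Γ)^[k] z) j = z j := by
    intro k
    induction k with
    | zero => intro j _; rfl
    | succ k ih =>
      intro j hj
      rw [Function.iterate_succ_apply', hs.fix _ j hj, ih j hj]
  ext j
  rw [← Finset.smul_sum]
  have e : ((q : ℝ)⁻¹ • ∑ k ∈ Finset.range q, ((⇑Γ)^[k] z)) j =
      (q : ℝ)⁻¹ * ∑ k ∈ Finset.range q, ((⇑Γ)^[k] z) j := by
    simp [PiLp.smul_apply, WithLp.ofLp_sum, Finset.sum_apply]
  rw [e, qd_Dl_apply]
  by_cases hj : j ∈ J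
  · rw [if_pos hj, hs.sum z j hj]; ring
  · rw [if_neg hj, Finset.sum_congr rfl (fun k _ => hfix k j hj), Finset.sum_const,
      Finset.card_range, nsmul_eq_mul]
    field_simp

/-- the value at the centre of the fibre -/
private lemma qd_V_zero (hU : GP V κ Λ S) (hs : Sy J Γ q) (hVi : Inv Γ V) (z : Eu n) :
    V (Dl J 0 z) ≤ V z := by
  have hq : (q : ℝ) ≠ 0 := by exact_mod_cast hs.qpos.ne'
  have hit : ∀ k : ℕ, V ((⇑Γ)^[k] z) = V z := by
    intro k
    induction k with
    | zero => rfl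
    | succ k ih => rw [Function.iterate_succ_apply', hVi, ih]
  rw [qd_mean hs z]
  have h := (qd_convex hU).map_sum_le (t := Finset.range q) (w := fun _ => ((q : ℝ)⁻¹))
    (p := fun k => (⇑Γ)^[k] z) (fun _ _ => by positivity)
    (by rw [Finset.sum_const, Finset.card_range, nsmul_eq_mul]; field_simp)
    (fun _ _ => mem_univ _)
  refine h.trans ?_
  simp only [hit, smul_eq_mul]
  rw [Finset.sum_const, Finset.card_range, nsmul_eq_mul]
  have : (q : ℝ) * ((q : ℝ)⁻¹ * V z) = V z := by field_simp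
  rw [this]

lemma V_Dl (hU : GP V κ Λ S) (hs : Sy J Γ q) (hVi : Inv Γ V) (x : Eu n) {t : ℝ} (ht : 1 ≤ t) :
    V x ≤ V (Dl J t x) := by
  have ht0 : 0 < t := by linarith
  have h0 := qd_V_zero hU hs hVi (Dl J t x)
  rw [qd_Dl_Dl, zero_mul] at h0
  have h1 : 1 / t ≤ 1 := by rw [div_le_one ht0]; exact ht
  have hc0 := (qd_convex hU).2 (mem_univ (Dl J 0 x)) (mem_univ (Dl J t x))
  have hc := hc0 (a := 1 - 1 / t) (b := 1 / t) (by linarith) (by positivity) (by ring)
  have e : (1 - 1 / t) • Dl J 0 x + (1 / t) • Dl J t x = x := by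
    ext j
    simp only [PiLp.add_apply, PiLp.smul_apply, smul_eq_mul, qd_Dl_apply]
    split_ifs
    · field_simp; ring
    · ring
  rw [e] at hc
  simp only [smul_eq_mul] at hc
  have h2 : (1 - 1 / t) * V (Dl J 0 x) ≤ (1 - 1 / t) * V (Dl J t x) :=
    mul_le_mul_of_nonneg_left h0 (by linarith)
  linarith

/-! ### closed form of the iterated integrals -/

/-- substitution in a half line -/
private lemma qd_scale (F : ℝ → ℝ≥0∞) {s : ℝ} (hs : 0 < s) :
    ∫⁻ t in Ioi (1 : ℝ), F (s * t) = ENNReal.ofReal s⁻¹ * ∫⁻ τ in Ioi s, F τ := by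
  have hme : MeasurableEmbedding (fun t : ℝ => s * t) :=
    (Homeomorph.mulLeft₀ s hs.ne').measurableEmbedding
  have h1 := hme.lintegral_map (μ := (volume : Measure ℝ)) ((Ioi s).indicator F)
  rw [Real.map_volume_mul_left hs.ne', lintegral_smul_measure,
    lintegral_indicator measurableSet_Ioi, abs_of_pos (inv_pos.2 hs)] at h1
  rw [← smul_eq_mul, h1, ← lintegral_indicator measurableSet_Ioi]
  refine lintegral_congr fun t => ?_
  by_cases ht : t ∈ Ioi (1 : ℝ)
  · have ht1 : 1 < t := ht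
    have : s * t ∈ Ioi s := by
      show s < s * t
      nlinarith
    rw [indicator_of_mem ht, indicator_of_mem this]
  · have : s * t ∉ Ioi s := by
      intro h
      apply ht
      show 1 < t
      have h' : s < s * t := h
      by_contra hcon
      push Not at hcon
      nlinarith
    rw [indicator_of_notMem ht, indicator_of_notMem this]

private lemma qd_inner (k : ℕ) {τ : ℝ} (hτ : 1 < τ) :
    ∫⁻ s in Ioo (1 : ℝ) τ, ENNReal.ofReal ((τ - s) ^ k) =
      ENNReal.ofReal ((τ - 1) ^ (k + 1) / (k + 1)) := by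
  rw [restrict_Ioo_eq_restrict_Ioc, ← ofReal_integral_eq_lintegral_ofReal,
    ← intervalIntegral.integral_of_le hτ.le]
  · congr 1
    have h := intervalIntegral.integral_comp_sub_left (a := 1) (b := τ) (fun s : ℝ => s ^ k) τ
    rw [h, integral_pow, sub_self, zero_pow (Nat.succ_ne_zero k), sub_zero]
  · have hc : Continuous (fun s : ℝ => (τ - s) ^ k) := by fun_prop
    exact hc.integrableOn_Icc.mono_set Ioc_subset_Icc_self
  · filter_upwards [self_mem_ae_restrict measurableSet_Ioc] with s hs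
    have : s ≤ τ := hs.2
    show (0 : ℝ) ≤ (τ - s) ^ k
    exact pow_nonneg (by linarith) k

private lemma qd_swap (H : ℝ → ℝ → ℝ≥0∞) (hH : Measurable (fun p : ℝ × ℝ => H p.1 p.2)) :
    ∫⁻ s in Ioi (1 : ℝ), ∫⁻ τ in Ioi s, H s τ = ∫⁻ τ in Ioi (1 : ℝ), ∫⁻ s in Ioo (1 : ℝ) τ, H s τ := by
  set T : Set (ℝ × ℝ) := {p | 1 < p.1 ∧ p.1 < p.2} with hT
  have hTm : MeasurableSet T :=
    (measurableSet_lt measurable_const measurable_fst).inter
      (measurableSet_lt measurable_fst measurable_snd)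
  set K : ℝ × ℝ → ℝ≥0∞ := T.indicator (fun p => H p.1 p.2) with hK
  have hKm : Measurable K := hH.indicator hTm
  have e1 : ∫⁻ s in Ioi (1 : ℝ), ∫⁻ τ in Ioi s, H s τ = ∫⁻ s, ∫⁻ τ, K (s, τ) := by
    rw [← lintegral_indicator measurableSet_Ioi]
    refine lintegral_congr fun s => ?_
    by_cases hs : s ∈ Ioi (1 : ℝ)
    · rw [indicator_of_mem hs, ← lintegral_indicator measurableSet_Ioi]
      refine lintegral_congr fun τ => ?_
      by_cases hτ : τ ∈ Ioi s
      · have : (s, τ) ∈ T := ⟨hs, hτ⟩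
        rw [indicator_of_mem hτ, hK, indicator_of_mem this]
      · have : (s, τ) ∉ T := fun h => hτ h.2
        rw [indicator_of_notMem hτ, hK, indicator_of_notMem this]
    · rw [indicator_of_notMem hs, ← lintegral_zero (μ := (volume : Measure ℝ))]
      refine lintegral_congr fun τ => ?_
      have : (s, τ) ∉ T := fun h => hs h.1
      rw [hK, indicator_of_notMem this]
  have e2 : ∫⁻ τ in Ioi (1 : ℝ), ∫⁻ s in Ioo (1 : ℝ) τ, H s τ = ∫⁻ τ, ∫⁻ s, K (s, τ) := by
    rw [← lintegral_indicator measurableSet_Ioi]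
    refine lintegral_congr fun τ => ?_
    by_cases hτ : τ ∈ Ioi (1 : ℝ)
    · rw [indicator_of_mem hτ, ← lintegral_indicator measurableSet_Ioo]
      refine lintegral_congr fun s => ?_
      by_cases hs : s ∈ Ioo (1 : ℝ) τ
      · have : (s, τ) ∈ T := ⟨hs.1, hs.2⟩
        rw [indicator_of_mem hs, hK, indicator_of_mem this]
      · have : (s, τ) ∉ T := fun h => hs ⟨h.1, h.2⟩
        rw [indicator_of_notMem hs, hK, indicator_of_notMem this]
    · rw [indicator_of_notMem hτ, ← lintegral_zero (μ := (volume : Measure ℝ))]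
      refine lintegral_congr fun s => ?_
      have : (s, τ) ∉ T := fun h => hτ (lt_trans h.1 h.2)
      rw [hK, indicator_of_notMem this]
  rw [e1, e2]
  exact lintegral_lintegral_swap (f := fun s τ => K (s, τ)) hKm.aemeasurable

private lemma qd_Vcont (hV : Continuous V) (J : Finset (Fin n)) :
    Continuous (fun p : ℝ × Eu n => Real.exp (-V (Dl J p.1 p.2))) :=
  Real.continuous_exp.comp ((hV.comp (qd_Dl_cont J)).neg)

lemma Uk_eq (hV : Continuous V) (hJ : J.Nonempty) (k : ℕ) (x : Eu n) :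
    Uk V J (k + 1) x = ENNReal.ofReal (rr J x ^ (k + 1) / (k.factorial : ℝ)) *
      ∫⁻ t in Ioi (1 : ℝ), ENNReal.ofReal ((t - 1) ^ k * t ^ (J.card - 1) *
        Real.exp (-V (Dl J t x))) := by
  set m := J.card - 1 with hm
  induction k generalizing x with
  | zero =>
    show ENNReal.ofReal (rr J x) * ∫⁻ t in Ioi (1 : ℝ), ENNReal.ofReal (t ^ m) *
      ENNReal.ofReal (Real.exp (-V (Dl J t x))) = _
    congr 1
    · simp
    · refine setLIntegral_congr_fun measurableSet_Ioi fun t ht => ?_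
      have ht' : 1 < t := ht
      show ENNReal.ofReal (t ^ m) * ENNReal.ofReal (Real.exp (-V (Dl J t x))) =
        ENNReal.ofReal ((t - 1) ^ 0 * t ^ m * Real.exp (-V (Dl J t x)))
      rw [← ENNReal.ofReal_mul (by positivity)]
      simp
  | succ k ih =>
    have hr := qd_rr_nonneg J x
    set r := rr J x with hrdef
    set E : ℝ → ℝ := fun τ => Real.exp (-V (Dl J τ x)) with hE
    have hEc : Continuous E := (qd_Vcont hV J).comp (continuous_id.prodMk continuous_const)
    have hE0 : ∀ τ, 0 ≤ E τ := fun τ => (Real.exp_pos _).le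
    calc Uk V J (k + 1 + 1) x
        = ENNReal.ofReal r * ∫⁻ s in Ioi (1 : ℝ), ENNReal.ofReal (s ^ m) *
            Uk V J (k + 1) (Dl J s x) := rfl
      _ = ENNReal.ofReal r * ∫⁻ s in Ioi (1 : ℝ), ∫⁻ τ in Ioi s,
            ENNReal.ofReal (r ^ (k + 1) / (k.factorial : ℝ) * ((τ - s) ^ k * (τ ^ m * E τ))) := by
          congr 1
          refine setLIntegral_congr_fun measurableSet_Ioi fun s hs => ?_
          have hs' : 1 < s := hs
          have hs0 : 0 < s := by linarith
          show ENNReal.ofReal (s ^ m) * Uk V J (k + 1) (Dl J s x) = _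
          set F : ℝ → ℝ≥0∞ := fun τ => ENNReal.ofReal ((τ / s - 1) ^ k * (τ / s) ^ m * E τ) with hF
          have e1 : ∫⁻ t in Ioi (1 : ℝ), ENNReal.ofReal ((t - 1) ^ k * t ^ m *
              Real.exp (-V (Dl J t (Dl J s x)))) = ∫⁻ t in Ioi (1 : ℝ), F (s * t) := by
            refine lintegral_congr fun t => ?_
            rw [qd_Dl_Dl, hF, hE]
            have e : s * t / s = t := by field_simp
            simp only [e, mul_comm t s]
          rw [ih, e1, qd_scale F hs0, qd_rr_Dl J hs0.le, ← hrdef,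
            ← lintegral_const_mul' _ _ ENNReal.ofReal_ne_top,
            ← lintegral_const_mul' _ _ ENNReal.ofReal_ne_top,
            ← lintegral_const_mul' _ _ ENNReal.ofReal_ne_top]
          refine setLIntegral_congr_fun measurableSet_Ioi fun τ hτ => ?_
          have hτ' : s < τ := hτ
          have hτ0 : 0 < τ := by linarith
          show ENNReal.ofReal (s ^ m) * (ENNReal.ofReal ((s * r) ^ (k + 1) / (k.factorial : ℝ)) *
            (ENNReal.ofReal s⁻¹ * ENNReal.ofReal ((τ / s - 1) ^ k * (τ / s) ^ m * E τ))) = _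
          rw [← ENNReal.ofReal_mul (by positivity), ← ENNReal.ofReal_mul (by positivity),
            ← ENNReal.ofReal_mul (by positivity)]
          congr 1
          have e2 : τ / s - 1 = (τ - s) / s := by field_simp
          rw [e2, div_pow, div_pow, mul_pow, pow_succ s k]
          have h3 : (k.factorial : ℝ) ≠ 0 := by positivity
          field_simp
      _ = ENNReal.ofReal r * ∫⁻ τ in Ioi (1 : ℝ), ∫⁻ s in Ioo (1 : ℝ) τ,
            ENNReal.ofReal (r ^ (k + 1) / (k.factorial : ℝ) * ((τ - s) ^ k * (τ ^ m * E τ))) := by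
          rw [qd_swap]
          refine ENNReal.measurable_ofReal.comp ?_
          have hE2 : Continuous (fun p : ℝ × ℝ => E p.2) := hEc.comp continuous_snd
          have : Continuous (fun p : ℝ × ℝ => r ^ (k + 1) / (k.factorial : ℝ) *
              ((p.2 - p.1) ^ k * (p.2 ^ m * E p.2))) := by fun_prop
          exact this.measurable
      _ = ENNReal.ofReal r * ∫⁻ τ in Ioi (1 : ℝ),
            ENNReal.ofReal (r ^ (k + 1) / (k.factorial : ℝ) * (τ ^ m * E τ)) *
              ENNReal.ofReal ((τ - 1) ^ (k + 1) / (k + 1)) := by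
          congr 1
          refine setLIntegral_congr_fun measurableSet_Ioi fun τ hτ => ?_
          have hτ' : 1 < τ := hτ
          have hτ0 : 0 < τ := by linarith
          have hEτ := hE0 τ
          show ∫⁻ s in Ioo (1 : ℝ) τ, ENNReal.ofReal (r ^ (k + 1) / (k.factorial : ℝ) *
            ((τ - s) ^ k * (τ ^ m * E τ))) = _
          rw [← qd_inner k hτ', ← lintegral_const_mul' _ _ ENNReal.ofReal_ne_top]
          refine setLIntegral_congr_fun measurableSet_Ioo fun s hs => ?_
          show ENNReal.ofReal _ = ENNReal.ofReal _ * ENNReal.ofReal _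
          rw [← ENNReal.ofReal_mul (by positivity)]
          congr 1
          ring
      _ = _ := by
          rw [← lintegral_const_mul' _ _ ENNReal.ofReal_ne_top,
            ← lintegral_const_mul' _ _ ENNReal.ofReal_ne_top]
          refine setLIntegral_congr_fun measurableSet_Ioi fun τ hτ => ?_
          have hτ' : 1 < τ := hτ
          have hτ0 : 0 < τ := by linarith
          have hτ1 : 0 ≤ τ - 1 := by linarith
          have hEτ := hE0 τ
          show ENNReal.ofReal _ * (ENNReal.ofReal _ * ENNReal.ofReal _) =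
            ENNReal.ofReal _ * ENNReal.ofReal _
          rw [← ENNReal.ofReal_mul (by positivity), ← ENNReal.ofReal_mul (by positivity),
            ← ENNReal.ofReal_mul (by positivity)]
          congr 1
          show _ = r ^ (k + 1 + 1) / ((k + 1).factorial : ℝ) * ((τ - 1) ^ (k + 1) * τ ^ m * E τ)
          rw [Nat.factorial_succ]
          push_cast
          have h3 : (k.factorial : ℝ) ≠ 0 := by positivity
          have h4 : (k : ℝ) + 1 ≠ 0 := by positivity
          field_simp
          ring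

/-! ### square integrals -/

/-- change of variables for the dilations -/
private lemma qd_cov (J : Finset (Fin n)) {t : ℝ} (ht : 0 < t) {Φ : Eu n → ℝ≥0∞}
    (hΦ : Measurable Φ) :
    ENNReal.ofReal (t ^ J.card) * ∫⁻ x, Φ (Dl J t x) = ∫⁻ y, Φ y := by
  classical
  let L : Eu n →ₗ[ℝ] Eu n :=
    { toFun := Dl J t
      map_add' := fun x y => by
        ext j
        simp only [qd_Dl_apply, PiLp.add_apply]
        split_ifs <;> ring
      map_smul' := fun c x => by
        ext j
        simp only [qd_Dl_apply, PiLp.smul_apply, smul_eq_mul, RingHom.id_apply]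
        split_ifs <;> ring }
  set b : Module.Basis (Fin n) ℝ (Eu n) := (EuclideanSpace.basisFun (Fin n) ℝ).toBasis with hb
  have hmat : LinearMap.toMatrix b b L = Matrix.diagonal (fun j => if j ∈ J then t else 1) := by
    ext i j
    rw [LinearMap.toMatrix_apply, Matrix.diagonal_apply]
    have h1 : (b.repr (L (b j))) i = (Dl J t (b j)) i := by simp [hb, L]
    have h2 : (b j) i = if i = j then (1 : ℝ) else 0 := by
      simp [hb, EuclideanSpace.single_apply]
    rw [h1, qd_Dl_apply, h2]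
    by_cases hij : i = j
    · subst hij; simp
    · simp [hij]
  have hdet : LinearMap.det L = t ^ J.card := by
    rw [← LinearMap.det_toMatrix b, hmat, Matrix.det_diagonal, Finset.prod_ite,
      Finset.prod_const, Finset.prod_const_one, mul_one]
    congr 2
    ext j
    simp
  have hdet0 : LinearMap.det L ≠ 0 := by rw [hdet]; positivity
  have hmap := Measure.map_linearMap_addHaar_eq_smul_addHaar (volume : Measure (Eu n)) hdet0
  have hDc : Continuous (Dl J t : Eu n → Eu n) :=
    (qd_Dl_cont J).comp (continuous_const.prodMk continuous_id)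
  have h1 : ∫⁻ x, Φ (Dl J t x) = ∫⁻ y, Φ y ∂(Measure.map L (volume : Measure (Eu n))) :=
    (lintegral_map hΦ hDc.measurable).symm
  rw [h1, hmap, lintegral_smul_measure, hdet, smul_eq_mul, ← mul_assoc,
    ← ENNReal.ofReal_mul (by positivity)]
  have h2 : t ^ J.card * |(t ^ J.card)⁻¹| = 1 := by
    rw [abs_of_pos (by positivity)]
    field_simp
  rw [h2, ENNReal.ofReal_one, one_mul]

private lemma qd_cs {A B : ℝ → ℝ≥0∞} (hA : Measurable A) (hB : Measurable B) (s : Set ℝ) :
    (∫⁻ t in s, A t * B t) ^ 2 ≤ (∫⁻ t in s, A t ^ 2) * ∫⁻ t in s, B t ^ 2 := by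
  have hH := ENNReal.lintegral_mul_le_Lp_mul_Lq (volume.restrict s)
    (Real.holderConjugate_iff.mpr ⟨by norm_num, by norm_num⟩ : (2 : ℝ).HolderConjugate 2)
    hA.aemeasurable hB.aemeasurable
  simp only [Pi.mul_apply, ENNReal.rpow_two] at hH
  have hz : ∀ z : ℝ≥0∞, (z ^ (1 / 2 : ℝ)) ^ 2 = z := by
    intro z
    rw [← ENNReal.rpow_two, ← ENNReal.rpow_mul]
    norm_num
  calc (∫⁻ t in s, A t * B t) ^ 2
      ≤ ((∫⁻ t in s, A t ^ 2) ^ (1 / 2 : ℝ) * (∫⁻ t in s, B t ^ 2) ^ (1 / 2 : ℝ)) ^ 2 :=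
        pow_le_pow_left' hH 2
    _ = _ := by rw [mul_pow, hz, hz]

private lemma qd_inv_sq : ∫⁻ t in Ioi (1 : ℝ), ENNReal.ofReal ((t ^ 2)⁻¹) = 1 := by
  have h1 : ∀ t ∈ Ioi (1 : ℝ), (t ^ 2)⁻¹ = t ^ (-2 : ℝ) := fun t ht => by
    have ht0 : 0 < t := lt_trans one_pos ht
    rw [Real.rpow_neg ht0.le, Real.rpow_two]
  rw [← ofReal_integral_eq_lintegral_ofReal]
  · rw [setIntegral_congr_fun measurableSet_Ioi h1, integral_Ioi_rpow_of_lt (by norm_num) one_pos]
    norm_num
  · exact (integrableOn_Ioi_rpow_of_lt (by norm_num) one_pos).congr_fun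
      (fun t ht => (h1 t ht).symm) measurableSet_Ioi
  · exact ae_of_all _ fun t => by positivity

private lemma qd_point (hU : GP V κ Λ S) (hs : Sy J Γ q) (hVi : Inv Γ V) (hJ : J.Nonempty)
    (k : ℕ) (x : Eu n) :
    Uk V J (k + 1) x ^ 2 * ENNReal.ofReal (Real.exp (V x)) ≤
      ENNReal.ofReal (rr J x ^ (2 * k + 2) / (k.factorial : ℝ) ^ 2) *
        ∫⁻ t in Ioi (1 : ℝ), ENNReal.ofReal (t ^ (2 * k + 2 * J.card) *
          Real.exp (-V (Dl J t x))) := by
  have hV : Continuous V := hU.cd.continuous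
  obtain ⟨m, hm⟩ : ∃ m, J.card = m + 1 := ⟨J.card - 1, (Nat.succ_pred_eq_of_pos hJ.card_pos).symm⟩
  have hr := qd_rr_nonneg J x
  set E : ℝ → ℝ := fun t => Real.exp (-V (Dl J t x) / 2) with hE
  have hE0 : ∀ t, 0 < E t := fun t => Real.exp_pos _
  have hEE : ∀ t, Real.exp (-V (Dl J t x)) = E t * E t := by
    intro t
    rw [hE, ← Real.exp_add]
    congr 1
    ring
  have hEc : Continuous E := by
    have h1 : Continuous (fun t : ℝ => Dl J t x) :=
      (qd_Dl_cont J).comp (continuous_id.prodMk continuous_const)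
    exact Real.continuous_exp.comp (((hV.comp h1).neg).div_const 2)
  set A : ℝ → ℝ≥0∞ := fun t => ENNReal.ofReal (t⁻¹ * E t) with hA
  set B : ℝ → ℝ≥0∞ := fun t => ENNReal.ofReal (t ^ (k + m + 1) * E t) with hB
  have hAm : Measurable A := (measurable_inv.mul hEc.measurable).ennreal_ofReal
  have hBm : Measurable B := ((measurable_id.pow_const _).mul hEc.measurable).ennreal_ofReal
  have h1 : ∫⁻ t in Ioi (1 : ℝ), ENNReal.ofReal ((t - 1) ^ k * t ^ (J.card - 1) *
      Real.exp (-V (Dl J t x))) ≤ ∫⁻ t in Ioi (1 : ℝ), A t * B t := by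
    refine setLIntegral_mono' measurableSet_Ioi fun t ht => ?_
    have ht1 : 1 < t := ht
    have ht0 : 0 < t := by linarith
    have hEt := hE0 t
    show _ ≤ ENNReal.ofReal (t⁻¹ * E t) * ENNReal.ofReal (t ^ (k + m + 1) * E t)
    rw [← ENNReal.ofReal_mul (by positivity)]
    apply ENNReal.ofReal_le_ofReal
    rw [hEE, hm, Nat.add_sub_cancel]
    have e : t⁻¹ * E t * (t ^ (k + m + 1) * E t) = t ^ k * t ^ m * (E t * E t) := by
      rw [pow_succ, pow_add]
      field_simp
    rw [e]
    have h2 : (t - 1) ^ k ≤ t ^ k := pow_le_pow_left₀ (by linarith) (by linarith) k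
    have h3 : 0 ≤ t ^ m * (E t * E t) := by positivity
    calc (t - 1) ^ k * t ^ m * (E t * E t) = (t - 1) ^ k * (t ^ m * (E t * E t)) := by ring
      _ ≤ t ^ k * (t ^ m * (E t * E t)) := mul_le_mul_of_nonneg_right h2 h3
      _ = _ := by ring
  have h2 := qd_cs hAm hBm (Ioi 1)
  have h3 : (∫⁻ t in Ioi (1 : ℝ), A t ^ 2) * ENNReal.ofReal (Real.exp (V x)) ≤ 1 := by
    rw [← lintegral_mul_const' _ _ ENNReal.ofReal_ne_top, ← qd_inv_sq]
    refine setLIntegral_mono' measurableSet_Ioi fun t ht => ?_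
    have ht1 : 1 < t := ht
    have ht0 : 0 < t := by linarith
    have hEt := hE0 t
    show ENNReal.ofReal (t⁻¹ * E t) ^ 2 * ENNReal.ofReal (Real.exp (V x)) ≤ _
    rw [← ENNReal.ofReal_pow (by positivity), ← ENNReal.ofReal_mul (by positivity)]
    apply ENNReal.ofReal_le_ofReal
    have e : (t⁻¹ * E t) ^ 2 * Real.exp (V x) =
        (t ^ 2)⁻¹ * (Real.exp (-V (Dl J t x)) * Real.exp (V x)) := by
      rw [hEE]; field_simp
    rw [e, ← Real.exp_add]
    have h4 : Real.exp (-V (Dl J t x) + V x) ≤ 1 := by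
      rw [← Real.exp_zero]
      exact Real.exp_le_exp.2 (by linarith [V_Dl hU hs hVi x ht1.le])
    have h5 : (0 : ℝ) ≤ (t ^ 2)⁻¹ := by positivity
    calc (t ^ 2)⁻¹ * Real.exp (-V (Dl J t x) + V x) ≤ (t ^ 2)⁻¹ * 1 :=
          mul_le_mul_of_nonneg_left h4 h5
      _ = _ := mul_one _
  have h4 : ∫⁻ t in Ioi (1 : ℝ), B t ^ 2 = ∫⁻ t in Ioi (1 : ℝ),
      ENNReal.ofReal (t ^ (2 * k + 2 * J.card) * Real.exp (-V (Dl J t x))) := by
    refine setLIntegral_congr_fun measurableSet_Ioi fun t ht => ?_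
    have ht1 : 1 < t := ht
    have ht0 : 0 < t := by linarith
    have hEt := hE0 t
    show ENNReal.ofReal (t ^ (k + m + 1) * E t) ^ 2 = _
    rw [← ENNReal.ofReal_pow (by positivity), hEE, hm]
    congr 1
    have e : 2 * k + 2 * (m + 1) = (k + m + 1) + (k + m + 1) := by ring
    rw [e, pow_add]
    ring
  rw [Uk_eq hV hJ, ← h4]
  set I := ∫⁻ t in Ioi (1 : ℝ), ENNReal.ofReal ((t - 1) ^ k * t ^ (J.card - 1) *
      Real.exp (-V (Dl J t x))) with hI
  calc (ENNReal.ofReal (rr J x ^ (k + 1) / (k.factorial : ℝ)) * I) ^ 2 *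
        ENNReal.ofReal (Real.exp (V x))
      = ENNReal.ofReal (rr J x ^ (k + 1) / (k.factorial : ℝ)) ^ 2 *
        (I ^ 2 * ENNReal.ofReal (Real.exp (V x))) := by ring
    _ ≤ ENNReal.ofReal (rr J x ^ (k + 1) / (k.factorial : ℝ)) ^ 2 *
        (((∫⁻ t in Ioi (1 : ℝ), A t ^ 2) * ∫⁻ t in Ioi (1 : ℝ), B t ^ 2) *
          ENNReal.ofReal (Real.exp (V x))) := by
        gcongr
        exact (pow_le_pow_left' h1 2).trans h2
    _ = ENNReal.ofReal (rr J x ^ (k + 1) / (k.factorial : ℝ)) ^ 2 *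
        (((∫⁻ t in Ioi (1 : ℝ), A t ^ 2) * ENNReal.ofReal (Real.exp (V x))) *
          ∫⁻ t in Ioi (1 : ℝ), B t ^ 2) := by ring
    _ ≤ ENNReal.ofReal (rr J x ^ (k + 1) / (k.factorial : ℝ)) ^ 2 *
        (1 * ∫⁻ t in Ioi (1 : ℝ), B t ^ 2) := by
        gcongr
    _ = _ := by
        rw [one_mul, ← ENNReal.ofReal_pow (by positivity)]
        congr 2
        rw [div_pow, ← pow_mul]
        congr 2
        ring

theorem QkD_bound (hU : GP V κ Λ S) (hs : Sy J Γ q) (hVi : Inv Γ V) (hJ : J.Nonempty) {R : ℝ}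
    (hR : 0 < R) {p : Eu n → ℝ} (hp : Continuous p) (hp0 : ∀ x, 0 ≤ p x)
    (hpJ : ∀ (x : Eu n) (t : ℝ), p (Dl J t x) = p x) (k : ℕ) :
    ∫⁻ x in {x : Eu n | R / 2 ≤ rr J x}, ENNReal.ofReal (p x) *
        (Uk V J (k + 1) x ^ 2 * ENNReal.ofReal (Real.exp (V x))) ≤
      ENNReal.ofReal (1 / ((k.factorial : ℝ) ^ 2 * (R / 2) ^ (2 * J.card))) *
        ∫⁻ x, ENNReal.ofReal (p x) *
          ENNReal.ofReal (rr J x ^ (2 * (k + 1 + J.card)) * Real.exp (-V x)) := by
  have hV : Continuous V := hU.cd.continuous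
  set c : ℝ := 1 / ((k.factorial : ℝ) ^ 2 * (R / 2) ^ (2 * J.card)) with hc
  have hc0 : 0 < c := by positivity
  set Ψ : Eu n → ℝ≥0∞ := fun y => ENNReal.ofReal (p y) *
    ENNReal.ofReal (rr J y ^ (2 * (k + 1 + J.card)) * Real.exp (-V y)) with hΨ
  have hΨm : Measurable Ψ := by
    refine hp.measurable.ennreal_ofReal.mul ?_
    refine Measurable.ennreal_ofReal ?_
    exact (((qd_rr_cont J).pow _).mul (Real.continuous_exp.comp hV.neg)).measurable
  have hsm : MeasurableSet {x : Eu n | R / 2 ≤ rr J x} :=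
    measurableSet_le measurable_const (qd_rr_cont J).measurable
  have key : ∀ x ∈ {x : Eu n | R / 2 ≤ rr J x}, ENNReal.ofReal (p x) *
      (Uk V J (k + 1) x ^ 2 * ENNReal.ofReal (Real.exp (V x))) ≤
      ∫⁻ t in Ioi (1 : ℝ), ENNReal.ofReal ((t ^ 2)⁻¹) *
        (ENNReal.ofReal (t ^ J.card) * (ENNReal.ofReal c * Ψ (Dl J t x))) := by
    intro x hx
    have hx' : R / 2 ≤ rr J x := hx
    have hr := qd_rr_nonneg J x
    calc ENNReal.ofReal (p x) * (Uk V J (k + 1) x ^ 2 * ENNReal.ofReal (Real.exp (V x)))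
        ≤ ENNReal.ofReal (p x) * (ENNReal.ofReal (rr J x ^ (2 * k + 2) / (k.factorial : ℝ) ^ 2) *
          ∫⁻ t in Ioi (1 : ℝ), ENNReal.ofReal (t ^ (2 * k + 2 * J.card) *
            Real.exp (-V (Dl J t x)))) :=
          mul_le_mul' le_rfl (qd_point hU hs hVi hJ k x)
      _ ≤ _ := by
          rw [← lintegral_const_mul' _ _ ENNReal.ofReal_ne_top,
            ← lintegral_const_mul' _ _ ENNReal.ofReal_ne_top]
          refine setLIntegral_mono' measurableSet_Ioi fun t ht => ?_
          have ht1 : 1 < t := ht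
          have ht0 : 0 < t := by linarith
          show _ ≤ ENNReal.ofReal ((t ^ 2)⁻¹) * (ENNReal.ofReal (t ^ J.card) *
            (ENNReal.ofReal c * (ENNReal.ofReal (p (Dl J t x)) *
              ENNReal.ofReal (rr J (Dl J t x) ^ (2 * (k + 1 + J.card)) *
                Real.exp (-V (Dl J t x))))))
          rw [hpJ, qd_rr_Dl J ht0.le]
          have e1 : ∀ a b c d e : ℝ≥0∞, a * (b * (c * (d * e))) = d * (a * (b * (c * e))) := by
            intro a b c d e
            ring
          rw [e1]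
          refine mul_le_mul' le_rfl ?_
          rw [← ENNReal.ofReal_mul (by positivity), ← ENNReal.ofReal_mul (by positivity),
            ← ENNReal.ofReal_mul (by positivity), ← ENNReal.ofReal_mul (by positivity)]
          apply ENNReal.ofReal_le_ofReal
          set r := rr J x with hrr
          set e := Real.exp (-V (Dl J t x)) with he
          have he0 : 0 < e := Real.exp_pos _
          have hfac : (0 : ℝ) < (k.factorial : ℝ) := by positivity
          have h1 : 1 ≤ (r / (R / 2)) ^ (2 * J.card) := by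
            apply one_le_pow₀
            rw [le_div_iff₀ (by positivity), one_mul]
            exact hx'
          have h2 : 1 ≤ t ^ J.card := one_le_pow₀ ht1.le
          have e2 : (t ^ 2)⁻¹ * (t ^ J.card * (c * ((t * r) ^ (2 * (k + 1 + J.card)) * e))) =
              (r ^ (2 * k + 2) / (k.factorial : ℝ) ^ 2 * (t ^ (2 * k + 2 * J.card) * e)) *
                ((r / (R / 2)) ^ (2 * J.card) * t ^ J.card) := by
            rw [hc, mul_pow, div_pow r (R / 2)]
            have e3 : 2 * (k + 1 + J.card) = (2 * k + 2) + 2 * J.card := by ring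
            have e4 : t ^ (2 * k + 2 + 2 * J.card) = t ^ 2 * t ^ (2 * k + 2 * J.card) := by
              rw [← pow_add]; congr 1; ring
            rw [e3, e4, pow_add r]
            have h5 : (R / 2) ^ (2 * J.card) ≠ 0 := by positivity
            field_simp
          rw [e2]
          have h6 : 0 ≤ r ^ (2 * k + 2) / (k.factorial : ℝ) ^ 2 *
              (t ^ (2 * k + 2 * J.card) * e) := by positivity
          have h7 : 1 ≤ (r / (R / 2)) ^ (2 * J.card) * t ^ J.card := by
            calc (1 : ℝ) = 1 * 1 := by ring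
              _ ≤ _ := mul_le_mul h1 h2 zero_le_one (by linarith)
          calc _ = (r ^ (2 * k + 2) / (k.factorial : ℝ) ^ 2 *
              (t ^ (2 * k + 2 * J.card) * e)) * 1 := by ring
            _ ≤ _ := mul_le_mul_of_nonneg_left h7 h6
  calc ∫⁻ x in {x : Eu n | R / 2 ≤ rr J x}, ENNReal.ofReal (p x) *
        (Uk V J (k + 1) x ^ 2 * ENNReal.ofReal (Real.exp (V x)))
      ≤ ∫⁻ x in {x : Eu n | R / 2 ≤ rr J x}, ∫⁻ t in Ioi (1 : ℝ), ENNReal.ofReal ((t ^ 2)⁻¹) *
        (ENNReal.ofReal (t ^ J.card) * (ENNReal.ofReal c * Ψ (Dl J t x))) :=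
        setLIntegral_mono' hsm key
    _ ≤ ∫⁻ x, ∫⁻ t in Ioi (1 : ℝ), ENNReal.ofReal ((t ^ 2)⁻¹) *
        (ENNReal.ofReal (t ^ J.card) * (ENNReal.ofReal c * Ψ (Dl J t x))) :=
        setLIntegral_le_lintegral _ _
    _ = ∫⁻ t in Ioi (1 : ℝ), ∫⁻ x, ENNReal.ofReal ((t ^ 2)⁻¹) *
        (ENNReal.ofReal (t ^ J.card) * (ENNReal.ofReal c * Ψ (Dl J t x))) := by
        refine lintegral_lintegral_swap (Measurable.aemeasurable ?_)
        have h1 : Measurable (fun p : Eu n × ℝ => Dl J p.2 p.1) :=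
          ((qd_Dl_cont J).comp (continuous_snd.prodMk continuous_fst)).measurable
        have h2 : Measurable (fun p : Eu n × ℝ => ENNReal.ofReal ((p.2 ^ 2)⁻¹)) :=
          ((measurable_snd.pow_const 2).inv).ennreal_ofReal
        have h3 : Measurable (fun p : Eu n × ℝ => ENNReal.ofReal (p.2 ^ J.card)) :=
          (measurable_snd.pow_const _).ennreal_ofReal
        exact h2.mul (h3.mul ((hΨm.comp h1).const_mul _))
    _ = ∫⁻ t in Ioi (1 : ℝ), ENNReal.ofReal ((t ^ 2)⁻¹) * (ENNReal.ofReal c * ∫⁻ y, Ψ y) := by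
        refine setLIntegral_congr_fun measurableSet_Ioi fun t ht => ?_
        have ht1 : 1 < t := ht
        have ht0 : 0 < t := by linarith
        show ∫⁻ x, ENNReal.ofReal ((t ^ 2)⁻¹) *
          (ENNReal.ofReal (t ^ J.card) * (ENNReal.ofReal c * Ψ (Dl J t x))) = _
        rw [lintegral_const_mul' _ _ ENNReal.ofReal_ne_top,
          lintegral_const_mul' _ _ ENNReal.ofReal_ne_top,
          lintegral_const_mul' _ _ ENNReal.ofReal_ne_top,
          mul_left_comm (ENNReal.ofReal (t ^ J.card)), qd_cov J ht0 hΨm]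
    _ = ENNReal.ofReal c * ∫⁻ y, Ψ y := by
        have hmeas : Measurable (fun t : ℝ => ENNReal.ofReal ((t ^ 2)⁻¹)) := by fun_prop
        rw [lintegral_mul_const _ hmeas, qd_inv_sq, one_mul]

end Pool.Agent.Lib.MP_6d896a_gt.UC.UR.UD
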