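import Mathlib
import Pool.Agent.Lib.MP_6d896a_gt.UD.Defs
import Pool.Agent.Lib.MP_6d896a_gt.UD.QD
import Pool.Agent.Lib.MP_6d896a_gt.UR.MomR

/-!
Project UD, D7: moments, and the square integrals of the weights.
-/

set_option autoImplicit false

namespace Pool.Agent.Lib.MP_6d896a_gt.UC.UR.UD

open MeasureTheory Filter Topology Set ProbabilityTheory
open scoped ENNReal NNReal ContDiff

variable {n : ℕ} {V f g u : Eu n → ℝ} {κ Λ S : ℝ} {J : Finset (Fin n)}
  {Γ : Eu n ≃ₗᵢ[ℝ] Eu n} {q : ℕ}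

private lemma momD_om (hS : 0 < S) (w x : Eu n) :
    om S w x ^ 2 = S + (inner ℝ x w : ℝ) ^ 2 := by
  unfold om
  rw [Real.sq_sqrt (by positivity)]

private lemma momD_rr (J : Finset (Fin n)) (x : Eu n) : rr J x ^ 2 = ∑ j ∈ J, x j ^ 2 := by
  unfold rr
  rw [Real.sq_sqrt (Finset.sum_nonneg fun j _ => sq_nonneg _)]

private lemma momD_xi (x : Eu n) (i : Fin n) : (inner ℝ x (ej i) : ℝ) = x i := by
  simp [ej, EuclideanSpace.inner_single_right]

private lemma momD_coord (hU : GP V κ Λ S) (i : Fin n) (k : ℕ) :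
    ∫⁻ x : Eu n, ENNReal.ofReal (x i ^ (2 * k) * Real.exp (-V x)) ≤
      ENNReal.ofReal (4 * ((2 * k).factorial : ℝ) * (64 * S) ^ k) := by
  have hnej : ‖(ej i : Eu n)‖ ≤ 1 := by simp [ej]
  have := momR hU hnej k
  simpa only [momD_xi] using this

/-- pointwise bound -/
private lemma momD_pt (hS : 0 < S) (w x : Eu n) (m : ℕ) {E : ℝ} (hE : 0 ≤ E) :
    om S w x ^ 2 * (rr J x ^ (2 * (m + 1)) * E) ≤
      (J.card : ℝ) ^ m * ∑ j ∈ J, (S * (x j ^ (2 * (m + 1)) * E) +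
        ((inner ℝ x w : ℝ) ^ (2 * (m + 2)) * E + x j ^ (2 * (m + 2)) * E)) := by
  set y : ℝ := inner ℝ x w with hy
  rw [momD_om hS, ← hy, pow_mul, momD_rr]
  have h1 : (∑ j ∈ J, x j ^ 2) ^ (m + 1) ≤ (J.card : ℝ) ^ m * ∑ j ∈ J, (x j ^ 2) ^ (m + 1) := by
    rcases J.eq_empty_or_nonempty with rfl | hJ
    · simp
    have hd : (0 : ℝ) < (J.card : ℝ) ^ m := by
      have : (0 : ℝ) < J.card := by exact_mod_cast hJ.card_pos
      positivity
    have := pow_sum_div_card_le_sum_pow (s := J) (f := fun j => x j ^ 2)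
      (fun j _ => sq_nonneg _) m
    rw [div_le_iff₀ hd] at this
    linarith
  have h2 : ∀ j ∈ J, (S + y ^ 2) * ((x j ^ 2) ^ (m + 1) * E) ≤
      S * (x j ^ (2 * (m + 1)) * E) + (y ^ (2 * (m + 2)) * E + x j ^ (2 * (m + 2)) * E) := by
    intro j _
    have e1 : x j ^ (2 * (m + 1)) = (x j ^ 2) ^ (m + 1) := by rw [pow_mul]
    have e2 : x j ^ (2 * (m + 2)) = (x j ^ 2) ^ (m + 2) := by rw [pow_mul]
    have e3 : y ^ (2 * (m + 2)) = (y ^ 2) ^ (m + 2) := by rw [pow_mul]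
    rw [e1, e2, e3]
    have ha : 0 ≤ x j ^ 2 := sq_nonneg _
    have hb : 0 ≤ y ^ 2 := sq_nonneg _
    generalize x j ^ 2 = a at ha
    generalize y ^ 2 = b at hb
    have hab : b * a ^ (m + 1) ≤ b ^ (m + 2) + a ^ (m + 2) := by
      rcases le_total a b with h | h
      · have : a ^ (m + 1) ≤ b ^ (m + 1) := pow_le_pow_left₀ ha h _
        have h2 : b * a ^ (m + 1) ≤ b * b ^ (m + 1) := mul_le_mul_of_nonneg_left this hb
        have h3 : b * b ^ (m + 1) = b ^ (m + 2) := by ring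
        have h4 : 0 ≤ a ^ (m + 2) := by positivity
        linarith
      · have h2 : b * a ^ (m + 1) ≤ a * a ^ (m + 1) :=
          mul_le_mul_of_nonneg_right h (by positivity)
        have h3 : a * a ^ (m + 1) = a ^ (m + 2) := by ring
        have h4 : 0 ≤ b ^ (m + 2) := by positivity
        linarith
    have := mul_le_mul_of_nonneg_right hab hE
    nlinarith
  calc (S + y ^ 2) * ((∑ j ∈ J, x j ^ 2) ^ (m + 1) * E)
      ≤ (S + y ^ 2) * (((J.card : ℝ) ^ m * ∑ j ∈ J, (x j ^ 2) ^ (m + 1)) * E) := by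
        gcongr
    _ = (J.card : ℝ) ^ m * ∑ j ∈ J, (S + y ^ 2) * ((x j ^ 2) ^ (m + 1) * E) := by
        rw [← Finset.mul_sum, ← Finset.sum_mul]
        ring
    _ ≤ _ := by
        refine mul_le_mul_of_nonneg_left (Finset.sum_le_sum h2) (by positivity)

/-- uses `UR.momR` -/
theorem momD (hU : GP V κ Λ S) (hJ : J.Nonempty) {w : Eu n} (hwJ : ∀ j ∈ J, w j = 0)
    (hw : ‖w‖ ≤ 1) (k : ℕ) :
    ∫⁻ x, ENNReal.ofReal (om S w x ^ 2) *
        ENNReal.ofReal (rr J x ^ (2 * k) * Real.exp (-V x)) ≤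
      ENNReal.ofReal ((J.card : ℝ) ^ k * (9 * ((2 * k + 2).factorial : ℝ) *
        (64 * S) ^ (k + 1))) := by
  have _ := hwJ
  have hS := hU.Spos
  have hci : Continuous fun x : Eu n => (inner ℝ x w : ℝ) :=
    continuous_id.inner continuous_const
  have hce : Continuous fun x : Eu n => Real.exp (-V x) :=
    Real.continuous_exp.comp hU.cd.continuous.neg
  have hcx : ∀ j : Fin n, Continuous fun x : Eu n => x j := fun j => by fun_prop
  rcases k with _ | m
  · -- `k = 0`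
    have hpt : ∀ x : Eu n, ENNReal.ofReal (om S w x ^ 2) *
        ENNReal.ofReal (rr J x ^ (2 * 0) * Real.exp (-V x)) =
        ENNReal.ofReal S * ENNReal.ofReal ((inner ℝ x w : ℝ) ^ (2 * 0) * Real.exp (-V x)) +
          ENNReal.ofReal ((inner ℝ x w : ℝ) ^ (2 * 1) * Real.exp (-V x)) := by
      intro x
      have hE := Real.exp_pos (-V x)
      have z1 : (inner ℝ x w : ℝ) ^ (2 * 0) = 1 := by simp
      have z2 : (inner ℝ x w : ℝ) ^ (2 * 1) = (inner ℝ x w : ℝ) ^ 2 := by norm_num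
      have z3 : rr J x ^ (2 * 0) = 1 := by simp
      rw [z1, z2, z3, momD_om hS, ← ENNReal.ofReal_mul (by positivity),
        ← ENNReal.ofReal_mul hS.le, ← ENNReal.ofReal_add (by positivity) (by positivity)]
      congr 1
      ring
    rw [lintegral_congr hpt]
    have hm0 : Measurable fun x : Eu n =>
        ENNReal.ofReal ((inner ℝ x w : ℝ) ^ (2 * 0) * Real.exp (-V x)) :=
      ((hci.pow _).mul hce).measurable.ennreal_ofReal
    rw [lintegral_add_left (hm0.const_mul _), lintegral_const_mul _ hm0]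
    refine (add_le_add (mul_le_mul_right (momR hU hw 0) _) (momR hU hw 1)).trans ?_
    rw [← ENNReal.ofReal_mul hS.le, ← ENNReal.ofReal_add (by positivity) (by positivity)]
    apply ENNReal.ofReal_le_ofReal
    norm_num [Nat.factorial]
    nlinarith
  · -- `k = m + 1`
    have hpt : ∀ x : Eu n, ENNReal.ofReal (om S w x ^ 2) *
        ENNReal.ofReal (rr J x ^ (2 * (m + 1)) * Real.exp (-V x)) ≤
        ENNReal.ofReal ((J.card : ℝ) ^ m) * ∑ j ∈ J,
          (ENNReal.ofReal S * ENNReal.ofReal (x j ^ (2 * (m + 1)) * Real.exp (-V x)) +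
          (ENNReal.ofReal ((inner ℝ x w : ℝ) ^ (2 * (m + 2)) * Real.exp (-V x)) +
            ENNReal.ofReal (x j ^ (2 * (m + 2)) * Real.exp (-V x)))) := by
      intro x
      have hE := Real.exp_pos (-V x)
      have h1 := momD_pt (J := J) hS w x m hE.le
      have hnn : ∀ j ∈ J, 0 ≤ S * (x j ^ (2 * (m + 1)) * Real.exp (-V x)) +
          ((inner ℝ x w : ℝ) ^ (2 * (m + 2)) * Real.exp (-V x) +
            x j ^ (2 * (m + 2)) * Real.exp (-V x)) := by
        intro j _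
        have e1 : 0 ≤ x j ^ (2 * (m + 1)) := by rw [pow_mul]; positivity
        have e2 : 0 ≤ x j ^ (2 * (m + 2)) := by rw [pow_mul]; positivity
        have e3 : 0 ≤ (inner ℝ x w : ℝ) ^ (2 * (m + 2)) := by rw [pow_mul]; positivity
        positivity
      rw [← ENNReal.ofReal_mul (by positivity)]
      refine (ENNReal.ofReal_le_ofReal h1).trans ?_
      rw [ENNReal.ofReal_mul (by positivity), ENNReal.ofReal_sum_of_nonneg hnn]
      refine le_of_eq ?_
      congr 1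
      refine Finset.sum_congr rfl fun j _ => ?_
      have e1 : 0 ≤ x j ^ (2 * (m + 1)) := by rw [pow_mul]; positivity
      have e2 : 0 ≤ x j ^ (2 * (m + 2)) := by rw [pow_mul]; positivity
      have e3 : 0 ≤ (inner ℝ x w : ℝ) ^ (2 * (m + 2)) := by rw [pow_mul]; positivity
      rw [ENNReal.ofReal_add (by positivity) (by positivity), ENNReal.ofReal_mul hS.le,
        ENNReal.ofReal_add (by positivity) (by positivity)]
    refine (lintegral_mono hpt).trans ?_
    have hma : ∀ j : Fin n, ∀ p : ℕ, Measurable fun x : Eu n =>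
        ENNReal.ofReal (x j ^ p * Real.exp (-V x)) := fun j p =>
      (((hcx j).pow _).mul hce).measurable.ennreal_ofReal
    have hmb : ∀ p : ℕ, Measurable fun x : Eu n =>
        ENNReal.ofReal ((inner ℝ x w : ℝ) ^ p * Real.exp (-V x)) := fun p =>
      ((hci.pow _).mul hce).measurable.ennreal_ofReal
    have hms : ∀ j ∈ J, Measurable fun x : Eu n =>
        ENNReal.ofReal S * ENNReal.ofReal (x j ^ (2 * (m + 1)) * Real.exp (-V x)) +
          (ENNReal.ofReal ((inner ℝ x w : ℝ) ^ (2 * (m + 2)) * Real.exp (-V x)) +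
            ENNReal.ofReal (x j ^ (2 * (m + 2)) * Real.exp (-V x))) := fun j _ =>
      ((hma j _).const_mul _).add ((hmb _).add (hma j _))
    rw [lintegral_const_mul _ (Finset.measurable_fun_sum J hms), lintegral_finsetSum _ hms]
    have hj : ∀ j ∈ J, ∫⁻ x : Eu n,
        (ENNReal.ofReal S * ENNReal.ofReal (x j ^ (2 * (m + 1)) * Real.exp (-V x)) +
          (ENNReal.ofReal ((inner ℝ x w : ℝ) ^ (2 * (m + 2)) * Real.exp (-V x)) +
            ENNReal.ofReal (x j ^ (2 * (m + 2)) * Real.exp (-V x)))) ≤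
        ENNReal.ofReal (S * (4 * ((2 * (m + 1)).factorial : ℝ) * (64 * S) ^ (m + 1)) +
          (4 * ((2 * (m + 2)).factorial : ℝ) * (64 * S) ^ (m + 2) +
            4 * ((2 * (m + 2)).factorial : ℝ) * (64 * S) ^ (m + 2))) := by
      intro j _
      rw [lintegral_add_left ((hma j _).const_mul _), lintegral_add_left (hmb _),
        lintegral_const_mul _ (hma j _),
        ENNReal.ofReal_add (by positivity) (by positivity),
        ENNReal.ofReal_add (by positivity) (by positivity),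
        ENNReal.ofReal_mul hS.le]
      exact add_le_add (mul_le_mul_right (momD_coord hU j (m + 1)) _)
        (add_le_add (momR hU hw (m + 2)) (momD_coord hU j (m + 2)))
    refine (mul_le_mul_right (Finset.sum_le_sum hj) _).trans ?_
    rw [Finset.sum_const, nsmul_eq_mul, ← ENNReal.ofReal_natCast,
      ← ENNReal.ofReal_mul (by positivity), ← ENNReal.ofReal_mul (by positivity)]
    apply ENNReal.ofReal_le_ofReal
    have hf : ((2 * (m + 1)).factorial : ℝ) ≤ ((2 * (m + 1) + 2).factorial : ℝ) := by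
      exact_mod_cast Nat.factorial_le (by omega)
    have hf2 : ((2 * (m + 2)).factorial : ℝ) = ((2 * (m + 1) + 2).factorial : ℝ) := by
      congr 2
    rw [hf2]
    set F := ((2 * (m + 1) + 2).factorial : ℝ) with hF
    have hF0 : 0 < F := by positivity
    have e64 : (64 * S) ^ (m + 2) = 64 * S * (64 * S) ^ (m + 1) := by ring
    rw [e64]
    have hB : 0 < S * (64 * S) ^ (m + 1) := by positivity
    set B := (64 * S) ^ (m + 1) with hBdef
    have h3 : S * (4 * ((2 * (m + 1)).factorial : ℝ) * B) +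
        (4 * F * (64 * S * B) + 4 * F * (64 * S * B)) ≤ 9 * F * (64 * S * B) := by
      have := mul_le_mul_of_nonneg_left hf hB.le
      have h4 : 0 < S * B * F := mul_pos hB hF0
      nlinarith
    calc (J.card : ℝ) ^ m * ((J.card : ℝ) * (S * (4 * ((2 * (m + 1)).factorial : ℝ) * B) +
        (4 * F * (64 * S * B) + 4 * F * (64 * S * B))))
        ≤ (J.card : ℝ) ^ m * ((J.card : ℝ) * (9 * F * (64 * S * B))) := by gcongr
      _ = (J.card : ℝ) ^ (m + 1) * (9 * F * (64 * S * B)) := by ring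

/-! numerical inequalities -/

private lemma momD_cb (k : ℕ) : (2 * k).factorial ≤ 4 ^ k * k.factorial ^ 2 := by
  have h1 : (2 * k).factorial = k.centralBinom * k.factorial ^ 2 := by
    have := Nat.choose_mul_factorial_mul_factorial (n := 2 * k) (k := k) (by omega)
    rw [show 2 * k - k = k by omega] at this
    rw [Nat.centralBinom, ← this]; ring
  have h2 : k.centralBinom ≤ 4 ^ k := by
    rw [Nat.centralBinom]
    calc (2 * k).choose k ≤ 2 ^ (2 * k) := Nat.choose_le_two_pow _ _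
      _ = 4 ^ k := by rw [pow_mul]; norm_num
  rw [h1]
  exact Nat.mul_le_mul_right _ h2

private lemma momD_four (k : ℕ) : (k + 3) ^ 4 ≤ 81 * 4 ^ k := by
  induction k with
  | zero => norm_num
  | succ k ih =>
    have h1 : (k + 1 + 3) ^ 4 ≤ 4 * (k + 3) ^ 4 := by
      have h2 : (k + 1 + 3) ^ 2 ≤ 2 * (k + 3) ^ 2 :=
        Nat.le.intro (k := k ^ 2 + 4 * k + 2) (by ring)
      calc (k + 1 + 3) ^ 4 = (k + 1 + 3) ^ 2 * (k + 1 + 3) ^ 2 := by ring
        _ ≤ (2 * (k + 3) ^ 2) * (2 * (k + 3) ^ 2) := Nat.mul_le_mul h2 h2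
        _ = _ := by ring
    have h3 : 4 ^ (k + 1) = 4 * 4 ^ k := by ring
    rw [h3]
    omega

private lemma momD_exp (k d : ℕ) (hd : 1 ≤ d) :
    ((2 * k + 2 * d + 4 : ℕ) : ℝ) ^ (2 * d) ≤ (8 * (d : ℝ) ^ 2) ^ d * 8 ^ (k + 2) := by
  have hd0 : (0 : ℝ) < d := by exact_mod_cast hd
  have h1 : (1 + ((k : ℝ) + 2) / d) ^ (2 * d) ≤ 8 ^ (k + 2) := by
    have h2 : 1 + ((k : ℝ) + 2) / d ≤ Real.exp (((k : ℝ) + 2) / d) := by
      have := Real.add_one_le_exp (((k : ℝ) + 2) / d)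
      linarith
    calc (1 + ((k : ℝ) + 2) / d) ^ (2 * d) ≤ (Real.exp (((k : ℝ) + 2) / d)) ^ (2 * d) := by
          gcongr
      _ = (Real.exp 1 ^ 2) ^ (k + 2) := by
          rw [← Real.exp_nat_mul, ← Real.exp_nat_mul, ← Real.exp_nat_mul]
          congr 1
          push_cast
          field_simp
      _ ≤ 8 ^ (k + 2) := by
          have h3 := Real.exp_one_lt_d9
          have h4 := Real.exp_pos 1
          gcongr
          nlinarith
  have h2 : ((2 * k + 2 * d + 4 : ℕ) : ℝ) = 2 * d * (1 + ((k : ℝ) + 2) / d) := by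
    push_cast
    field_simp
    ring
  rw [h2, mul_pow]
  have h3 : (2 * (d : ℝ)) ^ (2 * d) ≤ (8 * (d : ℝ) ^ 2) ^ d := by
    rw [pow_mul]
    gcongr
    nlinarith
  exact mul_le_mul h3 h1 (by positivity) (by positivity)

private lemma momD_num (k d : ℕ) (hd : 1 ≤ d) :
    576 * ((2 * (k + 1 + d) + 2).factorial : ℝ) ≤
      10 ^ 6 * (d : ℝ) ^ 4 * 128 ^ (k + 1) * (k.factorial : ℝ) ^ 2 * (8 * (d : ℝ) ^ 2) ^ d := by
  have hd0 : (1 : ℝ) ≤ d := by exact_mod_cast hd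
  have h1 : (2 * (k + 1 + d) + 2).factorial ≤
      (2 * k).factorial * (2 * k + 2 * d + 4) ^ (2 * d + 4) := by
    have h2 := Nat.factorial_mul_descFactorial (n := 2 * k + 2 * d + 4) (k := 2 * d + 4)
      (by omega)
    have h3 : 2 * k + 2 * d + 4 - (2 * d + 4) = 2 * k := by omega
    have h4 : 2 * (k + 1 + d) + 2 = 2 * k + 2 * d + 4 := by ring
    rw [h4, ← h2, h3]
    exact Nat.mul_le_mul_left _ (Nat.descFactorial_le_pow _ _)
  have h5 : ((2 * (k + 1 + d) + 2).factorial : ℝ) ≤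
      (4 ^ k * (k.factorial : ℝ) ^ 2) * ((2 * k + 2 * d + 4 : ℕ) : ℝ) ^ (2 * d + 4) := by
    have h6 := h1.trans (Nat.mul_le_mul_right _ (momD_cb k))
    exact_mod_cast h6
  have h7 : ((2 * k + 2 * d + 4 : ℕ) : ℝ) ^ 4 ≤ 16 * (d : ℝ) ^ 4 * (81 * 4 ^ k) := by
    have h8 : ((2 * k + 2 * d + 4 : ℕ) : ℝ) ≤ 2 * d * ((k : ℝ) + 3) := by
      push_cast
      have : (0 : ℝ) ≤ k := Nat.cast_nonneg k
      nlinarith
    have h9 : ((k : ℝ) + 3) ^ 4 ≤ 81 * 4 ^ k := by exact_mod_cast momD_four k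
    calc ((2 * k + 2 * d + 4 : ℕ) : ℝ) ^ 4 ≤ (2 * d * ((k : ℝ) + 3)) ^ 4 := by gcongr
      _ = 16 * (d : ℝ) ^ 4 * ((k : ℝ) + 3) ^ 4 := by ring
      _ ≤ _ := by gcongr
  have h10 := momD_exp k d hd
  have h11 : ((2 * (k + 1 + d) + 2).factorial : ℝ) ≤
      (4 ^ k * (k.factorial : ℝ) ^ 2) *
        (((8 * (d : ℝ) ^ 2) ^ d * 8 ^ (k + 2)) * (16 * (d : ℝ) ^ 4 * (81 * 4 ^ k))) := by
    refine h5.trans ?_
    rw [pow_add]
    gcongr
  have h12 : (4 ^ k * (k.factorial : ℝ) ^ 2) *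
        (((8 * (d : ℝ) ^ 2) ^ d * 8 ^ (k + 2)) * (16 * (d : ℝ) ^ 4 * (81 * 4 ^ k))) =
      82944 * ((d : ℝ) ^ 4 * 128 ^ k * (k.factorial : ℝ) ^ 2 * (8 * (d : ℝ) ^ 2) ^ d) := by
    have h13 : (128 : ℝ) ^ k = 4 ^ k * 4 ^ k * 8 ^ k := by
      rw [← mul_pow, ← mul_pow]; norm_num
    rw [h13]
    ring
  rw [h12] at h11
  have h14 : 0 ≤ (d : ℝ) ^ 4 * 128 ^ k * (k.factorial : ℝ) ^ 2 * (8 * (d : ℝ) ^ 2) ^ d := by
    positivity
  calc 576 * ((2 * (k + 1 + d) + 2).factorial : ℝ)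
      ≤ 576 * (82944 * ((d : ℝ) ^ 4 * 128 ^ k * (k.factorial : ℝ) ^ 2 *
        (8 * (d : ℝ) ^ 2) ^ d)) := by gcongr
    _ ≤ 128 * 10 ^ 6 * ((d : ℝ) ^ 4 * 128 ^ k * (k.factorial : ℝ) ^ 2 *
        (8 * (d : ℝ) ^ 2) ^ d) := by nlinarith
    _ = _ := by ring

/-- uses `QkD_bound` and `momD` -/
theorem QD_final (hU : GP V κ Λ S) (hs : Sy J Γ q) (hVi : Inv Γ V) (hJ : J.Nonempty) {R : ℝ}
    (hR : 0 < R) (hRS : R ^ 2 = 2048 * (J.card : ℝ) ^ 3 * S) {w : Eu n}
    (hwJ : ∀ j ∈ J, w j = 0) (hw : ‖w‖ ≤ 1) (k : ℕ) :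
    ∫⁻ x in {x : Eu n | R / 2 ≤ rr J x}, ENNReal.ofReal (om S w x ^ 2) *
        (Uk V J (k + 1) x ^ 2 * ENNReal.ofReal (Real.exp (V x))) ≤
      ENNReal.ofReal (QQ J S (k + 1)) := by
  have hS := hU.Spos
  have hci : Continuous fun x : Eu n => (inner ℝ x w : ℝ) :=
    continuous_id.inner continuous_const
  have hp : Continuous fun x : Eu n => om S w x ^ 2 := by
    have e : (fun x : Eu n => om S w x ^ 2) = fun x => S + (inner ℝ x w : ℝ) ^ 2 :=
      funext (momD_om hS w)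
    rw [e]
    exact continuous_const.add (hci.pow 2)
  have hDl : ∀ (x : Eu n) (t : ℝ), om S w (Dl J t x) ^ 2 = om S w x ^ 2 := by
    intro x t
    rw [momD_om hS, momD_om hS]
    congr 2
    simp only [PiLp.inner_apply, RCLike.inner_apply, conj_trivial]
    refine Finset.sum_congr rfl fun j _ => ?_
    unfold Dl
    by_cases hj : j ∈ J
    · simp [hj, hwJ j hj]
    · simp [hj]
  have h1 := QkD_bound hU hs hVi hJ hR (p := fun x => om S w x ^ 2) hp (fun x => sq_nonneg _)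
    hDl k
  refine h1.trans ?_
  have h2 := momD (J := J) hU hJ hwJ hw (k + 1 + J.card)
  refine (mul_le_mul_right h2 _).trans ?_
  rw [← ENNReal.ofReal_mul (by positivity)]
  apply ENNReal.ofReal_le_ofReal
  set d := J.card with hd
  have hd1 : 1 ≤ d := hJ.card_pos
  have hd0 : (0 : ℝ) < d := by exact_mod_cast hd1
  have hR2 : (R / 2) ^ (2 * d) = (512 * (d : ℝ) ^ 3 * S) ^ d := by
    rw [pow_mul, div_pow, hRS]
    congr 1
    ring
  rw [hR2]
  have hf0 : 0 < (k.factorial : ℝ) := by positivity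
  rw [div_mul_eq_mul_div, one_mul, div_le_iff₀ (by positivity)]
  have hnum := momD_num k d hd1
  set F := ((2 * (k + 1 + d) + 2).factorial : ℝ) with hF
  unfold QQ
  rw [← hd]
  have e1 : (64 * S) ^ (k + 1 + d + 1) = 64 * S * ((64 * S) ^ (k + 1) * (64 * S) ^ d) := by
    ring
  have e2 : (8192 * (d : ℝ) * S) ^ (k + 1) = 128 ^ (k + 1) * (d : ℝ) ^ (k + 1) *
      (64 * S) ^ (k + 1) := by
    rw [← mul_pow, ← mul_pow]
    congr 1
    ring
  have e3 : (512 * (d : ℝ) ^ 3 * S) ^ d = (8 * (d : ℝ) ^ 2) ^ d * (d : ℝ) ^ d *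
      (64 * S) ^ d := by
    rw [← mul_pow, ← mul_pow]
    congr 1
    ring
  rw [e1, e2, e3]
  have hA : 0 ≤ S * ((d : ℝ) ^ (k + 1) * (d : ℝ) ^ d * ((64 * S) ^ (k + 1) * (64 * S) ^ d)) := by
    positivity
  calc (d : ℝ) ^ (k + 1 + d) * (9 * F * (64 * S * ((64 * S) ^ (k + 1) * (64 * S) ^ d)))
      = (576 * F) * (S * ((d : ℝ) ^ (k + 1) * (d : ℝ) ^ d *
        ((64 * S) ^ (k + 1) * (64 * S) ^ d))) := by ring
    _ ≤ (10 ^ 6 * (d : ℝ) ^ 4 * 128 ^ (k + 1) * (k.factorial : ℝ) ^ 2 *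
        (8 * (d : ℝ) ^ 2) ^ d) * (S * ((d : ℝ) ^ (k + 1) * (d : ℝ) ^ d *
        ((64 * S) ^ (k + 1) * (64 * S) ^ d))) := mul_le_mul_of_nonneg_right hnum hA
    _ = _ := by ring

end Pool.Agent.Lib.MP_6d896a_gt.UC.UR.UD
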