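import Mathlib
import Pool.Agent.Lib.MP_6d896a_gt.UD.Defs
import Pool.Agent.Lib.MP_6d896a_gt.UC.Basic
import Pool.Agent.Lib.MP_6d896a_gt.UD.ExchD
import Pool.Agent.Lib.MP_6d896a_gt.UD.MomD

/-!
Project UD, piece D8: the weights `om` and the real-valued package `Fk`.
-/

set_option autoImplicit false
set_option linter.all false

namespace Pool.Agent.Lib.MP_6d896a_gt.UC.UR.UD

open MeasureTheory Filter Topology Set ProbabilityTheory
open scoped ENNReal NNReal ContDiff

variable {n : ℕ} {V f g u : Eu n → ℝ} {κ Λ S : ℝ} {J : Finset (Fin n)}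
  {Γ : Eu n ≃ₗᵢ[ℝ] Eu n} {q : ℕ}

/-! ### the weights -/

lemma omD_pos (hS : 0 < S) (w x : Eu n) : 0 < om S w x :=
  Real.sqrt_pos.2 (by positivity)

lemma omD_ge (hS : 0 < S) (w x : Eu n) : Real.sqrt S ≤ om S w x :=
  Real.sqrt_le_sqrt (by have := sq_nonneg (inner ℝ x w); linarith)

lemma omD_abs (hS : 0 < S) (w x : Eu n) : |inner ℝ x w| ≤ om S w x :=
  Real.abs_le_sqrt (by linarith)

lemma omD_cont (S : ℝ) (w : Eu n) : Continuous (om S w) := by
  unfold om
  exact Real.continuous_sqrt.comp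
    (continuous_const.add ((continuous_id.inner continuous_const).pow 2))

lemma omD_Dl {w : Eu n} (hwJ : ∀ j ∈ J, w j = 0) (x : Eu n) (t : ℝ) :
    om S w (Dl J t x) = om S w x := by
  unfold om
  have h : inner ℝ (Dl J t x) w = inner ℝ x w := by
    rw [PiLp.inner_apply, PiLp.inner_apply]
    refine Finset.sum_congr rfl fun j _ => ?_
    by_cases hj : j ∈ J
    · rw [hwJ j hj]; simp
    · simp [Dl, hj]
  rw [h]

/-! ### auxiliary lemmas -/

private lemma fd_nv_nonneg {p : ℕ} (v : Fin p → Eu n → ℝ) (x : Eu n) : 0 ≤ nv v x :=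
  Real.sqrt_nonneg _

private lemma fd_nv_sq {p : ℕ} (v : Fin p → Eu n → ℝ) (x : Eu n) :
    nv v x ^ 2 = ∑ a, v a x ^ 2 :=
  Real.sq_sqrt (Finset.sum_nonneg fun _ _ => sq_nonneg _)

private lemma fd_nv_cont {p : ℕ} {v : Fin p → Eu n → ℝ} (hv : ∀ a, TT (v a)) :
    Continuous (nv v) := by
  unfold nv
  exact Real.continuous_sqrt.comp (continuous_finsetSum _ fun a _ => (hv a).continuous.pow 2)

private lemma fd_nv_cs {p : ℕ} {v : Fin p → Eu n → ℝ} (hv : ∀ a, TT (v a)) :
    HasCompactSupport (nv v) :=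
  (TT.sum Finset.univ fun a _ => (hv a).sq).cs.comp_left (g := Real.sqrt) Real.sqrt_zero

private lemma fd_gg_TT {p : ℕ} {v : Fin p → Eu n → ℝ} (hv : ∀ a, TT (v a)) {η : ℝ}
    (hη : 0 < η) : TT (gg η v) := by
  have hs : TT (fun x => ∑ a, v a x ^ 2) := TT.sum Finset.univ fun a _ => (hv a).sq
  constructor
  · unfold gg
    refine ContDiff.sub (ContDiff.sqrt (hs.cd.add contDiff_const) fun x => ?_) contDiff_const
    have h1 : 0 ≤ ∑ a, v a x ^ 2 := Finset.sum_nonneg fun _ _ => sq_nonneg _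
    positivity
  · exact hs.cs.comp_left (g := fun t : ℝ => Real.sqrt (t + η ^ 2) - η)
      (by simp [Real.sqrt_sq hη.le])

private lemma fd_gg_nonneg {p : ℕ} {v : Fin p → Eu n → ℝ} {η : ℝ} (hη : 0 < η) (x : Eu n) :
    0 ≤ gg η v x := by
  unfold gg
  have h1 : 0 ≤ ∑ a, v a x ^ 2 := Finset.sum_nonneg fun _ _ => sq_nonneg _
  have h2 : η ≤ Real.sqrt (∑ a, v a x ^ 2 + η ^ 2) := Real.le_sqrt_of_sq_le (by linarith)
  linarith

private lemma fd_gg_le {p : ℕ} {v : Fin p → Eu n → ℝ} {η : ℝ} (hη : 0 < η) (x : Eu n) :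
    gg η v x ≤ nv v x := by
  unfold gg nv
  have h1 : 0 ≤ ∑ a, v a x ^ 2 := Finset.sum_nonneg fun _ _ => sq_nonneg _
  have h2 : Real.sqrt (∑ a, v a x ^ 2 + η ^ 2) ≤ Real.sqrt (∑ a, v a x ^ 2) + η := by
    rw [Real.sqrt_le_left (by positivity), add_sq, Real.sq_sqrt h1]
    have : 0 ≤ Real.sqrt (∑ a, v a x ^ 2) * η := by positivity
    linarith
  linarith

private lemma fd_nv_le {p : ℕ} {v : Fin p → Eu n → ℝ} {η : ℝ} (hη : 0 < η) (x : Eu n) :
    nv v x ≤ gg η v x + η := by
  unfold gg nv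
  have h2 : Real.sqrt (∑ a, v a x ^ 2) ≤ Real.sqrt (∑ a, v a x ^ 2 + η ^ 2) :=
    Real.sqrt_le_sqrt (by have := sq_nonneg η; linarith)
  linarith

private lemma fd_nx_nv (J : Finset (Fin n)) (u : Eu n → ℝ) (x : Eu n) :
    nv (nx J u) x = Real.sqrt (∑ m ∈ J, pd m u x ^ 2) := by
  unfold nv nx
  congr 1
  have h1 : ∀ m : Fin n, (if m ∈ J then pd m u else fun _ => 0) x ^ 2 =
      if m ∈ J then pd m u x ^ 2 else 0 := fun m => by split_ifs <;> simp
  simp only [h1]
  rw [Finset.sum_ite_mem, Finset.univ_inter]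

private lemma fd_cs2 (s : Set (Eu n)) {F G : Eu n → ℝ≥0∞} (hF : Measurable F) (hG : Measurable G)
    {a b : ℝ} (ha : 0 ≤ a) (hb : 0 ≤ b) (h1 : ∫⁻ x in s, F x ^ 2 ≤ ENNReal.ofReal a)
    (h2 : ∫⁻ x in s, G x ^ 2 ≤ ENNReal.ofReal b) :
    ∫⁻ x in s, F x * G x ≤ ENNReal.ofReal (Real.sqrt a * Real.sqrt b) := by
  have hH := ENNReal.lintegral_mul_le_Lp_mul_Lq (volume.restrict s)
    (Real.holderConjugate_iff.mpr ⟨by norm_num, by norm_num⟩ : (2 : ℝ).HolderConjugate 2)
    hF.aemeasurable hG.aemeasurable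
  have h1' : ∫⁻ x in s, F x ^ (2 : ℝ) ≤ ENNReal.ofReal a := by
    have e : ∀ x, F x ^ (2 : ℝ) = F x ^ 2 := fun x => by
      rw [show ((2 : ℝ)) = ((2 : ℕ) : ℝ) by norm_num, ENNReal.rpow_natCast]
    simp only [e]
    exact h1
  have h2' : ∫⁻ x in s, G x ^ (2 : ℝ) ≤ ENNReal.ofReal b := by
    have e : ∀ x, G x ^ (2 : ℝ) = G x ^ 2 := fun x => by
      rw [show ((2 : ℝ)) = ((2 : ℕ) : ℝ) by norm_num, ENNReal.rpow_natCast]
    simp only [e]
    exact h2
  have e0 : ∫⁻ x in s, F x * G x = ∫⁻ x in s, (F * G) x := rfl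
  rw [e0]
  refine hH.trans ?_
  refine (mul_le_mul' (ENNReal.rpow_le_rpow h1' (by norm_num))
    (ENNReal.rpow_le_rpow h2' (by norm_num))).trans ?_
  rw [ENNReal.ofReal_rpow_of_nonneg ha (by norm_num),
    ENNReal.ofReal_rpow_of_nonneg hb (by norm_num),
    ← ENNReal.ofReal_mul (Real.rpow_nonneg ha _), ← Real.sqrt_eq_rpow, ← Real.sqrt_eq_rpow]

private lemma fd_QQ0 (hS : 0 < S) (J : Finset (Fin n)) (k : ℕ) : 0 ≤ QQ J S k := by
  unfold QQ; positivity

private lemma fd_rw (hS : 0 < S) (w x : Eu n) (F : Eu n → ℝ) (U : ℝ≥0∞) :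
    ENNReal.ofReal |om S w x * F x| * U =
      ENNReal.ofReal |F x| * (ENNReal.ofReal (om S w x) * U) := by
  rw [abs_mul, abs_of_pos (omD_pos hS w x), ENNReal.ofReal_mul (omD_pos hS w x).le]
  ring

private lemma fd_exp (a : ℝ) : ENNReal.ofReal (Real.exp (-a / 2)) *
    ENNReal.ofReal (Real.exp (a / 2)) = 1 := by
  rw [← ENNReal.ofReal_mul (Real.exp_pos _).le, ← Real.exp_add]
  have : -a / 2 + a / 2 = 0 := by ring
  rw [this, Real.exp_zero, ENNReal.ofReal_one]

private lemma fd_key (hU : GP V κ Λ S) (hs : Sy J Γ q) (hVi : Inv Γ V) (hJ : J.Nonempty) {R : ℝ}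
    (hR : 0 < R) (hRS : R ^ 2 = 2048 * (J.card : ℝ) ^ 3 * S) {w : Eu n}
    (hwJ : ∀ j ∈ J, w j = 0) (hw : ‖w‖ ≤ 1) {s : Set (Eu n)}
    (hsub : s ⊆ {x : Eu n | R / 2 ≤ rr J x}) {F : Eu n → ℝ} (hF : Measurable F) (k : ℕ) {B : ℝ}
    (hB : 0 ≤ B)
    (hb : ∫⁻ x in s, ENNReal.ofReal (F x ^ 2 * Real.exp (-V x)) ≤ ENNReal.ofReal B) :
    ∫⁻ x in s, ENNReal.ofReal |F x| * (ENNReal.ofReal (om S w x) * Uk V J (k + 1) x) ≤
      ENNReal.ofReal (Real.sqrt (QQ J S (k + 1)) * Real.sqrt B) := by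
  have hV : Continuous V := hU.cd.continuous
  have hT := Uk_meas hV J (k + 1)
  have hS := hU.Spos
  have hom : Continuous (om S w) := omD_cont S w
  set A : Eu n → ℝ≥0∞ := fun x => ENNReal.ofReal (|F x| * Real.exp (-V x / 2)) with hA
  set G : Eu n → ℝ≥0∞ := fun x => ENNReal.ofReal (om S w x) *
    (Uk V J (k + 1) x * ENNReal.ofReal (Real.exp (V x / 2))) with hG
  have hAm : Measurable A :=
    (hF.abs.mul (Real.continuous_exp.comp (hV.neg.div_const 2)).measurable).ennreal_ofReal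
  have hGm : Measurable G :=
    hom.measurable.ennreal_ofReal.mul
      (hT.mul ((Real.continuous_exp.comp (hV.div_const 2)).measurable).ennreal_ofReal)
  have hAG : ∀ x, A x * G x =
      ENNReal.ofReal |F x| * (ENNReal.ofReal (om S w x) * Uk V J (k + 1) x) := by
    intro x
    simp only [hA, hG]
    rw [ENNReal.ofReal_mul (abs_nonneg _)]
    calc ENNReal.ofReal |F x| * ENNReal.ofReal (Real.exp (-V x / 2)) *
        (ENNReal.ofReal (om S w x) *
          (Uk V J (k + 1) x * ENNReal.ofReal (Real.exp (V x / 2))))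
        = ENNReal.ofReal |F x| * (ENNReal.ofReal (om S w x) * Uk V J (k + 1) x) *
          (ENNReal.ofReal (Real.exp (-V x / 2)) * ENNReal.ofReal (Real.exp (V x / 2))) := by ring
      _ = _ := by rw [fd_exp, mul_one]
  have h1 : ∫⁻ x in s, G x ^ 2 ≤ ENNReal.ofReal (QQ J S (k + 1)) := by
    have e2 : ∀ x, G x ^ 2 = ENNReal.ofReal (om S w x ^ 2) *
        (Uk V J (k + 1) x ^ 2 * ENNReal.ofReal (Real.exp (V x))) := by
      intro x
      simp only [hG]
      rw [mul_pow, mul_pow, ← ENNReal.ofReal_pow (omD_pos hS w x).le,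
        ← ENNReal.ofReal_pow (Real.exp_pos _).le, ← Real.exp_nat_mul]
      congr 4
      push_cast
      ring
    simp only [e2]
    exact (lintegral_mono_set hsub).trans (QD_final hU hs hVi hJ hR hRS hwJ hw k)
  have h2 : ∫⁻ x in s, A x ^ 2 ≤ ENNReal.ofReal B := by
    have e2 : ∀ x, A x ^ 2 = ENNReal.ofReal (F x ^ 2 * Real.exp (-V x)) := by
      intro x
      simp only [hA]
      rw [← ENNReal.ofReal_pow (by positivity), mul_pow, sq_abs, ← Real.exp_nat_mul]
      congr 3
      push_cast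
      ring
    simp only [e2]
    exact hb
  have h3 := fd_cs2 s hAm hGm hB (fd_QQ0 hS J (k + 1)) h2 h1
  simp only [hAG] at h3
  rw [mul_comm (Real.sqrt B)] at h3
  exact h3

private lemma fd_lint (hV : Continuous V) (hf : Continuous f) (hc : HasCompactSupport f)
    (h0 : ∀ x, 0 ≤ f x) :
    ∫⁻ x, ENNReal.ofReal (f x * Real.exp (-V x)) = ENNReal.ofReal (Ex V f) := by
  unfold Ex
  rw [← ofReal_integral_eq_lintegral_ofReal (int_cs hV hf hc)
    (ae_of_all _ fun x => mul_nonneg (h0 x) (Real.exp_pos _).le)]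

private lemma fd_all (hV : Continuous V) (hf : Continuous f) (hc : HasCompactSupport f)
    (s : Set (Eu n)) :
    ∫⁻ x in s, ENNReal.ofReal (f x ^ 2 * Real.exp (-V x)) ≤
      ENNReal.ofReal (Ex V (fun x => f x ^ 2)) := by
  refine (setLIntegral_le_lintegral s _).trans ?_
  have h1 : HasCompactSupport fun x => f x ^ 2 :=
    hc.comp_left (g := fun t : ℝ => t ^ 2) (by simp)
  have h2 : Continuous fun x => f x ^ 2 := hf.pow 2
  exact (fd_lint (f := fun x => f x ^ 2) hV h2 h1 fun x => sq_nonneg (f x)).le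

private lemma fd_ch_cont (J : Finset (Fin n)) (R : ℝ) : Continuous (ch J R) := by
  unfold ch
  exact Real.continuous_exp.comp (((rr_cont J).pow 2).div_const _).neg

private lemma fd_ch_ge {R : ℝ} (hR : 0 < R) {x : Eu n} (hx : rr J x < R) : 1 ≤ 4 * ch J R x := by
  have h0 := rr_nonneg J x
  have h1 : rr J x ^ 2 / (2 * R ^ 2) ≤ 1 / 2 := by
    rw [div_le_iff₀ (by positivity)]
    have : rr J x ^ 2 ≤ R ^ 2 := pow_le_pow_left₀ h0 hx.le 2
    linarith
  have h2 := Real.add_one_le_exp (-(rr J x ^ 2 / (2 * R ^ 2)))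
  unfold ch
  linarith

private lemma fd_CC0 (V : Eu n → ℝ) (J : Finset (Fin n)) (R : ℝ) {p : ℕ}
    (v : Fin p → Eu n → ℝ) : 0 ≤ CC V J R v :=
  Finset.sum_nonneg fun a _ => Ex_nonneg fun x => mul_nonneg (sq_nonneg _) (Real.exp_pos _).le

private lemma fd_near (hV : Continuous V) {R : ℝ} (hR : 0 < R) {s : Set (Eu n)}
    (hsm : MeasurableSet s)
    (hsub : s ⊆ {x : Eu n | rr J x < R}) {p : ℕ} {v : Fin p → Eu n → ℝ} (hv : ∀ a, TT (v a))
    {F : Eu n → ℝ} (hFv : ∀ x, F x ^ 2 ≤ ∑ a, v a x ^ 2) :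
    ∫⁻ x in s, ENNReal.ofReal (F x ^ 2 * Real.exp (-V x)) ≤
      ENNReal.ofReal (4 * CC V J R v) := by
  have hcont : ∀ a, Continuous fun x => v a x ^ 2 * ch J R x := fun a =>
    ((hv a).continuous.pow 2).mul (fd_ch_cont J R)
  have hcs : ∀ a, HasCompactSupport fun x => v a x ^ 2 * ch J R x := fun a =>
    ((hv a).sq.cs).mul_right (f' := ch J R)
  have hE : Ex V (fun x => 4 * ∑ a, v a x ^ 2 * ch J R x) = 4 * CC V J R v := by
    rw [Ex_const_mul, Ex_sum Finset.univ (F := fun a x => v a x ^ 2 * ch J R x)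
      (fun a _ => int_cs hV (hcont a) (hcs a))]
    rfl
  have hc1 : Continuous fun x => ∑ a, v a x ^ 2 * ch J R x :=
    continuous_finsetSum _ fun a _ => hcont a
  have hc2 : HasCompactSupport fun x => ∑ a, v a x ^ 2 * ch J R x := by
    have e : (fun x => ∑ a, v a x ^ 2 * ch J R x) = fun x => (∑ a, v a x ^ 2) * ch J R x := by
      funext x; rw [Finset.sum_mul]
    rw [e]
    exact (TT.sum Finset.univ fun a _ => (hv a).sq).cs.mul_right (f' := ch J R)
  rw [← hE, ← fd_lint hV (hc1.const_mul 4) (hc2.mul_left (f := fun _ => (4 : ℝ)))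
    (fun x => mul_nonneg (by norm_num) (Finset.sum_nonneg fun a _ =>
      mul_nonneg (sq_nonneg _) (Real.exp_pos _).le))]
  refine le_trans ?_ (setLIntegral_le_lintegral s _)
  refine setLIntegral_mono' hsm fun x hx => ?_
  refine ENNReal.ofReal_le_ofReal (mul_le_mul_of_nonneg_right ?_ (Real.exp_pos _).le)
  rw [← Finset.sum_mul]
  have h1 := fd_ch_ge hR (hsub hx)
  have h2 : 0 ≤ ∑ a, v a x ^ 2 := Finset.sum_nonneg fun a _ => sq_nonneg _
  nlinarith [hFv x]

/-! ### the package -/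

/-- Cauchy-Schwarz over the far zone -/
theorem FD_cs (hU : GP V κ Λ S) (hs : Sy J Γ q) (hVi : Inv Γ V) (hJ : J.Nonempty) {R : ℝ}
    (hR : 0 < R) (hRS : R ^ 2 = 2048 * (J.card : ℝ) ^ 3 * S) {w : Eu n}
    (hwJ : ∀ j ∈ J, w j = 0) (hw : ‖w‖ ≤ 1) (hf : Continuous f) (hc : HasCompactSupport f)
    (k : ℕ) : Fk V J R (k + 1) (fun x => om S w x * f x) ≤
      Real.sqrt (QQ J S (k + 1)) * Real.sqrt (Ex V (fun x => f x ^ 2)) := by
  unfold Fk
  refine ENNReal.toReal_le_of_le_ofReal (by positivity) ?_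
  simp only [fd_rw hU.Spos]
  refine fd_key hU hs hVi hJ hR hRS hwJ hw ?_ hf.measurable k (Ex_nonneg fun x => sq_nonneg _)
    (fd_all hU.cd.continuous hf hc _)
  intro x hx
  have : R ≤ rr J x := hx
  show R / 2 ≤ rr J x
  linarith

private lemma fd_om2 (hU : GP V κ Λ S) {w : Eu n} (hw : ‖w‖ ≤ 1) :
    ∫⁻ x, ENNReal.ofReal (om S w x ^ 2 * Real.exp (-V x)) ≤ ENNReal.ofReal (2 * S) := by
  have hS := hU.Spos
  have hV : Continuous V := hU.cd.continuous
  have e1 : ∀ x, om S w x ^ 2 = S + inner ℝ x w ^ 2 := fun x => by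
    unfold om
    rw [Real.sq_sqrt (by positivity)]
  have i1 : Integrable fun x => S * Real.exp (-V x) := hU.int.const_mul S
  have i2 : Integrable fun x : Eu n => inner ℝ x w ^ 2 * Real.exp (-V x) := by
    refine hU.momi.mono' ?_ (ae_of_all _ fun x => ?_)
    · exact (((continuous_id.inner continuous_const).pow 2).mul
        (Real.continuous_exp.comp hV.neg)).aestronglyMeasurable
    · rw [Real.norm_eq_abs, abs_mul, abs_of_pos (Real.exp_pos _), abs_pow]
      refine mul_le_mul_of_nonneg_right (pow_le_pow_left₀ (abs_nonneg _) ?_ 2)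
        (Real.exp_pos _).le
      calc |inner ℝ x w| ≤ ‖x‖ * ‖w‖ := abs_real_inner_le_norm x w
        _ ≤ ‖x‖ * 1 := mul_le_mul_of_nonneg_left hw (norm_nonneg _)
        _ = ‖x‖ := mul_one _
  have i3 : Integrable fun x : Eu n => om S w x ^ 2 * Real.exp (-V x) := by
    refine (i1.add i2).congr (ae_of_all _ fun x => ?_)
    simp only [Pi.add_apply, e1]
    ring
  rw [← ofReal_integral_eq_lintegral_ofReal i3
    (ae_of_all _ fun x => mul_nonneg (sq_nonneg _) (Real.exp_pos _).le)]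
  refine ENNReal.ofReal_le_ofReal ?_
  have h1 : ∫ x, om S w x ^ 2 * Real.exp (-V x) =
      S * Ex V (fun _ => 1) + Ex V (fun x => inner ℝ x w ^ 2) := by
    rw [← Ex_const_mul]
    unfold Ex
    rw [← integral_add (by simpa using i1) i2]
    refine integral_congr_ae (ae_of_all _ fun x => ?_)
    simp only [e1]
    ring
  rw [h1, hU.mass]
  have h2 := hU.mom w
  have h3 : ‖w‖ ^ 2 ≤ 1 := pow_le_one₀ (norm_nonneg _) hw
  nlinarith

/-- the near zone and the far zone -/
theorem FD_zero (hU : GP V κ Λ S) (hs : Sy J Γ q) (hVi : Inv Γ V) (hJ : J.Nonempty) {R : ℝ}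
    (hR : 0 < R) {w : Eu n} (hw : ‖w‖ ≤ 1) {p : ℕ}
    {v : Fin p → Eu n → ℝ} (hv : ∀ a, TT (v a)) :
    Ex V (fun x => om S w x * nv v x) ≤ 3 * Real.sqrt S * Real.sqrt (CC V J R v) +
      Fk V J R 0 (fun x => om S w x * nv v x) := by
  have hS := hU.Spos
  have hV : Continuous V := hU.cd.continuous
  have hom : Continuous (om S w) := omD_cont S w
  have hn : Continuous (nv v) := fd_nv_cont hv
  have hnc : HasCompactSupport (nv v) := fd_nv_cs hv
  set s : Set (Eu n) := {x | R ≤ rr J x} with hs1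
  have hsm : MeasurableSet s := measurableSet_le measurable_const (rr_cont J).measurable
  set F : Eu n → ℝ≥0∞ := fun x => ENNReal.ofReal ((om S w x * nv v x) * Real.exp (-V x)) with hF
  have h0 : ∫⁻ x, F x = ENNReal.ofReal (Ex V (fun x => om S w x * nv v x)) :=
    fd_lint hV (hom.mul hn) (hnc.mul_left (f := om S w))
      fun x => mul_nonneg (omD_pos hS w x).le (fd_nv_nonneg v x)
  have h1 : (∫⁻ x in s, F x) + ∫⁻ x in sᶜ, F x = ∫⁻ x, F x := lintegral_add_compl F hsm
  have h2 : ∫⁻ x in s, F x =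
      ∫⁻ x in {x : Eu n | R ≤ rr J x}, ENNReal.ofReal |om S w x * nv v x| * Uk V J 0 x := by
    refine lintegral_congr fun x => ?_
    show ENNReal.ofReal ((om S w x * nv v x) * Real.exp (-V x)) =
      ENNReal.ofReal |om S w x * nv v x| * ENNReal.ofReal (Real.exp (-V x))
    have : 0 ≤ om S w x * nv v x := mul_nonneg (omD_pos hS w x).le (fd_nv_nonneg v x)
    rw [abs_of_nonneg this, ENNReal.ofReal_mul this]
  have h3 : ∫⁻ x in s, F x = ENNReal.ofReal (Fk V J R 0 (fun x => om S w x * nv v x)) := by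
    unfold Fk
    rw [← h2, ENNReal.ofReal_toReal]
    refine ne_top_of_le_ne_top (b := ∫⁻ x, F x) ?_ (setLIntegral_le_lintegral s F)
    rw [h0]; exact ENNReal.ofReal_ne_top
  have hCC : 0 ≤ CC V J R v := fd_CC0 V J R v
  have h4 : ∫⁻ x in sᶜ, F x ≤
      ENNReal.ofReal (Real.sqrt (2 * S) * Real.sqrt (4 * CC V J R v)) := by
    have e : ∀ x, F x = ENNReal.ofReal (om S w x * Real.exp (-V x / 2)) *
        ENNReal.ofReal (nv v x * Real.exp (-V x / 2)) := by
      intro x
      rw [← ENNReal.ofReal_mul (mul_nonneg (omD_pos hS w x).le (Real.exp_pos _).le)]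
      simp only [hF]
      congr 1
      have : Real.exp (-V x) = Real.exp (-V x / 2) * Real.exp (-V x / 2) := by
        rw [← Real.exp_add]; congr 1; ring
      rw [this]; ring
    have e2 : ∀ (a : ℝ) (x : Eu n), 0 ≤ a → ENNReal.ofReal (a * Real.exp (-V x / 2)) ^ 2 =
        ENNReal.ofReal (a ^ 2 * Real.exp (-V x)) := by
      intro a x ha
      rw [← ENNReal.ofReal_pow (by positivity), mul_pow, ← Real.exp_nat_mul]
      congr 3
      push_cast
      ring
    simp only [e]
    refine fd_cs2 sᶜ ?_ ?_ (by positivity) (by positivity) ?_ ?_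
    · exact (hom.mul (Real.continuous_exp.comp (hV.neg.div_const 2))).measurable.ennreal_ofReal
    · exact (hn.mul (Real.continuous_exp.comp (hV.neg.div_const 2))).measurable.ennreal_ofReal
    · have e3 : ∀ x, ENNReal.ofReal (om S w x * Real.exp (-V x / 2)) ^ 2 =
          ENNReal.ofReal (om S w x ^ 2 * Real.exp (-V x)) := fun x => e2 _ x (omD_pos hS w x).le
      simp only [e3]
      exact (setLIntegral_le_lintegral _ _).trans (fd_om2 hU hw)
    · have e3 : ∀ x, ENNReal.ofReal (nv v x * Real.exp (-V x / 2)) ^ 2 =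
          ENNReal.ofReal (nv v x ^ 2 * Real.exp (-V x)) := fun x => e2 _ x (fd_nv_nonneg v x)
      simp only [e3]
      refine fd_near hV hR hsm.compl ?_ hv fun x => (fd_nv_sq v x).le
      intro x hx
      simpa [hs1] using hx
  have hFk0 : 0 ≤ Fk V J R 0 (fun x => om S w x * nv v x) := ENNReal.toReal_nonneg
  have h5 : ENNReal.ofReal (Ex V (fun x => om S w x * nv v x)) ≤
      ENNReal.ofReal (Fk V J R 0 (fun x => om S w x * nv v x) +
        Real.sqrt (2 * S) * Real.sqrt (4 * CC V J R v)) := by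
    rw [← h0, ← h1, h3, ENNReal.ofReal_add hFk0 (by positivity)]
    exact add_le_add le_rfl h4
  have h6 := (ENNReal.ofReal_le_ofReal_iff (by positivity)).1 h5
  have h7 : Real.sqrt (2 * S) * Real.sqrt (4 * CC V J R v) ≤
      3 * Real.sqrt S * Real.sqrt (CC V J R v) := by
    rw [Real.sqrt_mul (by norm_num), Real.sqrt_mul (by norm_num)]
    have h8 : Real.sqrt 4 = 2 := by
      rw [show (4 : ℝ) = 2 ^ 2 by norm_num]; exact Real.sqrt_sq (by norm_num)
    have h9 : Real.sqrt 2 ≤ 3 / 2 := by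
      rw [Real.sqrt_le_left (by norm_num)]; norm_num
    rw [h8]
    have h10 : 0 ≤ Real.sqrt S * Real.sqrt (CC V J R v) := by positivity
    nlinarith
  linarith

/-- one step of the chain: `g` is any test function, `v'` is the family of the partial derivatives
of `u` -/
theorem FD_chain (hU : GP V κ Λ S) (hs : Sy J Γ q) (hVi : Inv Γ V) (hJ : J.Nonempty) {R : ℝ}
    (hR : 0 < R) (hRS : R ^ 2 = 2048 * (J.card : ℝ) ^ 3 * S) {w : Eu n}
    (hwJ : ∀ j ∈ J, w j = 0) (hw : ‖w‖ ≤ 1) {p : ℕ} {v : Fin p → Eu n → ℝ}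
    (hv : ∀ a, TT (v a)) {η : ℝ} (hη : 0 < η) (hu : TT u) (k : ℕ) :
    Fk V J R k (fun x => om S w x * nv v x) ≤
      Fk V J R (k + 1) (fun x => om S w x * nv (nx J u) x) +
      Real.sqrt (QQ J S (k + 1)) * (2 * Real.sqrt (CC V J R (nx J u)) +
        Real.sqrt (Df V (fun x => gg η v x - u x) (fun x => gg η v x - u x)) +
        (4 / R) * Real.sqrt (CC V J R v) +
        η * (1 + 1 / Real.sqrt S)) := by
  have hS := hU.Spos
  have hV : Continuous V := hU.cd.continuous
  have hom : Continuous (om S w) := omD_cont S w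
  have hgT : TT (gg η v) := fd_gg_TT hv hη
  have hn : Continuous (nv v) := fd_nv_cont hv
  have hT := Uk_meas hV J k
  have hT1 := Uk_meas hV J (k + 1)
  have hQ0 := fd_QQ0 hS J (k + 1)
  have hd1 : (1 : ℝ) ≤ J.card := by exact_mod_cast hJ.card_pos
  set s : Set (Eu n) := {x | R ≤ rr J x} with hs1
  set s2 : Set (Eu n) := {x | R / 2 ≤ rr J x} with hs2
  set sh : Set (Eu n) := {x | R / 2 ≤ rr J x ∧ rr J x < R} with hs3
  have hsm : MeasurableSet s := measurableSet_le measurable_const (rr_cont J).measurable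
  have hsm2 : MeasurableSet s2 := measurableSet_le measurable_const (rr_cont J).measurable
  have hsm3 : MeasurableSet sh :=
    hsm2.inter (measurableSet_lt (rr_cont J).measurable measurable_const)
  have hss : s ⊆ s2 := by
    intro x hx
    have : R ≤ rr J x := hx
    show R / 2 ≤ rr J x
    linarith
  have hsh : sh ⊆ s2 := fun x hx => hx.1
  have hun : s2 = s ∪ sh := by
    ext x
    simp only [hs1, hs2, hs3, mem_setOf_eq, mem_union]
    constructor
    · intro h
      by_cases h' : R ≤ rr J x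
      · exact Or.inl h'
      · exact Or.inr ⟨h, not_le.1 h'⟩
    · rintro (h | h)
      · linarith
      · exact h.1
  have hdisj : Disjoint s sh := by
    rw [Set.disjoint_left]
    intro x hx hx'
    exact absurd hx'.2 (not_lt.2 hx)
  -- the weight `om * Uk`
  set W : ℕ → Eu n → ℝ≥0∞ := fun m x => ENNReal.ofReal (om S w x) * Uk V J m x with hW
  have hWm : ∀ m, Measurable (W m) := fun m =>
    hom.measurable.ennreal_ofReal.mul (Uk_meas hV J m)
  have hWr : ∀ (m : ℕ) (F : Eu n → ℝ) (x : Eu n),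
      ENNReal.ofReal |om S w x * F x| * Uk V J m x = ENNReal.ofReal |F x| * W m x :=
    fun m F x => fd_rw hS w x F _
  -- the constant term
  have hmass : ∫⁻ x : Eu n, ENNReal.ofReal (Real.exp (-V x)) = 1 := by
    rw [← ofReal_integral_eq_lintegral_ofReal hU.int (ae_of_all _ fun x => (Real.exp_pos _).le)]
    have := hU.mass
    unfold Ex at this
    simp only [one_mul] at this
    rw [this, ENNReal.ofReal_one]
  have hc : ∫⁻ x in s, ENNReal.ofReal η * W k x ≤
      ENNReal.ofReal (Real.sqrt (QQ J S (k + 1)) * (η * (1 / Real.sqrt S))) := by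
    have hc0 : ∀ x, ENNReal.ofReal (η ^ 2 * Real.exp (-V x)) =
        ENNReal.ofReal (η ^ 2) * ENNReal.ofReal (Real.exp (-V x)) := fun x =>
      ENNReal.ofReal_mul (sq_nonneg η)
    have hc1 : ∫⁻ x in s, ENNReal.ofReal (η ^ 2 * Real.exp (-V x)) ≤ ENNReal.ofReal (η ^ 2) := by
      refine (setLIntegral_le_lintegral s _).trans ?_
      simp only [hc0]
      rw [lintegral_const_mul' _ _ ENNReal.ofReal_ne_top, hmass, mul_one]
    have hsS : 0 < Real.sqrt S := Real.sqrt_pos.2 hS
    rcases k with _ | k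
    · -- `k = 0`
      have e : ∀ x, ENNReal.ofReal η * W 0 x = ENNReal.ofReal (η * Real.exp (-V x / 2)) *
          ENNReal.ofReal (om S w x * Real.exp (-V x / 2)) := by
        intro x
        show ENNReal.ofReal η * (ENNReal.ofReal (om S w x) * ENNReal.ofReal (Real.exp (-V x))) = _
        rw [← ENNReal.ofReal_mul (omD_pos hS w x).le, ← ENNReal.ofReal_mul hη.le,
          ← ENNReal.ofReal_mul (by positivity)]
        congr 1
        have : Real.exp (-V x) = Real.exp (-V x / 2) * Real.exp (-V x / 2) := by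
          rw [← Real.exp_add]; congr 1; ring
        rw [this]; ring
      have e2 : ∀ (a : ℝ) (x : Eu n), 0 ≤ a → ENNReal.ofReal (a * Real.exp (-V x / 2)) ^ 2 =
          ENNReal.ofReal (a ^ 2 * Real.exp (-V x)) := by
        intro a x ha
        rw [← ENNReal.ofReal_pow (by positivity), mul_pow, ← Real.exp_nat_mul]
        congr 3
        push_cast
        ring
      simp only [e]
      refine (fd_cs2 s (a := η ^ 2) (b := 2 * S) ?_ ?_ (by positivity) (by positivity) ?_ ?_).trans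
        ?_
      · exact (continuous_const.mul
          (Real.continuous_exp.comp (hV.neg.div_const 2))).measurable.ennreal_ofReal
      · exact (hom.mul (Real.continuous_exp.comp (hV.neg.div_const 2))).measurable.ennreal_ofReal
      · have e3 : ∀ x, ENNReal.ofReal (η * Real.exp (-V x / 2)) ^ 2 =
            ENNReal.ofReal (η ^ 2 * Real.exp (-V x)) := fun x => e2 _ x hη.le
        simp only [e3]
        exact hc1
      · have e3 : ∀ x, ENNReal.ofReal (om S w x * Real.exp (-V x / 2)) ^ 2 =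
            ENNReal.ofReal (om S w x ^ 2 * Real.exp (-V x)) := fun x => e2 _ x (omD_pos hS w x).le
        simp only [e3]
        exact (setLIntegral_le_lintegral _ _).trans (fd_om2 hU hw)
      · refine ENNReal.ofReal_le_ofReal ?_
        rw [Real.sqrt_sq hη.le]
        have h1 : Real.sqrt (2 * S) * Real.sqrt S ≤ Real.sqrt (QQ J S (0 + 1)) := by
          rw [← Real.sqrt_mul (by positivity)]
          refine Real.sqrt_le_sqrt ?_
          unfold QQ
          have h2 : (1 : ℝ) ≤ (J.card : ℝ) ^ 4 := one_le_pow₀ hd1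
          have h3 : (1 : ℝ) ≤ (J.card : ℝ) ^ 4 * J.card := by nlinarith
          have h4 : 0 < S * S := by positivity
          have h5 : 10 ^ 6 * (J.card : ℝ) ^ 4 * S * (8192 * (J.card : ℝ) * S) ^ (0 + 1) =
            (10 ^ 6 * 8192) * ((J.card : ℝ) ^ 4 * J.card) * (S * S) := by ring
          rw [h5]
          nlinarith
        have h6 : Real.sqrt (2 * S) ≤ Real.sqrt (QQ J S (0 + 1)) / Real.sqrt S := by
          rw [le_div_iff₀ hsS]; exact h1
        calc η * Real.sqrt (2 * S) ≤ η * (Real.sqrt (QQ J S (0 + 1)) / Real.sqrt S) :=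
              mul_le_mul_of_nonneg_left h6 hη.le
          _ = _ := by ring
    · -- `k + 1`
      have h1 := fd_key hU hs hVi hJ hR hRS hwJ hw hss (F := fun _ => η) measurable_const k
        (sq_nonneg η) hc1
      simp only [abs_of_pos hη] at h1
      refine h1.trans (ENNReal.ofReal_le_ofReal ?_)
      rw [Real.sqrt_sq hη.le]
      have h2 : Real.sqrt (QQ J S (k + 1)) * Real.sqrt S ≤ Real.sqrt (QQ J S (k + 1 + 1)) := by
        rw [← Real.sqrt_mul (fd_QQ0 hS J _)]
        refine Real.sqrt_le_sqrt ?_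
        have h3 : QQ J S (k + 1 + 1) = QQ J S (k + 1) * (8192 * (J.card : ℝ) * S) := by
          unfold QQ; rw [pow_succ (8192 * (J.card : ℝ) * S) (k + 1)]; ring
        rw [h3]
        refine mul_le_mul_of_nonneg_left ?_ (fd_QQ0 hS J _)
        nlinarith
      have h6 : Real.sqrt (QQ J S (k + 1)) ≤ Real.sqrt (QQ J S (k + 1 + 1)) / Real.sqrt S := by
        rw [le_div_iff₀ hsS]; exact h2
      calc Real.sqrt (QQ J S (k + 1)) * η ≤
            (Real.sqrt (QQ J S (k + 1 + 1)) / Real.sqrt S) * η :=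
              mul_le_mul_of_nonneg_right h6 hη.le
        _ = _ := by ring
  -- the chain inequality for `gg η v`
  have hch := chainD hV hJ hR (p := om S w) hom (fun x => (omD_pos hS w x).le)
    (fun x t => omD_Dl hwJ x t) hgT k
  -- the gradient
  set N1 : Eu n → ℝ := nv (nx J u) with hN1
  set N2 : Eu n → ℝ := fun x => Real.sqrt (∑ m ∈ J, (pd m (gg η v) x - pd m u x) ^ 2) with hN2
  have hu1 : ∀ a, TT (nx J u a) := by
    intro a
    unfold nx
    split_ifs
    · exact hu.pd a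
    · exact TT.zero
  have hN1c : Continuous N1 := fd_nv_cont hu1
  have hN2c : Continuous N2 := by
    refine Real.continuous_sqrt.comp (continuous_finsetSum _ fun m _ => ?_)
    exact ((hgT.pd m).continuous.sub (hu.pd m).continuous).pow 2
  have htri : ∀ x, Real.sqrt (∑ m ∈ J, pd m (gg η v) x ^ 2) ≤ N1 x + N2 x := by
    intro x
    have h1 : N1 x = Real.sqrt (∑ m ∈ J, pd m u x ^ 2) := fd_nx_nv J u x
    rw [h1]
    have h2 : Real.sqrt (∑ m ∈ J, (pd m u x + (pd m (gg η v) x - pd m u x)) ^ 2) ≤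
        Real.sqrt (∑ m ∈ J, pd m u x ^ 2) +
          Real.sqrt (∑ m ∈ J, (pd m (gg η v) x - pd m u x) ^ 2) := by
      set a : Fin n → ℝ := fun m => pd m u x
      set b : Fin n → ℝ := fun m => pd m (gg η v) x - pd m u x
      have hA : 0 ≤ ∑ m ∈ J, a m ^ 2 := Finset.sum_nonneg fun _ _ => sq_nonneg _
      have hB : 0 ≤ ∑ m ∈ J, b m ^ 2 := Finset.sum_nonneg fun _ _ => sq_nonneg _
      rw [Real.sqrt_le_left (by positivity)]
      have h3 : (∑ m ∈ J, a m * b m) ^ 2 ≤ (∑ m ∈ J, a m ^ 2) * ∑ m ∈ J, b m ^ 2 :=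
        Finset.sum_mul_sq_le_sq_mul_sq J a b
      have h4 : ∑ m ∈ J, a m * b m ≤
          Real.sqrt (∑ m ∈ J, a m ^ 2) * Real.sqrt (∑ m ∈ J, b m ^ 2) := by
        rw [← Real.sqrt_mul hA]
        exact Real.le_sqrt_of_sq_le h3
      have h5 : ∑ m ∈ J, (a m + b m) ^ 2 =
          ∑ m ∈ J, a m ^ 2 + 2 * ∑ m ∈ J, a m * b m + ∑ m ∈ J, b m ^ 2 := by
        rw [Finset.mul_sum, ← Finset.sum_add_distrib, ← Finset.sum_add_distrib]
        exact Finset.sum_congr rfl fun m _ => by ring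
      rw [h5, add_sq, Real.sq_sqrt hA, Real.sq_sqrt hB]
      linarith
    simpa only [add_sub_cancel] using h2
  -- the first part of the gradient
  have hsplit : ∫⁻ x in s2, ENNReal.ofReal |N1 x| * W (k + 1) x =
      (∫⁻ x in s, ENNReal.ofReal |N1 x| * W (k + 1) x) +
        ∫⁻ x in sh, ENNReal.ofReal |N1 x| * W (k + 1) x := by
    rw [hun, lintegral_union hsm3 hdisj]
  have hA1 : ∫⁻ x in s, ENNReal.ofReal |N1 x| * W (k + 1) x =
      ENNReal.ofReal (Fk V J R (k + 1) (fun x => om S w x * nv (nx J u) x)) := by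
    unfold Fk
    simp only [hWr]
    rw [ENNReal.ofReal_toReal]
    have h1 := fd_key hU hs hVi hJ hR hRS hwJ hw hss hN1c.measurable k
      (Ex_nonneg fun x => sq_nonneg _) (fd_all hV hN1c (fd_nv_cs hu1) s)
    exact ne_top_of_le_ne_top ENNReal.ofReal_ne_top h1
  have hA2 : ∫⁻ x in sh, ENNReal.ofReal |N1 x| * W (k + 1) x ≤
      ENNReal.ofReal (Real.sqrt (QQ J S (k + 1)) * (2 * Real.sqrt (CC V J R (nx J u)))) := by
    have h1 := fd_key hU hs hVi hJ hR hRS hwJ hw hsh hN1c.measurable k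
      (B := 4 * CC V J R (nx J u)) (mul_nonneg (by norm_num) (fd_CC0 _ _ _ _))
      (fd_near hV hR hsm3 (fun x hx => hx.2) hu1 fun x => (fd_nv_sq _ x).le)
    have h8 : Real.sqrt (4 * CC V J R (nx J u)) = 2 * Real.sqrt (CC V J R (nx J u)) := by
      rw [Real.sqrt_mul (by norm_num), show (4 : ℝ) = 2 ^ 2 by norm_num,
        Real.sqrt_sq (by norm_num)]
    rwa [h8] at h1
  -- the second part of the gradient
  have hA3 : ∫⁻ x in s2, ENNReal.ofReal |N2 x| * W (k + 1) x ≤
      ENNReal.ofReal (Real.sqrt (QQ J S (k + 1)) *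
        Real.sqrt (Df V (fun x => gg η v x - u x) (fun x => gg η v x - u x))) := by
    refine fd_key hU hs hVi hJ hR hRS hwJ hw (Subset.refl _) hN2c.measurable k
      (Df_nonneg _ _) ?_
    have hD : TT (fun x => gg η v x - u x) := hgT.sub hu
    have e1 : ∀ (m : Fin n) (x : Eu n), pd m (fun x => gg η v x - u x) x =
        pd m (gg η v) x - pd m u x := fun m x => pd_sub hgT.differentiable hu.differentiable m x
    have hsum : TT (fun x => ∑ m, pd m (fun x => gg η v x - u x) x ^ 2) :=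
      TT.sum Finset.univ fun m _ => (hD.pd m).sq
    have e2 : Df V (fun x => gg η v x - u x) (fun x => gg η v x - u x) =
        Ex V (fun x => ∑ m, pd m (fun x => gg η v x - u x) x ^ 2) := by
      rw [Ex_sum Finset.univ (F := fun m x => pd m (fun x => gg η v x - u x) x ^ 2)
        (fun m _ => ((hD.pd m).sq).int hV)]
      unfold Df
      refine Finset.sum_congr rfl fun m _ => ?_
      congr 1; funext x; ring
    rw [e2, ← fd_lint hV hsum.continuous hsum.cs
      (fun x => Finset.sum_nonneg fun m _ => sq_nonneg _)]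
    refine (setLIntegral_le_lintegral s2 _).trans (lintegral_mono fun x => ?_)
    refine ENNReal.ofReal_le_ofReal (mul_le_mul_of_nonneg_right ?_ (Real.exp_pos _).le)
    simp only [hN2]
    rw [Real.sq_sqrt (Finset.sum_nonneg fun _ _ => sq_nonneg _)]
    simp only [e1]
    exact Finset.sum_le_sum_of_subset_of_nonneg (Finset.subset_univ _) fun m _ _ => sq_nonneg _
  -- the shell
  have hA4 : ENNReal.ofReal (2 / R) * ∫⁻ x in sh, ENNReal.ofReal |gg η v x| * W (k + 1) x ≤
      ENNReal.ofReal (Real.sqrt (QQ J S (k + 1)) * ((4 / R) * Real.sqrt (CC V J R v))) := by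
    have h1 := fd_key hU hs hVi hJ hR hRS hwJ hw hsh hgT.continuous.measurable k
      (B := 4 * CC V J R v) (mul_nonneg (by norm_num) (fd_CC0 _ _ _ _))
      (fd_near hV hR hsm3 (fun x hx => hx.2) hv fun x => by
        rw [← fd_nv_sq]
        exact pow_le_pow_left₀ (fd_gg_nonneg hη x) (fd_gg_le hη x) 2)
    have h8 : Real.sqrt (4 * CC V J R v) = 2 * Real.sqrt (CC V J R v) := by
      rw [Real.sqrt_mul (by norm_num), show (4 : ℝ) = 2 ^ 2 by norm_num,
        Real.sqrt_sq (by norm_num)]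
    rw [h8] at h1
    refine (mul_le_mul_right h1 _).trans ?_
    rw [← ENNReal.ofReal_mul (by positivity)]
    refine ENNReal.ofReal_le_ofReal (le_of_eq ?_)
    ring
  -- assemble
  have hfin : ∫⁻ x in s, ENNReal.ofReal |om S w x * nv v x| * Uk V J k x ≤
      ENNReal.ofReal (Fk V J R (k + 1) (fun x => om S w x * nv (nx J u) x) +
      Real.sqrt (QQ J S (k + 1)) * (2 * Real.sqrt (CC V J R (nx J u)) +
        Real.sqrt (Df V (fun x => gg η v x - u x) (fun x => gg η v x - u x)) +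
        (4 / R) * Real.sqrt (CC V J R v) +
        η * (1 + 1 / Real.sqrt S))) := by
    simp only [hWr]
    have h1 : ∫⁻ x in s, ENNReal.ofReal |nv v x| * W k x ≤
        (∫⁻ x in s, ENNReal.ofReal |gg η v x| * W k x) + ∫⁻ x in s, ENNReal.ofReal η * W k x := by
      rw [← lintegral_add_right _ ((hWm k).const_mul _)]
      refine lintegral_mono fun x => ?_
      rw [← add_mul, ← ENNReal.ofReal_add (abs_nonneg _) hη.le]
      refine mul_le_mul_left (ENNReal.ofReal_le_ofReal ?_) _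
      rw [abs_of_nonneg (fd_nv_nonneg v x), abs_of_nonneg (fd_gg_nonneg hη x)]
      exact fd_nv_le hη x
    have h2 : ∫⁻ x in s2, ENNReal.ofReal (Real.sqrt (∑ m ∈ J, pd m (gg η v) x ^ 2)) *
        W (k + 1) x ≤ (∫⁻ x in s2, ENNReal.ofReal |N1 x| * W (k + 1) x) +
          ∫⁻ x in s2, ENNReal.ofReal |N2 x| * W (k + 1) x := by
      have hm : Measurable fun x => ENNReal.ofReal |N2 x| * W (k + 1) x :=
        hN2c.abs.measurable.ennreal_ofReal.mul (hWm (k + 1))
      rw [← lintegral_add_right _ hm]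
      refine lintegral_mono fun x => ?_
      rw [← add_mul, ← ENNReal.ofReal_add (abs_nonneg _) (abs_nonneg _)]
      refine mul_le_mul_left (ENNReal.ofReal_le_ofReal ?_) _
      have h3 : 0 ≤ N1 x := fd_nv_nonneg _ x
      have h4 : 0 ≤ N2 x := Real.sqrt_nonneg _
      rw [abs_of_nonneg h3, abs_of_nonneg h4]
      exact htri x
    have hFk0 : 0 ≤ Fk V J R (k + 1) (fun x => om S w x * nv (nx J u) x) :=
      ENNReal.toReal_nonneg
    have hsS : 0 < Real.sqrt S := Real.sqrt_pos.2 hS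
    have hD0 := Df_nonneg V (fun x => gg η v x - u x)
    set q1 := Real.sqrt (QQ J S (k + 1)) with hq1
    have hq0 : 0 ≤ q1 := Real.sqrt_nonneg _
    set c1 := Real.sqrt (CC V J R (nx J u)) with hc1
    set c2 := Real.sqrt (Df V (fun x => gg η v x - u x) (fun x => gg η v x - u x)) with hc2
    set c3 := Real.sqrt (CC V J R v) with hc3
    have hc1' : 0 ≤ c1 := Real.sqrt_nonneg _
    have hc2' : 0 ≤ c2 := Real.sqrt_nonneg _
    have hc3' : 0 ≤ c3 := Real.sqrt_nonneg _
    have h5 : ENNReal.ofReal (Fk V J R (k + 1) (fun x => om S w x * nv (nx J u) x)) +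
        ENNReal.ofReal (q1 * (2 * c1)) + ENNReal.ofReal (q1 * c2) +
        ENNReal.ofReal (q1 * ((4 / R) * c3)) + ENNReal.ofReal (q1 * (η * (1 / Real.sqrt S))) ≤
        ENNReal.ofReal (Fk V J R (k + 1) (fun x => om S w x * nv (nx J u) x) +
          q1 * (2 * c1 + c2 + (4 / R) * c3 + η * (1 + 1 / Real.sqrt S))) := by
      rw [← ENNReal.ofReal_add hFk0 (by positivity), ← ENNReal.ofReal_add (by positivity)
        (by positivity), ← ENNReal.ofReal_add (by positivity) (by positivity),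
        ← ENNReal.ofReal_add (by positivity) (by positivity)]
      refine ENNReal.ofReal_le_ofReal ?_
      have : 0 ≤ q1 * η := by positivity
      nlinarith
    refine le_trans ?_ h5
    refine h1.trans ?_
    refine add_le_add (hch.trans ?_) hc
    refine add_le_add (h2.trans ?_) hA4
    rw [hsplit, hA1]
    exact add_le_add (add_le_add le_rfl hA2) hA3
  have hFk0 : 0 ≤ Fk V J R (k + 1) (fun x => om S w x * nv (nx J u) x) :=
    ENNReal.toReal_nonneg
  unfold Fk
  unfold Fk at hfin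
  exact ENNReal.toReal_le_of_le_ofReal (by positivity) hfin

end Pool.Agent.Lib.MP_6d896a_gt.UC.UR.UD
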