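import Mathlib
import Pool.Agent.Lib.MP_6d896a_gt.UD.Defs
import Pool.Agent.Lib.MP_6d896a_gt.UC.Basic
import Pool.Agent.Lib.MP_6d896a_gt.FP.EM
import Pool.Agent.Lib.MP_6d896a_gt.FP.PLm
import Pool.Agent.Lib.MP_6d896a_gt.Posterior

/-!
Project UD, D4: Poincare inequality in the core.
-/

set_option autoImplicit false

namespace Pool.Agent.Lib.MP_6d896a_gt.UC.UR.UD

open MeasureTheory Filter Topology Set ProbabilityTheory
open scoped ENNReal NNReal ContDiff

variable {n : ℕ} {V f g u : Eu n → ℝ} {κ Λ S : ℝ} {J : Finset (Fin n)}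
  {Γ : Eu n ≃ₗᵢ[ℝ] Eu n} {q : ℕ}

private lemma poiD_convex (hU : GP V κ Λ S) (x y : Eu n) {l : ℝ} (h0 : 0 < l) (h1 : l < 1) :
    V ((1 - l) • x + l • y) ≤ (1 - l) * V x + l * V y := by
  set v := y - x with hv
  have hd1 : Differentiable ℝ V := hU.cd.differentiable (by norm_num)
  have hd2 : Differentiable ℝ (fderiv ℝ V) :=
    (hU.cd.fderiv_right (m := 1) (by norm_num)).differentiable (by norm_num)
  have hline : ∀ t : ℝ, HasDerivAt (fun t : ℝ => x + t • v) v t := fun t => by
    simpa using ((hasDerivAt_id t).smul_const v).const_add x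
  have h2 : ∀ t : ℝ, HasDerivAt (fun t : ℝ => V (x + t • v)) (fderiv ℝ V (x + t • v) v) t :=
    fun t => (hd1 _).hasFDerivAt.comp_hasDerivAt t (hline t)
  have h3 : ∀ t : ℝ, HasDerivAt (fun t : ℝ => fderiv ℝ V (x + t • v) v)
      (fderiv ℝ (fderiv ℝ V) (x + t • v) v v) t := by
    intro t
    have h4 : HasDerivAt (fun t : ℝ => fderiv ℝ V (x + t • v))
        (fderiv ℝ (fderiv ℝ V) (x + t • v) v) t :=
      (hd2 _).hasFDerivAt.comp_hasDerivAt t (hline t)
    exact h4.clm_apply (hasDerivAt_const t v) |>.congr_deriv (by simp)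
  have hc : ConvexOn ℝ Set.univ (fun t : ℝ => V (x + t • v)) := by
    apply convexOn_of_hasDerivWithinAt2_nonneg convex_univ
      (f' := fun t => fderiv ℝ V (x + t • v) v)
      (f'' := fun t => fderiv ℝ (fderiv ℝ V) (x + t • v) v v)
    · exact (continuous_iff_continuousAt.2 fun t => (h2 t).continuousAt).continuousOn
    · exact fun t _ => (h2 t).hasDerivWithinAt
    · exact fun t _ => (h3 t).hasDerivWithinAt
    · intro t _
      exact (mul_nonneg hU.kpos.le (sq_nonneg _)).trans (hU.conv _ _)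
  have h5 := hc.2 (Set.mem_univ (0 : ℝ)) (Set.mem_univ (1 : ℝ)) (by linarith : 0 ≤ 1 - l) h0.le
    (by ring)
  simp only [smul_eq_mul, mul_zero, mul_one, zero_add, zero_smul, add_zero, one_smul] at h5
  have e1 : x + l • v = (1 - l) • x + l • y := by
    rw [hv, smul_sub, sub_smul, one_smul]; abel
  have e2 : x + v = y := by rw [hv]; abel
  rwa [e1, e2] at h5

private lemma poiD_plm (hU : GP V κ Λ S) : FP.PLm (tgt V) := by
  have hm : Measurable fun x : Eu n => ENNReal.ofReal (Real.exp (-V x)) :=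
    ENNReal.measurable_ofReal.comp (Real.continuous_exp.comp hU.cd.continuous.neg).measurable
  unfold tgt
  apply (FP.plm_haar volume).withDensity hm
  intro x y l h0 h1
  rw [ENNReal.ofReal_rpow_of_pos (Real.exp_pos _), ENNReal.ofReal_rpow_of_pos (Real.exp_pos _),
    ← ENNReal.ofReal_mul (by positivity), ← Real.exp_mul, ← Real.exp_mul, ← Real.exp_add]
  apply ENNReal.ofReal_le_ofReal
  apply Real.exp_le_exp.2
  have := poiD_convex hU x y h0 h1
  linarith

private lemma poiD_prob (hU : GP V κ Λ S) : IsProbabilityMeasure (tgt V) := by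
  constructor
  unfold tgt
  rw [withDensity_apply _ MeasurableSet.univ, Measure.restrict_univ,
    ← ofReal_integral_eq_lintegral_ofReal hU.int (Eventually.of_forall fun x => (Real.exp_pos _).le)]
  have := hU.mass
  unfold Ex at this
  simp only [one_mul] at this
  rw [this, ENNReal.ofReal_one]

/-- diagonal maps -/
private noncomputable def dg (c : Fin n → ℝ) : Eu n →L[ℝ] Eu n :=
  LinearMap.toContinuousLinearMap
    { toFun := fun x => WithLp.toLp 2 (fun j => c j * x j)
      map_add' := fun x y => by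
        ext j; simp [mul_add]
      map_smul' := fun t x => by
        ext j; simp; ring }

private lemma dg_apply (c : Fin n → ℝ) (x : Eu n) (j : Fin n) : dg c x j = c j * x j := rfl

private lemma dg_dg (c d : Fin n → ℝ) (x : Eu n) : dg c (dg d x) = dg (fun j => c j * d j) x := by
  ext j; simp only [dg_apply]; ring

private lemma dg_one (c : Fin n → ℝ) (hc : ∀ j, c j = 1) (x : Eu n) : dg c x = x := by
  ext j; simp [dg_apply, hc]

/-- integrals with respect to the channel -/
private lemma chan_int_eq (hU : GP V κ Λ S) (hp : IsProbabilityMeasure (tgt V)) {T : Eu n → Eu n}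
    (hT : Continuous T) {s : ℝ} (hs : 0 < s) [IsProbabilityMeasure ((tgt V).map T)] (a : Eu n)
    {F : Eu n → ℝ} (hF : Continuous F) :
    ∫ z, F z ∂(FP.chan s ((tgt V).map T) a) =
      ((FP.qE s ((tgt V).map T) (fun _ => 1) a).toReal)⁻¹ *
        ∫ x, F (T x) * gk s (a - T x) * Real.exp (-V x) := by
  set ν := (tgt V).map T with hν
  have hq0 := FP.qE_one_pos (μ := ν) hs a
  have hqt := FP.qE_ne_top (μ := ν) hs (F := fun _ => 1) (fun _ => le_rfl) a
  set Q := FP.qE s ν (fun _ => 1) a with hQ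
  have hm : Measurable (fun x => ENNReal.ofReal (gk s (a - x)) / Q) :=
    (FP.gk_meas' s a).div_const _
  rw [FP.chan_apply, integral_withDensity_eq_integral_toReal_smul hm
    (Eventually.of_forall fun x => ENNReal.div_lt_top ENNReal.ofReal_ne_top hq0)]
  have hgc : Continuous fun x : Eu n => gk s (a - x) :=
    (gk_continuous s).comp (continuous_const.sub continuous_id)
  have e1 : ∀ x, (ENNReal.ofReal (gk s (a - x)) / Q).toReal • F x =
      Q.toReal⁻¹ * (F x * gk s (a - x)) := by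
    intro x
    rw [ENNReal.toReal_div, ENNReal.toReal_ofReal (gk_pos hs _).le, smul_eq_mul]
    ring
  simp only [e1]
  have hFg : AEStronglyMeasurable (fun x => F x * gk s (a - x)) (Measure.map T (tgt V)) :=
    (hF.mul hgc).aestronglyMeasurable
  rw [integral_const_mul, integral_map hT.measurable.aemeasurable hFg,
    integral_tgt hU.cd.continuous]

/-- iterates of an isometry preserve integrals -/
private lemma poiD_iter (Γ : Eu n ≃ₗᵢ[ℝ] Eu n) (F : Eu n → ℝ) (k : ℕ) :
    ∫ x, F ((⇑Γ)^[k] x) = ∫ x, F x := by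
  induction k with
  | zero => rfl
  | succ k ih =>
    rw [← ih]
    have hme : MeasurableEmbedding (Γ : Eu n → Eu n) := Γ.toHomeomorph.measurableEmbedding
    exact (Γ.measurePreserving).integral_comp hme (fun x => F ((⇑Γ)^[k] x))

private lemma poiD_iter_int (Γ : Eu n ≃ₗᵢ[ℝ] Eu n) {F : Eu n → ℝ} (hF : Integrable F) (k : ℕ) :
    Integrable (fun x => F ((⇑Γ)^[k] x)) := by
  induction k with
  | zero => exact hF
  | succ k ih =>
    have hme : MeasurableEmbedding (Γ : Eu n → Eu n) := Γ.toHomeomorph.measurableEmbedding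
    exact ((Γ.measurePreserving).integrable_comp_emb hme (g := fun x => F ((⇑Γ)^[k] x))).2 ih

private lemma poiD_inv_iter {w : Eu n → ℝ} (hw : Inv Γ w) (k : ℕ) (x : Eu n) :
    w ((⇑Γ)^[k] x) = w x := by
  induction k generalizing x with
  | zero => rfl
  | succ k ih => rw [Function.iterate_succ_apply, ih, hw]

private lemma poiD_bal (hq : 0 < q) (hb : Bal Γ q f) {w : Eu n → ℝ} (hw : Inv Γ w)
    (hi : Integrable (fun x => f x * w x)) : ∫ x, f x * w x = 0 := by
  have h1 : ∀ k, ∫ x, f ((⇑Γ)^[k] x) * w x = ∫ x, f x * w x := by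
    intro k
    rw [← poiD_iter Γ (fun x => f x * w x) k]
    simp only [poiD_inv_iter hw]
  have h2 : ∀ k, Integrable (fun x => f ((⇑Γ)^[k] x) * w x) := by
    intro k
    have := poiD_iter_int Γ hi k
    simpa only [poiD_inv_iter hw] using this
  have h3 : ∑ k ∈ Finset.range q, ∫ x, f ((⇑Γ)^[k] x) * w x = 0 := by
    rw [← integral_finsetSum _ (fun k _ => h2 k)]
    have : ∀ x, ∑ k ∈ Finset.range q, f ((⇑Γ)^[k] x) * w x = 0 := by
      intro x
      rw [← Finset.sum_mul, hb x, zero_mul]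
    simp only [this, integral_zero]
  simp only [h1, Finset.sum_const, Finset.card_range, nsmul_eq_mul] at h3
  have hq' : (q : ℝ) ≠ 0 := by exact_mod_cast hq.ne'
  exact (mul_eq_zero.1 h3).resolve_left hq'

private lemma poiD_norm_J (hs : Sy J Γ q) (x : Eu n) :
    ∑ j ∈ J, (Γ x) j ^ 2 = ∑ j ∈ J, x j ^ 2 := by
  have h1 : ‖Γ x‖ ^ 2 = ‖x‖ ^ 2 := by rw [Γ.norm_map]
  rw [EuclideanSpace.real_norm_sq_eq, EuclideanSpace.real_norm_sq_eq,
    ← Finset.sum_add_sum_compl J, ← Finset.sum_add_sum_compl J (fun j => x j ^ 2)] at h1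
  have h2 : ∑ j ∈ Jᶜ, (Γ x) j ^ 2 = ∑ j ∈ Jᶜ, x j ^ 2 := by
    refine Finset.sum_congr rfl fun j hj => ?_
    rw [hs.fix x j (Finset.mem_compl.1 hj)]
  linarith

/-- the weights of the change of variables -/
private noncomputable def cw (J : Finset (Fin n)) (l : ℝ) (j : Fin n) : ℝ := if j ∈ J then 1 else l

private lemma cw_pos {l : ℝ} (hl : 0 < l) (j : Fin n) : 0 < cw J l j := by
  unfold cw; split_ifs
  · exact one_pos
  · exact hl

private lemma poiD_norm (a x : Eu n) (l : ℝ) (ha : ∀ j ∈ J, a j = 0) :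
    ‖a - dg (cw J l) x‖ ^ 2 = ∑ j ∈ J, x j ^ 2 + ∑ j ∈ Jᶜ, (a j - l * x j) ^ 2 := by
  rw [EuclideanSpace.real_norm_sq_eq, ← Finset.sum_add_sum_compl J]
  congr 1
  · refine Finset.sum_congr rfl fun j hj => ?_
    rw [PiLp.sub_apply, dg_apply, ha j hj, cw, if_pos hj]; ring
  · refine Finset.sum_congr rfl fun j hj => ?_
    rw [PiLp.sub_apply, dg_apply, cw, if_neg (Finset.mem_compl.1 hj)]

private lemma poiD_gk_inv (hs : Sy J Γ q) (a x : Eu n) (l s : ℝ) (ha : ∀ j ∈ J, a j = 0) :
    gk s (a - dg (cw J l) (Γ x)) = gk s (a - dg (cw J l) x) := by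
  unfold gk
  rw [poiD_norm a _ l ha, poiD_norm a _ l ha, poiD_norm_J hs]
  have h2 : ∑ j ∈ Jᶜ, (a j - l * (Γ x) j) ^ 2 = ∑ j ∈ Jᶜ, (a j - l * x j) ^ 2 := by
    refine Finset.sum_congr rfl fun j hj => ?_
    rw [hs.fix x j (Finset.mem_compl.1 hj)]
  rw [h2]

private lemma poiD_one (hU : GP V κ Λ S) (hs : Sy J Γ q) (hVi : Inv Γ V) {R : ℝ} (hR : 0 < R)
    (hf : TT f) (hb : Bal Γ q f) {l : ℝ} (hl : 0 < l) (a : Eu n) (ha : ∀ j ∈ J, a j = 0) :
    ∫ x, f x ^ 2 * gk (1 / (2 * R ^ 2)) (a - dg (cw J l) x) * Real.exp (-V x) ≤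
      ∫ x, (R ^ 2 * ∑ j, ((cw J l j)⁻¹ * pd j f x) ^ 2) *
        gk (1 / (2 * R ^ 2)) (a - dg (cw J l) x) * Real.exp (-V x) := by
  set c := cw J l with hc
  have hc0 : ∀ j, c j ≠ 0 := fun j => (cw_pos hl j).ne'
  set s : ℝ := 1 / (2 * R ^ 2) with hsd
  have hs0 : 0 < s := by positivity
  have hsR : 1 / (2 * s) = R ^ 2 := by rw [hsd]; field_simp
  have hp := poiD_prob hU
  have hTc : Continuous (dg c) := (dg c).continuous
  have hpν : IsProbabilityMeasure ((tgt V).map (dg c)) :=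
    Measure.isProbabilityMeasure_map hTc.measurable.aemeasurable
  have hPL : FP.PLm ((tgt V).map (dg c)) :=
    (poiD_plm hU).map (dg c : Eu n →ₗ[ℝ] Eu n) hTc.measurable
  set c' : Fin n → ℝ := fun j => (c j)⁻¹ with hc'
  have hinv : ∀ x, dg c' (dg c x) = x := by
    intro x
    rw [dg_dg]
    exact dg_one _ (fun j => inv_mul_cancel₀ (hc0 j)) x
  set h : Eu n → ℝ := fun z => f (dg c' z) with hh
  have hf1 : ContDiff ℝ 1 f := hf.cd.of_le (by norm_num)
  have hhc : ContDiff ℝ 1 h := hf1.comp (dg c').contDiff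
  have hfd : ∀ z, fderiv ℝ h z = (fderiv ℝ f (dg c' z)).comp (dg c') := by
    intro z
    exact ((hf.differentiable (dg c' z)).hasFDerivAt.comp z (dg c').hasFDerivAt).fderiv
  obtain ⟨B, hB⟩ := (hf.cd.continuous_fderiv (by norm_num)).bounded_above_of_compact_support
    (hf.cs.fderiv (𝕜 := ℝ))
  have hf2 : ContDiff ℝ 1 (fderiv ℝ f) :=
    hf.cd.fderiv_right (WithTop.coe_le_coe.2 le_top)
  obtain ⟨L, hL⟩ := hf2.lipschitzWith_of_hasCompactSupport (hf.cs.fderiv (𝕜 := ℝ)) (by norm_num)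
  set N := ‖dg c'‖ with hN
  have hlip1 : ∃ l : ℝ, ∀ x, ‖fderiv ℝ h x‖ ≤ l := by
    refine ⟨B * N, fun x => ?_⟩
    rw [hfd]
    exact (ContinuousLinearMap.opNorm_comp_le _ _).trans
      (mul_le_mul_of_nonneg_right (hB _) (norm_nonneg _))
  have hlip2 : ∃ l : ℝ, ∀ x y, ‖fderiv ℝ h x - fderiv ℝ h y‖ ≤ l * ‖x - y‖ := by
    refine ⟨L * N * N, fun x y => ?_⟩
    rw [hfd, hfd, ← ContinuousLinearMap.sub_comp]
    refine (ContinuousLinearMap.opNorm_comp_le _ _).trans ?_
    have h1 : ‖fderiv ℝ f (dg c' x) - fderiv ℝ f (dg c' y)‖ ≤ L * (N * ‖x - y‖) := by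
      have h2 := hL.norm_sub_le (dg c' x) (dg c' y)
      refine h2.trans (mul_le_mul_of_nonneg_left ?_ L.coe_nonneg)
      rw [← map_sub]
      exact (dg c').le_opNorm _
    calc _ ≤ L * (N * ‖x - y‖) * N := mul_le_mul_of_nonneg_right h1 (norm_nonneg _)
      _ = _ := by ring
  have key := FP.chan_bl hPL hhc hlip1 hlip2 hs0 a
  have hk := FP.chan_markov (μ := (tgt V).map (dg c)) hs0
  obtain ⟨Bf, hBf⟩ := hf.cd.continuous.bounded_above_of_compact_support hf.cs
  have hmem : MemLp h 2 (FP.chan s ((tgt V).map (dg c)) a) :=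
    MemLp.of_bound hhc.continuous.aestronglyMeasurable Bf (Eventually.of_forall fun x => hBf _)
  rw [variance_eq_sub hmem] at key
  simp only [Pi.pow_apply] at key
  have hq0 := FP.qE_one_pos (μ := (tgt V).map (dg c)) hs0 a
  have hqt := FP.qE_ne_top (μ := (tgt V).map (dg c)) hs0 (F := fun _ => 1) (fun _ => le_rfl) a
  have hgc : Continuous fun x : Eu n => gk s (a - dg c x) :=
    (gk_continuous s).comp (continuous_const.sub hTc)
  have hfi : Integrable (fun x => f x * (gk s (a - dg c x) * Real.exp (-V x))) := by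
    have hcont : Continuous (fun x => f x * (gk s (a - dg c x) * Real.exp (-V x))) :=
      hf.continuous.mul (hgc.mul (Real.continuous_exp.comp hU.cd.continuous.neg))
    exact hcont.integrable_of_hasCompactSupport
      (hf.cs.mul_right (f' := fun x => gk s (a - dg c x) * Real.exp (-V x)))
  have hzero : ∫ x, f x * gk s (a - dg c x) * Real.exp (-V x) = 0 := by
    have h0 := poiD_bal (w := fun x => gk s (a - dg c x) * Real.exp (-V x)) hs.qpos hb
      (fun x => by
        show gk s (a - dg c (Γ x)) * Real.exp (-V (Γ x)) = gk s (a - dg c x) * Real.exp (-V x)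
        rw [hc, poiD_gk_inv hs a x l s ha, hVi x]) hfi
    simpa only [mul_assoc] using h0
  rw [chan_int_eq hU hp hTc hs0 a (F := fun z => h z ^ 2) (hhc.continuous.pow 2),
    chan_int_eq hU hp hTc hs0 a (F := h) hhc.continuous,
    chan_int_eq hU hp hTc hs0 a (F := fun z => ‖fderiv ℝ h z‖ ^ 2)
      ((hhc.continuous_fderiv (by norm_num)).norm.pow 2), hsR] at key
  have e1 : ∀ x, h (dg c x) = f x := fun x => by rw [hh]; simp only [hinv]
  have e2 : ∀ x, ‖fderiv ℝ h (dg c x)‖ ^ 2 = ∑ j, ((c j)⁻¹ * pd j f x) ^ 2 := by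
    intro x
    rw [norm_fderiv_sq]
    refine Finset.sum_congr rfl fun j _ => ?_
    have e3 : dg c' (ej j) = (c j)⁻¹ • ej j := by
      ext k
      rw [dg_apply]
      by_cases hk : k = j
      · subst hk; simp [hc', ej]
      · simp [ej, hk]
    unfold pd
    rw [hfd, ContinuousLinearMap.comp_apply, e3, hinv, map_smul, smul_eq_mul]
  simp only [e1, e2, hzero] at key
  set Q := (FP.qE s ((tgt V).map (dg c)) (fun _ => 1) a).toReal with hQ
  have hQ0 : 0 < Q := ENNReal.toReal_pos hq0 hqt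
  have e4 : ∫ x, (R ^ 2 * ∑ j, ((c j)⁻¹ * pd j f x) ^ 2) * gk s (a - dg c x) * Real.exp (-V x) =
      R ^ 2 * ∫ x, (∑ j, ((c j)⁻¹ * pd j f x) ^ 2) * gk s (a - dg c x) * Real.exp (-V x) := by
    rw [← integral_const_mul]
    congr 1; funext x; ring
  rw [e4]
  have h5 : Q⁻¹ * ∫ x, f x ^ 2 * gk s (a - dg c x) * Real.exp (-V x) ≤
      Q⁻¹ * (R ^ 2 * ∫ x, (∑ j, ((c j)⁻¹ * pd j f x) ^ 2) * gk s (a - dg c x) *
        Real.exp (-V x)) := by
    have : (Q⁻¹ * (0 : ℝ)) ^ 2 = 0 := by ring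
    rw [this, sub_zero] at key
    linarith
  exact le_of_mul_le_mul_left h5 (inv_pos.2 hQ0)

/-- the centre with zero coordinates in `J` -/
private noncomputable def cP (J : Finset (Fin n)) (b : Eu n) : Eu n :=
  WithLp.toLp 2 (fun j => if j ∈ J then 0 else b j)

private lemma cP_meas (J : Finset (Fin n)) (l : ℝ) : Continuous (fun x : Eu n => l • cP J x) := by
  unfold cP
  refine Continuous.const_smul ?_ l
  refine (PiLp.continuous_toLp 2 _).comp ?_
  refine continuous_pi fun j => ?_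
  by_cases hj : j ∈ J
  · simp only [hj, if_true]; exact continuous_const
  · simp only [hj, if_false]; exact PiLp.continuous_apply 2 _ j

private lemma poiD_split (J : Finset (Fin n)) (b x : Eu n) (l s : ℝ) :
    gk s (cP J b - dg (cw J l) x) * Real.exp (-s * ∑ j ∈ J, b j ^ 2) =
      Real.exp (-s * ∑ j ∈ J, x j ^ 2) * gk s (b - l • cP J x) := by
  have h1 : ‖b - l • cP J x‖ ^ 2 = ∑ j ∈ J, b j ^ 2 + ∑ j ∈ Jᶜ, (b j - l * x j) ^ 2 := by
    rw [EuclideanSpace.real_norm_sq_eq, ← Finset.sum_add_sum_compl J]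
    congr 1
    · refine Finset.sum_congr rfl fun j hj => ?_
      simp [cP, hj]
    · refine Finset.sum_congr rfl fun j hj => ?_
      simp [cP, Finset.mem_compl.1 hj]
  have h2 : ‖cP J b - dg (cw J l) x‖ ^ 2 =
      ∑ j ∈ J, x j ^ 2 + ∑ j ∈ Jᶜ, (b j - l * x j) ^ 2 := by
    rw [poiD_norm (cP J b) x l (fun j hj => by simp [cP, hj])]
    congr 1
    refine Finset.sum_congr rfl fun j hj => ?_
    simp [cP, Finset.mem_compl.1 hj]
  unfold gk
  rw [h1, h2, mul_assoc, ← Real.exp_add, mul_left_comm, ← Real.exp_add]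
  congr 2
  ring

private lemma poiD_chi (J : Finset (Fin n)) {R : ℝ} (hR : 0 < R) (x : Eu n) :
    Real.exp (-(1 / (2 * R ^ 2)) * ∑ j ∈ J, x j ^ 2) = ch J R x := by
  unfold ch rr
  rw [Real.sq_sqrt (Finset.sum_nonneg fun j _ => sq_nonneg _)]
  congr 1
  ring

/-- Tonelli for the averages over the centres -/
private lemma poiD_avg (J : Finset (Fin n)) {s : ℝ} (hs : 0 < s) (l : ℝ) {F : Eu n → ℝ}
    (hF : Continuous F) (hF0 : ∀ x, 0 ≤ F x) :
    ∫⁻ b, ∫⁻ x, ENNReal.ofReal (F x * gk s (b - l • cP J x)) = ∫⁻ x, ENNReal.ofReal (F x) := by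
  have hm : Measurable (fun p : Eu n × Eu n => ENNReal.ofReal (F p.2 * gk s (p.1 - l • cP J p.2))) := by
    refine (Continuous.measurable ?_).ennreal_ofReal
    exact (hF.comp continuous_snd).mul ((gk_continuous s).comp
      (continuous_fst.sub ((cP_meas J l).comp continuous_snd)))
  rw [lintegral_lintegral_swap (f := fun b x => ENNReal.ofReal (F x * gk s (b - l • cP J x)))
    hm.aemeasurable]
  apply lintegral_congr
  intro x
  simp only [ENNReal.ofReal_mul (hF0 x)]
  rw [lintegral_const_mul' _ _ ENNReal.ofReal_ne_top, FP.lint_gk hs, mul_one]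

private lemma poiD_l (hU : GP V κ Λ S) (hs : Sy J Γ q) (hVi : Inv Γ V) {R : ℝ} (hR : 0 < R)
    (hf : TT f) (hb : Bal Γ q f) {l : ℝ} (hl : 0 < l) :
    Ex V (fun x => f x ^ 2 * ch J R x) ≤
      Ex V (fun x => (R ^ 2 * ∑ j, ((cw J l j)⁻¹ * pd j f x) ^ 2) * ch J R x) := by
  set s : ℝ := 1 / (2 * R ^ 2) with hsd
  have hs0 : 0 < s := by positivity
  have hVc := hU.cd.continuous
  have hchc : Continuous (ch J R) := by
    unfold ch rr
    refine Real.continuous_exp.comp (Continuous.neg (Continuous.div_const (Continuous.pow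
      (Real.continuous_sqrt.comp ?_) 2) _))
    exact continuous_finsetSum _ fun j _ => (PiLp.continuous_apply 2 _ j).pow 2
  have hch0 : ∀ x, 0 ≤ ch J R x := fun x => (Real.exp_pos _).le
  set G : Eu n → ℝ := fun x => R ^ 2 * ∑ j, ((cw J l j)⁻¹ * pd j f x) ^ 2 with hG
  have hGT : TT G := by
    refine TT.const_mul (TT.sum _ fun j _ => ?_) _
    exact ((hf.pd j).const_mul _).sq
  have hG0 : ∀ x, 0 ≤ G x := fun x => by
    rw [hG]; positivity
  -- the inequality for every centre
  have h1 : ∀ b : Eu n,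
      ∫⁻ x, ENNReal.ofReal (f x ^ 2 * ch J R x * Real.exp (-V x) * gk s (b - l • cP J x)) ≤
      ∫⁻ x, ENNReal.ofReal (G x * ch J R x * Real.exp (-V x) * gk s (b - l • cP J x)) := by
    intro b
    have h2 := poiD_one hU hs hVi hR hf hb hl (cP J b) (fun j hj => by simp [cP, hj])
    rw [← hsd] at h2
    have hgc : Continuous fun x : Eu n => gk s (b - l • cP J x) :=
      (gk_continuous s).comp (continuous_const.sub (cP_meas J l))
    have e1 : ∀ H : Eu n → ℝ, ∫ x, H x * ch J R x * Real.exp (-V x) * gk s (b - l • cP J x) =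
        Real.exp (-s * ∑ j ∈ J, b j ^ 2) *
          ∫ x, H x * gk s (cP J b - dg (cw J l) x) * Real.exp (-V x) := by
      intro H
      rw [← integral_const_mul]
      congr 1
      funext x
      have h3 := poiD_split J b x l s
      rw [hsd, poiD_chi J hR x, ← hsd] at h3
      calc H x * ch J R x * Real.exp (-V x) * gk s (b - l • cP J x)
          = H x * Real.exp (-V x) * (ch J R x * gk s (b - l • cP J x)) := by ring
        _ = _ := by rw [← h3]; ring
    have h4 : ∫ x, f x ^ 2 * ch J R x * Real.exp (-V x) * gk s (b - l • cP J x) ≤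
        ∫ x, G x * ch J R x * Real.exp (-V x) * gk s (b - l • cP J x) := by
      rw [e1 (fun x => f x ^ 2), e1 G]
      exact mul_le_mul_of_nonneg_left h2 (Real.exp_pos _).le
    have hint : ∀ H : Eu n → ℝ, TT H →
        Integrable (fun x => H x * ch J R x * Real.exp (-V x) * gk s (b - l • cP J x)) := by
      intro H hH
      have hc : Continuous fun x => H x * ch J R x * Real.exp (-V x) * gk s (b - l • cP J x) :=
        ((hH.continuous.mul hchc).mul (Real.continuous_exp.comp hVc.neg)).mul hgc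
      refine hc.integrable_of_hasCompactSupport ?_
      exact ((hH.cs.mul_right).mul_right).mul_right
    rw [← ofReal_integral_eq_lintegral_ofReal (hint _ hf.sq) (Eventually.of_forall fun x =>
        mul_nonneg (mul_nonneg (mul_nonneg (sq_nonneg _) (hch0 x)) (Real.exp_pos _).le)
          (gk_pos hs0 _).le),
      ← ofReal_integral_eq_lintegral_ofReal (hint _ hGT) (Eventually.of_forall fun x =>
        mul_nonneg (mul_nonneg (mul_nonneg (hG0 x) (hch0 x)) (Real.exp_pos _).le)
          (gk_pos hs0 _).le)]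
    exact ENNReal.ofReal_le_ofReal h4
  have h5 := lintegral_mono (μ := (volume : Measure (Eu n))) h1
  have hc1 : Continuous fun x => f x ^ 2 * ch J R x * Real.exp (-V x) :=
    ((hf.continuous.pow 2).mul hchc).mul (Real.continuous_exp.comp hVc.neg)
  have hc2 : Continuous fun x => G x * ch J R x * Real.exp (-V x) :=
    (hGT.continuous.mul hchc).mul (Real.continuous_exp.comp hVc.neg)
  have n1 : ∀ x, 0 ≤ f x ^ 2 * ch J R x * Real.exp (-V x) := fun x =>
    mul_nonneg (mul_nonneg (sq_nonneg _) (hch0 x)) (Real.exp_pos _).le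
  have n2 : ∀ x, 0 ≤ G x * ch J R x * Real.exp (-V x) := fun x =>
    mul_nonneg (mul_nonneg (hG0 x) (hch0 x)) (Real.exp_pos _).le
  rw [poiD_avg J hs0 l hc1 n1, poiD_avg J hs0 l hc2 n2] at h5
  have i1 : Integrable fun x => f x ^ 2 * ch J R x * Real.exp (-V x) :=
    hc1.integrable_of_hasCompactSupport ((hf.sq.cs.mul_right).mul_right)
  have i2 : Integrable fun x => G x * ch J R x * Real.exp (-V x) :=
    hc2.integrable_of_hasCompactSupport ((hGT.cs.mul_right).mul_right)
  rw [← ofReal_integral_eq_lintegral_ofReal i1 (Eventually.of_forall n1),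
    ← ofReal_integral_eq_lintegral_ofReal i2 (Eventually.of_forall n2)] at h5
  unfold Ex
  exact (ENNReal.ofReal_le_ofReal_iff (integral_nonneg n2)).1 h5

/-! ### D4 = PoiD.lean : Poincare inequality in the core -/
theorem poiD (hU : GP V κ Λ S) (hs : Sy J Γ q) (hVi : Inv Γ V) {R : ℝ} (hR : 0 < R)
    (hf : TT f) (hb : Bal Γ q f) :
    Ex V (fun x => f x ^ 2 * ch J R x) ≤
      R ^ 2 * ∑ m ∈ J, Ex V (fun x => pd m f x ^ 2 * ch J R x) := by
  have hVc := hU.cd.continuous
  have hchc : Continuous (ch J R) := by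
    unfold ch rr
    refine Real.continuous_exp.comp (Continuous.neg (Continuous.div_const (Continuous.pow
      (Real.continuous_sqrt.comp ?_) 2) _))
    exact continuous_finsetSum _ fun j _ => (PiLp.continuous_apply 2 _ j).pow 2
  have hint : ∀ j, Integrable (fun x => (pd j f x ^ 2 * ch J R x) * Real.exp (-V x)) := fun j =>
    (((((hf.pd j).continuous.pow 2).mul hchc).mul
      (Real.continuous_exp.comp hVc.neg))).integrable_of_hasCompactSupport
      (((hf.pd j).sq.cs.mul_right).mul_right)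
  set A : Fin n → ℝ := fun j => Ex V (fun x => pd j f x ^ 2 * ch J R x) with hA
  have h1 : ∀ l : ℝ, 0 < l → Ex V (fun x => f x ^ 2 * ch J R x) ≤
      R ^ 2 * ∑ m ∈ J, A m + R ^ 2 * (l⁻¹ ^ 2 * ∑ m ∈ Jᶜ, A m) := by
    intro l hl
    refine (poiD_l hU hs hVi hR hf hb hl).trans (le_of_eq ?_)
    have e1 : (fun x => (R ^ 2 * ∑ j, ((cw J l j)⁻¹ * pd j f x) ^ 2) * ch J R x) =
        fun x => ∑ j, (R ^ 2 * (cw J l j)⁻¹ ^ 2) * (pd j f x ^ 2 * ch J R x) := by
      funext x
      rw [Finset.mul_sum, Finset.sum_mul]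
      refine Finset.sum_congr rfl fun j _ => ?_
      ring
    rw [e1, Ex_sum Finset.univ (fun j _ => by
      have := (hint j).const_mul (R ^ 2 * (cw J l j)⁻¹ ^ 2)
      refine this.congr (Eventually.of_forall fun x => ?_)
      simp only
      ring)]
    simp only [Ex_const_mul]
    rw [← Finset.sum_add_sum_compl J]
    congr 1
    · rw [Finset.mul_sum]
      refine Finset.sum_congr rfl fun j hj => ?_
      rw [cw, if_pos hj]; simp [hA]
    · rw [Finset.mul_sum, Finset.mul_sum]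
      refine Finset.sum_congr rfl fun j hj => ?_
      rw [cw, if_neg (Finset.mem_compl.1 hj)]; simp only [hA]; ring
  have h2 : Tendsto (fun l : ℝ => R ^ 2 * ∑ m ∈ J, A m + R ^ 2 * (l⁻¹ ^ 2 * ∑ m ∈ Jᶜ, A m)) atTop
      (𝓝 (R ^ 2 * ∑ m ∈ J, A m + R ^ 2 * ((0 : ℝ) ^ 2 * ∑ m ∈ Jᶜ, A m))) :=
    ((((tendsto_inv_atTop_zero).pow 2).mul_const _).const_mul _).const_add _
  have h3 : R ^ 2 * ∑ m ∈ J, A m + R ^ 2 * ((0 : ℝ) ^ 2 * ∑ m ∈ Jᶜ, A m) =
      R ^ 2 * ∑ m ∈ J, A m := by ring
  rw [h3] at h2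
  exact ge_of_tendsto h2 ((eventually_gt_atTop 0).mono h1)

end Pool.Agent.Lib.MP_6d896a_gt.UC.UR.UD
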