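import Pool.Agent.Lib.MP_6d896a_gt.UD.CoreD
import Pool.Agent.Lib.MP_6d896a_gt.UD.FamD
import Pool.Agent.Lib.MP_6d896a_gt.UD.PoiD
import Pool.Agent.Lib.MP_6d896a_gt.UD.ExchD
import Pool.Agent.Lib.MP_6d896a_gt.UD.FkD

/-!
Project UD, piece D9: one step of the iteration (helper79).
-/

set_option autoImplicit false
set_option linter.all false

namespace Pool.Agent.Lib.MP_6d896a_gt.UC.UR.UD

open MeasureTheory Filter Topology Set ProbabilityTheory
open scoped ENNReal NNReal ContDiff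

variable {n : ℕ} {V f g u : Eu n → ℝ} {κ Λ S : ℝ} {J : Finset (Fin n)}
  {Γ : Eu n ≃ₗᵢ[ℝ] Eu n} {q : ℕ}

/-- square roots from a family of inequalities -/
private lemma oneD_sqrt {A B C : ℝ} (hB : 0 ≤ B) (hC : 0 ≤ C)
    (h : ∀ r : ℝ, 0 < r → A ≤ (1 + r) * B + (1 + r⁻¹) * C) :
    Real.sqrt A ≤ Real.sqrt B + Real.sqrt C := by
  have hb := Real.sqrt_nonneg B
  have hc := Real.sqrt_nonneg C
  have hb2 := Real.sq_sqrt hB
  have hc2 := Real.sq_sqrt hC
  set b := Real.sqrt B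
  set c := Real.sqrt C
  refine Real.sqrt_le_iff.2 ⟨add_nonneg hb hc, ?_⟩
  refine le_of_forall_pos_le_add fun ε hε => ?_
  obtain ⟨δ, hδ, hδ2⟩ : ∃ δ : ℝ, 0 < δ ∧ δ * (b + c) ≤ ε := by
    refine ⟨ε / (b + c + 1), by positivity, ?_⟩
    rw [div_mul_eq_mul_div, div_le_iff₀ (by positivity)]
    nlinarith
  have h1 := h ((c + δ) / (b + δ)) (by positivity)
  have e1 : (c + δ) / (b + δ) * B ≤ b * (c + δ) := by
    rw [div_mul_eq_mul_div, div_le_iff₀ (by positivity), ← hb2]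
    nlinarith [mul_nonneg hb hδ.le, mul_nonneg (mul_nonneg hb hδ.le) (add_nonneg hc hδ.le)]
  have e2 : ((c + δ) / (b + δ))⁻¹ * C ≤ c * (b + δ) := by
    rw [inv_div, div_mul_eq_mul_div, div_le_iff₀ (by positivity), ← hc2]
    nlinarith [mul_nonneg hc hδ.le, mul_nonneg (mul_nonneg hc hδ.le) (add_nonneg hb hδ.le)]
  nlinarith

private lemma oneD_ch_cont (J : Finset (Fin n)) (R : ℝ) : Continuous (ch J R) := by
  unfold ch
  exact Real.continuous_exp.comp (((rr_cont J).pow 2).div_const _).neg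

private lemma oneD_ch_pos (J : Finset (Fin n)) (R : ℝ) (x : Eu n) : 0 < ch J R x :=
  Real.exp_pos _

private lemma oneD_ch_le (J : Finset (Fin n)) (R : ℝ) (x : Eu n) : ch J R x ≤ 1 := by
  unfold ch
  rw [Real.exp_le_one_iff]
  have : 0 ≤ rr J x ^ 2 / (2 * R ^ 2) := by positivity
  linarith

/-- integrability of `f^2 chi` -/
private lemma oneD_int (hV : Continuous V) (hf : TT f) (J : Finset (Fin n)) (R : ℝ) :
    Integrable (fun x => f x ^ 2 * ch J R x * Real.exp (-V x)) :=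
  int_cs (f := fun x => f x ^ 2 * ch J R x) hV ((hf.continuous.pow 2).mul (oneD_ch_cont J R))
    (hf.sq.cs.mul_right (f' := ch J R))

private lemma oneD_CC_nx (J : Finset (Fin n)) (R : ℝ) (u : Eu n → ℝ) :
    CC V J R (nx J u) = ∑ m ∈ J, Ex V (fun x => pd m u x ^ 2 * ch J R x) := by
  unfold CC nx
  rw [← Finset.sum_subset (Finset.subset_univ J)]
  · refine Finset.sum_congr rfl fun m hm => ?_
    simp only [hm, if_true]
  · intro m _ hm
    simp [hm, Ex]

/-- Minkowski for the weighted gradients -/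
private lemma oneD_mink (hV : Continuous V) (hf : TT f) (hg : TT g) (J : Finset (Fin n)) (R : ℝ) :
    Real.sqrt (∑ m ∈ J, Ex V (fun x => pd m f x ^ 2 * ch J R x)) ≤
      Real.sqrt (∑ m ∈ J, Ex V (fun x => pd m g x ^ 2 * ch J R x)) +
      Real.sqrt (Df V (fun x => f x - g x) (fun x => f x - g x)) := by
  have hnn : ∀ h : Eu n → ℝ, 0 ≤ ∑ m ∈ J, Ex V (fun x => pd m h x ^ 2 * ch J R x) := fun h =>
    Finset.sum_nonneg fun m _ => Ex_nonneg fun x => mul_nonneg (sq_nonneg _) (oneD_ch_pos J R x).le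
  have h1 : Real.sqrt (∑ m ∈ J, Ex V (fun x => pd m f x ^ 2 * ch J R x)) ≤
      Real.sqrt (∑ m ∈ J, Ex V (fun x => pd m g x ^ 2 * ch J R x)) +
      Real.sqrt (∑ m ∈ J, Ex V (fun x => pd m (fun y => f y - g y) x ^ 2 * ch J R x)) := by
    refine oneD_sqrt (hnn g) (hnn _) fun r hr => ?_
    rw [Finset.mul_sum, Finset.mul_sum, ← Finset.sum_add_distrib]
    refine Finset.sum_le_sum fun m _ => ?_
    rw [← Ex_const_mul, ← Ex_const_mul, ← Ex_add]
    · refine Ex_mono (oneD_int hV (hf.pd m) J R) ?_ fun x => ?_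
      · have i1 := (oneD_int hV (hg.pd m) J R).const_mul (1 + r)
        have i2 := (oneD_int hV ((hf.sub hg).pd m) J R).const_mul (1 + r⁻¹)
        refine (i1.add i2).congr (Filter.Eventually.of_forall fun x => ?_)
        simp only [Pi.add_apply]
        ring
      · rw [pd_sub hf.differentiable hg.differentiable]
        have hx := (oneD_ch_pos J R x).le
        have h2 : pd m f x ^ 2 ≤ (1 + r) * pd m g x ^ 2 + (1 + r⁻¹) * (pd m f x - pd m g x) ^ 2 := by
          have h3 : 0 ≤ r⁻¹ * (r * pd m g x - (pd m f x - pd m g x)) ^ 2 := by positivity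
          have h4 : r⁻¹ * (r * pd m g x - (pd m f x - pd m g x)) ^ 2 = r * pd m g x ^ 2
              - 2 * pd m g x * (pd m f x - pd m g x) + r⁻¹ * (pd m f x - pd m g x) ^ 2 := by
            field_simp
            ring
          nlinarith
        nlinarith
    · have i1 := (oneD_int hV (hg.pd m) J R).const_mul (1 + r)
      simpa only [mul_assoc] using i1
    · have i2 := (oneD_int hV ((hf.sub hg).pd m) J R).const_mul (1 + r⁻¹)
      simpa only [mul_assoc] using i2
  refine h1.trans (add_le_add le_rfl (Real.sqrt_le_sqrt ?_))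
  unfold Df
  calc ∑ m ∈ J, Ex V (fun x => pd m (fun y => f y - g y) x ^ 2 * ch J R x)
      ≤ ∑ m ∈ J, Ex V (fun x => pd m (fun y => f y - g y) x * pd m (fun y => f y - g y) x) := by
        refine Finset.sum_le_sum fun m _ => Ex_mono (oneD_int hV ((hf.sub hg).pd m) J R)
          (TT.int (((hf.sub hg).pd m).mul ((hf.sub hg).pd m)) hV) fun x => ?_
        have h5 := oneD_ch_le J R x
        nlinarith [sq_nonneg (pd m (fun y => f y - g y) x)]
    _ ≤ _ := Finset.sum_le_univ_sum_of_nonneg fun m => Ex_nonneg fun x => mul_self_nonneg _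

/-- the core inequality -/
private lemma oneD_core (hU : GP V κ Λ S) (hs : Sy J Γ q) (hVi : Inv Γ V) {R : ℝ} (hR : 0 < R)
    {p : ℕ} {v : Fin p → Eu n → ℝ} (hv : Fam Γ q p v) {η : ℝ} (hη : 0 < η) :
    CC V J R v ≤ R ^ 2 * ((∑ m ∈ J, Ex V (fun x => pd m (gg η v) x ^ 2 * ch J R x)) +
      (DD V v - Df V (gg η v) (gg η v))) := by
  have hV : Continuous V := hU.cd.continuous
  have hg : TT (gg η v) := gg_TT hv.tt hη
  have h1 : CC V J R v ≤ R ^ 2 * ∑ a, ∑ m ∈ J, Ex V (fun x => pd m (v a) x ^ 2 * ch J R x) := by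
    unfold CC
    rw [Finset.mul_sum]
    exact Finset.sum_le_sum fun a _ => poiD hU hs hVi hR (hv.tt a) (hv.bal a)
  refine h1.trans (mul_le_mul_of_nonneg_left ?_ (sq_nonneg R))
  rw [Finset.sum_comm]
  have h2 : ∀ m, ∑ a, Ex V (fun x => pd m (v a) x ^ 2 * ch J R x) =
      Ex V (fun x => (∑ a, pd m (v a) x ^ 2) * ch J R x) := by
    intro m
    rw [← Ex_sum Finset.univ (fun a _ => oneD_int hV ((hv.tt a).pd m) J R)]
    congr 1; funext x; rw [Finset.sum_mul]
  have h3 : DD V v = ∑ m, Ex V (fun x => ∑ a, pd m (v a) x ^ 2) := by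
    unfold DD Df
    rw [Finset.sum_comm]
    refine Finset.sum_congr rfl fun m _ => ?_
    rw [Ex_sum Finset.univ (fun a _ => ((hv.tt a).pd m).sq.int hV)]
    refine Finset.sum_congr rfl fun a _ => ?_
    congr 1; funext x; ring
  have hi1 : ∀ m, Integrable (fun x => (∑ a, pd m (v a) x ^ 2) * Real.exp (-V x)) := by
    intro m
    have := integrable_finset_sum Finset.univ (fun a _ => ((hv.tt a).pd m).sq.int hV)
    refine this.congr (Filter.Eventually.of_forall fun x => ?_)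
    simp only [Finset.sum_mul]
  have hi2 : ∀ m, Integrable (fun x => (∑ a, pd m (v a) x ^ 2) * ch J R x * Real.exp (-V x)) := by
    intro m
    have := integrable_finset_sum Finset.univ (fun a _ => oneD_int hV ((hv.tt a).pd m) J R)
    refine this.congr (Filter.Eventually.of_forall fun x => ?_)
    simp only [Finset.sum_mul]
  have hi3 : ∀ m, Integrable (fun x => pd m (gg η v) x ^ 2 * Real.exp (-V x)) := fun m =>
    (hg.pd m).sq.int hV
  have h4 : DD V v - Df V (gg η v) (gg η v) =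
      ∑ m, Ex V (fun x => (∑ a, pd m (v a) x ^ 2) - pd m (gg η v) x ^ 2) := by
    rw [h3]
    unfold Df
    rw [← Finset.sum_sub_distrib]
    refine Finset.sum_congr rfl fun m _ => ?_
    rw [Ex_sub (hi1 m) (hi3 m)]
    congr 2; funext x; ring
  have h5 : ∑ m ∈ J, Ex V (fun x => (∑ a, pd m (v a) x ^ 2) - pd m (gg η v) x ^ 2) ≤
      DD V v - Df V (gg η v) (gg η v) := by
    rw [h4]
    exact Finset.sum_le_univ_sum_of_nonneg fun m => Ex_nonneg fun x =>
      sub_nonneg.2 (gg_pd hv.tt hη m x)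
  refine le_trans ?_ (add_le_add le_rfl h5)
  rw [← Finset.sum_add_distrib]
  refine Finset.sum_le_sum fun m _ => ?_
  rw [h2, ← Ex_add (oneD_int hV (hg.pd m) J R)]
  · refine Ex_mono (hi2 m) ?_ fun x => ?_
    · have := (oneD_int hV (hg.pd m) J R).add ((hi1 m).sub (hi3 m))
      refine this.congr (Filter.Eventually.of_forall fun x => ?_)
      simp only [Pi.add_apply, Pi.sub_apply]
      ring
    · have h6 := gg_pd hv.tt hη m x
      have h7 := oneD_ch_le J R x
      have h8 := (oneD_ch_pos J R x).le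
      nlinarith
  · refine ((hi1 m).sub (hi3 m)).congr (Filter.Eventually.of_forall fun x => ?_)
    simp only [Pi.sub_apply]
    ring

/-! ### D9 = OneD.lean -/
theorem oneD (hU : GP V κ Λ S) (hs : Sy J Γ q) (hVi : Inv Γ V) (hJ : J.Nonempty) {c : ℝ}
    (hc : 0 < c) (hP : HP V c) {R : ℝ} (hR : 0 < R)
    (hRS : R ^ 2 = 2048 * (J.card : ℝ) ^ 3 * S) {p : ℕ} {v : Fin p → Eu n → ℝ}
    (hv : Fam Γ q p v) {τ : ℝ} (hτ : 0 < τ) :
    ∃ (v' : Fin n → Eu n → ℝ) (w : Eu n), Fam Γ q n v' ∧ (∀ j ∈ J, w j = 0) ∧ ‖w‖ ≤ 1 ∧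
      SS V (1 / c) v' ≤ (1 / c) * SS V (1 / c) v + (1 / c) * (Ex V (nv v')) ^ 2 +
        4 * (1 / c) ^ 3 * (Ex V (fun x => |inner ℝ x w| * nv v x)) ^ 2 +
          4 * S * (1 / c) ^ 2 * SS V (1 / c) v + τ ∧
      EE V v' ≤ (1 / c) * EE V v + τ ∧
      Real.sqrt (CC V J R v) ≤
        R * (Real.sqrt (CC V J R v') + 2 * Real.sqrt (SS V (1 / c) v + τ)) ∧
      ∀ w' : Eu n, (∀ j ∈ J, w' j = 0) → ‖w'‖ ≤ 1 → ∀ k,
        Fk V J R k (fun x => om S w' x * nv v x) ≤
          Fk V J R (k + 1) (fun x => om S w' x * nv v' x) +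
          Real.sqrt (QQ J S (k + 1)) * (2 * Real.sqrt (CC V J R v') +
            Real.sqrt (SS V (1 / c) v + τ) + (4 / R) * Real.sqrt (CC V J R v) + τ) := by
  have hV : Continuous V := hU.cd.continuous
  have hS := hU.Spos
  set l : ℝ := 1 / c with hl
  have hl0 : 0 < l := by positivity
  have hSS := SS_nonneg hU hv.tt hc hP
  rw [← hl] at hSS
  -- the small parameters
  set D : ℝ := 1 + l + 4 * S * l ^ 2 + 1 / Real.sqrt S with hD
  have hsS : 0 < 1 / Real.sqrt S := by positivity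
  have hSl : 0 < 4 * S * l ^ 2 := by positivity
  have hD1 : 1 ≤ D := by rw [hD]; linarith
  set τ1 : ℝ := τ / (2 * D) with hτ1
  have hτ10 : 0 < τ1 := by positivity
  have hτD : τ1 * D = τ / 2 := by rw [hτ1]; field_simp
  have hτ1le : τ1 ≤ τ / 2 := by nlinarith
  obtain ⟨η, hη, hητ, hg1, hg2, hg3⟩ := gg_small hU hv.tt hc hP hτ10
  rw [← hl] at hg1 hg2
  have hg : TT (gg η v) := gg_TT hv.tt hη
  obtain ⟨u, w, hu, hui, hwJ, hw, hc1, hc2, hc3⟩ := coreD hU hs hVi hc hP hg (gg_inv hv)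
    (gg_nonneg hη) (half_pos hτ)
  rw [← hl] at hc1 hc2 hc3
  have hDu : Df V (fun x => gg η v x - u x) (fun x => gg η v x - u x) ≤ SS V l v + τ := by
    linarith
  have hsD := Real.sqrt_le_sqrt hDu
  refine ⟨nx J u, w, nx_fam hs hu hui, hwJ, hw, ?_, ?_, ?_, ?_⟩
  · have e1 : SS V l (nx J u) = (∑ m ∈ J, (Df V (pd m u) (pd m u) -
        l * Ex V (fun x => pd m u x ^ 2))) + l * (Ex V (nv (nx J u))) ^ 2 := by
      unfold SS
      rw [nx_DD, nx_EE, Finset.sum_sub_distrib, Finset.mul_sum]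
    have hiw : Continuous fun x : Eu n => |inner ℝ x w| :=
      (continuous_id.inner continuous_const).abs
    have e2 : Ex V (fun x => |inner ℝ x w| * gg η v x) ≤
        Ex V (fun x => |inner ℝ x w| * nv v x) := by
      refine Ex_mono (int_cs hV (hiw.mul hg.continuous) (hg.cs.mul_left))
        (int_cs hV (hiw.mul (nv_cont hv.tt)) ((nv_cs hv.tt).mul_left)) fun x =>
        mul_le_mul_of_nonneg_left (gg_le hη x) (abs_nonneg _)
    have e3 : 0 ≤ Ex V (fun x => |inner ℝ x w| * gg η v x) :=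
      Ex_nonneg fun x => mul_nonneg (abs_nonneg _) (gg_nonneg hη x)
    have e4 : (Ex V (fun x => |inner ℝ x w| * gg η v x)) ^ 2 ≤
        (Ex V (fun x => |inner ℝ x w| * nv v x)) ^ 2 := pow_le_pow_left₀ e3 e2 2
    have e5 : 4 * l ^ 3 * (Ex V (fun x => |inner ℝ x w| * gg η v x)) ^ 2 ≤
        4 * l ^ 3 * (Ex V (fun x => |inner ℝ x w| * nv v x)) ^ 2 :=
      mul_le_mul_of_nonneg_left e4 (by positivity)
    have e6 : l * Sf V l (gg η v) ≤ l * (SS V l v + τ1) := mul_le_mul_of_nonneg_left hg1 hl0.le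
    have e7 : 4 * S * l ^ 2 * Sf V l (gg η v) ≤ 4 * S * l ^ 2 * (SS V l v + τ1) :=
      mul_le_mul_of_nonneg_left hg1 hSl.le
    have e8 : l * τ1 + 4 * S * l ^ 2 * τ1 ≤ τ / 2 := by
      have e9 : τ1 * D = τ1 + (l * τ1 + 4 * S * l ^ 2 * τ1) + τ1 * (1 / Real.sqrt S) := by
        rw [hD]; ring
      have e10 : 0 < τ1 * (1 / Real.sqrt S) := mul_pos hτ10 hsS
      linarith
    rw [mul_add] at e6 e7
    rw [e1]
    linarith
  · have e1 := nx_le V J u
    have e2 : l * Ex V (fun x => gg η v x ^ 2) ≤ l * EE V v := mul_le_mul_of_nonneg_left hg3 hl0.le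
    linarith
  · have e1 := oneD_core hU hs hVi hR hv hη
    set a := Real.sqrt (∑ m ∈ J, Ex V (fun x => pd m (gg η v) x ^ 2 * ch J R x)) with ha
    have ha2 : a ^ 2 = ∑ m ∈ J, Ex V (fun x => pd m (gg η v) x ^ 2 * ch J R x) :=
      Real.sq_sqrt (Finset.sum_nonneg fun m _ => Ex_nonneg fun x =>
        mul_nonneg (sq_nonneg _) (oneD_ch_pos J R x).le)
    have ha0 : 0 ≤ a := Real.sqrt_nonneg _
    set b := Real.sqrt (SS V l v + τ) with hb
    have hb0 : 0 ≤ b := Real.sqrt_nonneg _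
    have hb2 : b ^ 2 = SS V l v + τ := Real.sq_sqrt (by linarith)
    have e2 : a ≤ Real.sqrt (CC V J R (nx J u)) + b := by
      rw [oneD_CC_nx]
      exact (oneD_mink hV hg hu J R).trans (add_le_add le_rfl hsD)
    have e3 : CC V J R v ≤ (R * (a + b)) ^ 2 := by
      rw [← ha2] at e1
      have e4 : CC V J R v ≤ R ^ 2 * (a ^ 2 + b ^ 2) := e1.trans
        (mul_le_mul_of_nonneg_left (by rw [hb2]; linarith) (sq_nonneg R))
      have e5 : 0 ≤ R ^ 2 * (a * b) := by positivity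
      have e6 : (R * (a + b)) ^ 2 = R ^ 2 * (a ^ 2 + b ^ 2) + 2 * (R ^ 2 * (a * b)) := by ring
      rw [e6]
      linarith
    calc Real.sqrt (CC V J R v) ≤ Real.sqrt ((R * (a + b)) ^ 2) := Real.sqrt_le_sqrt e3
      _ = R * (a + b) := Real.sqrt_sq (by positivity)
      _ ≤ _ := mul_le_mul_of_nonneg_left (by linarith) hR.le
  · intro w' hwJ' hw' k
    have e1 := FD_chain hU hs hVi hJ hR hRS hwJ' hw' hv.tt hη hu k
    refine e1.trans (add_le_add le_rfl (mul_le_mul_of_nonneg_left ?_ (Real.sqrt_nonneg _)))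
    have e2 : η * (1 + 1 / Real.sqrt S) ≤ τ := by
      have e3 : 1 + 1 / Real.sqrt S ≤ D := by rw [hD]; linarith
      calc η * (1 + 1 / Real.sqrt S) ≤ τ1 * D :=
            mul_le_mul hητ e3 (by positivity) hτ10.le
        _ ≤ τ := by rw [hτD]; linarith
    linarith

end Pool.Agent.Lib.MP_6d896a_gt.UC.UR.UD
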