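import Mathlib
import Pool.Agent.Lib.MP_6d896a_gt.UR.IterRB
import Pool.Agent.Lib.MP_6d896a_gt.UD.Defs
import Pool.Agent.Lib.MP_6d896a_gt.UD.AbsorbD
import Pool.Agent.Lib.MP_6d896a_gt.UD.FamD
import Pool.Agent.Lib.MP_6d896a_gt.UD.FkD
import Pool.Agent.Lib.MP_6d896a_gt.UD.OneD

/-!
Project UD, piece D11: the iteration and the improved inequality.
-/

set_option autoImplicit false
set_option linter.all false

namespace Pool.Agent.Lib.MP_6d896a_gt.UC.UR.UD

open MeasureTheory Filter Topology Set ProbabilityTheory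
open scoped ENNReal NNReal ContDiff

variable {n : ℕ} {V f g u : Eu n → ℝ} {κ Λ S : ℝ} {J : Finset (Fin n)}
  {Γ : Eu n ≃ₗᵢ[ℝ] Eu n} {q : ℕ}

/-- the sequences -/
private theorem exists_seqD (hU : GP V κ Λ S) (hs : Sy J Γ q) (hVi : Inv Γ V) (hJ : J.Nonempty)
    {c : ℝ} (hc : 0 < c) (hP : HP V c) {R : ℝ} (hR : 0 < R)
    (hRS : R ^ 2 = 2048 * (J.card : ℝ) ^ 3 * S) {p : ℕ} {v : Fin p → Eu n → ℝ}
    (hv : Fam Γ q p v) {τ : ℝ} (hτ : 0 < τ) :
    ∃ (G : ℕ → (Σ p : ℕ, (Fin p → Eu n → ℝ))) (w : ℕ → Eu n), G 0 = ⟨p, v⟩ ∧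
      (∀ j, Fam Γ q (G j).1 (G j).2) ∧
      (∀ j, (∀ i ∈ J, w j i = 0) ∧ ‖w j‖ ≤ 1) ∧
      (∀ j, SS V (1 / c) (G (j + 1)).2 ≤
        (1 / c) * SS V (1 / c) (G j).2 + (1 / c) * (Ex V (nv (G (j + 1)).2)) ^ 2 +
        4 * (1 / c) ^ 3 * (Ex V (fun x => |inner ℝ x (w j)| * nv (G j).2 x)) ^ 2 +
          4 * S * (1 / c) ^ 2 * SS V (1 / c) (G j).2 + τ) ∧
      (∀ j, EE V (G (j + 1)).2 ≤ (1 / c) * EE V (G j).2 + τ) ∧
      (∀ j, Real.sqrt (CC V J R (G j).2) ≤
        R * (Real.sqrt (CC V J R (G (j + 1)).2) +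
          2 * Real.sqrt (SS V (1 / c) (G j).2 + τ))) ∧
      ∀ w' : Eu n, (∀ j ∈ J, w' j = 0) → ‖w'‖ ≤ 1 → ∀ j k,
        Fk V J R k (fun x => om S w' x * nv (G j).2 x) ≤
          Fk V J R (k + 1) (fun x => om S w' x * nv (G (j + 1)).2 x) +
          Real.sqrt (QQ J S (k + 1)) * (2 * Real.sqrt (CC V J R (G (j + 1)).2) +
            Real.sqrt (SS V (1 / c) (G j).2 + τ) +
            (4 / R) * Real.sqrt (CC V J R (G j).2) + τ) := by
  choose nx wx hnx using fun (g : {pv : (Σ p : ℕ, (Fin p → Eu n → ℝ)) // Fam Γ q pv.1 pv.2}) =>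
    oneD hU hs hVi hJ hc hP hR hRS g.2 hτ
  let step : {pv : (Σ p : ℕ, (Fin p → Eu n → ℝ)) // Fam Γ q pv.1 pv.2} →
      {pv : (Σ p : ℕ, (Fin p → Eu n → ℝ)) // Fam Γ q pv.1 pv.2} :=
    fun g => ⟨⟨n, nx g⟩, (hnx g).1⟩
  let sq : ℕ → {pv : (Σ p : ℕ, (Fin p → Eu n → ℝ)) // Fam Γ q pv.1 pv.2} :=
    fun j => step^[j] ⟨⟨p, v⟩, hv⟩
  have hs' : ∀ j, (sq (j + 1)).1 = ⟨n, nx (sq j)⟩ := by
    intro j
    show (step^[j + 1] ⟨⟨p, v⟩, hv⟩).1 = ⟨n, nx (step^[j] ⟨⟨p, v⟩, hv⟩)⟩
    rw [Function.iterate_succ_apply']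
  refine ⟨fun j => (sq j).1, fun j => wx (sq j), rfl, fun j => (sq j).2,
    fun j => ⟨(hnx (sq j)).2.1, (hnx (sq j)).2.2.1⟩, fun j => ?_, fun j => ?_, fun j => ?_, ?_⟩
  · dsimp only
    rw [hs']; exact (hnx (sq j)).2.2.2.1
  · dsimp only
    rw [hs']; exact (hnx (sq j)).2.2.2.2.1
  · dsimp only
    rw [hs']; exact (hnx (sq j)).2.2.2.2.2.1
  · intro w' h1 h2 j k
    dsimp only
    rw [hs']; exact (hnx (sq j)).2.2.2.2.2.2 w' h1 h2 k

private lemma chI_cont (J : Finset (Fin n)) (R : ℝ) : Continuous (ch J R) := by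
  unfold ch
  have e : (fun x : Eu n => Real.exp (-(rr J x ^ 2 / (2 * R ^ 2)))) =
      fun x => Real.exp (-((∑ j ∈ J, x j ^ 2) / (2 * R ^ 2))) := by
    funext x
    unfold rr
    rw [Real.sq_sqrt (Finset.sum_nonneg fun j _ => sq_nonneg _)]
  rw [e]
  fun_prop

private lemma chI_le (J : Finset (Fin n)) (R : ℝ) (x : Eu n) : ch J R x ≤ 1 := by
  unfold ch
  rw [Real.exp_le_one_iff]
  have : 0 ≤ rr J x ^ 2 / (2 * R ^ 2) := by positivity
  linarith

private lemma chI_pos (J : Finset (Fin n)) (R : ℝ) (x : Eu n) : 0 < ch J R x := Real.exp_pos _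

private lemma CC_le_EE (hV : Continuous V) (J : Finset (Fin n)) (R : ℝ) {p : ℕ}
    {v : Fin p → Eu n → ℝ} (hv : ∀ a, TT (v a)) : CC V J R v ≤ EE V v := by
  unfold CC EE
  apply Finset.sum_le_sum
  intro a _
  refine Ex_mono (int_cs hV ((hv a).sq.continuous.mul (chI_cont J R)) (hv a).sq.cs.mul_right)
    ((hv a).sq.int hV) fun x => ?_
  have h1 := chI_le J R x
  have h2 := (chI_pos J R x).le
  nlinarith [sq_nonneg (v a x)]

private lemma CC_nonneg (V : Eu n → ℝ) (J : Finset (Fin n)) (R : ℝ) {p : ℕ}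
    (v : Fin p → Eu n → ℝ) : 0 ≤ CC V J R v :=
  Finset.sum_nonneg fun a _ => Ex_nonneg fun x => mul_nonneg (sq_nonneg _) (chI_pos J R x).le

private lemma EE_nonneg (V : Eu n → ℝ) {p : ℕ}
    (v : Fin p → Eu n → ℝ) : 0 ≤ EE V v :=
  Finset.sum_nonneg fun a _ => Ex_nonneg fun x => sq_nonneg _

private lemma Ex_nv_sq (hV : Continuous V) {p : ℕ}
    {v : Fin p → Eu n → ℝ} (hv : ∀ a, TT (v a)) : Ex V (fun x => nv v x ^ 2) = EE V v := by
  unfold EE
  rw [← Ex_sum Finset.univ (fun a _ => (hv a).sq.int hV)]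
  congr 1
  funext x
  exact nv_sq v x

theorem improvedD (hU : GP V κ Λ S) (hs : Sy J Γ q) (hVi : Inv Γ V) (hJ : J.Nonempty) {c : ℝ}
    (hc : 0 < c) (hP : HP V c) (hcS : 10 ^ 18 * (J.card : ℝ) ^ 7 * S ≤ c) {p : ℕ}
    {v : Fin p → Eu n → ℝ} (hv : Fam Γ q p v) :
    (Ex V (nv v)) ^ 2 ≤ c * DD V v - EE V v := by
  have hS := hU.Spos
  have hV := hU.contV
  obtain ⟨d, hd⟩ : ∃ d : ℝ, (J.card : ℝ) = d := ⟨_, rfl⟩
  have hd1 : 1 ≤ d := by
    rw [← hd]
    exact_mod_cast hJ.card_pos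
  have hd0 : 0 < d := by linarith
  rw [hd] at hcS
  set l := 1 / c with hl
  have hl0 : 0 < l := by positivity
  have hlc : l * c = 1 := by rw [hl]; field_simp
  have hSl : d ^ 7 * S * l ≤ 1 / 10 ^ 18 := by
    rw [le_div_iff₀ (by norm_num)]
    have := mul_le_mul_of_nonneg_right hcS hl0.le
    nlinarith
  have hSl1 : S * l ≤ 1 / 10 ^ 18 := by
    refine le_trans ?_ hSl
    have h1 : 1 ≤ d ^ 7 := one_le_pow₀ hd1
    have h2 : 0 < S * l := by positivity
    nlinarith
  set r := Real.sqrt l with hr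
  have hr0 : 0 < r := Real.sqrt_pos.mpr hl0
  have hr2 : r ^ 2 = l := Real.sq_sqrt hl0.le
  set P := Real.sqrt (8192 * d * S) with hPdef
  have hP0 : 0 < P := Real.sqrt_pos.mpr (by positivity)
  have hP2 : P ^ 2 = 8192 * d * S := Real.sq_sqrt (by positivity)
  set R := Real.sqrt (2048 * d ^ 3 * S) with hRdef
  have hR0 : 0 < R := Real.sqrt_pos.mpr (by positivity)
  have hR2 : R ^ 2 = 2048 * d ^ 3 * S := Real.sq_sqrt (by positivity)
  have hRS : R ^ 2 = 2048 * (J.card : ℝ) ^ 3 * S := by rw [hd]; exact hR2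
  set σ := Real.sqrt S with hσ
  have hσ0 : 0 < σ := Real.sqrt_pos.mpr hS
  have hσ2 : σ ^ 2 = S := Real.sq_sqrt hS.le
  set δ := Real.sqrt (8192 * d ^ 3 * S) * r with hδ
  have hδP : P * r ≤ δ := by
    rw [hδ, hPdef]
    apply mul_le_mul_of_nonneg_right _ hr0.le
    apply Real.sqrt_le_sqrt
    have : d ≤ d ^ 3 := by nlinarith [mul_nonneg hd0.le (by nlinarith : 0 ≤ d ^ 2 - 1)]
    nlinarith
  have hδR : R * r ≤ δ := by
    rw [hδ, hRdef]
    apply mul_le_mul_of_nonneg_right _ hr0.le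
    apply Real.sqrt_le_sqrt
    have : 0 < d ^ 3 * S := by positivity
    nlinarith
  have hδ0 : 0 < δ := by positivity
  have hPR : P * d = 2 * R := by
    have h1 : (P * d) ^ 2 = (2 * R) ^ 2 := by
      rw [mul_pow, mul_pow, hP2, hR2]; ring
    exact (pow_left_inj₀ (by positivity) (by positivity) (by norm_num)).mp h1
  set X := c * DD V v - EE V v with hX
  have hN0 : 0 ≤ EE V v := EE_nonneg V v
  have hEx0 : 0 ≤ Ex V (nv v) := Ex_nonneg (nv_nonneg v)
  have hSf0 : 0 ≤ SS V l v := by rw [hl]; exact SS_nonneg hU hv.tt hc hP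
  have hsX : SS V l v / l = X + Ex V (nv v) ^ 2 := by
    rw [div_eq_iff hl0.ne']
    unfold SS
    have : (X + Ex V (nv v) ^ 2) * l =
        (l * c) * DD V v - l * EE V v + l * Ex V (nv v) ^ 2 := by
      rw [hX]; ring
    rw [this, hlc]
    ring
  suffices hab : (Ex V (nv v)) ^ 2 ≤ (SS V l v / l) / 4 by
    rw [hsX] at hab
    nlinarith [sq_nonneg (Ex V (nv v))]
  have hK : Real.sqrt (64 * 10 ^ 6 * d ^ 4) = 8000 * d ^ 2 := by
    rw [show (64 * 10 ^ 6 * d ^ 4 : ℝ) = (8000 * d ^ 2) ^ 2 by ring]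
    exact Real.sqrt_sq (by positivity)
  refine absorbD (K := 64 * 10 ^ 6 * d ^ 4) (δ := δ) (N := EE V v) ?_ hδ0 ?_
    (div_nonneg hSf0 hl0.le) hN0 hEx0 ?_
  · have : 1 ≤ d ^ 4 := one_le_pow₀ hd1
    nlinarith
  · rw [hK]
    have h1 : (d ^ 2 * δ) ^ 2 ≤ 8192 / 10 ^ 18 := by
      rw [hδ, mul_pow, mul_pow, Real.sq_sqrt (by positivity), hr2]
      have e : (d ^ 2) ^ 2 * (8192 * d ^ 3 * S * l) = 8192 * (d ^ 7 * S * l) := by ring
      rw [e]
      linarith
    have h3 : d ^ 2 * δ ≤ 1 / 8000000 := by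
      apply le_of_sq_le_sq _ (by norm_num)
      refine h1.trans (by norm_num)
    have h4 : 1000 * (8000 * d ^ 2) * δ = 8000000 * (d ^ 2 * δ) := by ring
    rw [h4]
    linarith
  intro m τ hτ
  -- the parameter of the steps
  obtain ⟨t, ht, ht1, ht2, ht3⟩ := exists_paramR hr0 hr2 m hτ
  obtain ⟨G, w, hG0, hG, hw, hS1, hN1, hC1, hJ1⟩ :=
    exists_seqD hU hs hVi hJ hc hP hR0 hRS hv ht
  rw [← hl] at hS1 hN1
  simp only [← hl] at hJ1 hC1
  have hSn : ∀ j, 0 ≤ SS V l (G j).2 := fun j => by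
    rw [hl]; exact SS_nonneg hU (hG j).tt hc hP
  have hnc : ∀ j, Continuous (nv (G j).2) := fun j => nv_cont (hG j).tt
  have hns : ∀ j, HasCompactSupport (nv (G j).2) := fun j => nv_cs (hG j).tt
  have hnn : ∀ j x, 0 ≤ nv (G j).2 x := fun j x => nv_nonneg _ x
  have homc : ∀ w' : Eu n, Continuous (om S w') := fun w' => (om_smooth hS w').continuous
  have hoc : ∀ j (w' : Eu n), Continuous (fun x => om S w' x * nv (G j).2 x) :=
    fun j w' => (homc w').mul (hnc j)
  have hos : ∀ j (w' : Eu n), HasCompactSupport (fun x => om S w' x * nv (G j).2 x) :=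
    fun j w' => (hns j).mul_left
  have hoi : ∀ j (w' : Eu n), Integrable (fun x => om S w' x * nv (G j).2 x * Real.exp (-V x)) :=
    fun j w' => int_cs hV (hoc j w') (hos j w')
  -- comparison of the weighted means
  have hb : ∀ j (w' : Eu n), σ * Ex V (nv (G j).2) ≤
      Ex V (fun x => om S w' x * nv (G j).2 x) := by
    intro j w'
    rw [← Ex_const_mul]
    refine Ex_mono (int_cs hV (continuous_const.mul (hnc j)) (hns j).mul_left)
      (hoi j w') fun x => ?_
    exact mul_le_mul_of_nonneg_right (om_ge hS w' x) (hnn j x)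
  have hbw : ∀ j (w' : Eu n), Ex V (fun x => |inner ℝ x w'| * nv (G j).2 x) ≤
      Ex V (fun x => om S w' x * nv (G j).2 x) := by
    intro j w'
    refine Ex_mono ?_ (hoi j w') fun x => ?_
    · refine int_cs hV ?_ ?_
      · have : Continuous (fun x : Eu n => |inner ℝ x w'|) := by fun_prop
        exact this.mul (hnc j)
      · exact (hns j).mul_left
    · exact mul_le_mul_of_nonneg_right (om_abs hS w' x) (hnn j x)
  have hom0 : ∀ j (w' : Eu n), 0 ≤ Ex V (fun x => om S w' x * nv (G j).2 x) := fun j w' =>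
    Ex_nonneg fun x => mul_nonneg (om_pos hS w' x).le (hnn j x)
  -- second moments
  have hNj : ∀ j, j ≤ m → EE V (G j).2 / l ^ j ≤ EE V v + j * (τ / (m + 1)) := by
    intro j
    induction j with
    | zero =>
      intro _
      have e0 : EE V (G 0).2 = EE V v := by rw [hG0]
      rw [e0]; simp
    | succ j ih =>
      intro hj
      have h1 := ih (by omega)
      have h2 := hN1 j
      have h3 := ht1 j (by omega)
      rw [div_le_iff₀ (by positivity)] at h1 ⊢
      push_cast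
      rw [pow_succ]
      rw [pow_succ] at h3
      nlinarith [mul_le_mul_of_nonneg_left h1 hl0.le]
  have hNm : EE V (G m).2 ≤ (EE V v + τ) * (r ^ m) ^ 2 := by
    have h1 := hNj m le_rfl
    rw [div_le_iff₀ (by positivity)] at h1
    have e : (r ^ m) ^ 2 = l ^ m := by rw [← pow_mul, mul_comm, pow_mul, hr2]
    rw [e]
    refine h1.trans ?_
    apply mul_le_mul_of_nonneg_right _ (by positivity)
    have h2 : (m : ℝ) * (τ / (m + 1)) ≤ τ := by
      rw [mul_div_assoc', div_le_iff₀ (by positivity)]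
      nlinarith
    linarith
  have hNs : Real.sqrt (EE V (G m).2) ≤ Real.sqrt (EE V v + τ) * r ^ m := by
    apply Real.sqrt_le_iff.mpr
    refine ⟨by positivity, ?_⟩
    rw [mul_pow, Real.sq_sqrt (by positivity)]
    exact hNm
  -- the excess
  have hSt : ∀ j, j ≤ m → Real.sqrt (SS V l (G j).2 + t) ≤
      r ^ (j + 1) * Real.sqrt (SS V l (G j).2 / l ^ (j + 1) + τ) := by
    intro j hj
    apply Real.sqrt_le_iff.mpr
    refine ⟨by positivity, ?_⟩
    have h0 : 0 ≤ SS V l (G j).2 / l ^ (j + 1) + τ := by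
      have := div_nonneg (hSn j) (by positivity : 0 ≤ l ^ (j + 1))
      positivity
    rw [mul_pow, Real.sq_sqrt h0, ← pow_mul, mul_comm (j + 1) 2, pow_mul, hr2, mul_add,
      mul_div_cancel₀ _ (by positivity)]
    have h2 := ht1 j (by omega)
    have h3 : τ / (m + 1) * l ^ (j + 1) ≤ l ^ (j + 1) * τ := by
      rw [mul_comm]
      apply mul_le_mul_of_nonneg_left _ (by positivity)
      apply div_le_self hτ.le
      have : (0 : ℝ) ≤ m := Nat.cast_nonneg m
      linarith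
    linarith
  refine ⟨fun j => Ex V (fun x => om S (w j) x * nv (G j).2 x) / (σ * r ^ j),
    fun j => Real.sqrt (CC V J R (G j).2) / r ^ j,
    fun j => SS V l (G j).2 / l ^ (j + 1), ?_, ?_, ?_, ?_, ?_, ?_, ?_, ?_, ?_⟩
  · have h1 := hb 0 (w 0)
    show Ex V (nv v) ≤ Ex V (fun x => om S (w 0) x * nv (G 0).2 x) / (σ * r ^ 0)
    rw [le_div_iff₀ (by positivity), pow_zero, mul_one]
    rw [hG0] at h1 ⊢
    linarith
  · have e0 : SS V l (G 0).2 = SS V l v := by rw [hG0]
    show SS V l (G 0).2 / l ^ (0 + 1) = SS V l v / l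
    rw [e0, zero_add, pow_one]
  · intro j
    exact div_nonneg (hom0 j _) (by positivity)
  · intro j
    exact div_nonneg (Real.sqrt_nonneg _) (by positivity)
  · intro j
    exact div_nonneg (hSn j) (by positivity)
  · intro j hj
    have h1 := hS1 j
    have h2 := ht3 j hj.le
    show SS V l (G (j + 1)).2 / l ^ (j + 1 + 1) ≤ 4 * (SS V l (G j).2 / l ^ (j + 1) +
      (Ex V (fun x => om S (w j) x * nv (G j).2 x) / (σ * r ^ j)) ^ 2 +
      (Ex V (fun x => om S (w (j + 1)) x * nv (G (j + 1)).2 x) / (σ * r ^ (j + 1))) ^ 2) + τ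
    -- the terms
    have p1 : Ex V (nv (G (j + 1)).2) ^ 2 ≤
        (Ex V (fun x => om S (w (j + 1)) x * nv (G (j + 1)).2 x) / σ) ^ 2 := by
      have h3 := hb (j + 1) (w (j + 1))
      refine pow_le_pow_left₀ (Ex_nonneg (hnn (j + 1))) ?_ 2
      rw [le_div_iff₀ hσ0]
      linarith
    have p2 : (Ex V (fun x => |inner ℝ x (w j)| * nv (G j).2 x)) ^ 2 ≤
        S * (Ex V (fun x => om S (w j) x * nv (G j).2 x) / σ) ^ 2 := by
      have h3 : S * (Ex V (fun x => om S (w j) x * nv (G j).2 x) / σ) ^ 2 =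
          (Ex V (fun x => om S (w j) x * nv (G j).2 x)) ^ 2 := by
        rw [div_pow, hσ2]
        field_simp
      rw [h3]
      exact pow_le_pow_left₀ (Ex_nonneg fun x => mul_nonneg (abs_nonneg _) (hnn j x))
        (hbw j (w j)) 2
    set B0 := Ex V (fun x => om S (w j) x * nv (G j).2 x) / σ with hB0
    set B1 := Ex V (fun x => om S (w (j + 1)) x * nv (G (j + 1)).2 x) / σ with hB1
    have e0 : (Ex V (fun x => om S (w j) x * nv (G j).2 x) / (σ * r ^ j)) ^ 2 =
        B0 ^ 2 / l ^ j := by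
      rw [← div_div, ← hB0, div_pow, ← pow_mul, mul_comm j 2, pow_mul, hr2]
    have e1 : (Ex V (fun x => om S (w (j + 1)) x * nv (G (j + 1)).2 x) /
        (σ * r ^ (j + 1))) ^ 2 = B1 ^ 2 / l ^ (j + 1) := by
      rw [← div_div, ← hB1, div_pow, ← pow_mul, mul_comm (j + 1) 2, pow_mul, hr2]
    rw [e0, e1, div_le_iff₀ (by positivity)]
    have e2 : (4 * (SS V l (G j).2 / l ^ (j + 1) + B0 ^ 2 / l ^ j + B1 ^ 2 / l ^ (j + 1)) + τ) *
        l ^ (j + 1 + 1) = 4 * l * SS V l (G j).2 + 4 * l ^ 2 * B0 ^ 2 + 4 * l * B1 ^ 2 +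
          τ * l ^ (j + 2) := by
      have hne : l ≠ 0 := hl0.ne'
      clear_value l
      field_simp
      ring
    rw [e2]
    have q1 : l * Ex V (nv (G (j + 1)).2) ^ 2 ≤ l * B1 ^ 2 :=
      mul_le_mul_of_nonneg_left p1 hl0.le
    have q2 : 4 * l ^ 3 * (Ex V (fun x => |inner ℝ x (w j)| * nv (G j).2 x)) ^ 2 ≤
        4 * l ^ 3 * (S * B0 ^ 2) := mul_le_mul_of_nonneg_left p2 (by positivity)
    have q3 : 4 * l ^ 3 * (S * B0 ^ 2) = (4 * l ^ 2 * B0 ^ 2) * (S * l) := by ring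
    have q4 : (4 * l ^ 2 * B0 ^ 2) * (S * l) ≤ (4 * l ^ 2 * B0 ^ 2) * 1 :=
      mul_le_mul_of_nonneg_left (hSl1.trans (by norm_num)) (by positivity)
    have q5 : 4 * S * l ^ 2 * SS V l (G j).2 = (4 * (l * SS V l (G j).2)) * (S * l) := by ring
    have q6 : (4 * (l * SS V l (G j).2)) * (S * l) ≤ (4 * (l * SS V l (G j).2)) * (1 / 2) :=
      mul_le_mul_of_nonneg_left (hSl1.trans (by norm_num))
        (by have := mul_nonneg hl0.le (hSn j); linarith)
    have q7 : 0 ≤ l * B1 ^ 2 := by positivity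
    have q8 := mul_nonneg hl0.le (hSn j)
    linarith
  · intro j hj
    show Real.sqrt (CC V J R (G j).2) / r ^ j ≤
      δ * (Real.sqrt (CC V J R (G (j + 1)).2) / r ^ (j + 1) +
        2 * Real.sqrt (SS V l (G j).2 / l ^ (j + 1) + τ))
    rw [div_le_iff₀ (by positivity)]
    have h1 := hC1 j
    have h2 := hSt j hj.le
    have h3 : R * (Real.sqrt (CC V J R (G (j + 1)).2) +
        2 * Real.sqrt (SS V l (G j).2 + t)) ≤
        R * (Real.sqrt (CC V J R (G (j + 1)).2) +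
        2 * (r ^ (j + 1) * Real.sqrt (SS V l (G j).2 / l ^ (j + 1) + τ))) :=
      mul_le_mul_of_nonneg_left (by linarith) hR0.le
    have h4 : R * (Real.sqrt (CC V J R (G (j + 1)).2) +
        2 * (r ^ (j + 1) * Real.sqrt (SS V l (G j).2 / l ^ (j + 1) + τ))) =
        (R * r) * ((Real.sqrt (CC V J R (G (j + 1)).2) / r ^ (j + 1) +
        2 * Real.sqrt (SS V l (G j).2 / l ^ (j + 1) + τ)) * r ^ j) := by
      have hne : r ≠ 0 := hr0.ne'
      clear_value r
      field_simp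
      ring
    have h5 : (R * r) * ((Real.sqrt (CC V J R (G (j + 1)).2) / r ^ (j + 1) +
        2 * Real.sqrt (SS V l (G j).2 / l ^ (j + 1) + τ)) * r ^ j) ≤
        δ * ((Real.sqrt (CC V J R (G (j + 1)).2) / r ^ (j + 1) +
        2 * Real.sqrt (SS V l (G j).2 / l ^ (j + 1) + τ)) * r ^ j) :=
      mul_le_mul_of_nonneg_right hδR (by positivity)
    rw [mul_assoc]
    linarith
  · show Real.sqrt (CC V J R (G m).2) / r ^ m ≤ Real.sqrt (EE V v + τ)
    rw [div_le_iff₀ (by positivity)]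
    exact (Real.sqrt_le_sqrt (CC_le_EE hV J R (hG m).tt)).trans hNs
  · intro a ha
    show Ex V (fun x => om S (w a) x * nv (G a).2 x) / (σ * r ^ a) ≤
      Real.sqrt (64 * 10 ^ 6 * d ^ 4) * (Real.sqrt (CC V J R (G a).2) / r ^ a +
        ∑ j ∈ Finset.Ico a m, δ ^ (j - a) *
        (Real.sqrt (CC V J R (G j).2) / r ^ j + δ * (Real.sqrt (CC V J R (G (j + 1)).2) /
          r ^ (j + 1) + Real.sqrt (SS V l (G j).2 / l ^ (j + 1) + τ) + τ)) +
        δ ^ (m - a) * Real.sqrt (EE V v + τ))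
    obtain ⟨hwi, hw1⟩ := hw a
    rw [hK, div_le_iff₀ (by positivity)]
    have hQ : ∀ k : ℕ, Real.sqrt (QQ J S k) = 1000 * d ^ 2 * σ * P ^ k := by
      intro k
      unfold QQ
      rw [hd, Real.sqrt_eq_iff_mul_self_eq (by positivity) (by positivity)]
      have : 1000 * d ^ 2 * σ * P ^ k * (1000 * d ^ 2 * σ * P ^ k) =
          10 ^ 6 * d ^ 4 * σ ^ 2 * (P ^ 2) ^ k := by
        rw [← pow_mul, mul_comm 2 k, pow_mul]; ring
      rw [this, hσ2, hP2]
    have hd2 : 1 ≤ d ^ 2 := one_le_pow₀ hd1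
    have hCn : ∀ j, 0 ≤ Real.sqrt (CC V J R (G j).2) / r ^ j := fun j => by positivity
    rcases ha.eq_or_lt with rfl | ha'
    · simp only [Finset.Ico_self, Finset.sum_empty, add_zero, Nat.sub_self, pow_zero, one_mul]
      have h1 : Ex V (fun x => om S (w a) x * nv (G a).2 x) ≤
          Real.sqrt (2 * S) * Real.sqrt (EE V (G a).2) := by
        have hi2 : Integrable (fun x => nv (G a).2 x ^ 2 * Real.exp (-V x)) := by
          refine int_cs hV ((hnc a).pow 2) ?_
          have e : (fun x => nv (G a).2 x ^ 2) = fun x => nv (G a).2 x * nv (G a).2 x := by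
            funext x; ring
          rw [e]
          exact (hns a).mul_left
        have hcs := Ex_cs (V := V) (f := om S (w a)) (g := nv (G a).2) (om_sq_int hU (w a))
          hi2 (hoi a (w a))
        rw [Ex_nv_sq hV (hG a).tt] at hcs
        have h5 : (Ex V (fun x => om S (w a) x * nv (G a).2 x)) ^ 2 ≤
            (2 * S) * EE V (G a).2 :=
          hcs.trans (mul_le_mul_of_nonneg_right (om_sq_le hU hw1) (EE_nonneg V _))
        rw [← Real.sqrt_mul (by positivity)]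
        exact Real.le_sqrt_of_sq_le h5
      have h6 : Real.sqrt (2 * S) ≤ 2 * σ := by
        rw [Real.sqrt_le_left (by positivity), mul_pow, hσ2]
        nlinarith
      have h7 : Real.sqrt (2 * S) * Real.sqrt (EE V (G a).2) ≤
          (2 * σ) * (Real.sqrt (EE V v + τ) * r ^ a) :=
        mul_le_mul h6 hNs (Real.sqrt_nonneg _) (by positivity)
      refine h1.trans (h7.trans ?_)
      have h8 : 0 ≤ Real.sqrt (EE V v + τ) * (σ * r ^ a) := by positivity
      have h9 : 2 * σ * (Real.sqrt (EE V v + τ) * r ^ a) =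
          2 * (Real.sqrt (EE V v + τ) * (σ * r ^ a)) := by ring
      have h10 : 8000 * d ^ 2 * (Real.sqrt (CC V J R (G a).2) / r ^ a +
          Real.sqrt (EE V v + τ)) * (σ * r ^ a) =
          8000 * d ^ 2 * (Real.sqrt (CC V J R (G a).2) / r ^ a * (σ * r ^ a)) +
          8000 * d ^ 2 * (Real.sqrt (EE V v + τ) * (σ * r ^ a)) := by ring
      rw [h9, h10]
      have h11 : 0 ≤ 8000 * d ^ 2 * (Real.sqrt (CC V J R (G a).2) / r ^ a * (σ * r ^ a)) := by
        positivity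
      have h12 : 1 * (Real.sqrt (EE V v + τ) * (σ * r ^ a)) ≤
          d ^ 2 * (Real.sqrt (EE V v + τ) * (σ * r ^ a)) :=
        mul_le_mul_of_nonneg_right hd2 h8
      linarith
    · have hch := chain_sumR (E := fun j => 2 * Real.sqrt (CC V J R (G (j + 1)).2) +
          Real.sqrt (SS V l (G j).2 + t) + (4 / R) * Real.sqrt (CC V J R (G j).2) + t)
        (Q := fun k => Real.sqrt (QQ J S k))
        (J := fun j k => Fk V J R k (fun x => om S (w a) x * nv (G j).2 x))
        (fun j k => hJ1 (w a) hwi hw1 j k) a (m - a) 0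
      simp only [add_zero, zero_add] at hch
      rw [show a + (m - a) = m by omega] at hch
      have hz := FD_zero hU hs hVi hJ hR0 hw1 (hG a).tt
      rw [← hσ] at hz
      obtain ⟨k, hk⟩ : ∃ k, m - a = k + 1 := ⟨m - a - 1, by omega⟩
      have hlast : Fk V J R (m - a) (fun x => om S (w a) x * nv (G m).2 x) ≤
          1000 * d ^ 2 * σ * P ^ (m - a) * (Real.sqrt (EE V v + τ) * r ^ m) := by
        rw [hk]
        refine (FD_cs hU hs hVi hJ hR0 hRS hwi hw1 (hnc m) (hns m) k).trans ?_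
        rw [hQ, Ex_nv_sq hV (hG m).tt]
        exact mul_le_mul_of_nonneg_left hNs (by positivity)
      have hterm : ∀ j ∈ Finset.Ico a m, Real.sqrt (QQ J S (j - a + 1)) *
          (2 * Real.sqrt (CC V J R (G (j + 1)).2) +
          Real.sqrt (SS V l (G j).2 + t) + (4 / R) * Real.sqrt (CC V J R (G j).2) + t) ≤
          8000 * d ^ 2 * σ * (r ^ a * (δ ^ (j - a) *
          (Real.sqrt (CC V J R (G j).2) / r ^ j + δ * (Real.sqrt (CC V J R (G (j + 1)).2) /
          r ^ (j + 1) + Real.sqrt (SS V l (G j).2 / l ^ (j + 1) + τ) + τ)))) := by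
        intro j hj
        rw [Finset.mem_Ico] at hj
        rw [hQ]
        have h1 := hSt j hj.2.le
        have h2 := ht2 j hj.2.le
        obtain ⟨C0, hC0⟩ : ∃ C0, C0 = Real.sqrt (CC V J R (G j).2) / r ^ j := ⟨_, rfl⟩
        obtain ⟨C1, hC1'⟩ : ∃ C1, C1 = Real.sqrt (CC V J R (G (j + 1)).2) / r ^ (j + 1) :=
          ⟨_, rfl⟩
        obtain ⟨Y, hY⟩ : ∃ Y, Y = Real.sqrt (SS V l (G j).2 / l ^ (j + 1) + τ) := ⟨_, rfl⟩
        have hC0n : 0 ≤ C0 := by rw [hC0]; positivity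
        have hC1n : 0 ≤ C1 := by rw [hC1']; positivity
        have hYn : 0 ≤ Y := by rw [hY]; positivity
        have e0 : Real.sqrt (CC V J R (G j).2) = C0 * r ^ j := by
          rw [hC0]; field_simp
        have e1 : Real.sqrt (CC V J R (G (j + 1)).2) = C1 * r ^ (j + 1) := by
          rw [hC1']; field_simp
        rw [← hC0, ← hC1', ← hY]
        rw [← hY] at h1
        rw [e0, e1]
        have h3 : 2 * (C1 * r ^ (j + 1)) + Real.sqrt (SS V l (G j).2 + t) +
            (4 / R) * (C0 * r ^ j) + t ≤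
            r ^ (j + 1) * (2 * C1 + Y + τ) + (4 / R) * (C0 * r ^ j) := by
          nlinarith
        refine (mul_le_mul_of_nonneg_left h3 (by positivity)).trans ?_
        have e2 : r ^ j = r ^ a * r ^ (j - a) := by
          rw [← pow_add]
          congr 1
          omega
        have e3 : r ^ (j + 1) = r ^ a * r ^ (j - a) * r := by
          rw [pow_succ, e2]
        have e4 : 1000 * d ^ 2 * σ * P ^ (j - a + 1) *
            (r ^ (j + 1) * (2 * C1 + Y + τ) + 4 / R * (C0 * r ^ j)) =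
            1000 * d ^ 2 * σ * (r ^ a * ((P * r) ^ (j - a) *
              ((P * (4 / R)) * C0 + (P * r) * (2 * C1 + Y + τ)))) := by
          rw [e3, e2, mul_pow, pow_succ P]
          ring
        rw [e4]
        have h5 : P * (4 / R) ≤ 8 := by
          rw [mul_div_assoc', div_le_iff₀ hR0]
          have : P * 1 ≤ P * d := mul_le_mul_of_nonneg_left hd1 hP0.le
          nlinarith
        have h6 : (P * (4 / R)) * C0 + (P * r) * (2 * C1 + Y + τ) ≤
            8 * (C0 + δ * (C1 + Y + τ)) := by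
          have g1 : (P * (4 / R)) * C0 ≤ 8 * C0 := mul_le_mul_of_nonneg_right h5 hC0n
          have g2 : (P * r) * (2 * C1 + Y + τ) ≤ δ * (2 * C1 + Y + τ) :=
            mul_le_mul_of_nonneg_right hδP (by positivity)
          have g3 : 0 ≤ δ * C1 := by positivity
          have g4 : 0 ≤ δ * Y := by positivity
          have g5 : 0 ≤ δ * τ := by positivity
          nlinarith
        have h7 : (P * r) ^ (j - a) ≤ δ ^ (j - a) :=
          pow_le_pow_left₀ (by positivity) hδP _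
        have h8 : (P * r) ^ (j - a) * ((P * (4 / R)) * C0 + (P * r) * (2 * C1 + Y + τ)) ≤
            δ ^ (j - a) * (8 * (C0 + δ * (C1 + Y + τ))) :=
          mul_le_mul h7 h6 (by positivity) (by positivity)
        have h9 := mul_le_mul_of_nonneg_left h8
          (by positivity : 0 ≤ 1000 * d ^ 2 * σ * r ^ a)
        calc _ = 1000 * d ^ 2 * σ * r ^ a * ((P * r) ^ (j - a) *
              ((P * (4 / R)) * C0 + (P * r) * (2 * C1 + Y + τ))) := by ring
          _ ≤ _ := h9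
          _ = _ := by ring
      have hsum := Finset.sum_le_sum hterm
      rw [← Finset.mul_sum, ← Finset.mul_sum] at hsum
      have hδm : P ^ (m - a) * r ^ m ≤ δ ^ (m - a) * r ^ a := by
        have e : P ^ (m - a) * r ^ m = (P * r) ^ (m - a) * r ^ a := by
          rw [mul_pow, mul_assoc, ← pow_add]
          congr 2
          omega
        rw [e]
        exact mul_le_mul_of_nonneg_right (pow_le_pow_left₀ (by positivity) hδP _)
          (by positivity)
      have hlast2 : 1000 * d ^ 2 * σ * P ^ (m - a) * (Real.sqrt (EE V v + τ) * r ^ m) ≤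
          8000 * d ^ 2 * σ * (r ^ a * (δ ^ (m - a) * Real.sqrt (EE V v + τ))) := by
        have h1 := mul_le_mul_of_nonneg_left hδm
          (by positivity : 0 ≤ 1000 * d ^ 2 * σ * Real.sqrt (EE V v + τ))
        have h2 : 0 ≤ d ^ 2 * σ * (r ^ a * (δ ^ (m - a) * Real.sqrt (EE V v + τ))) := by
          positivity
        nlinarith
      have hnear : 3 * σ * Real.sqrt (CC V J R (G a).2) ≤
          8000 * d ^ 2 * σ * (r ^ a * (Real.sqrt (CC V J R (G a).2) / r ^ a)) := by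
        have e : r ^ a * (Real.sqrt (CC V J R (G a).2) / r ^ a) =
            Real.sqrt (CC V J R (G a).2) := by field_simp
        rw [e]
        have h1 : 0 ≤ σ * Real.sqrt (CC V J R (G a).2) := by positivity
        nlinarith
      have e2 : 8000 * d ^ 2 * (Real.sqrt (CC V J R (G a).2) / r ^ a +
        ∑ j ∈ Finset.Ico a m, δ ^ (j - a) *
        (Real.sqrt (CC V J R (G j).2) / r ^ j + δ * (Real.sqrt (CC V J R (G (j + 1)).2) /
          r ^ (j + 1) + Real.sqrt (SS V l (G j).2 / l ^ (j + 1) + τ) + τ)) +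
        δ ^ (m - a) * Real.sqrt (EE V v + τ)) * (σ * r ^ a) =
          8000 * d ^ 2 * σ * (r ^ a * (Real.sqrt (CC V J R (G a).2) / r ^ a)) +
          8000 * d ^ 2 * σ * (r ^ a * ∑ j ∈ Finset.Ico a m, δ ^ (j - a) *
        (Real.sqrt (CC V J R (G j).2) / r ^ j + δ * (Real.sqrt (CC V J R (G (j + 1)).2) /
          r ^ (j + 1) + Real.sqrt (SS V l (G j).2 / l ^ (j + 1) + τ) + τ))) +
          8000 * d ^ 2 * σ * (r ^ a * (δ ^ (m - a) * Real.sqrt (EE V v + τ))) := by
        ring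
      rw [e2]
      linarith

end Pool.Agent.Lib.MP_6d896a_gt.UC.UR.UD
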