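import Mathlib
import Pool.Agent.Lib.MP_6d896a_gt.UC.Basic
import Pool.Agent.Lib.MP_6d896a_gt.UD.FamD
import Pool.Agent.Lib.MP_6d896a_gt.UD.IterD
import Pool.Agent.Lib.MP_6d896a_gt.UR.SuperR

/-!
Project UD, piece D12: the gap for balanced functions.
-/

set_option autoImplicit false

namespace Pool.Agent.Lib.MP_6d896a_gt.UC.UR.UD

open MeasureTheory Filter Topology Set
open scoped ENNReal NNReal ContDiff

variable {n : ℕ} {V f g u : Eu n → ℝ} {κ Λ S : ℝ} {J : Finset (Fin n)}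
  {Γ : Eu n ≃ₗᵢ[ℝ] Eu n} {q : ℕ}

theorem gapD (hU : GP V κ Λ S) (hs : Sy J Γ q) (hVi : Inv Γ V) (hJ : J.Nonempty) {c : ℝ}
    (hc : 0 < c) (hP : HP V c) (hcS : 10 ^ 18 * (J.card : ℝ) ^ 7 * S ≤ c) :
    ∃ c', 0 < c' ∧ c' < c ∧ ∀ f : Eu n → ℝ, TT f → Bal Γ q f →
      Ex V (fun x => f x ^ 2) ≤ c' * Df V f f := by
  have hV : Continuous V := hU.cd.continuous
  obtain ⟨β, hβ, hsup⟩ := superR hU (r := c / 2) (by positivity)
  refine ⟨(c / 2 + β * c) / (1 + β), by positivity, ?_, ?_⟩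
  · rw [div_lt_iff₀ (by positivity)]
    nlinarith
  · intro f hf hb
    have h1 := improvedD hU hs hVi hJ hc hP hcS (v0_fam hs hf hb)
    rw [v0_EE hs hV hVi hf, v0_DD hs hV hVi hf] at h1
    have h2 := v0_nv hs hV hVi hf
    have h3 : 0 ≤ Ex V (fun x => |f x|) := Ex_nonneg fun x => abs_nonneg _
    have h4 : (Ex V (fun x => |f x|)) ^ 2 ≤ (Ex V (nv (v0 Γ q f))) ^ 2 :=
      pow_le_pow_left₀ h3 h2 2
    have h5 := hsup f hf
    have h6 : β * (Ex V (fun x => |f x|)) ^ 2 ≤ β * (c * Df V f f - Ex V (fun x => f x ^ 2)) :=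
      mul_le_mul_of_nonneg_left (h4.trans h1) hβ.le
    rw [div_mul_eq_mul_div, le_div_iff₀ (by positivity)]
    nlinarith

end Pool.Agent.Lib.MP_6d896a_gt.UC.UR.UD
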