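import Mathlib
import Pool.Agent.Lib.MP_6d896a_gt.UD.Defs
import Pool.Agent.Lib.MP_6d896a_gt.UC.Basic
import Pool.Agent.Lib.MP_6d896a_gt.Sym16

/-!
Project UD, piece D16: the affine invariant Poincare inequality for log-concave measures with
many isometries of finite order, deduced from the Poincare inequality for measures with covariance
at most one.
-/

set_option autoImplicit false

namespace Pool.Agent.Lib.MP_6d896a_gt.UC.UR.UD

open MeasureTheory Filter Topology Set ProbabilityTheory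
open scoped ENNReal NNReal ContDiff

variable {n : ℕ}

/-- spectral functions of a symmetric operator with eigenbasis `b` -/
private noncomputable def sf (b : OrthonormalBasis (Fin n) ℝ (Eu n)) (s : Fin n → ℝ) :
    Eu n →L[ℝ] Eu n :=
  LinearMap.toContinuousLinearMap
    { toFun := fun x => ∑ k, (s k * inner ℝ (b k) x) • b k
      map_add' := fun x y => by
        rw [← Finset.sum_add_distrib]
        refine Finset.sum_congr rfl fun k _ => ?_
        rw [inner_add_right, mul_add, add_smul]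
      map_smul' := fun c x => by
        simp only [RingHom.id_apply]
        rw [Finset.smul_sum]
        refine Finset.sum_congr rfl fun k _ => ?_
        rw [inner_smul_right, smul_smul]
        congr 1
        ring }

private lemma sf_apply (b : OrthonormalBasis (Fin n) ℝ (Eu n)) (s : Fin n → ℝ) (x : Eu n) :
    sf b s x = ∑ k, (s k * inner ℝ (b k) x) • b k := rfl

private lemma inner_sf (b : OrthonormalBasis (Fin n) ℝ (Eu n)) (s : Fin n → ℝ) (x : Eu n)
    (k : Fin n) : inner ℝ (b k) (sf b s x) = s k * inner ℝ (b k) x := by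
  rw [sf_apply]
  exact b.orthonormal.inner_right_fintype _ k

private lemma sf_symm (b : OrthonormalBasis (Fin n) ℝ (Eu n)) (s : Fin n → ℝ) (x y : Eu n) :
    inner ℝ x (sf b s y) = inner ℝ (sf b s x) y := by
  rw [← b.sum_inner_mul_inner x (sf b s y), ← b.sum_inner_mul_inner (sf b s x) y]
  refine Finset.sum_congr rfl fun k _ => ?_
  rw [inner_sf, real_inner_comm (b k) (sf b s x), inner_sf, real_inner_comm x (b k)]
  ring

private lemma sf_eig (b : OrthonormalBasis (Fin n) ℝ (Eu n)) (s : Fin n → ℝ) {a : Eu n} {t : ℝ}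
    (h : ∀ k, s k * inner ℝ (b k) a = t * inner ℝ (b k) a) : sf b s a = t • a := by
  refine InnerProductSpace.ext_inner_left_basis b.toBasis fun k => ?_
  rw [OrthonormalBasis.coe_toBasis, inner_sf, h k, inner_smul_right]

private lemma sf_comm (b : OrthonormalBasis (Fin n) ℝ (Eu n)) (s q : Fin n → ℝ)
    (Γ : Eu n ≃ₗᵢ[ℝ] Eu n)
    (h : ∀ x k, inner ℝ (b k) (sf b q (Γ x)) = inner ℝ (b k) (Γ (sf b q x)))
    (hs : ∀ j k, q j = q k → s j = s k) (x : Eu n) :
    sf b s (Γ x) = Γ (sf b s x) := by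
  have hz : ∀ j k, q j ≠ q k → inner ℝ (b k) (Γ (b j)) = 0 := by
    intro j k hjk
    have h1 := h (b j) k
    rw [inner_sf] at h1
    have h2 : sf b q (b j) = q j • b j := by
      refine sf_eig b q fun i => ?_
      by_cases hij : i = j
      · subst hij; rfl
      · rw [b.inner_eq_zero hij]; ring
    rw [h2, map_smul, inner_smul_right] at h1
    have h3 : (q k - q j) * inner ℝ (b k) (Γ (b j)) = 0 := by linarith
    rcases mul_eq_zero.mp h3 with h4 | h4
    · exact absurd (by linarith) hjk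
    · exact h4
  refine InnerProductSpace.ext_inner_left_basis b.toBasis fun k => ?_
  rw [OrthonormalBasis.coe_toBasis, inner_sf, sf_apply, map_sum, inner_sum]
  have h1 : Γ x = ∑ j, inner ℝ (b j) x • Γ (b j) := by
    conv_lhs => rw [← b.sum_repr' x]
    rw [map_sum]
    simp only [map_smul]
  rw [h1, inner_sum, Finset.mul_sum]
  refine Finset.sum_congr rfl fun j _ => ?_
  rw [map_smul, inner_smul_right, inner_smul_right]
  by_cases hjk : q j = q k
  · rw [hs j k hjk]; ring
  · rw [hz j k hjk]; ring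

private lemma opnorm_sq_basis (b : OrthonormalBasis (Fin n) ℝ (Eu n)) (M : Eu n →L[ℝ] ℝ) :
    ‖M‖ ^ 2 = ∑ k, M (b k) ^ 2 := by
  set m : Eu n := (InnerProductSpace.toDual ℝ (Eu n)).symm M with hm
  have h1 : ∀ x, M x = inner ℝ m x := fun x => by
    rw [hm, InnerProductSpace.toDual_symm_apply]
  have h2 : ‖M‖ = ‖m‖ := by
    rw [hm, LinearIsometryEquiv.norm_map]
  rw [h2, ← b.sum_sq_norm_inner_right m]
  refine Finset.sum_congr rfl fun k _ => ?_
  rw [h1, real_inner_comm, Real.norm_eq_abs, sq_abs]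

private lemma memLp_id {ν : Measure (Eu n)} [IsProbabilityMeasure ν] (hpl : FP.PLm ν) :
    MemLp id 2 ν := by
  rw [← memLp_norm_iff (by fun_prop)]
  rw [memLp_two_iff_integrable_sq (by fun_prop)]
  exact norm_sq_int hpl

private lemma mean_zero {ν : Measure (Eu n)} [IsProbabilityMeasure ν] (hpl : FP.PLm ν)
    (A : Finset (Eu n ≃ₗᵢ[ℝ] Eu n)) (hA : ∀ γ ∈ A, ν.map γ = ν)
    (hspan : ⨆ γ ∈ A, Rg γ = ⊤) (w : Eu n) :
    ∫ z, inner ℝ w z ∂ν = 0 := by
  have hid : Integrable (fun z : Eu n => z) ν := (memLp_id hpl).integrable one_le_two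
  have h1 : ∀ w : Eu n, ∫ z, inner ℝ w z ∂ν = inner ℝ w (∫ z, z ∂ν) := fun w =>
    integral_inner hid w
  have h2 : ∀ γ ∈ A, γ (∫ z, z ∂ν) = ∫ z, z ∂ν := by
    intro γ hγ
    have h3 : ∫ z, z ∂ν = ∫ z, γ z ∂ν := by
      conv_lhs => rw [← hA γ hγ]
      rw [integral_map γ.continuous.measurable.aemeasurable (by fun_prop)]
    have h4 : ∫ z, γ z ∂ν = γ (∫ z, z ∂ν) :=
      (γ : Eu n ≃L[ℝ] Eu n).toContinuousLinearMap.integral_comp_comm hid
    rw [← h4, ← h3]
  have h4 : (∫ z, z ∂ν) = 0 := by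
    have h5 : (∫ z, z ∂ν) ∈ (⨆ γ ∈ A, Rg γ)ᗮ := by
      rw [Submodule.mem_orthogonal]
      intro u hu
      have h6 : (⨆ γ ∈ A, Rg γ) ≤ (Submodule.span ℝ {∫ z, z ∂ν})ᗮ := by
        refine iSup₂_le fun γ hγ => ?_
        rintro y ⟨x, rfl⟩
        rw [Submodule.mem_orthogonal_singleton_iff_inner_left]
        show inner ℝ (γ x - x) (∫ z, z ∂ν) = 0
        rw [inner_sub_left]
        nth_rewrite 1 [← h2 γ hγ]
        rw [γ.inner_map_map, sub_self]
      have h7 := h6 hu
      rwa [Submodule.mem_orthogonal_singleton_iff_inner_left] at h7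
    rw [hspan, Submodule.top_orthogonal_eq_bot, Submodule.mem_bot] at h5
    exact h5
  rw [h1, h4, inner_zero_right]

private lemma cov_comm {ν : Measure (Eu n)} [IsProbabilityMeasure ν] (hpl : FP.PLm ν)
    {γ : Eu n ≃ₗᵢ[ℝ] Eu n} (ha : ν.map γ = ν) (x : Eu n) :
    covarianceOperator ν (γ x) = γ (covarianceOperator ν x) := by
  refine ext_inner_right ℝ fun y => ?_
  obtain ⟨y, rfl⟩ := γ.surjective y
  rw [γ.inner_map_map, covarianceOperator_inner (memLp_id hpl),
    covarianceOperator_inner (memLp_id hpl)]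
  conv_lhs => rw [← ha]
  rw [integral_map γ.continuous.measurable.aemeasurable (by fun_prop)]
  congr 1
  funext z
  rw [γ.inner_map_map, γ.inner_map_map]

theorem iso_ap_of {K : ℝ} (hK : 0 ≤ K) {d : ℕ}
    (hCL : ∀ (ν : Measure (Eu n)) [IsProbabilityMeasure ν], FP.PLm ν →
      ∀ A : Finset (Eu n ≃ₗᵢ[ℝ] Eu n), (∀ γ ∈ A, Sd d γ ∧ ν.map γ = ν) →
      ⨆ γ ∈ A, Rg γ = ⊤ → Integrable (fun x => ‖x‖ ^ 2) ν →
      (∀ w : Eu n, ∫ y, inner ℝ y w ^ 2 ∂ν ≤ 1 * ‖w‖ ^ 2) → ∀ {f : Eu n → ℝ} {b l L : ℝ},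
      CL f b l L → ∫ x, f x ^ 2 ∂ν - (∫ x, f x ∂ν) ^ 2 ≤ K * ∫ x, ‖fderiv ℝ f x‖ ^ 2 ∂ν)
    (ν : Measure (Eu n)) [IsProbabilityMeasure ν] (hpl : FP.PLm ν)
    (A : Finset (Eu n ≃ₗᵢ[ℝ] Eu n)) (hA : ∀ γ ∈ A, Sd d γ ∧ ν.map γ = ν)
    (hspan : ⨆ γ ∈ A, Rg γ = ⊤) : FP.AP ν K := by
  rintro f hf ⟨l, hl⟩
  have hid := memLp_id hpl
  -- the covariance operator and its spectral decomposition
  set Q : Eu n →L[ℝ] Eu n := covarianceOperator ν with hQ
  have hQi : ∀ x y : Eu n, inner ℝ (Q x) y = ∫ z, inner ℝ x z * inner ℝ y z ∂ν := fun x y =>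
    covarianceOperator_inner hid x y
  have hQs : Q.toLinearMap.IsSymmetric := (isPositive_covarianceOperator (μ := ν)).isSymmetric
  have hn : Module.finrank ℝ (Eu n) = n := by simp
  set b : OrthonormalBasis (Fin n) ℝ (Eu n) := hQs.eigenvectorBasis hn with hb
  set q : Fin n → ℝ := hQs.eigenvalues hn with hq
  have hQb : ∀ k, Q (b k) = q k • b k := fun k => hQs.apply_eigenvectorBasis hn k
  have hQx : ∀ (x : Eu n) (k : Fin n), inner ℝ (b k) (Q x) = q k * inner ℝ (b k) x := by
    intro x k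
    have h1 := hQs (b k) x
    simp only [ContinuousLinearMap.coe_coe] at h1
    rw [← h1, hQb, real_inner_smul_left]
  have hq2 : ∀ k, q k = ∫ z, inner ℝ (b k) z ^ 2 ∂ν := by
    intro k
    have h1 := hQi (b k) (b k)
    rw [hQb, real_inner_smul_left, real_inner_self_eq_norm_sq, b.norm_eq_one, one_pow,
      mul_one] at h1
    rw [h1]
    congr 1
    funext z
    ring
  have hq0 : ∀ k, 0 ≤ q k := fun k => by
    rw [hq2 k]
    exact integral_nonneg fun z => sq_nonneg _
  have hqf : ∀ m : Eu n, ∫ z, inner ℝ m z ^ 2 ∂ν = ∑ k, q k * inner ℝ (b k) m ^ 2 := by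
    intro m
    have h1 := hQi m m
    have h2 : ∫ z, inner ℝ m z ^ 2 ∂ν = ∫ z, inner ℝ m z * inner ℝ m z ∂ν := by
      congr 1
      funext z
      ring
    rw [h2, ← h1, ← b.sum_inner_mul_inner]
    refine Finset.sum_congr rfl fun k _ => ?_
    rw [real_inner_comm, hQx]
    ring
  -- scales
  set σ : Fin n → ℝ := fun k => Real.sqrt (q k) with hσ
  have hσ2 : ∀ k, σ k ^ 2 = q k := fun k => Real.sq_sqrt (hq0 k)
  set T : Eu n →L[ℝ] Eu n := sf b (fun k => (σ k)⁻¹) with hT
  set B : Eu n →L[ℝ] Eu n := sf b σ with hB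
  have hBT : ∀ᵐ x ∂ν, B (T x) = x := by
    have h1 : ∀ k : Fin n, ∀ᵐ x ∂ν, σ k * ((σ k)⁻¹ * inner ℝ (b k) x) = inner ℝ (b k) x := by
      intro k
      by_cases h0 : σ k = 0
      · have h2 : ∫ z, inner ℝ (b k) z ^ 2 ∂ν = 0 := by
          rw [← hq2 k, ← hσ2 k, h0]
          ring
        have hint : Integrable (fun z : Eu n => inner ℝ (b k) z ^ 2) ν :=
          (hid.const_inner (b k)).integrable_sq
        have h3 := (integral_eq_zero_iff_of_nonneg
          (fun x : Eu n => sq_nonneg (inner ℝ (b k) x)) hint).mp h2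
        filter_upwards [h3] with x hx
        have hx' : inner ℝ (b k) x = 0 := by
          have : inner ℝ (b k) x ^ 2 = 0 := hx
          exact pow_eq_zero_iff (two_ne_zero) |>.mp this
        rw [hx', mul_zero, mul_zero]
      · refine ae_of_all _ fun x => ?_
        rw [← mul_assoc, mul_inv_cancel₀ h0, one_mul]
    rw [← ae_all_iff] at h1
    filter_upwards [h1] with x hx
    refine InnerProductSpace.ext_inner_left_basis b.toBasis fun k => ?_
    rw [OrthonormalBasis.coe_toBasis, hB, inner_sf, hT, inner_sf]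
    exact hx k
  set μ : Measure (Eu n) := ν.map T with hμ
  have hTm : Measurable T := T.continuous.measurable
  have : IsProbabilityMeasure μ := Measure.isProbabilityMeasure_map hTm.aemeasurable
  have hplμ : FP.PLm μ := hpl.map (T : Eu n →ₗ[ℝ] Eu n) hTm
  have hcomm : ∀ γ ∈ A, ∀ x, T (γ x) = γ (T x) := by
    intro γ hγ x
    refine sf_comm b _ q γ (fun y k => ?_) (fun j k hjk => ?_) x
    · have h0 : ∀ y, sf b q y = Q y := by
        intro y
        refine InnerProductSpace.ext_inner_left_basis b.toBasis fun k => ?_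
        rw [OrthonormalBasis.coe_toBasis, inner_sf, hQx]
      rw [h0, h0, hQ, cov_comm hpl (hA γ hγ).2]
    · show (σ j)⁻¹ = (σ k)⁻¹
      rw [hσ]
      simp only [hjk]
  have hsymμ : ∀ γ ∈ A, Sd d γ ∧ μ.map γ = μ := by
    intro γ hγ
    refine ⟨(hA γ hγ).1, ?_⟩
    rw [hμ, Measure.map_map γ.continuous.measurable hTm]
    have h1 : (γ : Eu n → Eu n) ∘ T = T ∘ (γ : Eu n → Eu n) := by
      funext x
      exact (hcomm γ hγ x).symm
    rw [h1, ← Measure.map_map hTm γ.continuous.measurable, (hA γ hγ).2]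
  have hvar : ∀ w : Eu n, ∫ y, inner ℝ y w ^ 2 ∂μ ≤ 1 * ‖w‖ ^ 2 := by
    intro w
    rw [hμ, integral_map hTm.aemeasurable (by fun_prop)]
    have h1 : (fun x : Eu n => inner ℝ (T x) w ^ 2) = fun x => inner ℝ (T w) x ^ 2 := by
      funext x
      rw [hT, ← sf_symm, real_inner_comm]
    rw [h1, hqf, one_mul, ← b.sum_sq_norm_inner_right w]
    refine Finset.sum_le_sum fun k _ => ?_
    rw [hT, inner_sf, Real.norm_eq_abs, sq_abs, mul_pow, ← hσ2 k, ← mul_assoc, ← mul_pow]
    by_cases h0 : σ k = 0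
    · rw [h0]
      simp only [zero_mul, ne_eq, OfNat.ofNat_ne_zero, not_false_eq_true, zero_pow]
      exact sq_nonneg _
    · rw [mul_inv_cancel₀ h0, one_pow, one_mul]
  have h2μ : Integrable (fun x => ‖x‖ ^ 2) μ := norm_sq_int hplμ
  have hext := FP.poinc_ext μ h2μ hK (fun g hg hb hgl hgL => by
    obtain ⟨b, hgb⟩ := hb
    obtain ⟨l, hgl⟩ := hgl
    obtain ⟨L, hgL⟩ := hgL
    have hgm : MemLp g 2 μ := MemLp.of_bound hg.continuous.aestronglyMeasurable b
      (ae_of_all _ fun x => by rw [Real.norm_eq_abs]; exact hgb x)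
    rw [variance_eq_sub hgm]
    have := hCL μ hplμ A hsymμ hspan h2μ hvar (f := g) (b := b) (l := l) (L := L)
      ⟨hg, hgb, hgl, hgL⟩
    simpa using this)
  have hfB : ContDiff ℝ 1 (fun y => f (B y)) := hf.comp B.contDiff
  have hfd : ∀ y, fderiv ℝ (fun y => f (B y)) y = (fderiv ℝ f (B y)).comp B := by
    intro y
    have h1 : HasFDerivAt (fun y => f (B y)) ((fderiv ℝ f (B y)).comp B) y :=
      ((hf.differentiable one_ne_zero) (B y)).hasFDerivAt.comp y B.hasFDerivAt
    exact h1.fderiv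
  have hmain := hext (fun y => f (B y)) hfB ⟨l * ‖B‖, fun y => by
    rw [hfd]
    exact (ContinuousLinearMap.opNorm_comp_le _ _).trans
      (mul_le_mul_of_nonneg_right (hl _) (norm_nonneg _))⟩
  -- left side
  have hleft : Var[fun y => f (B y); μ] = Var[f; ν] := by
    rw [hμ, variance_map hfB.continuous.measurable.aemeasurable hTm.aemeasurable]
    refine variance_congr ?_
    filter_upwards [hBT] with x hx
    show f (B (T x)) = f x
    rw [hx]
  have hvl : ∀ L : Eu n →L[ℝ] ℝ, Var[fun z => L z; ν] = ∑ k, q k * L (b k) ^ 2 := by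
    intro L
    set m : Eu n := (InnerProductSpace.toDual ℝ (Eu n)).symm L with hm
    have h1 : ∀ x, L x = inner ℝ m x := fun x => by
      rw [hm, InnerProductSpace.toDual_symm_apply]
    have h2 : (fun z => L z) = fun z => inner ℝ m z := funext h1
    have hmem : MemLp (fun z : Eu n => inner ℝ m z) 2 ν := hid.const_inner m
    rw [h2, variance_eq_sub hmem]
    have h3 : ∫ z, inner ℝ m z ∂ν = 0 := mean_zero hpl A (fun γ hγ => (hA γ hγ).2) hspan m
    have h4 : ∫ z, ((fun z : Eu n => inner ℝ m z) ^ 2) z ∂ν = ∑ k, q k * inner ℝ (b k) m ^ 2 :=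
      hqf m
    rw [h3, h4]
    simp only [ne_eq, OfNat.ofNat_ne_zero, not_false_eq_true, zero_pow, sub_zero]
    refine Finset.sum_congr rfl fun k _ => ?_
    rw [h1, real_inner_comm]
  have hright : ∫ y, ‖fderiv ℝ (fun y => f (B y)) y‖ ^ 2 ∂μ =
      ∫ x, Var[fun z => fderiv ℝ f x z; ν] ∂ν := by
    have h1 : ∀ y, ‖fderiv ℝ (fun y => f (B y)) y‖ ^ 2 =
        ∑ k, q k * (fderiv ℝ f (B y) (b k)) ^ 2 := by
      intro y
      rw [opnorm_sq_basis b]
      refine Finset.sum_congr rfl fun k _ => ?_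
      have h2 : B (b k) = σ k • b k := by
        rw [hB]
        refine sf_eig b σ fun j => ?_
        by_cases hj : j = k
        · subst hj; rfl
        · rw [b.inner_eq_zero hj]; ring
      rw [hfd, ContinuousLinearMap.comp_apply, h2, map_smul, smul_eq_mul, ← hσ2 k]
      ring
    simp_rw [h1]
    rw [hμ, integral_map hTm.aemeasurable]
    · refine integral_congr_ae ?_
      filter_upwards [hBT] with x hx
      rw [hx, hvl]
    · have hc := hf.continuous_fderiv one_ne_zero
      refine Continuous.aestronglyMeasurable ?_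
      fun_prop
  rw [hleft, hright] at hmain
  exact hmain

end Pool.Agent.Lib.MP_6d896a_gt.UC.UR.UD
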