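import Mathlib
import Pool.Agent.Lib.MP_6d896a_gt.UD.Defs
import Pool.Agent.Lib.MP_6d896a_gt.UR.Defs
import Pool.Agent.Lib.MP_6d896a_gt.UR.RotR
import Pool.Agent.Lib.MP_6d896a_gt.UR.VpGP
import Pool.Agent.Lib.MP_6d896a_gt.UR.ExtR
import Pool.Agent.Lib.MP_6d896a_gt.Sym14
import Pool.Agent.Lib.MP_6d896a_gt.Ex8

/-!
Project UD, piece D15: the Poincare inequality for log-concave probability measures invariant under
isometries of finite order which move at most `d` dimensions each and all directions together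
(smooth functions).  Adapted from `UR/ReflCL.lean`.
-/

set_option autoImplicit false

namespace Pool.Agent.Lib.MP_6d896a_gt.UC.UR.UD

open MeasureTheory ProbabilityTheory Filter Topology Metric
open scoped ENNReal NNReal

variable {n : ℕ}

private lemma iso_restrict_ball {ν : Measure (Eu n)} {O : Eu n ≃ₗᵢ[ℝ] Eu n} (hν : ν.map O = ν)
    (r : ℝ) : (ν.restrict (closedBall 0 r)).map O = ν.restrict (closedBall 0 r) := by
  have hc : Measurable (O : Eu n → Eu n) := O.continuous.measurable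
  have hpre : O ⁻¹' (closedBall 0 r) = closedBall (0 : Eu n) r := by
    ext x
    simp only [Set.mem_preimage, mem_closedBall_zero_iff]
    rw [LinearIsometryEquiv.norm_map]
  have h1 := Measure.restrict_map (μ := ν) hc (s := closedBall 0 r)
    (isClosed_closedBall.measurableSet)
  rw [hν, hpre] at h1
  exact h1.symm

/-- the mean vanishes by symmetry -/
private lemma mean_zero {V : Eu n → ℝ} (hV : Continuous V)
    (hint : Integrable (fun x => ‖x‖) (tgt V)) (A : Finset (Eu n ≃ₗᵢ[ℝ] Eu n))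
    (hA : ∀ γ ∈ A, ∀ x, V (γ x) = V x) (hspan : ⨆ γ ∈ A, Rg γ = ⊤)
    (w : Eu n) : ∫ y, inner ℝ y w ∂(tgt V) = 0 := by
  have hi : ∀ w : Eu n, Integrable (fun y : Eu n => inner ℝ y w) (tgt V) := by
    intro w
    refine (hint.mul_const ‖w‖).mono' (Continuous.aestronglyMeasurable (by fun_prop))
      (ae_of_all _ fun y => ?_)
    exact norm_inner_le_norm y w
  let K : Submodule ℝ (Eu n) :=
    { carrier := {w | ∫ y, inner ℝ y w ∂(tgt V) = 0}
      add_mem' := by
        intro x y hx hy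
        simp only [Set.mem_ofPred_eq] at hx hy ⊢
        simp only [inner_add_right]
        rw [integral_add (hi x) (hi y), hx, hy, add_zero]
      zero_mem' := by simp
      smul_mem' := by
        intro t x hx
        simp only [Set.mem_ofPred_eq] at hx ⊢
        simp only [inner_smul_right]
        rw [integral_const_mul, hx, mul_zero] }
  have hK : ⨆ γ ∈ A, Rg γ ≤ K := by
    refine iSup₂_le fun γ hγ => ?_
    rintro w ⟨z, rfl⟩
    show ∫ y, inner ℝ y (γ z - z) ∂(tgt V) = 0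
    have h1 := EX.tgt_iso hV (R := γ) (hA γ hγ) (fun y => inner ℝ y (γ z))
    have h2 : ∀ y : Eu n, inner ℝ (γ y) (γ z) = inner ℝ y z := fun y => γ.inner_map_map y z
    simp only [h2] at h1
    simp only [inner_sub_right]
    rw [integral_sub (hi _) (hi _), ← h1, sub_self]
  have hmem : w ∈ K := hK (by rw [hspan]; trivial)
  exact hmem

/-- the statement of the main theorem in dimension `n` -/
def MainS (n : ℕ) : Prop :=
  ∀ {V : Eu n → ℝ} {κ Λ S : ℝ}, GP V κ Λ S → ∀ {c0 : ℝ}, 0 < c0 → HP V c0 → ∀ {d : ℕ}, 0 < d →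
    ∀ A : Finset (Eu n ≃ₗᵢ[ℝ] Eu n), (∀ γ ∈ A, Sd d γ ∧ Inv γ V) → ⨆ γ ∈ A, Rg γ = ⊤ →
      HP V (10 ^ 18 * (d : ℝ) ^ 7 * S)

theorem iso_poincare_CL_of (main : MainS n) (ν : Measure (Eu n)) [IsProbabilityMeasure ν]
    (hpl : FP.PLm ν) {d : ℕ} (hd : 0 < d) (A : Finset (Eu n ≃ₗᵢ[ℝ] Eu n))
    (hA : ∀ γ ∈ A, Sd d γ ∧ ν.map γ = ν) (hspan : ⨆ γ ∈ A, Rg γ = ⊤)
    (h2 : Integrable (fun x => ‖x‖ ^ 2) ν) {S : ℝ} (hS : 0 < S)
    (hvar : ∀ w : Eu n, ∫ y, inner ℝ y w ^ 2 ∂ν ≤ S * ‖w‖ ^ 2)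
    {f : Eu n → ℝ} {b l L : ℝ} (hf : CL f b l L) :
    ∫ x, f x ^ 2 ∂ν - (∫ x, f x ∂ν) ^ 2 ≤
      (10 ^ 18 * (d : ℝ) ^ 7 * S) * ∫ x, ‖fderiv ℝ f x‖ ^ 2 ∂ν := by
  set t : ℕ → ℝ := fun k => 1 / ((k : ℝ) + 1) with ht
  have ht0 : ∀ k, 0 < t k := fun k => by rw [ht]; positivity
  have htlim : Tendsto t atTop (𝓝 0) := tendsto_one_div_add_atTop_nhds_zero_nat
  set m : ℕ → Measure (Eu n) := fun k => ν.restrict (closedBall 0 (k : ℝ))
    with hm
  set g2 : ℝ := ∫ z, ‖z‖ ^ 2 ∂(stdGaussian (Eu n)) with hg2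
  have hg20 : 0 ≤ g2 := integral_nonneg fun z => by positivity
  have hgi := gauss_pow (n := n) 2
  set J : ℕ → (Eu n → ℝ) → ℝ := fun k F =>
    ∫ x, F x * Real.exp (-(t k) * ‖x‖ ^ 2) ∂(FP.cv (m k) (t k)) with hJ
  -- limits
  have hlimJ : ∀ (F : Eu n → ℝ), Continuous F → ∀ B, (∀ x, |F x| ≤ B) →
      Tendsto (fun k => J k F) atTop (𝓝 (∫ x, F x ∂ν)) := by
    intro F hF B hB
    apply FP.cv_tendsto ν (C := B) (H := fun k x => F x * Real.exp (-(t k) * ‖x‖ ^ 2))
    · intro k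
      exact (hF.mul (by fun_prop)).measurable
    · intro k x
      rw [abs_mul, abs_of_pos (Real.exp_pos _)]
      have h1 : Real.exp (-(t k) * ‖x‖ ^ 2) ≤ 1 := by
        apply Real.exp_le_one_iff.mpr
        have := mul_nonneg (ht0 k).le (sq_nonneg ‖x‖)
        linarith
      calc |F x| * Real.exp (-(t k) * ‖x‖ ^ 2) ≤ |F x| * 1 :=
            mul_le_mul_of_nonneg_left h1 (abs_nonneg _)
        _ ≤ B := by rw [mul_one]; exact hB x
    · intro p
      have l1 : Tendsto (fun k => p.1 + t k • p.2) atTop (𝓝 (p.1 + (0 : ℝ) • p.2)) :=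
        (htlim.smul_const p.2).const_add p.1
      rw [zero_smul, add_zero] at l1
      have l2 : Tendsto (fun k => F (p.1 + t k • p.2)) atTop (𝓝 (F p.1)) :=
        (hF.tendsto p.1).comp l1
      have l3 : Tendsto (fun k => Real.exp (-(t k) * ‖p.1 + t k • p.2‖ ^ 2)) atTop
          (𝓝 (Real.exp (-0 * ‖p.1‖ ^ 2))) :=
        (Real.continuous_exp.tendsto _).comp ((htlim.neg).mul ((l1.norm).pow 2))
      have l4 := l2.mul l3
      simpa using l4
  have hJ1 : Tendsto (fun k => J k (fun _ => 1)) atTop (𝓝 1) := by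
    have := hlimJ (fun _ => 1) continuous_const 1 (by simp)
    simpa using this
  have hfc := hf.cd.continuous
  have hJf : Tendsto (fun k => J k f) atTop (𝓝 (∫ x, f x ∂ν)) := hlimJ f hfc b hf.bd
  have hJf2 : Tendsto (fun k => J k (fun x => f x ^ 2)) atTop (𝓝 (∫ x, f x ^ 2 ∂ν)) :=
    hlimJ _ (hfc.pow 2) (b ^ 2) (fun x => by
      rw [abs_pow]; exact pow_le_pow_left₀ (abs_nonneg _) (hf.bd x) 2)
  have hJd : Tendsto (fun k => J k (fun x => ‖fderiv ℝ f x‖ ^ 2)) atTop
      (𝓝 (∫ x, ‖fderiv ℝ f x‖ ^ 2 ∂ν)) :=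
    hlimJ _ (hf.fdc.norm.pow 2) (l ^ 2) (fun x => by
      rw [abs_of_nonneg (by positivity)]
      exact pow_le_pow_left₀ (norm_nonneg _) (hf.gd x) 2)
  -- second moments
  set Bk : ℕ → ℝ := fun k => (1 + t k) * S + (t k ^ 2 + t k) * g2 with hBk
  have hBlim : Tendsto Bk atTop (𝓝 S) := by
    have : Tendsto Bk atTop (𝓝 ((1 + 0) * S + (0 ^ 2 + 0) * g2)) :=
      ((htlim.const_add 1).mul_const S).add (((htlim.pow 2).add htlim).mul_const g2)
    simpa using this
  have hxw : ∀ (x w : Eu n), inner ℝ x w ^ 2 ≤ ‖w‖ ^ 2 * ‖x‖ ^ 2 := by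
    intro x w
    have h1 := norm_inner_le_norm (𝕜 := ℝ) x w
    rw [← sq_abs, ← mul_pow, mul_comm]
    exact pow_le_pow_left₀ (abs_nonneg _) h1 2
  have hmom : ∀ k (w : Eu n), J k (fun y => inner ℝ y w ^ 2) ≤ Bk k * ‖w‖ ^ 2 := by
    intro k w
    have htk := ht0 k
    have hSm : Measurable (fun p : Eu n × Eu n =>
      p.1 + t k • p.2) := by fun_prop
    have hFc : Continuous (fun y : Eu n =>
      inner ℝ y w ^ 2 * Real.exp (-(t k) * ‖y‖ ^ 2)) := by fun_prop
    have e1 : J k (fun y => inner ℝ y w ^ 2) = ∫ p, (inner ℝ (p.1 + t k • p.2) w ^ 2 *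
        Real.exp (-(t k) * ‖p.1 + t k • p.2‖ ^ 2))
        ∂((m k).prod (stdGaussian (Eu n))) := by
      rw [hJ]
      simp only []
      unfold FP.cv
      rw [integral_map hSm.aemeasurable hFc.aestronglyMeasurable]
    rw [e1]
    have hj3 : Integrable (fun y : Eu n => inner ℝ y w ^ 2) ν := by
      refine (h2.const_mul (‖w‖ ^ 2)).mono' (by fun_prop) (ae_of_all _ fun y => ?_)
      rw [Real.norm_eq_abs, abs_of_nonneg (sq_nonneg _)]
      exact hxw y w
    have hj2 : Integrable (fun y : Eu n => inner ℝ y w ^ 2) (m k) :=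
      hj3.restrict (s := closedBall 0 (k : ℝ))
    have i1 : Integrable (fun p : Eu n × Eu n =>
        (1 + t k) * inner ℝ p.1 w ^ 2) ((m k).prod (stdGaussian (Eu n))) :=
      (hj2.comp_fst _).const_mul _
    have i2 : Integrable (fun p : Eu n × Eu n =>
        ((t k ^ 2 + t k) * ‖w‖ ^ 2) * ‖p.2‖ ^ 2) ((m k).prod (stdGaussian (Eu n))) :=
      (hgi.comp_snd _).const_mul _
    have hpt : ∀ p : Eu n × Eu n,
        0 ≤ inner ℝ (p.1 + t k • p.2) w ^ 2 * Real.exp (-(t k) * ‖p.1 + t k • p.2‖ ^ 2) ∧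
        inner ℝ (p.1 + t k • p.2) w ^ 2 * Real.exp (-(t k) * ‖p.1 + t k • p.2‖ ^ 2) ≤
        (1 + t k) * inner ℝ p.1 w ^ 2 + ((t k ^ 2 + t k) * ‖w‖ ^ 2) * ‖p.2‖ ^ 2 := by
      intro p
      refine ⟨by positivity, ?_⟩
      have h3 : Real.exp (-(t k) * ‖p.1 + t k • p.2‖ ^ 2) ≤ 1 := by
        apply Real.exp_le_one_iff.mpr
        have := mul_nonneg htk.le (sq_nonneg ‖p.1 + t k • p.2‖)
        linarith
      have h4 : inner ℝ (p.1 + t k • p.2) w ^ 2 ≤
          (1 + t k) * inner ℝ p.1 w ^ 2 + (t k ^ 2 + t k) * inner ℝ p.2 w ^ 2 := by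
        rw [inner_add_left, real_inner_smul_left]
        nlinarith [mul_nonneg htk.le (sq_nonneg (inner ℝ p.1 w - inner ℝ p.2 w))]
      have h5 := hxw p.2 w
      have h6 : (t k ^ 2 + t k) * inner ℝ p.2 w ^ 2 ≤ (t k ^ 2 + t k) * (‖w‖ ^ 2 * ‖p.2‖ ^ 2) :=
        mul_le_mul_of_nonneg_left h5 (by positivity)
      calc _ ≤ inner ℝ (p.1 + t k • p.2) w ^ 2 * 1 := mul_le_mul_of_nonneg_left h3 (sq_nonneg _)
        _ ≤ _ := by linarith
    have h3 : ∫ p, (inner ℝ (p.1 + t k • p.2) w ^ 2 *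
        Real.exp (-(t k) * ‖p.1 + t k • p.2‖ ^ 2))
        ∂((m k).prod (stdGaussian (Eu n))) ≤
        ∫ p, ((1 + t k) * inner ℝ p.1 w ^ 2 + ((t k ^ 2 + t k) * ‖w‖ ^ 2) * ‖p.2‖ ^ 2)
        ∂((m k).prod (stdGaussian (Eu n))) := by
      apply integral_mono_of_nonneg (ae_of_all _ fun p => (hpt p).1) (i1.add i2)
      exact ae_of_all _ fun p => (hpt p).2
    refine h3.trans ?_
    rw [integral_add i1 i2, integral_const_mul, integral_const_mul,
      integral_fun_fst (f := fun y : Eu n => inner ℝ y w ^ 2),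
      integral_fun_snd (f := fun y : Eu n => ‖y‖ ^ 2)]
    have h4 : ∫ y, inner ℝ y w ^ 2 ∂(m k) ≤ S * ‖w‖ ^ 2 := by
      refine le_trans ?_ (hvar w)
      exact setIntegral_le_integral hj3 (ae_of_all _ fun y => sq_nonneg _)
    have h5 : (m k).real Set.univ ≤ 1 := by
      rw [hm, measureReal_restrict_apply MeasurableSet.univ]
      exact measureReal_le_one
    rw [probReal_univ, one_smul, smul_eq_mul]
    have h6 := mul_le_mul_of_nonneg_left h4 (by positivity : 0 ≤ 1 + t k)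
    have h7 : (m k).real Set.univ * g2 ≤ g2 := mul_le_of_le_one_left hg20 h5
    have h8 := mul_le_mul_of_nonneg_left h7 (by positivity : 0 ≤ (t k ^ 2 + t k) * ‖w‖ ^ 2)
    rw [hBk]
    refine (add_le_add h6 h8).trans (le_of_eq ?_)
    ring
  -- the inequality for each `k`
  have hev : ∀ᶠ k in atTop, J k (fun x => f x ^ 2) / J k (fun _ => 1) -
      (J k f / J k (fun _ => 1)) ^ 2 ≤
      (10 ^ 18 * (d : ℝ) ^ 7 * (Bk k / J k (fun _ => 1))) *
        (J k (fun x => ‖fderiv ℝ f x‖ ^ 2) / J k (fun _ => 1)) := by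
    filter_upwards [hJ1.eventually (lt_mem_nhds (by norm_num : (1 / 2 : ℝ) < 1))] with k hk
    have htk := ht0 k
    have hJpos : 0 < J k (fun _ => 1) := by linarith
    have hmk : m k ≠ 0 := by
      intro h0
      have : J k (fun _ => 1) = 0 := by
        rw [hJ]
        simp only []
        rw [h0]
        unfold FP.cv
        simp
      linarith
    have : IsFiniteMeasure (m k) := by rw [hm]; infer_instance
    have hR : ∀ᵐ z ∂(m k), ‖z‖ ≤ (k : ℝ) := by
      rw [hm]
      filter_upwards [ae_restrict_mem (isClosed_closedBall (x := (0 : Eu n))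
        (ε := (k : ℝ))).measurableSet] with z hz
      rwa [mem_closedBall_zero_iff] at hz
    have hdt : 1 / (2 * t k ^ 2) = 1 / (2 * t k ^ 2) := rfl
    set dd := 1 / (2 * t k ^ 2) with hdd
    have hd0 : 0 < dd := by positivity
    have hplk : FP.PLm (m k) := hpl.restrict_ball k
    have hsymk : ∀ a ∈ A, (m k).map a = m k := fun a ha => iso_restrict_ball (hA a ha).2 k
    have hpot := FP.Vp_pot hd0 hmk (Nat.cast_nonneg k) hR hplk htk
      (0 : Eu n)
    set V := FP.Vp (m k) dd (t k) 0 with hV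
    have hVA : ∀ a ∈ A, ∀ x, V (a x) = V x := fun a ha x =>
      Vp_iso a (hsymk a ha) hd0 hmk hR htk x
    set c := (gZ (Eu n) (t k))⁻¹ with hc
    have hc0 : 0 < c := inv_pos.mpr (gZ_pos htk)
    have hint : ∀ F : Eu n → ℝ, ∫ x, F x ∂(tgt V) = c * J k F := by
      intro F
      rw [integral_tgt hpot.cV, hJ]
      simp only []
      rw [FP.cv_integral htk hdt, ← integral_const_mul]
      congr 1
      funext x
      rw [hV, FP.exp_neg_Vp hd0 hmk hR htk 0 x, sub_zero]
      unfold gk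
      ring
    have hmass : (tgt V).real Set.univ = c * J k (fun _ => 1) := by
      have h1 : (tgt V).real Set.univ = ∫ _y, (1 : ℝ) ∂(tgt V) := by simp
      rw [h1, hint]
    have hmpos : 0 < (tgt V).real Set.univ := by rw [hmass]; positivity
    have hSk : 0 < Bk k / J k (fun _ => 1) := by
      apply div_pos _ hJpos
      rw [hBk]
      positivity
    have hGP := Vp_GP hd0 hmk hR htk hplk (Nat.cast_nonneg k) hSk
      (fun w => mean_zero hpot.cV (tgt_moment hpot) A hVA hspan w)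
      (fun w => by
        rw [hint, hmass]
        have h1 := hmom k w
        have h2 : Bk k / J k (fun _ => 1) * ‖w‖ ^ 2 * (c * J k (fun _ => 1)) =
            c * (Bk k * ‖w‖ ^ 2) := by
          field_simp
        rw [h2]
        exact mul_le_mul_of_nonneg_left h1 hc0.le)
    obtain ⟨c0, hc00, hHP0⟩ := Vp_apriori hd0 hmk hR htk hplk (Nat.cast_nonneg k)
    have hHP := main hGP hc00 hHP0 hd A
      (fun a ha => ⟨(hA a ha).1, fun x => by
        show V (a x) + _ = V x + _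
        rw [hVA a ha x]⟩) hspan
    have hdr : (0 : ℝ) < (d : ℝ) := by exact_mod_cast hd
    have key := hp_ext hGP (by positivity) hHP hf
    have hcV' : Continuous (fun x => V x + Real.log ((tgt V).real Set.univ)) :=
      hpot.cV.add continuous_const
    have hint' : ∀ F : Eu n → ℝ,
        ∫ x, F x ∂(tgt (fun x => V x + Real.log ((tgt V).real Set.univ))) =
          J k F / J k (fun _ => 1) := by
      intro F
      rw [integral_tgt hcV']
      have e1 : ∀ x, F x * Real.exp (-(V x + Real.log ((tgt V).real Set.univ))) =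
          ((tgt V).real Set.univ)⁻¹ * (F x * Real.exp (-V x)) := by
        intro x
        rw [neg_add, Real.exp_add, Real.exp_neg (Real.log _), Real.exp_log hmpos]
        ring
      simp only [e1]
      rw [integral_const_mul, ← integral_tgt hpot.cV, hint, hmass]
      field_simp
    rw [hint', hint', hint'] at key
    exact key
  -- limit
  have hl1 := (hJf2.div hJ1 one_ne_zero).sub ((hJf.div hJ1 one_ne_zero).pow 2)
  have hl2 := ((hBlim.div hJ1 one_ne_zero).const_mul (10 ^ 18 * (d : ℝ) ^ 7)).mul (hJd.div hJ1 one_ne_zero)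
  have := le_of_tendsto_of_tendsto hl1 hl2 hev
  simpa using this

end Pool.Agent.Lib.MP_6d896a_gt.UC.UR.UD
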