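import Mathlib
import Pool.Agent.Lib.MP_6d896a_gt.UD.Defs
import Pool.Agent.Lib.MP_6d896a_gt.FP.Codim
import Pool.Agent.Lib.MP_6d896a_gt.FP.Image

/-!
Project UD, piece D17: from log-concave measures invariant under isometries whose ranges span the
space to measures invariant under some isometries, and to their linear images.
-/

set_option autoImplicit false

namespace Pool.Agent.Lib.MP_6d896a_gt.UC.UR.UD

open MeasureTheory ProbabilityTheory Set Filter
open scoped ENNReal Topology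

/-- an isometry fixes the orthogonal complement of its range of displacements -/
private lemma isof_fix {N : ℕ} (γ : Eu N ≃ₗᵢ[ℝ] Eu N) {u : Eu N} (hu : u ∈ (Rg γ)ᗮ) :
    γ u = u := by
  have h1 : inner ℝ (γ u - u) u = 0 := by
    have hmem : γ u - u ∈ Rg γ := ⟨u, rfl⟩
    exact (Submodule.mem_orthogonal _ u).1 hu _ hmem
  have h2 : ‖γ u - u‖ ^ 2 = 0 := by
    rw [← real_inner_self_eq_norm_sq, inner_sub_right, h1, inner_sub_left]
    rw [inner_sub_left] at h1
    have h3 : inner ℝ (γ u) (γ u) = inner ℝ u u := γ.inner_map_map u u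
    have h4 : inner ℝ u (γ u) = inner ℝ (γ u) u := real_inner_comm _ _
    rw [h3, h4]
    linarith
  have h3 : γ u - u = 0 := by
    rw [← norm_eq_zero]
    exact pow_eq_zero_iff (two_ne_zero) |>.1 h2
  exact sub_eq_zero.1 h3

/-- restriction of isometries to the space they move together -/
theorem isof_restrict {N d : ℕ} (A : Set (Eu N ≃ₗᵢ[ℝ] Eu N)) (hA : ∀ γ ∈ A, Sd d γ) (W : Submodule ℝ (Eu N)) (hW : W = ⨆ γ ∈ A, Rg γ) :
    ∃ (L : Eu (Module.finrank ℝ W) →ₗᵢ[ℝ] Eu N) (P : Eu N →L[ℝ] Eu (Module.finrank ℝ W)),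
      (∀ x, P (L x) = x) ∧ (∀ x y, inner ℝ (P x) y = inner ℝ x (L y)) ∧
      LinearMap.range L.toLinearMap = W ∧
      ∃ B : Finset (Eu (Module.finrank ℝ W) ≃ₗᵢ[ℝ] Eu (Module.finrank ℝ W)),
        ⨆ γ ∈ B, Rg γ = ⊤ ∧ ∀ γ' ∈ B, Sd d γ' ∧ ∃ γ ∈ A, ∀ x, P (γ x) = γ' (P x) := by
  classical
  set J : Eu (Module.finrank ℝ W) ≃ₗᵢ[ℝ] W := (stdOrthonormalBasis ℝ W).repr.symm with hJ
  set L : Eu (Module.finrank ℝ W) →ₗᵢ[ℝ] Eu N := W.subtypeₗᵢ.comp J.toLinearIsometry with hL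
  set P : Eu N →L[ℝ] Eu (Module.finrank ℝ W) :=
    (J.symm.toContinuousLinearEquiv : W →L[ℝ] Eu (Module.finrank ℝ W)).comp
      W.orthogonalProjectionOnto with hP
  have hLJ : ∀ x, L x = (J x : Eu N) := fun x => rfl
  have hPJ : ∀ x, P x = J.symm (W.orthogonalProjectionOnto x) := fun x => rfl
  have hLP : ∀ x, L (P x) = (W.orthogonalProjectionOnto x : Eu N) := by
    intro x
    rw [hLJ, hPJ, J.apply_symm_apply]
  have hPL : ∀ x, P (L x) = x := by
    intro x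
    rw [hPJ, hLJ, Submodule.orthogonalProjectionOnto_mem_subspace_eq_self, J.symm_apply_apply]
  have hRgW : ∀ γ ∈ A, Rg γ ≤ W := by
    intro γ hγ
    rw [hW]
    exact le_iSup₂_of_le γ hγ le_rfl
  have hLW : ∀ x, L x ∈ W := fun x => (J x).2
  have hLinj : Function.Injective L := L.injective
  have hrange : LinearMap.range L.toLinearMap = W := by
    apply le_antisymm
    · rintro _ ⟨x, rfl⟩
      exact hLW x
    · intro w hw
      refine ⟨J.symm ⟨w, hw⟩, ?_⟩
      change (J (J.symm ⟨w, hw⟩) : Eu N) = w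
      rw [J.apply_symm_apply]
  -- decomposition
  have hproj : ∀ γ ∈ A, ∀ x, (W.orthogonalProjectionOnto (γ x) : Eu N) =
      γ (W.orthogonalProjectionOnto x : Eu N) := by
    intro γ hγ x
    set w : Eu N := (W.orthogonalProjectionOnto x : Eu N) with hw
    have hwW : w ∈ W := (W.orthogonalProjectionOnto x).2
    have hγw : γ w ∈ W := by
      have h1 : γ w - w ∈ W := hRgW γ hγ ⟨w, rfl⟩
      have : γ w = (γ w - w) + w := by abel
      rw [this]
      exact W.add_mem h1 hwW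
    have hu : x - w ∈ Wᗮ := Submodule.sub_starProjection_mem_orthogonal x
    have hγu : γ (x - w) = x - w := isof_fix γ (Submodule.orthogonal_le (hRgW γ hγ) hu)
    have hγx : γ x = γ w + (x - w) := by
      rw [← hγu, ← map_add]
      congr 1
      abel
    rw [hγx, map_add, Submodule.coe_add,
      Submodule.orthogonalProjectionOnto_apply_of_mem_orthogonal hu,
      Submodule.coe_zero, add_zero]
    have := Submodule.orthogonalProjectionOnto_mem_subspace_eq_self (K := W) ⟨γ w, hγw⟩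
    exact congrArg Subtype.val this
  -- the restricted isometries
  have hex : ∀ γ ∈ A, ∃ γ' : Eu (Module.finrank ℝ W) ≃ₗᵢ[ℝ] Eu (Module.finrank ℝ W),
      ∀ x, L (γ' x) = γ (L x) := by
    intro γ hγ
    have hmem : ∀ x, γ (L x) ∈ W := by
      intro x
      have h1 : γ (L x) - L x ∈ W := hRgW γ hγ ⟨L x, rfl⟩
      have : γ (L x) = (γ (L x) - L x) + L x := by abel
      rw [this]
      exact W.add_mem h1 (hLW x)
    let g : Eu (Module.finrank ℝ W) →ₗᵢ[ℝ] Eu (Module.finrank ℝ W) :=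
      { toFun := fun x => J.symm ⟨γ (L x), hmem x⟩
        map_add' := by
          intro x y
          rw [← map_add]
          congr 1
          apply Subtype.ext
          simp
        map_smul' := by
          intro t x
          rw [← map_smul]
          congr 1
          apply Subtype.ext
          simp
        norm_map' := by
          intro x
          change ‖J.symm ⟨γ (L x), hmem x⟩‖ = ‖x‖
          rw [LinearIsometryEquiv.norm_map]
          change ‖γ (L x)‖ = ‖x‖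
          rw [LinearIsometryEquiv.norm_map, LinearIsometry.norm_map] }
    refine ⟨g.toLinearIsometryEquiv rfl, fun x => ?_⟩
    rw [LinearIsometry.coe_toLinearIsometryEquiv]
    change (J (J.symm ⟨γ (L x), hmem x⟩) : Eu N) = γ (L x)
    rw [J.apply_symm_apply]
  set A' : Set (Eu (Module.finrank ℝ W) ≃ₗᵢ[ℝ] Eu (Module.finrank ℝ W)) :=
    {γ' | ∃ γ ∈ A, ∀ x, L (γ' x) = γ (L x)} with hA'
  have hmapRg : ∀ (γ' : Eu (Module.finrank ℝ W) ≃ₗᵢ[ℝ] Eu (Module.finrank ℝ W)), ∀ γ ∈ A,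
      (∀ x, L (γ' x) = γ (L x)) → Submodule.map L.toLinearMap (Rg γ') = Rg γ := by
    intro γ' γ hγ h
    apply le_antisymm
    · rintro _ ⟨_, ⟨x, rfl⟩, rfl⟩
      refine ⟨L x, ?_⟩
      change γ (L x) - L x = L (γ' x - x)
      rw [map_sub, h]
    · rintro _ ⟨z, rfl⟩
      refine ⟨γ' (P z) - P z, ⟨P z, rfl⟩, ?_⟩
      change L (γ' (P z) - P z) = γ z - z
      rw [map_sub, h, hLP]
      set w : Eu N := (W.orthogonalProjectionOnto z : Eu N) with hw
      have hu : z - w ∈ Wᗮ := Submodule.sub_starProjection_mem_orthogonal z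
      have hγu : γ (z - w) = z - w := isof_fix γ (Submodule.orthogonal_le (hRgW γ hγ) hu)
      rw [map_sub] at hγu
      have : γ w - w = (γ z - z) - ((γ z - γ w) - (z - w)) := by abel
      rw [this, hγu, sub_self, sub_zero]
  have hsup : ⨆ γ' : A', Rg (γ' : Eu (Module.finrank ℝ W) ≃ₗᵢ[ℝ] Eu (Module.finrank ℝ W)) =
      ⊤ := by
    rw [eq_top_iff]
    have h1 : W ≤ Submodule.map L.toLinearMap (⨆ γ' : A',
        Rg (γ' : Eu (Module.finrank ℝ W) ≃ₗᵢ[ℝ] Eu (Module.finrank ℝ W))) := by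
      conv_lhs => rw [hW]
      refine iSup₂_le fun γ hγ => ?_
      obtain ⟨γ', hγ'⟩ := hex γ hγ
      rw [← hmapRg γ' γ hγ hγ']
      exact Submodule.map_mono (le_iSup (fun γ' : A' =>
        Rg (γ' : Eu (Module.finrank ℝ W) ≃ₗᵢ[ℝ] Eu (Module.finrank ℝ W))) ⟨γ', γ, hγ, hγ'⟩)
    intro x _
    obtain ⟨y, hy, hxy⟩ := h1 (hLW x)
    have : y = x := hLinj hxy
    rwa [← this]
  have hcomp := (Submodule.fg_iff_compact (⊤ : Submodule ℝ (Eu (Module.finrank ℝ W)))).1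
    (IsNoetherian.noetherian _)
  obtain ⟨s, hs⟩ := CompleteLattice.IsCompactElement.exists_finset_of_le_iSup _ hcomp _ hsup.ge
  refine ⟨L, P, hPL, ?_, hrange, s.image Subtype.val, ?_, ?_⟩
  · intro x y
    have h1 : inner ℝ (P x) y = inner ℝ (L (P x)) (L y) := (L.inner_map_map _ _).symm
    rw [h1, hLP]
    have hu : x - (W.orthogonalProjectionOnto x : Eu N) ∈ Wᗮ :=
      Submodule.sub_starProjection_mem_orthogonal x
    have h2 : inner ℝ (x - (W.orthogonalProjectionOnto x : Eu N)) (L y) = 0 :=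
      (Submodule.mem_orthogonal' W _).1 hu _ (hLW y)
    rw [inner_sub_left] at h2
    linarith
  · rw [eq_top_iff]
    refine hs.trans ?_
    refine iSup₂_le fun γ' hγ' => ?_
    exact le_iSup₂_of_le (γ' : Eu (Module.finrank ℝ W) ≃ₗᵢ[ℝ] Eu (Module.finrank ℝ W))
      (Finset.mem_image_of_mem _ hγ') le_rfl
  · intro γ' hγ'
    obtain ⟨⟨g, γ, hγ, h⟩, _, rfl⟩ := Finset.mem_image.1 hγ'
    change Sd d g ∧ ∃ γ ∈ A, ∀ x, P (γ x) = g (P x)
    refine ⟨⟨?_, ?_⟩, γ, hγ, ?_⟩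
    · obtain ⟨q, hq, hper⟩ := (hA γ hγ).1
      refine ⟨q, hq, fun x => ?_⟩
      have h1 : ∀ k : ℕ, ∀ x, L ((⇑g)^[k] x) = (⇑γ)^[k] (L x) := by
        intro k
        induction k with
        | zero => intro x; rfl
        | succ k ih =>
          intro x
          rw [Function.iterate_succ_apply, Function.iterate_succ_apply, ih, h]
      apply hLinj
      rw [h1, hper]
    · have h1 : Module.finrank ℝ (Submodule.map L.toLinearMap (Rg g)) =
          Module.finrank ℝ (Rg g) :=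
        (Submodule.equivMapOfInjective L.toLinearMap hLinj (Rg g)).finrank_eq.symm
      rw [← h1, hmapRg g γ hγ h]
      exact (hA γ hγ).2
    · intro x
      apply hLinj
      rw [hLP, hproj γ hγ, h, hLP]

private lemma isof_mono {E : Type*} [NormedAddCommGroup E] [NormedSpace ℝ E] [MeasurableSpace E]
    {μ : Measure E} {K K' : ℝ} (h : FP.AP μ K) (hK : K ≤ K') : FP.AP μ K' := by
  intro f hf hl
  refine (h f hf hl).trans (mul_le_mul_of_nonneg_right hK ?_)
  exact integral_nonneg fun x => variance_nonneg _ _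

/-- the final statement, from the affine invariant inequality for measures invariant under
isometries whose ranges span the space -/
theorem iso_cheeger_of {K : ℝ} (hK : 1 ≤ K)
    (hap : ∀ (d : ℕ), 0 < d → ∀ (n : ℕ) (ν : Measure (Eu n)) [IsProbabilityMeasure ν],
      FP.PLm ν → ∀ A : Finset (Eu n ≃ₗᵢ[ℝ] Eu n), (∀ γ ∈ A, Sd d γ ∧ ν.map γ = ν) →
      ⨆ γ ∈ A, Rg γ = ⊤ → FP.AP ν (K * (d : ℝ) ^ 7)) :
    ∃ C : ℝ, 0 < C ∧ ∀ (N d k : ℕ), 0 < d → ∀ (μ : Measure (EuclideanSpace ℝ (Fin N)))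
    [IsProbabilityMeasure μ], FP.PLm μ →
    ∀ A : Set (EuclideanSpace ℝ (Fin N) ≃ₗᵢ[ℝ] EuclideanSpace ℝ (Fin N)),
    (∀ γ ∈ A, μ.map γ = μ ∧ IsOfFinOrder γ ∧
      Module.finrank ℝ (LinearMap.range (γ.toLinearEquiv.toLinearMap - LinearMap.id)) ≤ d) →
    N ≤ Module.finrank ℝ (⨆ γ ∈ A, LinearMap.range
      (γ.toLinearEquiv.toLinearMap - LinearMap.id) :
        Submodule ℝ (EuclideanSpace ℝ (Fin N))) + k →
    ∀ (n : ℕ) (T : EuclideanSpace ℝ (Fin N) →ₗ[ℝ] EuclideanSpace ℝ (Fin n)) (s : ℝ), 0 < s →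
    (∀ θ : EuclideanSpace ℝ (Fin n), ‖θ‖ = 1 → Var[fun x => inner ℝ x θ; μ.map T] ≤ s) →
    ∀ S : Set (EuclideanSpace ℝ (Fin n)), MeasurableSet S →
      ENNReal.ofReal (C / ((d : ℝ) ^ 4 * Real.sqrt (k + 1) * Real.sqrt s)) *
          min (μ.map T S) (μ.map T Sᶜ) ≤
        Filter.liminf
          (fun ε : ℝ => (μ.map T (Metric.thickening ε S) - μ.map T S) / ENNReal.ofReal ε)
          (𝓝[>] 0) := by
  obtain ⟨D, hD, hcod⟩ := FP.ap_codim
  obtain ⟨c, hc, hch⟩ := FP.cheeger_image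
  refine ⟨c / Real.sqrt (D * K), by positivity, ?_⟩
  intro N d k hd μ _ hpl A hA hNk n T s hs hvar S hS
  have hA' : ∀ γ ∈ A, Sd d γ := by
    intro γ hγ
    obtain ⟨_, hfin, hrk⟩ := hA γ hγ
    refine ⟨?_, hrk⟩
    obtain ⟨q, hq, hq1⟩ := isOfFinOrder_iff_pow_eq_one.1 hfin
    refine ⟨q, hq, fun x => ?_⟩
    have h1 : ∀ j : ℕ, ∀ x, (⇑γ)^[j] x = (γ ^ j) x := by
      intro j
      induction j with
      | zero => intro x; rfl
      | succ j ih =>
        intro x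
        rw [Function.iterate_succ_apply', ih, pow_succ']
        rfl
    rw [h1, hq1]
    rfl
  set W : Submodule ℝ (Eu N) := ⨆ γ ∈ A, Rg γ with hW
  obtain ⟨L, P, hPL, hPin, hrange, B, hB, hBA⟩ := isof_restrict A hA' W hW
  have hPc : Continuous P := P.continuous
  have hpr : IsProbabilityMeasure (μ.map P) :=
    Measure.isProbabilityMeasure_map hPc.measurable.aemeasurable
  have hplP : FP.PLm (μ.map P) := hpl.map P.toLinearMap hPc.measurable
  have hapP : FP.AP (μ.map P) (K * (d : ℝ) ^ 7) := by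
    refine hap d hd _ (μ.map P) hplP B (fun γ' hγ' => ?_) hB
    obtain ⟨h1, γ, hγ, h2⟩ := hBA γ' hγ'
    refine ⟨h1, ?_⟩
    rw [Measure.map_map γ'.continuous.measurable hPc.measurable]
    have h3 : (⇑γ' ∘ ⇑P) = (⇑P ∘ ⇑γ) := by
      funext x
      exact (h2 x).symm
    rw [h3, ← Measure.map_map hPc.measurable γ.continuous.measurable, (hA γ hγ).1]
  have hd1 : (1 : ℝ) ≤ (d : ℝ) := by exact_mod_cast hd
  have hKd : 0 < K * (d : ℝ) ^ 7 := by positivity
  have hapm := hcod N (Module.finrank ℝ W) μ hpl P (K * (d : ℝ) ^ 7) hKd hapP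
  have hker : Module.finrank ℝ (P : Eu N →ₗ[ℝ] Eu (Module.finrank ℝ W)).ker ≤ k := by
    have hsurj : Function.Surjective P := fun y => ⟨L y, hPL y⟩
    have h1 := LinearMap.finrank_range_add_finrank_ker
      (P : Eu N →ₗ[ℝ] Eu (Module.finrank ℝ W))
    have h2 : LinearMap.range (P : Eu N →ₗ[ℝ] Eu (Module.finrank ℝ W)) = ⊤ :=
      LinearMap.range_eq_top.2 hsurj
    rw [h2, finrank_top, finrank_euclideanSpace, finrank_euclideanSpace, Fintype.card_fin,
      Fintype.card_fin] at h1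
    have h3 : N ≤ Module.finrank ℝ W + k := hNk
    omega
  have hd8 : (1 : ℝ) ≤ (d : ℝ) ^ 8 := one_le_pow₀ hd1
  have hd78 : (d : ℝ) ^ 7 ≤ (d : ℝ) ^ 8 := pow_le_pow_right₀ hd1 (by norm_num)
  have hk0 : (0 : ℝ) ≤ (k : ℝ) := Nat.cast_nonneg k
  have hker' : (Module.finrank ℝ (P : Eu N →ₗ[ℝ] Eu (Module.finrank ℝ W)).ker : ℝ) ≤ (k : ℝ) := by
    exact_mod_cast hker
  have hbound : D * (K * (d : ℝ) ^ 7 +
      (Module.finrank ℝ (P : Eu N →ₗ[ℝ] Eu (Module.finrank ℝ W)).ker : ℝ)) ≤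
      D * K * ((d : ℝ) ^ 8 * (k + 1)) := by
    have h1 : K * (d : ℝ) ^ 7 ≤ K * (d : ℝ) ^ 8 := mul_le_mul_of_nonneg_left hd78 (by linarith)
    have h2 : (k : ℝ) ≤ K * (d : ℝ) ^ 8 * k := by
      have : (1 : ℝ) ≤ K * (d : ℝ) ^ 8 := by nlinarith
      nlinarith
    have h3 : K * (d : ℝ) ^ 7 + (Module.finrank ℝ
        (P : Eu N →ₗ[ℝ] Eu (Module.finrank ℝ W)).ker : ℝ) ≤ K * ((d : ℝ) ^ 8 * (k + 1)) := by
      nlinarith
    calc D * (K * (d : ℝ) ^ 7 +
      (Module.finrank ℝ (P : Eu N →ₗ[ℝ] Eu (Module.finrank ℝ W)).ker : ℝ))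
        ≤ D * (K * ((d : ℝ) ^ 8 * (k + 1))) := mul_le_mul_of_nonneg_left h3 (by linarith)
      _ = _ := by ring
  have hDK : 1 ≤ D * K := by nlinarith
  have hapm' : FP.AP μ (D * K * ((d : ℝ) ^ 8 * (k + 1))) := isof_mono hapm hbound
  have hone : 1 ≤ D * K * ((d : ℝ) ^ 8 * (k + 1)) := by
    have : (1 : ℝ) ≤ (d : ℝ) ^ 8 * (k + 1) := by nlinarith
    nlinarith
  refine le_trans ?_ (hch (EuclideanSpace ℝ (Fin N)) μ hpl _ hone hapm' n T s hs hvar S hS)
  refine mul_le_mul_left ?_ _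
  apply ENNReal.ofReal_le_ofReal
  have hsq : Real.sqrt (D * K * ((d : ℝ) ^ 8 * (k + 1)) * s) =
      Real.sqrt (D * K) * ((d : ℝ) ^ 4 * Real.sqrt (k + 1) * Real.sqrt s) := by
    rw [Real.sqrt_mul (show 0 ≤ D * K * ((d : ℝ) ^ 8 * (k + 1)) by positivity) s,
      Real.sqrt_mul (show 0 ≤ D * K by positivity) ((d : ℝ) ^ 8 * (k + 1)),
      Real.sqrt_mul (show 0 ≤ (d : ℝ) ^ 8 by positivity) ((k : ℝ) + 1)]
    have : Real.sqrt ((d : ℝ) ^ 8) = (d : ℝ) ^ 4 := by
      rw [show (d : ℝ) ^ 8 = ((d : ℝ) ^ 4) ^ 2 by ring]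
      exact Real.sqrt_sq (by positivity)
    rw [this]
    ring
  rw [hsq, div_div]

end Pool.Agent.Lib.MP_6d896a_gt.UC.UR.UD
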