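import Mathlib
import Pool.Agent.Lib.MP_6d896a_gt.UD.Defs
import Pool.Agent.Lib.MP_6d896a_gt.UC.Basic
import Pool.Agent.Lib.MP_6d896a_gt.UC.Ibp
import Pool.Agent.Lib.MP_6d896a_gt.UR.StepR
import Pool.Agent.Lib.MP_6d896a_gt.UR.RotR

/-!
Project UD, piece D14: the Poincare inequality for measures invariant under isometries which move
all directions, from the gap theorem for balanced functions.
-/

set_option autoImplicit false

namespace Pool.Agent.Lib.MP_6d896a_gt.UC.UR.UD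

open MeasureTheory Filter Topology Set
open scoped ENNReal NNReal ContDiff

variable {n : ℕ} {V f g u : Eu n → ℝ} {κ Λ S : ℝ}

/-- the conclusion of the gap theorem -/
def GapS (n : ℕ) : Prop := ∀ {V : Eu n → ℝ} {κ Λ S : ℝ}, GP V κ Λ S → ∀ {d q : ℕ}
  {γ : Eu n ≃ₗᵢ[ℝ] Eu n}, Module.finrank ℝ (Rg γ) ≤ d → 0 < q → (∀ x, (⇑γ)^[q] x = x) →
  Inv γ V → ∀ {c : ℝ}, 0 < c → HP V c → 10 ^ 18 * (d : ℝ) ^ 7 * S ≤ c →
  ∃ c', 0 < c' ∧ c' < c ∧ ∀ f : Eu n → ℝ, TT f → Bal γ q f →
    Ex V (fun x => f x ^ 2) ≤ c' * Df V f f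

private lemma md_mean (hU : GP V κ Λ S) (hf : TT f) : (Ex V f) ^ 2 ≤ Ex V (fun x => f x ^ 2) := by
  have hV : Continuous V := hU.cd.continuous
  have h := Ex_cs (V := V) (f := f) (g := fun _ => (1 : ℝ)) (hf.sq.int hV)
    (by simpa using hU.int) (by simpa using hf.int hV)
  have e1 : (fun x : Eu n => (fun _ : Eu n => (1 : ℝ)) x ^ 2) = fun _ => 1 := by
    funext x; norm_num
  have e2 : (fun x : Eu n => f x * (fun _ : Eu n => (1 : ℝ)) x) = f := by
    funext x; simp
  rw [e1, e2, hU.mass, mul_one] at h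
  exact h

private lemma md_nonneg {c : ℝ} (hc : 0 < c) (hP : HP V c) (hf : TT f) : 0 ≤ Sf V (1 / c) f := by
  have h := hP f hf
  unfold Sf
  have h2 : (1 / c) * (Ex V (fun x => f x ^ 2) - (Ex V f) ^ 2) ≤ (1 / c) * (c * Df V f f) :=
    mul_le_mul_of_nonneg_left h (by positivity)
  have h3 : (1 / c) * (c * Df V f f) = Df V f f := by field_simp
  linarith

private lemma md_le (hU : GP V κ Λ S) {l : ℝ} (hl : 0 ≤ l) (hf : TT f) :
    Sf V l f ≤ Df V f f := by
  have h := md_mean hU hf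
  unfold Sf
  have : 0 ≤ l * (Ex V (fun x => f x ^ 2) - (Ex V f) ^ 2) := mul_nonneg hl (by linarith)
  linarith

/-- parallelogram identity -/
private lemma md_par (hV : Continuous V) (l : ℝ) (hf : TT f) (hg : TT g) :
    Sf V l (fun x => f x - g x) + Sf V l (fun x => f x + g x) =
      2 * Sf V l f + 2 * Sf V l g := by
  unfold Sf
  rw [Df_sub hV hf hg, Df_add hV hf hg]
  have e1 : Ex V (fun x => (f x - g x) ^ 2) = Ex V (fun x => f x ^ 2)
      - 2 * Ex V (fun x => f x * g x) + Ex V (fun x => g x ^ 2) := by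
    have e : (fun x => (f x - g x) ^ 2) = fun x => (f x ^ 2 - 2 * (f x * g x)) + g x ^ 2 := by
      funext x; ring
    have i1 : TT (fun x => f x ^ 2 - 2 * (f x * g x)) := hf.sq.sub ((hf.mul hg).const_mul 2)
    rw [e, Ex_add (i1.int hV) (hg.sq.int hV),
      Ex_sub (hf.sq.int hV) (((hf.mul hg).const_mul 2).int hV), Ex_const_mul]
  have e2 : Ex V (fun x => (f x + g x) ^ 2) = Ex V (fun x => f x ^ 2)
      + 2 * Ex V (fun x => f x * g x) + Ex V (fun x => g x ^ 2) := by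
    have e : (fun x => (f x + g x) ^ 2) = fun x => (f x ^ 2 + 2 * (f x * g x)) + g x ^ 2 := by
      funext x; ring
    have i1 : TT (fun x => f x ^ 2 + 2 * (f x * g x)) := hf.sq.add ((hf.mul hg).const_mul 2)
    rw [e, Ex_add (i1.int hV) (hg.sq.int hV),
      Ex_add (hf.sq.int hV) (((hf.mul hg).const_mul 2).int hV), Ex_const_mul]
  rw [e1, e2, Ex_sub (hf.int hV) (hg.int hV), Ex_add (hf.int hV) (hg.int hV)]
  ring

/-- the mean gradient -/
private noncomputable def mg (V u : Eu n → ℝ) : Eu n := WithLp.toLp 2 (fun i => Ex V (pd i u))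

private lemma md_inner (v w : Eu n) : inner ℝ v w = ∑ i, v i * w i := by
  rw [PiLp.inner_apply]
  refine Finset.sum_congr rfl fun i _ => ?_
  simp [mul_comm]

private lemma md_grad (hV : Continuous V) {γ : Eu n ≃ₗᵢ[ℝ] Eu n} (hVi : Inv γ V) (hu : TT u)
    (j : Fin n) : Ex V (pd j (fun x => u (γ x))) = inner ℝ (γ (ej j)) (mg V u) := by
  have hfd : ∀ x, pd j (fun x => u (γ x)) x = ∑ i, (γ (ej j)) i * pd i u (γ x) := by
    intro x
    have h1 : HasFDerivAt u (fderiv ℝ u (γ x)) (γ x) := (hu.differentiable _).hasFDerivAt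
    have h2 : HasFDerivAt (fun x => γ x) (γ.toContinuousLinearEquiv : Eu n →L[ℝ] Eu n) x :=
      γ.toContinuousLinearEquiv.hasFDerivAt
    have h3 : fderiv ℝ (fun x => u (γ x)) x =
        (fderiv ℝ u (γ x)).comp (γ.toContinuousLinearEquiv : Eu n →L[ℝ] Eu n) :=
      (h1.comp x h2).fderiv
    unfold pd
    rw [h3]
    show fderiv ℝ u (γ x) (γ (ej j)) = _
    conv_lhs => rw [← sum_ej (γ (ej j))]
    rw [map_sum]
    refine Finset.sum_congr rfl fun i _ => ?_
    rw [map_smul, smul_eq_mul]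
  have e : pd j (fun x => u (γ x)) = fun x => ∑ i, (γ (ej j)) i * pd i u (γ x) := funext hfd
  rw [e]
  have hint : ∀ i, TT (fun x => pd i u (γ x)) := fun i => TT_iso γ (hu.pd i)
  rw [Ex_sum (V := V) Finset.univ (F := fun i x => (γ (ej j)) i * pd i u (γ x))
    (fun i _ => ((hint i).const_mul _).int hV), md_inner]
  refine Finset.sum_congr rfl fun i _ => ?_
  rw [Ex_const_mul]
  congr 1
  have h4 := Ex_iso γ V (pd i u)
  have h5 : (fun x => V (γ x)) = V := funext hVi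
  rw [h5] at h4
  rw [h4]
  rfl

private lemma md_bal {γ : Eu n ≃ₗᵢ[ℝ] Eu n} {q : ℕ} (hper : ∀ x, (⇑γ)^[q] x = x) (u : Eu n → ℝ) :
    Bal γ q (fun x => u x - u (γ x)) := by
  intro x
  have h1 : ∀ k, u ((⇑γ)^[k] x) - u (γ ((⇑γ)^[k] x)) =
      (fun k => u ((⇑γ)^[k] x)) k - (fun k => u ((⇑γ)^[k] x)) (k + 1) := by
    intro k
    simp only
    rw [Function.iterate_succ_apply']
  show ∑ k ∈ Finset.range q, (u ((⇑γ)^[k] x) - u (γ ((⇑γ)^[k] x))) = 0
  rw [Finset.sum_congr rfl fun k _ => h1 k, Finset.sum_range_sub']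
  simp [hper]

private lemma md_Sf_iso (hV : Continuous V) {γ : Eu n ≃ₗᵢ[ℝ] Eu n} (hVi : Inv γ V) (hu : TT u)
    (l : ℝ) : Sf V l (fun x => u (γ x)) = Sf V l u := by
  have h5 : (fun x => V (γ x)) = V := funext hVi
  have h1 := Df_iso γ hV hu
  have h2 := Ex_iso γ V u
  have h3 := Ex_iso γ V (fun x => u x ^ 2)
  rw [h5] at h1 h2 h3
  unfold Sf
  rw [h1, h2, h3]

/-- one isometry: the mean gradient is almost orthogonal to the space which it moves -/
private lemma md_one (hU : GP V κ Λ S) {c : ℝ} (hc : 0 < c) (hP : HP V c)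
    {γ : Eu n ≃ₗᵢ[ℝ] Eu n} (hVi : Inv γ V) {q : ℕ} (hper : ∀ x, (⇑γ)^[q] x = x)
    {c' : ℝ} (hc'c : c' < c)
    (hgap : ∀ f : Eu n → ℝ, TT f → Bal γ q f → Ex V (fun x => f x ^ 2) ≤ c' * Df V f f)
    (hu : TT u) :
    ∑ j, (inner ℝ (ej j - γ (ej j)) (mg V u)) ^ 2 ≤ 4 / (1 - c' / c) * Sf V (1 / c) u := by
  have hV : Continuous V := hU.cd.continuous
  have huγ : TT (fun x => u (γ x)) := TT_iso γ hu
  have hw : TT (fun x => u x - u (γ x)) := hu.sub huγ
  obtain ⟨w, hwdef⟩ : ∃ w : Eu n → ℝ, w = fun x => u x - u (γ x) := ⟨_, rfl⟩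
  have hwT : TT w := by rw [hwdef]; exact hw
  have hwB : Bal γ q w := by rw [hwdef]; exact md_bal hper u
  have hθ : 0 < 1 - c' / c := by
    rw [sub_pos, div_lt_one hc]; exact hc'c
  -- energy of `w`
  have h1 : Sf V (1 / c) w ≤ 4 * Sf V (1 / c) u := by
    have h2 := md_par hV (1 / c) hu huγ
    have h3 := md_nonneg hc hP (hu.add huγ)
    rw [md_Sf_iso hV hVi hu] at h2
    rw [hwdef]
    linarith
  have h2 : (1 - c' / c) * Df V w w ≤ Sf V (1 / c) w := by
    have h3 := hgap w hwT hwB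
    have h4 : (1 / c) * Ex V (fun x => w x ^ 2) ≤ (1 / c) * (c' * Df V w w) :=
      mul_le_mul_of_nonneg_left h3 (by positivity)
    have h5 : 0 ≤ (1 / c) * (Ex V w) ^ 2 := by positivity
    unfold Sf
    have h6 : (1 - c' / c) * Df V w w = Df V w w - (1 / c) * (c' * Df V w w) := by
      field_simp
    rw [h6]
    nlinarith
  have h3 : Df V w w ≤ 4 / (1 - c' / c) * Sf V (1 / c) u := by
    rw [div_mul_eq_mul_div, le_div_iff₀ hθ]
    nlinarith
  refine le_trans ?_ h3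
  unfold Df
  refine Finset.sum_le_sum fun j _ => ?_
  have e1 : inner ℝ (ej j - γ (ej j)) (mg V u) = Ex V (pd j w) := by
    have h4 : pd j w = fun x => pd j u x - pd j (fun x => u (γ x)) x := by
      rw [hwdef]
      funext x
      exact pd_sub hu.differentiable huγ.differentiable j x
    rw [h4, Ex_sub ((hu.pd j).int hV) ((huγ.pd j).int hV), md_grad hV hVi hu j, inner_sub_left]
    congr 1
    rw [md_inner, Finset.sum_eq_single j]
    · simp [ej, mg]
    · intro b _ hb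
      simp [ej, hb]
    · intro h; exact absurd (Finset.mem_univ j) h
  rw [e1]
  refine (md_mean hU (hwT.pd j)).trans (le_of_eq ?_)
  congr 1
  funext x
  ring

/-- finite-dimensional: a vector is controlled by its products with the moved directions -/
private lemma md_fin (A : Finset (Eu n ≃ₗᵢ[ℝ] Eu n)) (hspan : ⨆ γ ∈ A, Rg γ = ⊤) :
    ∃ K : ℝ, 0 ≤ K ∧ ∀ e : Eu n,
      ‖e‖ ^ 2 ≤ K * ∑ γ ∈ A, ∑ j, (inner ℝ (ej j - γ (ej j)) e) ^ 2 := by
  classical
  set L : Eu n →ₗ[ℝ] EuclideanSpace ℝ (A × Fin n) :=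
    { toFun := fun e => WithLp.toLp 2 (fun p => inner ℝ (ej p.2 - (p.1 : Eu n ≃ₗᵢ[ℝ] Eu n)
        (ej p.2)) e)
      map_add' := by
        intro a b
        ext p
        simp [inner_add_right]
      map_smul' := by
        intro t a
        ext p
        simp [inner_smul_right] } with hL
  have hker : LinearMap.ker L = ⊥ := by
    rw [LinearMap.ker_eq_bot']
    intro e he
    have h1 : ∀ γ ∈ A, ∀ j, inner ℝ (ej j - γ (ej j)) e = 0 := by
      intro γ hγ j
      have h2 := congrArg (fun z : EuclideanSpace ℝ (A × Fin n) => z (⟨γ, hγ⟩, j)) he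
      simpa [hL] using h2
    have h2 : (⊤ : Submodule ℝ (Eu n)) ≤ (Submodule.span ℝ {e})ᗮ := by
      rw [← hspan]
      refine iSup₂_le fun γ hγ => ?_
      rintro _ ⟨y, rfl⟩
      rw [Submodule.mem_orthogonal_singleton_iff_inner_left]
      show inner ℝ (γ y - y) e = 0
      have h3 : γ y - y = ∑ j, y j • (γ (ej j) - ej j) := by
        conv_lhs => rw [← sum_ej y]
        rw [map_sum, ← Finset.sum_sub_distrib]
        refine Finset.sum_congr rfl fun j _ => ?_
        rw [map_smul, smul_sub]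
      rw [h3, sum_inner]
      refine Finset.sum_eq_zero fun j _ => ?_
      rw [inner_smul_left, ← neg_sub, inner_neg_left, h1 γ hγ j]
      simp
    have h3 := h2 (Submodule.mem_top (x := e))
    rw [Submodule.mem_orthogonal_singleton_iff_inner_left] at h3
    exact inner_self_eq_zero.1 h3
  obtain ⟨K, hK, hanti⟩ := LinearMap.exists_antilipschitzWith L hker
  refine ⟨(K : ℝ) ^ 2, by positivity, fun e => ?_⟩
  have h1 := hanti.le_mul_dist e 0
  rw [map_zero, dist_zero_right, dist_zero_right] at h1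
  have h2 : ‖e‖ ^ 2 ≤ ((K : ℝ) * ‖L e‖) ^ 2 := pow_le_pow_left₀ (norm_nonneg _) h1 2
  rw [mul_pow] at h2
  refine h2.trans (le_of_eq ?_)
  congr 1
  rw [EuclideanSpace.norm_sq_eq, Fintype.sum_prod_type, ← Finset.sum_coe_sort A]
  refine Finset.sum_congr rfl fun γ _ => Finset.sum_congr rfl fun j _ => ?_
  rw [Real.norm_eq_abs, sq_abs]
  rfl

/-- improvement of the constant -/
private lemma md_imp (hgap : GapS n) (hU : GP V κ Λ S) {c : ℝ} (hc : 0 < c) (hP : HP V c)
    {d : ℕ} (A : Finset (Eu n ≃ₗᵢ[ℝ] Eu n)) (hA : ∀ γ ∈ A, Sd d γ ∧ Inv γ V)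
    (hspan : ⨆ γ ∈ A, Rg γ = ⊤) (hcK : 10 ^ 18 * (d : ℝ) ^ 7 * S ≤ c) :
    ∃ c'', 0 < c'' ∧ c'' < c ∧ HP V c'' := by
  have hV : Continuous V := hU.cd.continuous
  -- the constants of the isometries
  have hγ : ∀ γ ∈ A, ∃ T : ℝ, 0 ≤ T ∧ ∀ u : Eu n → ℝ, TT u →
      ∑ j, (inner ℝ (ej j - γ (ej j)) (mg V u)) ^ 2 ≤ T * Sf V (1 / c) u := by
    intro γ hγA
    obtain ⟨⟨⟨q, hq, hper⟩, hfr⟩, hinv⟩ := hA γ hγA
    obtain ⟨c', hc'0, hc'c, h1⟩ := hgap hU hfr hq hper hinv hc hP hcK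
    refine ⟨4 / (1 - c' / c), ?_, fun u hu => md_one hU hc hP hinv hper hc'c h1 hu⟩
    have : 0 < 1 - c' / c := by rw [sub_pos, div_lt_one hc]; exact hc'c
    positivity
  choose! T hT0 hT using hγ
  obtain ⟨K, hK0, hK⟩ := md_fin A hspan
  set T1 : ℝ := K * ∑ γ ∈ A, T γ with hT1
  have hT10 : 0 ≤ T1 := mul_nonneg hK0 (Finset.sum_nonneg fun γ hγ => hT0 γ hγ)
  have hκ := hU.kpos
  -- the main estimate
  set B : ℝ := 2 * ((1 / c) + 1 + (1 / c) * T1 * 4) / κ + 2 with hB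
  have hB2 : 2 ≤ B := by
    rw [hB]
    have : 0 ≤ 2 * ((1 / c) + 1 + (1 / c) * T1 * 4) / κ := by positivity
    linarith
  have key : ∀ g : Eu n → ℝ, TT g → ∀ ε : ℝ, 0 < ε →
      Df V g g ≤ B * (Sf V (1 / c) g + ε) := by
    intro g hg ε hε
    obtain ⟨u, hu, -, h1, h2, -, -⟩ := stepR hU hc hP ∅ (by simp) hg (by simp) hε
    have hs0 := md_nonneg hc hP hg
    set s := Sf V (1 / c) g with hs
    -- the excess of `u`
    have h3 : Sf V (1 / c) u ≤ 4 * (s + ε) := by
      have h4 := md_par hV (1 / c) hg (hg.sub hu)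
      have h5 : (fun x => g x - (g x - u x)) = u := by funext x; ring
      rw [h5] at h4
      have h6 := md_nonneg hc hP (hg.add (hg.sub hu))
      have h7 := md_le hU (l := 1 / c) (by positivity) (hg.sub hu)
      linarith
    -- the mean gradient
    have h4 : ∑ j, (Ex V (pd j u)) ^ 2 ≤ T1 * (4 * (s + ε)) := by
      have h5 := hK (mg V u)
      have h6 : ‖mg V u‖ ^ 2 = ∑ j, (Ex V (pd j u)) ^ 2 := by
        rw [EuclideanSpace.norm_sq_eq]
        refine Finset.sum_congr rfl fun j _ => ?_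
        rw [Real.norm_eq_abs, sq_abs]
        rfl
      rw [← h6]
      refine h5.trans ?_
      rw [hT1, mul_assoc, Finset.sum_mul]
      refine mul_le_mul_of_nonneg_left (Finset.sum_le_sum fun γ hγ => ?_) hK0
      exact (hT γ hγ u hu).trans (mul_le_mul_of_nonneg_left h3 (hT0 γ hγ))
    -- Poincare for the partial derivatives
    have h5 : -(1 / c) * ∑ j, (Ex V (pd j u)) ^ 2 ≤
        ∑ j, (Df V (pd j u) (pd j u) - (1 / c) * Ex V (fun x => pd j u x ^ 2)) := by
      rw [Finset.mul_sum]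
      refine Finset.sum_le_sum fun j _ => ?_
      have h6 := md_nonneg hc hP (hu.pd j)
      unfold Sf at h6
      linarith
    have h6 : κ * Df V u u ≤ ((1 / c) + 1 + (1 / c) * T1 * 4) * (s + ε) := by
      have h7 : (1 / c) * ∑ j, (Ex V (pd j u)) ^ 2 ≤ (1 / c) * (T1 * (4 * (s + ε))) :=
        mul_le_mul_of_nonneg_left h4 (by positivity)
      have h8 : 0 ≤ (1 / c) * ε := by positivity
      nlinarith
    have h7 : Df V u u ≤ ((1 / c) + 1 + (1 / c) * T1 * 4) / κ * (s + ε) := by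
      rw [div_mul_eq_mul_div, le_div_iff₀ hκ]
      linarith
    have h8 : Df V g g ≤ 2 * Df V u u + 2 * Df V (fun x => g x - u x) (fun x => g x - u x) := by
      have h9 := Df_add hV hu (hg.sub hu)
      have h10 := Df_sub hV hu (hg.sub hu)
      have h11 : (fun x => u x + (g x - u x)) = g := by funext x; ring
      rw [h11] at h9
      have h12 := Df_nonneg V (fun x => u x - (g x - u x))
      rw [h10] at h12
      linarith
    calc Df V g g ≤ 2 * Df V u u + 2 * Df V (fun x => g x - u x) (fun x => g x - u x) := h8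
      _ ≤ 2 * (((1 / c) + 1 + (1 / c) * T1 * 4) / κ * (s + ε)) + 2 * (s + ε) := by linarith
      _ = B * (s + ε) := by rw [hB]; ring
  have key' : ∀ g : Eu n → ℝ, TT g → Df V g g ≤ B * Sf V (1 / c) g := by
    intro g hg
    refine le_of_forall_pos_le_add fun ε hε => ?_
    have := key g hg (ε / B) (by positivity)
    rw [mul_add, mul_div_cancel₀ _ (by positivity : B ≠ 0)] at this
    exact this
  refine ⟨c * (1 - 1 / B), ?_, ?_, ?_⟩
  · apply mul_pos hc
    rw [sub_pos, div_lt_one (by positivity)]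
    linarith
  · have : 0 < 1 / B := by positivity
    nlinarith
  · intro g hg
    have h1 := key' g hg
    unfold Sf at h1
    have hB0 : 0 < B := by linarith
    have h2 : B * ((1 / c) * (Ex V (fun x => g x ^ 2) - (Ex V g) ^ 2)) ≤ (B - 1) * Df V g g := by
      nlinarith
    have h3 : Ex V (fun x => g x ^ 2) - (Ex V g) ^ 2 =
        (c / B) * (B * ((1 / c) * (Ex V (fun x => g x ^ 2) - (Ex V g) ^ 2))) := by
      field_simp
    rw [h3]
    calc (c / B) * (B * ((1 / c) * (Ex V (fun x => g x ^ 2) - (Ex V g) ^ 2)))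
        ≤ (c / B) * ((B - 1) * Df V g g) := mul_le_mul_of_nonneg_left h2 (by positivity)
      _ = c * (1 - 1 / B) * Df V g g := by field_simp

theorem mainD_of (hgap : GapS n) (hU : GP V κ Λ S) {c0 : ℝ} (hc0 : 0 < c0) (h0 : HP V c0)
    {d : ℕ} (hd : 0 < d) (A : Finset (Eu n ≃ₗᵢ[ℝ] Eu n)) (hA : ∀ γ ∈ A, Sd d γ ∧ Inv γ V)
    (hspan : ⨆ γ ∈ A, Rg γ = ⊤) : HP V (10 ^ 18 * (d : ℝ) ^ 7 * S) := by
  have hS := hU.Spos
  have hK : 0 < 10 ^ 18 * (d : ℝ) ^ 7 * S := by
    have : (0 : ℝ) < d := by exact_mod_cast hd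
    positivity
  set C : Set ℝ := {c | 0 < c ∧ HP V c} with hC
  have hCb : BddBelow C := ⟨0, fun c hc => hc.1.le⟩
  have hCn : C.Nonempty := ⟨c0, hc0, h0⟩
  have hinf : HP V (sInf C) := by
    intro f hf
    by_cases hD : Df V f f = 0
    · have := h0 f hf
      rw [hD] at this ⊢
      simpa using this
    · have hD0 : 0 < Df V f f := lt_of_le_of_ne (Df_nonneg V f) (Ne.symm hD)
      rw [← div_le_iff₀ hD0]
      refine le_csInf hCn fun c hc => ?_
      rw [div_le_iff₀ hD0]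
      exact hc.2 f hf
  by_cases hle : sInf C ≤ 10 ^ 18 * (d : ℝ) ^ 7 * S
  · intro f hf
    exact (hinf f hf).trans (mul_le_mul_of_nonneg_right hle (Df_nonneg V f))
  · exfalso
    push Not at hle
    obtain ⟨c'', h1, h2, h3⟩ := md_imp hgap hU (hK.trans hle) hinf A hA hspan hle.le
    have := csInf_le hCb (show c'' ∈ C from ⟨h1, h3⟩)
    linarith

end Pool.Agent.Lib.MP_6d896a_gt.UC.UR.UD
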