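import Mathlib
import Pool.Agent.Lib.MP_6d896a_gt.UD.Defs
import Pool.Agent.Lib.MP_6d896a_gt.UR.RotR

/-!
Project UD, piece D13: general isometries of finite order, reduction to coordinates.
-/

set_option autoImplicit false
set_option linter.all false

namespace Pool.Agent.Lib.MP_6d896a_gt.UC.UR.UD

open MeasureTheory Filter Topology Set ProbabilityTheory
open scoped ENNReal NNReal ContDiff

variable {n : ℕ} {V f g u : Eu n → ℝ} {κ Λ S : ℝ} {J : Finset (Fin n)}
  {Γ : Eu n ≃ₗᵢ[ℝ] Eu n} {q : ℕ}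

private lemma mem_Rg (γ : Eu n ≃ₗᵢ[ℝ] Eu n) (y : Eu n) : γ y - y ∈ Rg γ :=
  ⟨y, by simp⟩

lemma Rg_orth (γ : Eu n ≃ₗᵢ[ℝ] Eu n) {x : Eu n} (hx : x ∈ (Rg γ)ᗮ) : γ x = x := by
  have h1 : inner ℝ (γ x - x) x = (0 : ℝ) :=
    (Submodule.mem_orthogonal _ _).1 hx _ (mem_Rg γ x)
  have h2 : ‖γ x - x‖ ^ 2 = 0 := by
    rw [@norm_sub_sq_real, γ.norm_map]
    rw [inner_sub_left, real_inner_self_eq_norm_sq] at h1
    linarith
  have h3 : ‖γ x - x‖ = 0 := by
    simpa using h2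
  exact sub_eq_zero.1 (norm_eq_zero.1 h3)

lemma fix_orth (γ : Eu n ≃ₗᵢ[ℝ] Eu n) {x : Eu n} (hx : γ x = x) : x ∈ (Rg γ)ᗮ := by
  rw [Submodule.mem_orthogonal]
  rintro _ ⟨y, rfl⟩
  have h1 : inner ℝ (γ y) x = (inner ℝ y x : ℝ) := by
    conv_lhs => rw [← hx]
    exact γ.inner_map_map y x
  simp only [LinearMap.sub_apply, LinearMap.id_apply, inner_sub_left]
  have h2 : (γ.toLinearEquiv.toLinearMap) y = γ y := rfl
  rw [h2, h1, sub_self]

private lemma rd_basis (K : Submodule ℝ (Eu n)) :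
    ∃ (b : OrthonormalBasis (Fin n) ℝ (Eu n)) (J : Finset (Fin n)),
      (∀ j ∈ J, b j ∈ K) ∧ (∀ j, j ∉ J → b j ∈ Kᗮ) ∧ J.card = Module.finrank ℝ K := by
  classical
  set r := Module.finrank ℝ K with hr
  have hrn : r ≤ n := by
    have := Submodule.finrank_le K
    rwa [finrank_euclideanSpace_fin] at this
  let bK := stdOrthonormalBasis ℝ K
  let v : Fin n → Eu n := fun i => if h : i.1 < r then (bK ⟨i.1, h⟩ : Eu n) else 0
  let s : Set (Fin n) := {i | i.1 < r}
  have hv : Orthonormal ℝ (s.restrict v) := by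
    have h1 : Orthonormal ℝ (fun i : Fin r => (bK i : Eu n)) := by
      have := bK.orthonormal.comp_linearIsometry K.subtypeₗᵢ
      exact this
    have h2 := h1.comp (fun i : s => (⟨i.1.1, i.2⟩ : Fin r)) (by
      intro i j hij
      have : i.1.1 = j.1.1 := by simpa using hij
      exact Subtype.ext (Fin.ext this))
    convert h2 using 1
    funext i
    show v i.1 = _
    have hi : i.1.1 < r := i.2
    simp only [v, dif_pos hi]
    rfl
  obtain ⟨b, hb⟩ := hv.exists_orthonormalBasis_extension_of_card_eq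
    (by simp : Module.finrank ℝ (Eu n) = Fintype.card (Fin n))
  refine ⟨b, Finset.univ.filter (fun i => i.1 < r), ?_, ?_, ?_⟩
  · intro j hj
    have hj' : j.1 < r := (Finset.mem_filter.1 hj).2
    rw [hb j hj']
    simp only [v, dif_pos hj']
    exact (bK _).2
  · intro j hj
    have hj' : ¬ j.1 < r := fun h => hj (Finset.mem_filter.2 ⟨Finset.mem_univ _, h⟩)
    rw [Submodule.mem_orthogonal]
    intro x hx
    have hx' : x = ∑ i, (bK.repr ⟨x, hx⟩ i) • (bK i : Eu n) := by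
      have := bK.sum_repr ⟨x, hx⟩
      have h2 := congrArg (Subtype.val) this
      simp only [Submodule.coe_sum, Submodule.coe_smul] at h2
      exact h2.symm
    rw [hx', sum_inner]
    refine Finset.sum_eq_zero fun i _ => ?_
    rw [inner_smul_left]
    have hi : (⟨i.1, lt_of_lt_of_le i.2 hrn⟩ : Fin n).1 < r := i.2
    have h3 : b ⟨i.1, lt_of_lt_of_le i.2 hrn⟩ = (bK i : Eu n) := by
      rw [hb _ hi]
      simp only [v, dif_pos hi]
    rw [← h3, b.orthonormal.2, mul_zero]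
    intro h
    rw [← h] at hj'
    exact hj' hi
  · have h1 : (Finset.univ.filter (fun i : Fin n => i.1 < r)) =
        (Finset.univ : Finset (Fin r)).map (Fin.castLEEmb hrn) := by
      ext i
      simp only [Finset.mem_filter, Finset.mem_univ, true_and, Finset.mem_map, Fin.castLEEmb_apply]
      constructor
      · intro h
        exact ⟨⟨i.1, h⟩, Fin.ext rfl⟩
      · rintro ⟨a, rfl⟩
        exact a.2
    rw [h1, Finset.card_map, Finset.card_univ, Fintype.card_fin]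

private lemma rd_iter (O γ : Eu n ≃ₗᵢ[ℝ] Eu n) (k : ℕ) (x : Eu n) :
    (⇑(O.trans (γ.trans O.symm)))^[k] x = O.symm ((⇑γ)^[k] (O x)) := by
  induction k with
  | zero => simp
  | succ k ih =>
    rw [Function.iterate_succ_apply', Function.iterate_succ_apply', ih]
    simp

private lemma rd_fix (γ : Eu n ≃ₗᵢ[ℝ] Eu n) {q : ℕ} (hper : ∀ x, (⇑γ)^[q] x = x) (z : Eu n) :
    γ (∑ k ∈ Finset.range q, (⇑γ)^[k] z) = ∑ k ∈ Finset.range q, (⇑γ)^[k] z := by
  rw [map_sum]
  have h1 := Finset.sum_range_succ (fun k => (⇑γ)^[k] z) q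
  have h2 := Finset.sum_range_succ' (fun k => (⇑γ)^[k] z) q
  have h3 : ∀ k, (⇑γ)^[k + 1] z = γ ((⇑γ)^[k] z) := fun k => Function.iterate_succ_apply' _ _ _
  rw [h1] at h2
  simp only [hper z, Function.iterate_zero, id] at h2
  have h4 := add_right_cancel h2
  rw [h4]
  exact Finset.sum_congr rfl fun k _ => (h3 k).symm

theorem gapS_of {c : ℝ} (hgap : ∀ (W : Eu n → ℝ) (J : Finset (Fin n)) (Γ : Eu n ≃ₗᵢ[ℝ] Eu n)
      (q : ℕ), GP W κ Λ S → Sy J Γ q → Inv Γ W → J.Nonempty → HP W c →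
      10 ^ 18 * (J.card : ℝ) ^ 7 * S ≤ c → ∃ c', 0 < c' ∧ c' < c ∧ ∀ f : Eu n → ℝ, TT f →
        Bal Γ q f → Ex W (fun x => f x ^ 2) ≤ c' * Df W f f)
    (hU : GP V κ Λ S) {d : ℕ} {γ : Eu n ≃ₗᵢ[ℝ] Eu n} (hd : Module.finrank ℝ (Rg γ) ≤ d)
    (hq : 0 < q) (hper : ∀ x, (⇑γ)^[q] x = x) (hVi : Inv γ V)
    (hc : 0 < c) (hP : HP V c) (hcS : 10 ^ 18 * (d : ℝ) ^ 7 * S ≤ c) :
    ∃ c', 0 < c' ∧ c' < c ∧ ∀ f : Eu n → ℝ, TT f → Bal γ q f →
      Ex V (fun x => f x ^ 2) ≤ c' * Df V f f := by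
  classical
  by_cases hK : Rg γ = ⊥
  · refine ⟨c / 2, by linarith, by linarith, fun f hf hb => ?_⟩
    have h1 : ∀ x, γ x = x := by
      intro x
      have := mem_Rg γ x
      rw [hK, Submodule.mem_bot] at this
      exact sub_eq_zero.1 this
    have h2 : ∀ (k : ℕ) x, (⇑γ)^[k] x = x := by
      intro k x
      induction k with
      | zero => rfl
      | succ k ih => rw [Function.iterate_succ_apply', ih, h1]
    have h3 : f = fun _ => 0 := by
      funext x
      have h4 := hb x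
      simp only [h2, Finset.sum_const, Finset.card_range, nsmul_eq_mul] at h4
      have hq' : (q : ℝ) ≠ 0 := by exact_mod_cast hq.ne'
      exact (mul_eq_zero.1 h4).resolve_left hq'
    subst h3
    have e1 : Ex V (fun _ => (0 : ℝ) ^ 2) = 0 := by simp [Ex]
    have e2 : Df V (fun _ => (0 : ℝ)) (fun _ => 0) = 0 := by
      have hpd : ∀ i, pd i (fun _ : Eu n => (0 : ℝ)) = fun _ => 0 := by
        intro i; funext x; simp [pd]
      simp [Df, hpd, Ex]
    rw [e1, e2, mul_zero]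
  obtain ⟨b, J, hJ1, hJ2, hJc⟩ := rd_basis (Rg γ)
  set O : Eu n ≃ₗᵢ[ℝ] Eu n := b.repr.symm with hO
  set Γ : Eu n ≃ₗᵢ[ℝ] Eu n := O.trans (γ.trans O.symm) with hΓ
  have hcoord : ∀ (y : Eu n) (j : Fin n), (O.symm y) j = inner ℝ (b j) y := by
    intro y j
    have : O.symm y = b.repr y := by rw [hO]; rfl
    rw [this, b.repr_apply_apply]
  have hΓx : ∀ x, Γ x = O.symm (γ (O x)) := fun x => rfl
  have hit : ∀ k x, (⇑Γ)^[k] x = O.symm ((⇑γ)^[k] (O x)) := fun k x => rd_iter O γ k x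
  have hSy : Sy J Γ q := by
    refine ⟨hq, ?_, ?_, ?_⟩
    · intro x
      rw [hit, hper]
      exact O.symm_apply_apply x
    · intro x j hj
      rw [hΓx, hcoord]
      have h1 : γ (b j) = b j := Rg_orth γ (hJ2 j hj)
      have h2 : (inner ℝ (b j) (γ (O x)) : ℝ) = inner ℝ (b j) (O x) := by
        conv_lhs => rw [← h1]
        exact γ.inner_map_map _ _
      rw [h2, ← hcoord, O.symm_apply_apply]
    · intro x j hj
      simp only [hit, hcoord]
      rw [← inner_sum]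
      exact (Submodule.mem_orthogonal _ _).1 (fix_orth γ (rd_fix γ hper (O x))) _ (hJ1 j hj)
  have hWi : Inv Γ (fun x => V (O x)) := by
    intro x
    show V (O (Γ x)) = V (O x)
    rw [hΓx, O.apply_symm_apply]
    exact hVi _
  have hJne : J.Nonempty := by
    rw [← Finset.card_pos, hJc]
    exact Nat.pos_of_ne_zero fun h => hK (Submodule.finrank_eq_zero.1 h)
  have hS : 0 ≤ S := hU.Spos.le
  have hJd : (J.card : ℝ) ≤ d := by
    rw [hJc]; exact_mod_cast hd
  have hcJ : 10 ^ 18 * (J.card : ℝ) ^ 7 * S ≤ c := by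
    refine le_trans ?_ hcS
    gcongr
  have hV : Continuous V := hU.cd.continuous
  obtain ⟨c', h1, h2, h3⟩ := hgap _ J Γ q (GP_iso O hU) hSy hWi hJne (HP_iso O hV hP) hcJ
  refine ⟨c', h1, h2, fun f hf hb => ?_⟩
  have h4 := h3 (fun x => f (O x)) (TT_iso O hf) (by
    intro x
    have : ∀ k, f (O ((⇑Γ)^[k] x)) = f ((⇑γ)^[k] (O x)) := by
      intro k
      rw [hit, O.apply_symm_apply]
    simp only [this]
    exact hb (O x))
  rw [Df_iso O hV hf] at h4
  have h5 := Ex_iso O V (fun x => f x ^ 2)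
  rw [← h5]
  exact h4

end Pool.Agent.Lib.MP_6d896a_gt.UC.UR.UD
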